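import Mathlib
import Pool.Agent.H705R2.Weyl

set_option autoImplicit false

open MeasureTheory Filter Topology Set

namespace Pool.Agent.W765.Hb

open Pool.Agent.H705R2

variable {X : Type*} [NormedAddCommGroup X]

/-- A dense one-parameter subgroup meets an open set in pieces of all translates of a fixed
interval. -/
lemma syndetic [CompactSpace X] {ℓ : ℝ →+ X} (hc : Continuous ℓ) (hd : DenseRange ℓ) {J : Set X}
    (hJ : IsOpen J) (hJn : J.Nonempty) :
    ∃ L > 0, ∃ η > 0, ∀ x : X, ∃ s : ℝ, |s| < L ∧ ∀ t : ℝ, |t| < η → x + ℓ (s + t) ∈ J := by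
  obtain ⟨x0, hx0⟩ := hJn
  obtain ⟨r, hr, hball⟩ := Metric.isOpen_iff.1 hJ x0 hx0
  have h0 : ∀ᶠ t in 𝓝 (0 : ℝ), ‖ℓ t‖ < r / 2 := by
    have : Tendsto (fun t => ‖ℓ t‖) (𝓝 (0 : ℝ)) (𝓝 0) := by
      have := (hc.norm).tendsto (0 : ℝ)
      simpa using this
    exact this.eventually_lt_const (by positivity)
  obtain ⟨η, hη, hηb⟩ := Metric.eventually_nhds_iff.1 h0
  have hcov : (univ : Set X) ⊆ ⋃ s : ℝ, {x : X | x + ℓ s ∈ Metric.ball x0 (r / 2)} := by
    intro x _
    have ho : IsOpen ((fun y => x + y) ⁻¹' Metric.ball x0 (r / 2)) :=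
      Metric.isOpen_ball.preimage (by fun_prop)
    obtain ⟨s, hs⟩ := hd.exists_mem_open ho ⟨x0 - x, by simp [hr]⟩
    exact mem_iUnion.2 ⟨s, hs⟩
  obtain ⟨S, hS⟩ := isCompact_univ.elim_finite_subcover
    (fun s : ℝ => {x : X | x + ℓ s ∈ Metric.ball x0 (r / 2)})
    (fun s => Metric.isOpen_ball.preimage (by fun_prop)) hcov
  obtain ⟨L, hL⟩ : ∃ L : ℝ, ∀ s ∈ S, |s| < L := by
    refine ⟨∑ s ∈ S, |s| + 1, fun s hs => ?_⟩
    have := Finset.single_le_sum (f := fun s => |s|) (fun i _ => abs_nonneg i) hs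
    exact lt_of_le_of_lt this (lt_add_one _)
  refine ⟨max L 1, by positivity, η, hη, fun x => ?_⟩
  obtain ⟨s, hs, hx⟩ := mem_iUnion₂.1 (hS (mem_univ x))
  refine ⟨s, (hL s hs).trans_le (le_max_left _ _), fun t ht => hball ?_⟩
  have h1 : dist (x + ℓ s) x0 < r / 2 := hx
  have h2 : ‖ℓ t‖ < r / 2 := hηb (by simpa using ht)
  rw [Metric.mem_ball]
  calc dist (x + ℓ (s + t)) x0 ≤ dist (x + ℓ (s + t)) (x + ℓ s) + dist (x + ℓ s) x0 :=
        dist_triangle _ _ _
    _ < r / 2 + r / 2 := by
        refine add_lt_add ?_ h1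
        rw [dist_eq_norm]
        have : x + ℓ (s + t) - (x + ℓ s) = ℓ t := by rw [map_add]; abel
        rw [this]; exact h2
    _ = r := by ring

/-- Almost all real numbers have an expanded image in a given open set. -/
lemma volume_avoid [CompactSpace X] {ℓ : ℝ →+ X} (hc : Continuous ℓ) (hd : DenseRange ℓ) {lam : ℝ}
    (hlam : 1 < lam) {J : Set X} (hJ : IsOpen J) (hJn : J.Nonempty) :
    volume {y : ℝ | ∀ j : ℕ, ℓ (lam ^ j * y) ∉ J} = 0 := by
  obtain ⟨L, hL, η, hη, H⟩ := syndetic hc hd hJ hJn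
  set E : Set ℝ := {y : ℝ | ∀ j : ℕ, ℓ (lam ^ j * y) ∉ J} with hE
  have hlam0 : 0 < lam := by linarith
  have hfalse : ∀ᵐ x ∂(volume.restrict E), False := by
    filter_upwards [Besicovitch.ae_tendsto_measure_inter_div (volume : Measure ℝ) E] with x hx
    have hrad : Tendsto (fun j : ℕ => (L + η) * (lam⁻¹) ^ j) atTop (𝓝[>] 0) := by
      refine tendsto_nhdsWithin_iff.2 ⟨?_, Eventually.of_forall fun j => ?_⟩
      · have := (tendsto_pow_atTop_nhds_zero_of_lt_one (r := lam⁻¹) (by positivity)
          (inv_lt_one_of_one_lt₀ hlam)).const_mul (L + η)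
        simpa using this
      · change 0 < (L + η) * (lam⁻¹) ^ j
        positivity
    have h1 := hx.comp hrad
    have h2 : ∀ j : ℕ, volume (E ∩ Metric.closedBall x ((L + η) * (lam⁻¹) ^ j)) /
        volume (Metric.closedBall x ((L + η) * (lam⁻¹) ^ j)) ≤ ENNReal.ofReal (L / (L + η)) := by
      intro j
      set ρ : ℝ := (lam⁻¹) ^ j with hρ
      have hρ0 : 0 < ρ := by positivity
      obtain ⟨s, hs, hst⟩ := H (ℓ (lam ^ j * x))
      have hsub : Metric.ball (x + ρ * s) (ρ * η) ⊆ Metric.closedBall x ((L + η) * ρ) \ E := by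
        intro y hy
        rw [Metric.mem_ball, Real.dist_eq] at hy
        constructor
        · rw [Metric.mem_closedBall, Real.dist_eq]
          have e1 : |y - x| ≤ |y - (x + ρ * s)| + |ρ * s| := by
            have := abs_add_le (y - (x + ρ * s)) (ρ * s)
            have e : y - (x + ρ * s) + ρ * s = y - x := by ring
            rwa [e] at this
          rw [abs_mul, abs_of_pos hρ0] at e1
          nlinarith
        · intro hyE
          have e2 : |(y - (x + ρ * s)) / ρ| < η := by
            rw [abs_div, abs_of_pos hρ0, div_lt_iff₀ hρ0]; linarith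
          have e3 := hst _ e2
          apply hyE j
          have e4 : lam ^ j * ρ = 1 := by
            rw [hρ, ← mul_pow, mul_inv_cancel₀ hlam0.ne', one_pow]
          have e5 : lam ^ j * y = lam ^ j * x + (s + (y - (x + ρ * s)) / ρ) := by
            field_simp
            have : lam ^ j * y * ρ = (lam ^ j * ρ) * y := by ring
            rw [this, e4]
            have : lam ^ j * x * ρ = (lam ^ j * ρ) * x := by ring
            rw [this, e4]
            ring
          rw [e5, map_add]
          exact e3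
      have hvol1 : volume (Metric.closedBall x ((L + η) * ρ)) = ENNReal.ofReal (2 * ((L + η) * ρ)) :=
        Real.volume_closedBall _ _
      have hvol2 : volume (Metric.ball (x + ρ * s) (ρ * η)) = ENNReal.ofReal (2 * (ρ * η)) :=
        Real.volume_ball _ _
      have hle : volume (E ∩ Metric.closedBall x ((L + η) * ρ)) ≤ ENNReal.ofReal (2 * (L * ρ)) := by
        have e6 : E ∩ Metric.closedBall x ((L + η) * ρ) ⊆
            Metric.closedBall x ((L + η) * ρ) \ Metric.ball (x + ρ * s) (ρ * η) := by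
          rintro y ⟨hy1, hy2⟩
          exact ⟨hy2, fun hy3 => (hsub hy3).2 hy1⟩
        refine (measure_mono e6).trans ?_
        rw [measure_sdiff (hsub.trans sdiff_subset) measurableSet_ball.nullMeasurableSet
          (by rw [hvol2]; exact ENNReal.ofReal_ne_top), hvol1, hvol2,
          ← ENNReal.ofReal_sub _ (by positivity)]
        apply ENNReal.ofReal_le_ofReal
        nlinarith
      rw [hvol1]
      refine (ENNReal.div_le_div_right hle _).trans ?_
      rw [← ENNReal.ofReal_div_of_pos (by positivity)]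
      apply ENNReal.ofReal_le_ofReal
      rw [div_le_div_iff₀ (by positivity) (by positivity)]
      nlinarith
    have h3 := le_of_tendsto' h1 h2
    have h4 : L / (L + η) < 1 := by rw [div_lt_one (by positivity)]; linarith
    have h5 : ENNReal.ofReal (L / (L + η)) < 1 := by
      rw [ENNReal.ofReal_lt_one]; exact h4
    exact absurd h3 (not_le.2 h5)
  have h6 := ae_iff.1 hfalse
  simpa using h6

/-- the exceptional set in the logarithmic coordinate -/
def Nset (ℓ : ℝ →+ X) (lam R : ℝ) (J : Set X) : Set ℝ :=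
  {s | ∀ j : ℤ, ℓ (R * lam ^ (s + (j : ℝ))) ∉ J}

lemma isClosed_Nset {ℓ : ℝ →+ X} (hc : Continuous ℓ) {lam : ℝ} (hlam : 1 < lam) (R : ℝ)
    {J : Set X} (hJ : IsOpen J) : IsClosed (Nset ℓ lam R J) := by
  unfold Nset
  simp only [ofPred_forall]
  refine isClosed_iInter fun j => hJ.isClosed_compl.preimage ?_
  have hb0 : lam ≠ 0 := by positivity
  refine hc.comp ?_
  refine continuous_const.mul ?_
  exact (Real.continuous_const_rpow hb0).comp (by fun_prop)

lemma volume_Nset [CompactSpace X] {ℓ : ℝ →+ X} (hc : Continuous ℓ) (hd : DenseRange ℓ) {lam : ℝ}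
    (hlam : 1 < lam) {R : ℝ} (hR : R ≠ 0) {J : Set X} (hJ : IsOpen J)
    (hJn : J.Nonempty) : volume (Nset ℓ lam R J) = 0 := by
  have hb0 : 0 < lam := by linarith
  set A : Set ℝ := {y : ℝ | ∀ j : ℕ, ℓ (lam ^ j * y) ∉ J} with hA
  have hA0 : volume A = 0 := volume_avoid hc hd hlam hJ hJn
  have hsub : Nset ℓ lam R J ⊆ (fun y : ℝ => Real.logb lam (y / R)) '' (A ∩ {y | 0 < y / R}) := by
    intro s hs
    refine ⟨R * lam ^ s, ⟨?_, ?_⟩, ?_⟩
    · intro j
      have := hs j
      have h2 : lam ^ j * (R * lam ^ s) = R * lam ^ (s + ((j : ℤ) : ℝ)) := by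
        rw [Real.rpow_add hb0]
        push_cast
        rw [Real.rpow_natCast]; ring
      rw [h2]; exact this
    · simp only [mem_ofPred_eq]
      rw [mul_div_assoc, mul_comm, div_mul_cancel₀ _ hR]
      positivity
    · simp only
      rw [mul_div_assoc, mul_comm, div_mul_cancel₀ _ hR]
      exact Real.logb_rpow hb0 hlam.ne'
  refine measure_mono_null hsub ?_
  refine MeasureTheory.addHaar_image_eq_zero_of_differentiableOn_of_addHaar_eq_zero volume ?_
    (measure_mono_null inter_subset_left hA0)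
  intro y hy
  have hy' : 0 < y / R := hy.2
  refine DifferentiableAt.differentiableWithinAt ?_
  unfold Real.logb
  refine DifferentiableAt.div_const ?_ _
  refine DifferentiableAt.log ?_ hy'.ne'
  exact differentiableAt_id.div_const _

/-- Lemma A. -/
theorem lemmaA [CompactSpace X] {ℓ : ℝ →+ X} (hc : Continuous ℓ) (hd : DenseRange ℓ) {lam : ℝ}
    (hlam : 1 < lam) {b : ℕ} (hb : 2 ≤ b) (h : addOrderOf ((Real.logb lam b : ℝ) : Circ) = 0)
    {R : ℝ} (hR : R ≠ 0) {J : Set X} (hJ : IsOpen J) (hJn : J.Nonempty) :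
    DensityZero {m : ℕ | ∀ j : ℤ, ℓ (R * (b : ℝ) ^ m * lam ^ j) ∉ J} := by
  have hb0 : 0 < lam := by linarith
  have hc0 : (0 : ℝ) < b := by positivity
  set π : ℝ → Circ := fun x => (x : Circ) with hπ
  set N := Nset ℓ lam R J with hN
  have hNc : IsClosed N := isClosed_Nset hc hlam R hJ
  have hper : ∀ s : ℝ, ∀ n : ℤ, s ∈ N → s + n ∈ N := by
    intro s n hs j
    have := hs (n + j)
    push_cast at this
    rwa [← add_assoc] at this
  have hpre : π ⁻¹' (π '' N) = N := by
    apply Subset.antisymm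
    · rintro s ⟨s', hs', hss⟩
      simp only [hπ] at hss
      have h0 : ((s - s' : ℝ) : Circ) = 0 := by
        rw [AddCircle.coe_sub, hss, sub_self]
      rw [AddCircle.coe_eq_zero_iff] at h0
      obtain ⟨n, hn⟩ := h0
      simp only [zsmul_eq_mul, mul_one] at hn
      have : s = s' + n := by linarith
      rw [this]; exact hper s' n hs'
    · exact subset_preimage_image π N
  have hclosed : IsClosed (π '' N) := by
    have hq : IsQuotientMap π :=
      QuotientAddGroup.isQuotientMap_mk (N := AddSubgroup.zmultiples (1 : ℝ))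
    rw [← hq.isClosed_preimage, hpre]; exact hNc
  have hvol : volume (π '' N) = 0 := by
    have hp := UnitAddCircle.measurePreserving_mk (0 : ℝ)
    have := hp.measure_preimage hclosed.measurableSet.nullMeasurableSet
    rw [← this]
    refine measure_mono_null (t := N) ?_ ?_ |>.trans ?_ <;> try rfl
    · intro s hs
      have : s ∈ π ⁻¹' (π '' N) := hs
      rwa [hpre] at this
    · exact le_antisymm ((Measure.restrict_apply_le _ _).trans (volume_Nset hc hd hlam hR hJ hJn).le) bot_le
  have hdz := density_zero_of_closed_null h 0 hclosed hvol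
  refine hdz.mono ?_
  intro m hm
  simp only [mem_ofPred_eq] at hm ⊢
  rw [zero_add, ← AddCircle.coe_nsmul, nsmul_eq_mul]
  refine ⟨(m : ℝ) * Real.logb lam b, ?_, rfl⟩
  intro j
  have h1 := hm j
  have h2 : R * lam ^ ((m : ℝ) * Real.logb lam b + (j : ℝ)) = R * (b : ℝ) ^ m * lam ^ j := by
    rw [Real.rpow_add hb0, mul_comm (m : ℝ), Real.rpow_mul hb0.le, Real.rpow_logb hb0 hlam.ne' hc0,
      Real.rpow_natCast, Real.rpow_intCast]
    ring
  rw [h2]; exact h1

end Pool.Agent.W765.Hb
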