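import Mathlib
import Pool.Agent.W765.Hb1

set_option autoImplicit false

open MeasureTheory Filter Topology Set

namespace Pool.Agent.W765.Hb

open Pool.Agent.H705R2

variable {X : Type*} [NormedAddCommGroup X]

/-- an automorphism with one dimensional expanding and contracting leaves -/
structure Hyperb (A : X ≃+ X) (lam : ℝ) (l₁ l₂ : ℝ →+ X) : Prop where
  one_lt : 1 < lam
  contA : Continuous A
  contB : Continuous A.symm
  cont₁ : Continuous l₁
  cont₂ : Continuous l₂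
  dense₁ : DenseRange l₁
  dense₂ : DenseRange l₂
  eq₁ : ∀ y, A (l₁ y) = l₁ (lam * y)
  eq₂ : ∀ y, A (l₂ (lam * y)) = l₂ y
  loc : ∀ η > 0, ∃ ε > 0, ∀ x : X, ‖x‖ < ε → ∃ y w : ℝ, |y| < η ∧ |w| < η ∧ x = l₁ y + l₂ w

/-- `0` is an accumulation point -/
def Acc0 (S : Set X) : Prop := ∀ ε > 0, ∃ x ∈ S, x ≠ 0 ∧ ‖x‖ < ε

lemma Hyperb.symm {A : X ≃+ X} {lam : ℝ} {l₁ l₂ : ℝ →+ X} (H : Hyperb A lam l₁ l₂) :
    Hyperb A.symm lam l₂ l₁ where
  one_lt := H.one_lt
  contA := H.contB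
  contB := H.contA
  cont₁ := H.cont₂
  cont₂ := H.cont₁
  dense₁ := H.dense₂
  dense₂ := H.dense₁
  eq₁ := fun y => by rw [← H.eq₂ y, AddEquiv.symm_apply_apply]
  eq₂ := fun y => by rw [← H.eq₁ y, AddEquiv.symm_apply_apply]
  loc := fun η hη => by
    obtain ⟨ε, hε, h⟩ := H.loc η hη
    refine ⟨ε, hε, fun x hx => ?_⟩
    obtain ⟨y, w, hy, hw, he⟩ := h x hx
    exact ⟨w, y, hw, hy, by rw [he, add_comm]⟩

/-- powers -/
def pw (A : X ≃+ X) : ℕ → (X ≃+ X)
  | 0 => AddEquiv.refl X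
  | (m + 1) => (pw A m).trans A

lemma pw_apply (A : X ≃+ X) (m : ℕ) (x : X) : pw A m x = A^[m] x := by
  induction m with
  | zero => rfl
  | succ m ih => rw [Function.iterate_succ_apply', ← ih]; rfl

lemma pw_symm_apply (A : X ≃+ X) (m : ℕ) (x : X) : (pw A m).symm x = A.symm^[m] x := by
  rw [AddEquiv.symm_apply_eq, pw_apply]
  induction m with
  | zero => rfl
  | succ m ih =>
    rw [Function.iterate_succ_apply, Function.iterate_succ_apply', AddEquiv.apply_symm_apply]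
    exact ih

lemma iter₁ {A : X ≃+ X} {lam : ℝ} {l₁ l₂ : ℝ →+ X} (H : Hyperb A lam l₁ l₂) (m : ℕ) (y : ℝ) :
    A^[m] (l₁ y) = l₁ (lam ^ m * y) := by
  induction m with
  | zero => simp
  | succ m ih => rw [Function.iterate_succ_apply', ih, H.eq₁, ← mul_assoc, ← pow_succ']

lemma iter₂ {A : X ≃+ X} {lam : ℝ} {l₁ l₂ : ℝ →+ X} (H : Hyperb A lam l₁ l₂) (m : ℕ) (y : ℝ) :
    A^[m] (l₂ (lam ^ m * y)) = l₂ y := by
  induction m generalizing y with
  | zero => simp
  | succ m ih =>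
    rw [Function.iterate_succ_apply', pow_succ, mul_assoc, ih, H.eq₂]

lemma Hyperb.pow {A : X ≃+ X} {lam : ℝ} {l₁ l₂ : ℝ →+ X} (H : Hyperb A lam l₁ l₂) {m : ℕ}
    (hm : 0 < m) : Hyperb (pw A m) (lam ^ m) l₁ l₂ where
  one_lt := one_lt_pow₀ H.one_lt hm.ne'
  contA := by
    have : (pw A m : X → X) = A^[m] := funext (pw_apply A m)
    rw [this]; exact H.contA.iterate m
  contB := by
    have : ((pw A m).symm : X → X) = A.symm^[m] := funext (pw_symm_apply A m)
    rw [this]; exact H.contB.iterate m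
  cont₁ := H.cont₁
  cont₂ := H.cont₂
  dense₁ := H.dense₁
  dense₂ := H.dense₂
  eq₁ := fun y => by rw [pw_apply, iter₁ H]
  eq₂ := fun y => by rw [pw_apply, iter₂ H]
  loc := H.loc

lemma iter_mem {A : X ≃+ X} {F : Set X} (h : ∀ x ∈ F, A x ∈ F) (m : ℕ) {x : X} (hx : x ∈ F) :
    A^[m] x ∈ F := by
  induction m with
  | zero => simpa using hx
  | succ m ih => rw [Function.iterate_succ_apply']; exact h _ ih

lemma lemmaB_one {A : X ≃+ X} {lam : ℝ} {l₁ l₂ : ℝ →+ X} (H : Hyperb A lam l₁ l₂) {F : Set X}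
    (hF : IsClosed F) (hinv : ∀ x ∈ F, A x ∈ F)
    (hacc : ∀ η > 0, ∃ y w : ℝ, y ≠ 0 ∧ |w| ≤ |y| ∧ |y| < η ∧ l₁ y + l₂ w ∈ F) :
    ∃ R : ℝ, R ≠ 0 ∧ ∀ j : ℤ, l₁ (R * lam ^ j) ∈ F := by
  have hb1 := H.one_lt
  have hb0 : 0 < lam := by linarith
  have key : ∀ n : ℕ, ∃ y w : ℝ, ∃ k : ℕ, l₁ y + l₂ w ∈ F ∧ n ≤ k ∧
      1 / lam ≤ |y * lam ^ k| ∧ |y * lam ^ k| ≤ 1 ∧ |w| ≤ (lam⁻¹) ^ n := by
    intro n
    obtain ⟨y, w, hy0, hwy, hyn, hmem⟩ := hacc (1 / lam ^ (n + 1)) (by positivity)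
    have hr0 : 0 < |y| := abs_pos.2 hy0
    have hle : 1 ≤ 1 / |y| := by
      rw [le_div_iff₀ hr0, one_mul]
      have h2 : (1 : ℝ) ≤ lam ^ (n + 1) := one_le_pow₀ hb1.le
      have h3 : 1 / lam ^ (n + 1) ≤ 1 := by
        rw [div_le_one (by positivity)]; exact h2
      linarith
    obtain ⟨k, hk1, hk2⟩ := exists_nat_pow_near hle hb1
    refine ⟨y, w, k, hmem, ?_, ?_, ?_, ?_⟩
    · by_contra hkn
      push Not at hkn
      have h1 : lam ^ (k + 1) ≤ lam ^ (n + 1) := pow_le_pow_right₀ hb1.le (by omega)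
      rw [lt_div_iff₀ (by positivity)] at hyn
      rw [div_lt_iff₀ hr0] at hk2
      nlinarith
    · rw [abs_mul, abs_of_pos (by positivity : (0 : ℝ) < lam ^ k)]
      rw [div_lt_iff₀ hr0] at hk2
      rw [div_le_iff₀ hb0]
      rw [pow_succ] at hk2
      nlinarith
    · rw [abs_mul, abs_of_pos (by positivity : (0 : ℝ) < lam ^ k)]
      rw [le_div_iff₀ hr0] at hk1
      linarith
    · refine hwy.trans (hyn.le.trans ?_)
      rw [one_div, ← inv_pow]
      exact pow_le_pow_of_le_one (by positivity) (inv_le_one_of_one_le₀ hb1.le) (by omega)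
  choose y w k hF' hkn hlo hhi hw using key
  set S : ℕ → ℝ := fun n => y n * lam ^ (k n) with hS
  have hScomp : ∀ n, S n ∈ Icc (-1 : ℝ) 1 := fun n => by
    have := hhi n
    rw [abs_le] at this
    exact this
  obtain ⟨R, -, φ, hφ, hlim⟩ := isCompact_Icc.tendsto_subseq hScomp
  refine ⟨R, ?_, ?_⟩
  · have h1 : Tendsto (fun n => |S (φ n)|) atTop (𝓝 |R|) := hlim.abs
    have h2 : 1 / lam ≤ |R| := ge_of_tendsto' h1 (fun n => hlo (φ n))
    intro h0
    rw [h0, abs_zero] at h2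
    have : (0 : ℝ) < 1 / lam := by positivity
    linarith
  · intro j
    have h1 : Tendsto (fun n => l₁ (S (φ n) * lam ^ j)) atTop (𝓝 (l₁ (R * lam ^ j))) :=
      (H.cont₁.tendsto _).comp (hlim.mul_const _)
    have hw0 : Tendsto (fun n => w (φ n) * (lam ^ (((k (φ n) : ℤ) + j).toNat))⁻¹) atTop (𝓝 0) := by
      have h3 : Tendsto (fun n => (lam⁻¹) ^ (φ n)) atTop (𝓝 0) :=
        (tendsto_pow_atTop_nhds_zero_of_lt_one (by positivity)
          (inv_lt_one_of_one_lt₀ hb1)).comp hφ.tendsto_atTop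
      refine squeeze_zero_norm (fun n => ?_) h3
      rw [Real.norm_eq_abs, abs_mul, abs_inv, abs_of_pos (by positivity : (0 : ℝ) < lam ^ _)]
      have h4 : (lam ^ (((k (φ n) : ℤ) + j).toNat))⁻¹ ≤ 1 :=
        inv_le_one_of_one_le₀ (one_le_pow₀ hb1.le)
      calc |w (φ n)| * (lam ^ (((k (φ n) : ℤ) + j).toNat))⁻¹ ≤ |w (φ n)| * 1 := by gcongr
        _ ≤ (lam⁻¹) ^ (φ n) := by rw [mul_one]; exact hw _
    have h2 : Tendsto (fun n => l₁ (S (φ n) * lam ^ j) +
        l₂ (w (φ n) * (lam ^ (((k (φ n) : ℤ) + j).toNat))⁻¹)) atTop (𝓝 (l₁ (R * lam ^ j))) := by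
      have h5 := h1.add ((H.cont₂.tendsto 0).comp hw0)
      simpa using h5
    refine hF.mem_of_tendsto h2 ?_
    filter_upwards [eventually_ge_atTop j.natAbs] with n hn
    have hk : j.natAbs ≤ k (φ n) := hn.trans ((hφ.id_le n).trans (hkn (φ n)))
    have hnn : 0 ≤ (k (φ n) : ℤ) + j := by omega
    set l := ((k (φ n) : ℤ) + j).toNat with hl
    have hl' : (l : ℤ) = (k (φ n) : ℤ) + j := Int.toNat_of_nonneg hnn
    have h6 : S (φ n) * lam ^ j = lam ^ l * y (φ n) := by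
      simp only [hS]
      rw [mul_assoc, ← zpow_natCast lam (k (φ n)), ← zpow_add₀ hb0.ne', ← hl', zpow_natCast]
      ring
    have h7 : l₂ (w (φ n) * (lam ^ l)⁻¹) = A^[l] (l₂ (w (φ n))) := by
      rw [← iter₂ H l (w (φ n) * (lam ^ l)⁻¹)]
      congr 2
      field_simp
    rw [h6, ← iter₁ H l, h7]
    have h8 : A^[l] (l₁ (y (φ n))) + A^[l] (l₂ (w (φ n))) = A^[l] (l₁ (y (φ n)) + l₂ (w (φ n))) := by
      simp only [← pw_apply, map_add]
    rw [h8]
    exact iter_mem hinv l (hF' _)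

/-- Lemma B: a closed invariant set accumulating at `0` contains a two sided geometric progression
in one of the two leaves. -/
theorem lemmaB {A : X ≃+ X} {lam : ℝ} {l₁ l₂ : ℝ →+ X} (H : Hyperb A lam l₁ l₂) {F : Set X}
    (hF : IsClosed F) (hinv : ∀ x ∈ F, A x ∈ F) (hinv' : ∀ x ∈ F, A.symm x ∈ F) (hacc : Acc0 F) :
    (∃ R : ℝ, R ≠ 0 ∧ ∀ j : ℤ, l₁ (R * lam ^ j) ∈ F) ∨
      (∃ R : ℝ, R ≠ 0 ∧ ∀ j : ℤ, l₂ (R * lam ^ j) ∈ F) := by
  by_cases h : ∀ η > 0, ∃ y w : ℝ, y ≠ 0 ∧ |w| ≤ |y| ∧ |y| < η ∧ l₁ y + l₂ w ∈ F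
  · left; exact lemmaB_one H hF hinv h
  right
  push Not at h
  obtain ⟨η₀, hη₀, h⟩ := h
  refine lemmaB_one H.symm hF hinv' ?_
  intro η hη
  obtain ⟨ε, hε, hloc⟩ := H.loc (min η η₀) (lt_min hη hη₀)
  obtain ⟨x, hx, hx0, hxe⟩ := hacc ε hε
  obtain ⟨y, w, hy, hw, rfl⟩ := hloc x hxe
  have hlt : |y| < |w| := by
    by_contra hcon
    push Not at hcon
    have hy0 : y ≠ 0 := by
      rintro rfl
      rw [abs_zero] at hcon
      have : w = 0 := abs_eq_zero.1 (le_antisymm hcon (abs_nonneg _))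
      apply hx0
      rw [this]; simp
    exact h y w hy0 hcon (hy.trans_le (min_le_right _ _)) hx
  refine ⟨w, y, ?_, hlt.le, hw.trans_le (min_le_left _ _), by rw [add_comm]; exact hx⟩
  rintro rfl
  rw [abs_zero] at hlt
  exact absurd hlt (not_lt.2 (abs_nonneg _))

/-- Lemma C. -/
theorem lemmaC [CompactSpace X] {A : X ≃+ X} {lam : ℝ} {l₁ l₂ : ℝ →+ X} (H : Hyperb A lam l₁ l₂)
    {b : ℕ} (hb : 2 ≤ b) (h : addOrderOf ((Real.logb lam b : ℝ) : Circ) = 0) {F : Set X}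
    (hF : IsClosed F) (hinv : ∀ x ∈ F, A x ∈ F) (hinv' : ∀ x ∈ F, A.symm x ∈ F) (hacc : Acc0 F)
    {J : Set X} (hJ : IsOpen J) (hJn : J.Nonempty) :
    DensityZero {m : ℕ | ∀ x ∈ F, b ^ m • x ∉ J} := by
  have key : ∀ l : ℝ →+ X, Continuous l → DenseRange l → (∃ R : ℝ, R ≠ 0 ∧ ∀ j : ℤ, l (R * lam ^ j) ∈ F) →
      DensityZero {m : ℕ | ∀ x ∈ F, b ^ m • x ∉ J} := by
    rintro l hl1 hl2 ⟨R, hR, hRF⟩
    refine (lemmaA hl1 hl2 H.one_lt hb h hR hJ hJn).mono ?_
    intro m hm j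
    have h1 := hm _ (hRF j)
    rw [← map_nsmul] at h1
    have h2 : (b ^ m : ℕ) • (R * lam ^ j) = R * (b : ℝ) ^ m * lam ^ j := by
      rw [nsmul_eq_mul]; push_cast; ring
    rw [h2] at h1
    exact h1
  rcases lemmaB H hF hinv hinv' hacc with h1 | h1
  · exact key l₁ H.cont₁ H.dense₁ h1
  · exact key l₂ H.cont₂ H.dense₂ h1

/-- an infinite set has small nonzero differences -/
lemma acc0_of_infinite [CompactSpace X] {S : Set X} (hS : S.Infinite) :
    Acc0 {u | ∃ y ∈ S, ∃ y' ∈ S, u = y' - y} := by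
  intro ε hε
  by_contra hcon
  push Not at hcon
  apply hS
  have hsep : ∀ y ∈ S, ∀ y' ∈ S, y ≠ y' → ε ≤ dist y y' := by
    intro y hy y' hy' hne
    have := hcon (y - y') ⟨y', hy', y, hy, rfl⟩ (sub_ne_zero.2 hne)
    rwa [← dist_eq_norm] at this
  obtain ⟨t, ht, hcov⟩ := Metric.totallyBounded_iff.1 (isCompact_univ (X := X)).totallyBounded
    (ε / 2) (by positivity)
  have hch : ∀ y : X, ∃ c ∈ t, dist y c < ε / 2 := by
    intro y
    have := hcov (mem_univ y)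
    simp only [mem_iUnion, Metric.mem_ball, exists_prop] at this
    exact this
  choose c hct hc using hch
  refine Set.Finite.of_injOn (f := c) (t := t) (fun y _ => hct y) ?_ ht
  intro y hy y' hy' hyy
  by_contra hne
  have h1 := hsep y hy y' hy' hne
  have h2 : dist y y' < ε := by
    calc dist y y' ≤ dist y (c y) + dist (c y) y' := dist_triangle _ _ _
      _ < ε / 2 + ε / 2 := by
        have h3 := hc y
        have h4 := hc y'
        rw [← hyy, dist_comm] at h4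
        linarith
      _ = ε := by ring
  linarith

lemma ker_isolated [Nontrivial X] {l : ℝ →+ X} (hc : Continuous l) (hd : DenseRange l) :
    ∃ t0 > 0, ∀ t : ℝ, |t| ≤ t0 → l t = 0 → t = 0 := by
  by_contra hcon
  push Not at hcon
  have hdense : Dense ((l.ker : AddSubgroup ℝ) : Set ℝ) := by
    refine AddSubgroup.dense_of_not_isolated_zero _ fun ε hε => ?_
    obtain ⟨t, ht, hl, ht0⟩ := hcon (ε / 2) (by positivity)
    refine ⟨|t|, ?_, abs_pos.2 ht0, by linarith⟩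
    rw [AddMonoidHom.mem_ker]
    rcases abs_choice t with h | h
    · rw [h]; exact hl
    · rw [h, map_neg, hl, neg_zero]
  have hclosed : IsClosed ((l.ker : AddSubgroup ℝ) : Set ℝ) := by
    have : ((l.ker : AddSubgroup ℝ) : Set ℝ) = l ⁻¹' {0} := by
      ext t; simp [AddMonoidHom.mem_ker]
    rw [this]; exact isClosed_singleton.preimage hc
  have huniv : ((l.ker : AddSubgroup ℝ) : Set ℝ) = univ := by
    rw [← hclosed.closure_eq]; exact hdense.closure_eq
  have hzero : ∀ t, l t = 0 := by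
    intro t
    have : t ∈ ((l.ker : AddSubgroup ℝ) : Set ℝ) := by rw [huniv]; trivial
    exact this
  obtain ⟨x, hx⟩ := exists_ne (0 : X)
  have ho : IsOpen ({0}ᶜ : Set X) := isOpen_compl_singleton
  obtain ⟨t, ht⟩ := hd.exists_mem_open ho ⟨x, hx⟩
  exact ht (hzero t)

/-- a two sided geometric progression does not stay close to zero -/
lemma lower [Nontrivial X] {l : ℝ →+ X} (hc : Continuous l) (hd : DenseRange l) {lam : ℝ}
    (hlam : 1 < lam) : ∃ c > 0, ∀ R : ℝ, R ≠ 0 → ∃ j : ℤ, c ≤ ‖l (R * lam ^ j)‖ := by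
  obtain ⟨t0, ht0, hker⟩ := ker_isolated hc hd
  have hlam0 : 0 < lam := by linarith
  have hK : IsCompact {t : ℝ | t0 / lam ≤ |t| ∧ |t| ≤ t0} := by
    have : {t : ℝ | t0 / lam ≤ |t| ∧ |t| ≤ t0} = Icc (-t0) t0 ∩ {t : ℝ | t0 / lam ≤ |t|} := by
      ext t; simp only [mem_ofPred_eq, mem_inter_iff, mem_Icc, abs_le]; tauto
    rw [this]
    exact isCompact_Icc.inter_right (isClosed_le continuous_const continuous_abs)
  have hKne : {t : ℝ | t0 / lam ≤ |t| ∧ |t| ≤ t0}.Nonempty := by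
    refine ⟨t0, ?_, ?_⟩
    · rw [abs_of_pos ht0]; exact div_le_self ht0.le hlam.le
    · rw [abs_of_pos ht0]
  obtain ⟨t, ⟨ht1, ht2⟩, hmin⟩ := hK.exists_isMinOn hKne (f := fun t => ‖l t‖) hc.norm.continuousOn
  have htne : t ≠ 0 := by
    rintro rfl
    rw [abs_zero] at ht1
    have : 0 < t0 / lam := by positivity
    linarith
  refine ⟨‖l t‖, norm_pos_iff.2 (fun h => htne (hker t ht2 h)), fun R hR => ?_⟩
  have hRpos : 0 < |R| := abs_pos.2 hR
  obtain ⟨n, hn1, hn2⟩ := exists_mem_Ico_zpow (x := t0 / |R|) (by positivity) hlam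
  refine ⟨n, hmin ⟨?_, ?_⟩⟩
  · rw [abs_mul, abs_of_pos (by positivity : 0 < lam ^ n)]
    rw [div_lt_iff₀ hRpos] at hn2
    rw [div_le_iff₀ hlam0]
    rw [zpow_add_one₀ hlam0.ne'] at hn2
    nlinarith
  · rw [abs_mul, abs_of_pos (by positivity : 0 < lam ^ n)]
    rw [le_div_iff₀ hRpos] at hn1
    linarith

/-- periodic points are torsion points -/
lemma periodic_torsion [CompactSpace X] [Nontrivial X] {A : X ≃+ X} {lam : ℝ} {l₁ l₂ : ℝ →+ X}
    (H : Hyperb A lam l₁ l₂) {k : ℕ} (hk : 0 < k) {y : X} (hy : A^[k] y = y) :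
    IsOfFinAddOrder y := by
  by_contra hcon
  set G : Set X := {x | pw A k x = x} with hG
  have HP := H.pow hk
  have hyG : ∀ n : ℕ, n • y ∈ G := by
    intro n
    change pw A k (n • y) = n • y
    rw [map_nsmul, pw_apply, hy]
  have hinf : (range fun n : ℕ => n • y).Infinite :=
    infinite_range_of_injective (injective_nsmul_iff_not_isOfFinAddOrder.2 hcon)
  have hacc : Acc0 G := by
    intro ε hε
    obtain ⟨u, ⟨_, ⟨n, rfl⟩, _, ⟨m, rfl⟩, rfl⟩, hu0, hun⟩ := acc0_of_infinite hinf ε hε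
    refine ⟨_, ?_, hu0, hun⟩
    change pw A k (m • y - n • y) = m • y - n • y
    rw [map_sub]
    congr 1
    · exact hyG m
    · exact hyG n
  have hclosed : IsClosed G := isClosed_eq HP.contA continuous_id
  have h1 : ∀ x ∈ G, pw A k x ∈ G := fun x hx => by
    have hx' : pw A k x = x := hx
    rw [hx']; exact hx
  have h2 : ∀ x ∈ G, (pw A k).symm x ∈ G := fun x hx => by
    have hx' : pw A k x = x := hx
    have : (pw A k).symm x = x := by
      rw [AddEquiv.symm_apply_eq]; exact hx'.symm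
    rw [this]; exact hx
  -- a progression in `G` is constant, hence zero
  have key : ∀ (B : X ≃+ X) (l m : ℝ →+ X), Hyperb B (lam ^ k) l m → (∀ x ∈ G, B x = x) →
      ¬ ∃ R : ℝ, R ≠ 0 ∧ ∀ j : ℤ, l (R * (lam ^ k) ^ j) ∈ G := by
    rintro B l m HB hBG ⟨R, hR, hRG⟩
    have hl0 : 0 < lam ^ k := by have := HB.one_lt; linarith
    obtain ⟨c, hc, hlow⟩ := lower HB.cont₁ HB.dense₁ HB.one_lt
    have hstep : ∀ j : ℤ, l (R * (lam ^ k) ^ (j + 1)) = l (R * (lam ^ k) ^ j) := by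
      intro j
      rw [← hBG _ (hRG j), HB.eq₁, zpow_add_one₀ hl0.ne']
      congr 1; ring
    obtain ⟨j, hj⟩ := hlow R hR
    have hback : ∀ n : ℕ, l (R * (lam ^ k) ^ (j - n)) = l (R * (lam ^ k) ^ j) := by
      intro n
      induction n with
      | zero => simp
      | succ n ih =>
        rw [← ih, ← hstep]
        congr 3; push_cast; ring
    have hlim : Tendsto (fun n : ℕ => l (R * (lam ^ k) ^ (j - n))) atTop (𝓝 0) := by
      have h3 : Tendsto (fun n : ℕ => R * (lam ^ k) ^ (j - n)) atTop (𝓝 0) := by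
        have h4 : Tendsto (fun n : ℕ => R * (lam ^ k) ^ j * ((lam ^ k)⁻¹) ^ n) atTop (𝓝 (R * (lam ^ k) ^ j * 0)) :=
          (tendsto_pow_atTop_nhds_zero_of_lt_one (by positivity)
            (inv_lt_one_of_one_lt₀ HB.one_lt)).const_mul _
        rw [mul_zero] at h4
        refine h4.congr fun n => ?_
        rw [zpow_sub₀ hl0.ne', zpow_natCast, inv_pow]; ring
      have := (HB.cont₁.tendsto 0).comp h3
      simpa [Function.comp_def] using this
    have h0 : l (R * (lam ^ k) ^ j) = 0 := by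
      refine tendsto_nhds_unique ?_ hlim
      refine tendsto_const_nhds.congr fun n => (hback n).symm
    rw [h0, norm_zero] at hj
    linarith
  rcases lemmaB HP hclosed h1 h2 hacc with h3 | h3
  · exact key _ _ _ HP (fun x hx => hx) h3
  · refine key _ _ _ HP.symm (fun x hx => ?_) h3
    rw [AddEquiv.symm_apply_eq]
    exact (show pw A k x = x from hx).symm

/-- expansiveness -/
lemma expansive0 [CompactSpace X] [Nontrivial X] {A : X ≃+ X} {lam : ℝ} {l₁ l₂ : ℝ →+ X}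
    (H : Hyperb A lam l₁ l₂) : ∃ c > 0, ∀ S : Set X, (∀ x ∈ S, A x ∈ S) → (∀ x ∈ S, A.symm x ∈ S) →
      (∀ x ∈ S, ‖x‖ ≤ c) → ∀ x ∈ S, x = 0 := by
  obtain ⟨c1, hc1, h1⟩ := lower H.cont₁ H.dense₁ H.one_lt
  obtain ⟨c2, hc2, h2⟩ := lower H.cont₂ H.dense₂ H.one_lt
  by_contra hcon
  push Not at hcon
  set c : ℝ := min c1 c2 / 2 with hc
  have hc0 : 0 < c := by positivity
  set T : Set X := ⋃₀ {S : Set X | (∀ x ∈ S, A x ∈ S) ∧ (∀ x ∈ S, A.symm x ∈ S) ∧ ∀ x ∈ S, ‖x‖ ≤ c} with hT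
  have hTA : ∀ x ∈ closure T, A x ∈ closure T := by
    intro x hx
    refine map_mem_closure H.contA hx ?_
    rintro z ⟨S, hS, hz⟩
    exact ⟨S, hS, hS.1 z hz⟩
  have hTB : ∀ x ∈ closure T, A.symm x ∈ closure T := by
    intro x hx
    refine map_mem_closure H.contB hx ?_
    rintro z ⟨S, hS, hz⟩
    exact ⟨S, hS, hS.2.1 z hz⟩
  have hTc : ∀ x ∈ closure T, ‖x‖ ≤ c := by
    intro x hx
    have hcl : IsClosed {x : X | ‖x‖ ≤ c} := isClosed_le continuous_norm continuous_const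
    refine closure_minimal ?_ hcl hx
    rintro z ⟨S, hS, hz⟩
    exact hS.2.2 z hz
  have hacc : Acc0 (closure T) := by
    intro ε hε
    obtain ⟨S, hSA, hSB, hSc, x, hx, hx0⟩ := hcon (min (ε / 2) c) (by positivity)
    refine ⟨x, subset_closure ⟨S, ⟨hSA, hSB, fun z hz => (hSc z hz).trans (min_le_right _ _)⟩, hx⟩, hx0, ?_⟩
    exact lt_of_le_of_lt ((hSc x hx).trans (min_le_left _ _)) (by linarith)
  have hcl1 : c < c1 := by
    have := min_le_left c1 c2; rw [hc]; have : 0 < min c1 c2 := by positivity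
    linarith
  have hcl2 : c < c2 := by
    have := min_le_right c1 c2; rw [hc]; have : 0 < min c1 c2 := by positivity
    linarith
  rcases lemmaB H isClosed_closure hTA hTB hacc with ⟨R, hR, h3⟩ | ⟨R, hR, h3⟩
  · obtain ⟨j, hj⟩ := h1 R hR
    have := hTc _ (h3 j)
    linarith
  · obtain ⟨j, hj⟩ := h2 R hR
    have := hTc _ (h3 j)
    linarith

/-- expansiveness near a finite invariant set -/
lemma expansive [CompactSpace X] [Nontrivial X] {A : X ≃+ X} {lam : ℝ} {l₁ l₂ : ℝ →+ X}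
    (H : Hyperb A lam l₁ l₂) {E : Set X} (hfin : E.Finite) (hE : ∀ x ∈ E, A x ∈ E)
    (hE' : ∀ x ∈ E, A.symm x ∈ E) :
    ∃ c > 0, ∀ S : Set X, (∀ x ∈ S, A x ∈ S) → (∀ x ∈ S, A.symm x ∈ S) →
      S ⊆ Metric.thickening c E → S ⊆ E := by
  obtain ⟨c0, hc0, hexp⟩ := expansive0 H
  obtain ⟨η, hη, hsep⟩ : ∃ η > 0, ∀ x ∈ E, ∀ y ∈ E, dist x y < η → x = y := by
    by_contra hcon
    push Not at hcon
    have hfin2 : (E ×ˢ E).Finite := hfin.prod hfin
    set D : Set ℝ := (fun z : X × X => dist z.1 z.2) '' ((E ×ˢ E) ∩ {z | z.1 ≠ z.2}) with hD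
    have hDfin : D.Finite := (hfin2.inter_of_left _).image _
    obtain ⟨x, hx, y, hy, hxy, hne⟩ := hcon 1 one_pos
    have hDne : D.Nonempty := ⟨_, (x, y), ⟨⟨hx, hy⟩, hne⟩, rfl⟩
    obtain ⟨m, hm, hmin⟩ := Set.exists_min_image D id hDfin hDne
    obtain ⟨z, ⟨⟨hz1, hz2⟩, hz3⟩, rfl⟩ := hm
    obtain ⟨x', hx', y', hy', hxy', hne'⟩ := hcon (dist z.1 z.2) (dist_pos.2 hz3)
    have h1 := hmin (dist x' y') ⟨(x', y'), ⟨⟨hx', hy'⟩, hne'⟩, rfl⟩
    simp only [id] at h1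
    linarith
  -- uniform continuity
  have hcA : ∀ᶠ u in 𝓝 (0 : X), ‖A u‖ < η / 2 := by
    have : Tendsto (fun u => ‖A u‖) (𝓝 (0 : X)) (𝓝 0) := by
      have := H.contA.norm.tendsto (0 : X)
      simpa using this
    exact this.eventually_lt_const (by positivity)
  have hcB : ∀ᶠ u in 𝓝 (0 : X), ‖A.symm u‖ < η / 2 := by
    have : Tendsto (fun u => ‖A.symm u‖) (𝓝 (0 : X)) (𝓝 0) := by
      have := H.contB.norm.tendsto (0 : X)
      simpa using this
    exact this.eventually_lt_const (by positivity)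
  obtain ⟨r, hr, hrb⟩ := Metric.eventually_nhds_iff.1 (hcA.and hcB)
  refine ⟨min (min c0 r) (η / 2), by positivity, ?_⟩
  set c := min (min c0 r) (η / 2) with hc
  have hcc0 : c ≤ c0 := (min_le_left _ _).trans (min_le_left _ _)
  have hcr : c ≤ r := (min_le_left _ _).trans (min_le_right _ _)
  have hcη : c ≤ η / 2 := min_le_right _ _
  intro S hSA hSB hSE
  have hU : ∀ u ∈ {u : X | ∃ y ∈ S, ∃ e ∈ E, u = y - e ∧ ‖u‖ < c}, u = 0 := by
    refine hexp _ ?_ ?_ ?_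
    · rintro u ⟨y, hy, e, he, rfl, hu⟩
      refine ⟨A y, hSA y hy, A e, hE e he, map_sub _ _ _, ?_⟩
      obtain ⟨e', he', hye'⟩ := Metric.mem_thickening_iff.1 (hSE (hSA y hy))
      have h3 : ‖A (y - e)‖ < η / 2 := (hrb (by simpa using hu.trans_le hcr)).1
      have h4 : A e = e' := by
        refine hsep _ (hE e he) _ he' ?_
        calc dist (A e) e' ≤ dist (A e) (A y) + dist (A y) e' := dist_triangle _ _ _
          _ < η / 2 + η / 2 := by
              refine add_lt_add ?_ (hye'.trans_le hcη)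
              rw [dist_comm, dist_eq_norm, ← map_sub]; exact h3
          _ = η := by ring
      rw [map_sub, h4, ← dist_eq_norm]; exact hye'
    · rintro u ⟨y, hy, e, he, rfl, hu⟩
      refine ⟨A.symm y, hSB y hy, A.symm e, hE' e he, map_sub _ _ _, ?_⟩
      obtain ⟨e', he', hye'⟩ := Metric.mem_thickening_iff.1 (hSE (hSB y hy))
      have h3 : ‖A.symm (y - e)‖ < η / 2 := (hrb (by simpa using hu.trans_le hcr)).2
      have h4 : A.symm e = e' := by
        refine hsep _ (hE' e he) _ he' ?_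
        calc dist (A.symm e) e' ≤ dist (A.symm e) (A.symm y) + dist (A.symm y) e' := dist_triangle _ _ _
          _ < η / 2 + η / 2 := by
              refine add_lt_add ?_ (hye'.trans_le hcη)
              rw [dist_comm, dist_eq_norm, ← map_sub]; exact h3
          _ = η := by ring
      rw [map_sub, h4, ← dist_eq_norm]; exact hye'
    · rintro u ⟨y, hy, e, he, rfl, hu⟩
      exact (hu.trans_le hcc0).le
  intro y hy
  obtain ⟨e, he, hye⟩ := Metric.mem_thickening_iff.1 (hSE hy)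
  rw [dist_eq_norm] at hye
  have := hU (y - e) ⟨y, hy, e, he, rfl, hye⟩
  rw [sub_eq_zero] at this
  rw [this]; exact he

end Pool.Agent.W765.Hb
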