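import Mathlib
import Pool.Agent.H705R2.Recur
import Pool.Agent.W765.Hb2

set_option autoImplicit false

open MeasureTheory Filter Topology Set

namespace Pool.Agent.W765.Hb

open Pool.Agent.H705R2

variable {X : Type*} [NormedAddCommGroup X]

variable {Ω : Type*} [MeasurableSpace Ω]

/-- measurability of a random set: the event that it meets an open set is measurable -/
def Hit (F : Ω → Set X) : Prop := ∀ V : Set X, IsOpen V → MeasurableSet {ω | (F ω ∩ V).Nonempty}

lemma measurable_acc0 {F : Ω → Set X} (hm : Hit F) : MeasurableSet {ω | Acc0 (F ω)} := by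
  have h : {ω | Acc0 (F ω)} = ⋂ n : ℕ, {ω | (F ω ∩ ({0}ᶜ ∩ Metric.ball 0 (1 / ((n : ℝ) + 1)))).Nonempty} := by
    ext ω
    simp only [mem_ofPred_eq, mem_iInter, Acc0]
    constructor
    · intro h n
      obtain ⟨x, hx, hx0, hxn⟩ := h (1 / ((n : ℝ) + 1)) (by positivity)
      exact ⟨x, hx, hx0, by simpa using hxn⟩
    · intro h ε hε
      obtain ⟨n, hn⟩ := exists_nat_one_div_lt hε
      obtain ⟨x, hx, hx0, hxn⟩ := h n
      refine ⟨x, hx, hx0, ?_⟩
      have : ‖x‖ < 1 / ((n : ℝ) + 1) := by simpa using hxn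
      exact this.trans hn
  rw [h]
  refine MeasurableSet.iInter fun n => hm _ ?_
  exact isOpen_compl_singleton.inter Metric.isOpen_ball

omit [MeasurableSpace Ω] in
lemma iterate_mem {q : ℕ} {σ : Ω → Ω} {F : Ω → Set X}
    (hq' : ∀ ω, ∀ x ∈ F ω, q • x ∈ F (σ ω)) (m : ℕ) :
    ∀ ω, ∀ x ∈ F ω, q ^ m • x ∈ F (σ^[m] ω) := by
  induction m with
  | zero => intro ω x hx; simpa using hx
  | succ m ih =>
    intro ω x hx
    rw [Function.iterate_succ_apply, pow_succ, mul_smul]
    exact ih _ _ (hq' ω x hx)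

/-- Core lemma: a stationary random closed set with an accumulation point at `0` is everything. -/
theorem core [CompactSpace X] {A : X ≃+ X} {lam : ℝ} {l₁ l₂ : ℝ →+ X} (H : Hyperb A lam l₁ l₂)
    {b : ℕ} (hb : 2 ≤ b) (h : addOrderOf ((Real.logb lam b : ℝ) : Circ) = 0) {P : Measure Ω}
    [IsProbabilityMeasure P] {σ : Ω → Ω} (hσ : MeasurePreserving σ P P) {F : Ω → Set X}
    (hF : ∀ ω, IsClosed (F ω)) (hm : Hit F) (hA : ∀ ω, ∀ x ∈ F ω, A x ∈ F ω)
    (hB : ∀ ω, ∀ x ∈ F ω, A.symm x ∈ F ω)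
    (hq' : ∀ ω, ∀ x ∈ F ω, b • x ∈ F (σ ω)) : ∀ᵐ ω ∂P, Acc0 (F ω) → F ω = univ := by
  obtain ⟨bs, hbc, hbe, hbs⟩ := TopologicalSpace.exists_countable_basis X
  have hnull : ∀ V ∈ bs, P {ω | Acc0 (F ω) ∧ ¬ (F ω ∩ V).Nonempty} = 0 := by
    intro V hV
    have hVo : IsOpen V := hbs.isOpen hV
    have hVn : V.Nonempty := nonempty_iff_ne_empty.2 (fun h0 => hbe (h0 ▸ hV))
    refine recur hσ ((measurable_acc0 hm).inter (hm V hVo).compl) ?_
    rintro ω ⟨h1, h2⟩
    refine (lemmaC H hb h (hF ω) (hA ω) (hB ω) h1 hVo hVn).mono ?_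
    intro m hmB x hx hxV
    exact hmB.2 ⟨_, iterate_mem hq' m ω x hx, hxV⟩
  have hall : ∀ᵐ ω ∂P, ∀ V ∈ bs, ¬ (Acc0 (F ω) ∧ ¬ (F ω ∩ V).Nonempty) := by
    rw [ae_ball_iff hbc]
    intro V hV
    rw [ae_iff]
    simpa using hnull V hV
  filter_upwards [hall] with ω hω hacc
  have hd : Dense (F ω) := by
    rw [hbs.dense_iff]
    intro V hV _
    by_contra hcon
    refine hω V hV ⟨hacc, ?_⟩
    rw [inter_comm]; exact hcon
  rw [← (hF ω).closure_eq]
  exact hd.closure_eq

/-- Measurability lemma for random closed sets. -/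
theorem measurable_exists [CompactSpace X] {F : Ω → Set X} (hF : ∀ ω, IsClosed (F ω)) (hm : Hit F)
    {Z : Type*} [MetricSpace Z] [CompactSpace Z] {E : Set Z} (hE : IsClosed E) {ι : Type*}
    [Finite ι] (h : ι → Z → X) (hh : ∀ i, Continuous (h i)) :
    MeasurableSet {ω | ∃ z ∈ E, ∀ i, h i z ∈ F ω} := by
  obtain ⟨D, hDE, hDc, hDd⟩ : ∃ D : Set Z, D ⊆ E ∧ D.Countable ∧ E ⊆ closure D :=
    (TopologicalSpace.IsSeparable.of_separableSpace E).exists_countable_dense_subset
  have heq : {ω | ∃ z ∈ E, ∀ i, h i z ∈ F ω} =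
      ⋂ n : ℕ, ⋃ z ∈ D, ⋂ i, {ω | (F ω ∩ Metric.ball (h i z) (1 / ((n : ℝ) + 1))).Nonempty} := by
    ext ω
    simp only [mem_ofPred_eq, mem_iInter, mem_iUnion]
    constructor
    · rintro ⟨z, hz, hzF⟩ n
      have hpos : (0 : ℝ) < 1 / ((n : ℝ) + 1) := by positivity
      have hopen : IsOpen (⋂ i, {w : Z | h i z ∈ Metric.ball (h i w) (1 / ((n : ℝ) + 1))}) := by
        refine isOpen_iInter_of_finite fun i => ?_
        simp only [Metric.mem_ball]
        exact isOpen_lt (continuous_const.dist (hh i)) continuous_const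
      obtain ⟨w, hw1, hw2⟩ := mem_closure_iff.1 (hDd hz) _ hopen (by
        rw [mem_iInter]; intro i; simpa using hpos)
      rw [mem_iInter] at hw1
      exact ⟨w, hw2, fun i => ⟨h i z, hzF i, hw1 i⟩⟩
    · intro H
      choose z hz ha using H
      obtain ⟨w, hw, φ, hφ, hlim⟩ := hE.isCompact.tendsto_subseq (fun n => hDE (hz n))
      refine ⟨w, hw, fun i => ?_⟩
      rw [← (hF ω).closure_eq]
      refine Metric.mem_closure_iff.2 fun ε hε => ?_
      have hc : Tendsto (fun n => h i (z (φ n))) atTop (𝓝 (h i w)) := ((hh i).tendsto w).comp hlim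
      have h1 : ∀ᶠ n in atTop, dist (h i (z (φ n))) (h i w) < ε / 2 :=
        (Metric.tendsto_nhds.1 hc) (ε / 2) (by positivity)
      have h2 : Tendsto (fun n : ℕ => 1 / ((n : ℝ) + 1)) atTop (𝓝 0) :=
        tendsto_one_div_add_atTop_nhds_zero_nat
      have h3 : ∀ᶠ n in atTop, 1 / (((φ n : ℕ) : ℝ) + 1) < ε / 2 :=
        (h2.comp hφ.tendsto_atTop).eventually_lt_const (by positivity)
      obtain ⟨n, hn1, hn2⟩ := (h1.and h3).exists
      obtain ⟨y, hy, hyb⟩ := ha (φ n) i
      refine ⟨y, hy, ?_⟩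
      rw [Metric.mem_ball] at hyb
      calc dist (h i w) y ≤ dist (h i w) (h i (z (φ n))) + dist (h i (z (φ n))) y := dist_triangle _ _ _
        _ < ε / 2 + ε / 2 := by
            rw [dist_comm (h i w), dist_comm _ y]
            have := hyb.trans hn2
            linarith
        _ = ε := by ring
  rw [heq]
  exact MeasurableSet.iInter fun n => MeasurableSet.biUnion hDc fun z _ =>
    MeasurableSet.iInter fun i => hm _ Metric.isOpen_ball

/-- it is enough to hit closed sets -/
lemma hit_of_closed {F : Ω → Set X}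
    (h : ∀ C : Set X, IsClosed C → MeasurableSet {ω | (F ω ∩ C).Nonempty}) : Hit F := by
  intro V hV
  obtain ⟨C, hC, -, hCV, -⟩ := hV.exists_iUnion_isClosed
  have : {ω | (F ω ∩ V).Nonempty} = ⋃ n, {ω | (F ω ∩ C n).Nonempty} := by
    ext ω
    simp only [mem_ofPred_eq, mem_iUnion]
    rw [← hCV, inter_iUnion, nonempty_iUnion]
  rw [this]
  exact MeasurableSet.iUnion fun n => h _ (hC n)

/-- the points `y` with `y + s` in the set for all `s ∈ S` -/
def L (F : Ω → Set X) (S : Finset X) (ω : Ω) : Set X :=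
  {y | ∀ s : S, y + (s : X) ∈ F ω}

/-- the differences -/
def D (F : Ω → Set X) (S : Finset X) (ω : Ω) : Set X :=
  {u | ∃ y ∈ L F S ω, ∃ y' ∈ L F S ω, u = y' - y}

omit [MeasurableSpace Ω] in
lemma isClosed_L {F : Ω → Set X} (hF : ∀ ω, IsClosed (F ω)) (S : Finset X) (ω : Ω) :
    IsClosed (L F S ω) := by
  have : L F S ω = ⋂ s : S, (fun y => y + (s : X)) ⁻¹' (F ω) := by
    ext y; simp [L]
  rw [this]
  exact isClosed_iInter fun l => (hF ω).preimage (by fun_prop)

omit [MeasurableSpace Ω] in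
lemma isClosed_D [CompactSpace X] {F : Ω → Set X} (hF : ∀ ω, IsClosed (F ω)) (S : Finset X) (ω : Ω) :
    IsClosed (D F S ω) := by
  have hL := (isClosed_L hF S ω).isCompact
  have : D F S ω = (fun z : X × X => z.2 - z.1) '' (L F S ω ×ˢ L F S ω) := by
    ext u
    simp only [D, mem_ofPred_eq, mem_image, mem_prod, Prod.exists]
    constructor
    · rintro ⟨y, hy, y', hy', rfl⟩; exact ⟨y, y', ⟨hy, hy'⟩, rfl⟩
    · rintro ⟨y, y', ⟨hy, hy'⟩, rfl⟩; exact ⟨y, hy, y', hy', rfl⟩
  rw [this]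
  exact ((hL.prod hL).image (by fun_prop)).isClosed

lemma hit_D [CompactSpace X] {F : Ω → Set X} (hF : ∀ ω, IsClosed (F ω)) (hm : Hit F) (S : Finset X) :
    Hit (D F S) := by
  refine hit_of_closed fun C hC => ?_
  have h := measurable_exists hF hm (E := (fun z : X × X => z.2 - z.1) ⁻¹' C)
    (hC.preimage (by fun_prop)) (ι := S × Bool)
    (fun i z => (if i.2 then z.1 else z.2) + (i.1 : X)) (by
      rintro ⟨l, b⟩
      cases b
      · simpa using (by fun_prop : Continuous fun z : X × X => z.2 + (l : X))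
      · simpa using (by fun_prop : Continuous fun z : X × X => z.1 + (l : X)))
  convert h using 1
  ext ω
  simp only [mem_ofPred_eq]
  constructor
  · rintro ⟨u, ⟨y, hy, y', hy', rfl⟩, hu⟩
    refine ⟨(y, y'), hu, ?_⟩
    rintro ⟨l, b⟩
    cases b
    · simpa using hy' l
    · simpa using hy l
  · rintro ⟨⟨y, y'⟩, hu, h⟩
    refine ⟨y' - y, ⟨y, fun l => ?_, y', fun l => ?_, rfl⟩, hu⟩
    · simpa using h (l, true)
    · simpa using h (l, false)

omit [MeasurableSpace Ω] in
lemma map_mem_L {F : Ω → Set X} {S : Finset X} {g : X →+ X} {ω ω' : Ω}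
    (hg : ∀ x ∈ F ω, g x ∈ F ω') (hτ : ∀ s ∈ S, g s = s) {y : X} (hy : y ∈ L F S ω) :
    g y ∈ L F S ω' := by
  intro l
  have := hg _ (hy l)
  rwa [map_add, hτ _ l.2] at this

omit [MeasurableSpace Ω] in
lemma map_mem_D {F : Ω → Set X} {S : Finset X} {g : X →+ X} {ω ω' : Ω}
    (hg : ∀ x ∈ F ω, g x ∈ F ω') (hτ : ∀ s ∈ S, g s = s) {y : X} (hy : y ∈ D F S ω) :
    g y ∈ D F S ω' := by
  obtain ⟨y1, h1, y2, h2, rfl⟩ := hy
  exact ⟨_, map_mem_L hg hτ h1, _, map_mem_L hg hτ h2, by rw [map_sub]⟩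

/-- the torsion points are as in a finite dimensional torus -/
structure Tor (X : Type*) [NormedAddCommGroup X] : Prop where
  fin : ∀ n : ℕ, 0 < n → {x : X | n • x = 0}.Finite
  dense : ∀ b : ℕ, 0 < b → ∀ ε > 0, ∃ N : ℕ, 0 < N ∧ Nat.Coprime b N ∧
    ∀ z : X, ∃ s : X, N • s = 0 ∧ dist z s < ε
  div : ∀ n : ℕ, 0 < n → ∀ x : X, ∃ y : X, n • y = x

lemma pow_smul_eq {d b : ℕ} (hb : Nat.Coprime b d) {t : X} (ht : d • t = 0) :
    b ^ (Nat.totient d) • t = t := by
  have h1 : b ^ (Nat.totient d) ≡ 1 [MOD d] := Nat.ModEq.pow_totient hb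
  rw [Nat.ModEq, ] at h1
  have h2 : addOrderOf t ∣ d := addOrderOf_dvd_of_nsmul_eq_zero ht
  have h3 : (b ^ (Nat.totient d)) ≡ 1 [MOD addOrderOf t] := Nat.ModEq.of_dvd h2 h1
  have h4 := (nsmul_eq_nsmul_iff_modEq (x := t)).2 h3
  rw [h4, one_smul]

/-- a common period of the `N`-torsion points -/
lemma exists_period (T : Tor X) (A : X ≃+ X) {b N : ℕ} (hN : 0 < N) (hb : Nat.Coprime b N) :
    ∃ m : ℕ, 0 < m ∧ ∀ s : X, N • s = 0 → A^[m] s = s ∧ A.symm^[m] s = s ∧ b ^ m • s = s := by
  classical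
  have hfin := T.fin N hN
  have hmap : MapsTo A {x : X | N • x = 0} {x : X | N • x = 0} := by
    intro x hx
    change N • A x = 0
    rw [← map_nsmul, show N • x = 0 from hx, map_zero]
  have : Fintype {x : X | N • x = 0} := hfin.fintype
  set g : {x : X | N • x = 0} → {x : X | N • x = 0} := hmap.restrict A _ _ with hg
  have hginj : Function.Injective g := by
    intro x y hxy
    have : A (x : X) = A y := congrArg Subtype.val hxy
    exact Subtype.ext (A.injective this)
  have hgit : ∀ (n : ℕ) (x : {x : X | N • x = 0}), ((g^[n] x : {x : X | N • x = 0}) : X) = A^[n] x := by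
    intro n x
    induction n with
    | zero => rfl
    | succ n ih => rw [Function.iterate_succ_apply', Function.iterate_succ_apply', ← ih]; rfl
  set k := (Fintype.card {x : X | N • x = 0}).factorial with hk
  have hper : ∀ s : X, N • s = 0 → A^[k] s = s := by
    intro s hs
    have := Function.isPeriodicPt_factorial_card_of_mem_periodicPts (hginj.mem_periodicPts ⟨s, hs⟩)
    have h2 : g^[k] ⟨s, hs⟩ = ⟨s, hs⟩ := this
    rw [← hgit k ⟨s, hs⟩, h2]
  have htot : 0 < Nat.totient N := Nat.totient_pos.2 hN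
  have hApow : ∀ s : X, N • s = 0 → A^[k * Nat.totient N] s = s := by
    intro s hs
    rw [Function.iterate_mul]
    exact Function.iterate_fixed (hper s hs) _
  refine ⟨k * Nat.totient N, Nat.mul_pos (Nat.factorial_pos _) htot, fun s hs => ⟨hApow s hs, ?_, ?_⟩⟩
  · rw [← pw_symm_apply, AddEquiv.symm_apply_eq, pw_apply, hApow s hs]
  · rw [mul_comm, pow_mul]
    have h1 := pow_smul_eq hb hs
    have : ∀ n : ℕ, (b ^ Nat.totient N) ^ n • s = s := by
      intro n
      induction n with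
      | zero => simp
      | succ n ih => rw [pow_succ, mul_smul, h1, ih]
    exact this k

lemma logb_pow_pow {lam : ℝ} (hlam : 1 < lam) (b : ℕ) {m : ℕ} (hm : 0 < m) :
    Real.logb (lam ^ m) ((b ^ m : ℕ) : ℝ) = Real.logb lam b := by
  have hm' : (m : ℝ) ≠ 0 := by positivity
  have hl : Real.log lam ≠ 0 := (Real.log_pos hlam).ne'
  unfold Real.logb
  push_cast
  rw [Real.log_pow, Real.log_pow]
  field_simp

/-- an invariant set which contains a point of infinite order is infinite -/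
lemma infinite_of_inv [CompactSpace X] [Nontrivial X] {A : X ≃+ X} {lam : ℝ} {l₁ l₂ : ℝ →+ X}
    (H : Hyperb A lam l₁ l₂) {S : Set X} (hinv : ∀ x ∈ S, A x ∈ S) {y : X}
    (hy : y ∈ S) (ho : ¬ IsOfFinAddOrder y) : S.Infinite := by
  have hinj : Function.Injective (fun n : ℕ => A^[n] y) := by
    have key : ∀ n m : ℕ, n < m → A^[n] y ≠ A^[m] y := by
      intro n m hnm he
      obtain ⟨k, rfl⟩ := Nat.exists_eq_add_of_lt hnm
      have h1 : A^[n] (A^[k + 1] y) = A^[n] y := by
        rw [← Function.iterate_add_apply, ← add_assoc]; exact he.symm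
      have h2 : A^[k + 1] y = y := (A.injective.iterate n) h1
      exact ho (periodic_torsion H (Nat.succ_pos k) h2)
    intro n m hnm
    rcases lt_trichotomy n m with h | h | h
    · exact absurd hnm (key n m h)
    · exact h
    · exact absurd hnm.symm (key m n h)
  exact (infinite_range_of_injective hinj).mono (by rintro _ ⟨n, rfl⟩; exact iter_mem hinv n hy)

/-- Lemma 2: a stationary random closed set which is infinite contains a torsion point. -/
theorem exists_torsion [CompactSpace X] [Nontrivial X] (T : Tor X) {A : X ≃+ X} {lam : ℝ}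
    {l₁ l₂ : ℝ →+ X} (H : Hyperb A lam l₁ l₂) {b : ℕ} (hb : 2 ≤ b)
    (h : addOrderOf ((Real.logb lam b : ℝ) : Circ) = 0) {P : Measure Ω}
    [IsProbabilityMeasure P] {σ : Ω → Ω} (hσ : MeasurePreserving σ P P) {G : Ω → Set X}
    (hG : ∀ ω, IsClosed (G ω)) (hm : Hit G) (hA : ∀ ω, ∀ x ∈ G ω, A x ∈ G ω)
    (hB : ∀ ω, ∀ x ∈ G ω, A.symm x ∈ G ω)
    (hq' : ∀ ω, ∀ x ∈ G ω, b • x ∈ G (σ ω)) :
    ∀ᵐ ω ∂P, (G ω).Infinite → ∃ t ∈ G ω, IsOfFinAddOrder t := by
  classical
  have hT : ∀ N : ℕ, ∃ S : Finset X, 0 < N → ∀ x, x ∈ S ↔ N • x = 0 := by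
    intro N
    by_cases hN : 0 < N
    · exact ⟨(T.fin N hN).toFinset, fun _ x => by simp⟩
    · exact ⟨∅, fun h => absurd h hN⟩
  choose TN hTN using hT
  have hcore : ∀ N : ℕ, 0 < N → Nat.Coprime b N → ∀ S ∈ ((TN N).powerset : Set (Finset X)), ∀ᵐ ω ∂P,
      Acc0 (D G S ω) → D G S ω = univ := by
    intro N hN0 hN S hS
    rw [Finset.mem_coe, Finset.mem_powerset] at hS
    obtain ⟨m, hm0, hmT⟩ := exists_period T A hN0 hN
    have hS' : ∀ s ∈ S, N • s = 0 := fun s hs => (hTN N hN0 s).1 (hS hs)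
    have h2b : 2 ≤ b ^ m := hb.trans (Nat.le_self_pow hm0.ne' b)
    refine core (H.pow hm0) h2b (by rw [logb_pow_pow H.one_lt b hm0]; exact h) (hσ.iterate m)
      (isClosed_D hG _) (hit_D hG hm _) ?_ ?_ ?_
    · intro ω x hx
      refine map_mem_D (g := (pw A m).toAddMonoidHom) (fun y hy => ?_) (fun s hs => ?_) hx
      · change pw A m y ∈ _
        rw [pw_apply]; exact iter_mem (hA ω) m hy
      · change pw A m s = s
        rw [pw_apply]; exact (hmT s (hS' s hs)).1
    · intro ω x hx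
      refine map_mem_D (g := (pw A m).symm.toAddMonoidHom) (fun y hy => ?_) (fun s hs => ?_) hx
      · change (pw A m).symm y ∈ _
        rw [pw_symm_apply]; exact iter_mem (hB ω) m hy
      · change (pw A m).symm s = s
        rw [pw_symm_apply]; exact (hmT s (hS' s hs)).2.1
    · intro ω x hx
      refine map_mem_D (g := nsmulAddMonoidHom (b ^ m)) (fun y hy => ?_) (fun s hs => ?_) hx
      · exact iterate_mem hq' m ω y hy
      · exact (hmT s (hS' s hs)).2.2
  have hall : ∀ᵐ ω ∂P, ∀ N : ℕ, ∀ S ∈ ((TN N).powerset : Set (Finset X)), 0 < N → Nat.Coprime b N →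
      Acc0 (D G S ω) → D G S ω = univ := by
    rw [ae_all_iff]; intro N
    rw [ae_ball_iff (Finset.countable_toSet _)]; intro S hS
    by_cases h1 : 0 < N
    · by_cases h2 : Nat.Coprime b N
      · filter_upwards [hcore N h1 h2 S hS] with ω hω _ _ using hω
      · exact Eventually.of_forall fun ω _ h3 => absurd h3 h2
    · exact Eventually.of_forall fun ω h3 => absurd h3 h1
  filter_upwards [hall] with ω hω hinf
  by_contra hcon
  push Not at hcon
  -- all the sets `L` are infinite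
  have hL : ∀ N : ℕ, 0 < N → Nat.Coprime b N → ∀ S : Finset X, S ⊆ TN N →
      (L G (insert 0 S) ω).Infinite := by
    intro N hN0 hN S
    obtain ⟨m, hm0, hmT⟩ := exists_period T A hN0 hN
    induction S using Finset.induction_on with
    | empty =>
      intro _
      have : L G (insert 0 ∅) ω = G ω := by
        ext y
        simp [L]
      rw [this]; exact hinf
    | insert s S hs ih =>
      intro hsub
      have hS : S ⊆ TN N := (Finset.subset_insert _ _).trans hsub
      have hs0 : s ∈ TN N := hsub (Finset.mem_insert_self _ _)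
      have h0 : (0 : X) ∈ TN N := (hTN N hN0 0).2 (by simp)
      have hS0 : insert 0 S ⊆ TN N := Finset.insert_subset h0 hS
      have h1 := hω N (insert 0 S) (by rw [Finset.mem_coe, Finset.mem_powerset]; exact hS0) hN0 hN
        (acc0_of_infinite (ih hS))
      have h2 : s ∈ D G (insert 0 S) ω := by rw [h1]; trivial
      obtain ⟨y, hy, y', hy', he⟩ := h2
      have hy'' : y ∈ L G (insert 0 (insert s S)) ω := by
        rintro ⟨l, hl⟩
        simp only [Finset.mem_insert] at hl
        rcases hl with rfl | rfl | hl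
        · exact hy ⟨0, by simp⟩
        · have h3 := hy' ⟨0, by simp⟩
          have h4 : y + l = y' := by rw [he]; abel
          change y + l ∈ G ω
          rw [h4]
          simpa using h3
        · exact hy ⟨l, by simp [hl]⟩
      have hall' : ∀ t ∈ insert 0 (insert s S), N • t = 0 := by
        intro t ht
        exact (hTN N hN0 t).1 (Finset.insert_subset h0 hsub ht)
      refine infinite_of_inv (H.pow hm0) ?_ hy'' ?_
      · intro x hx
        refine map_mem_L (g := (pw A m).toAddMonoidHom) (fun y hy => ?_) (fun s hs => ?_) hx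
        · change pw A m y ∈ _
          rw [pw_apply]; exact iter_mem (hA ω) m hy
        · change pw A m s = s
          rw [pw_apply]; exact (hmT s (hall' s hs)).1
      · have h0' := hy'' ⟨0, by simp⟩
        have : y ∈ G ω := by simpa using h0'
        exact hcon y this
  -- hence the set is dense
  have hdense : Dense (G ω) := by
    rw [Metric.dense_iff]
    intro z ε hε
    obtain ⟨N, hN0, hN, hNz⟩ := T.dense b (by omega) ε hε
    obtain ⟨y, hy⟩ := (hL N hN0 hN (TN N) Subset.rfl).nonempty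
    obtain ⟨s, hs, hd⟩ := hNz (z - y)
    refine ⟨y + s, ?_, hy ⟨s, Finset.mem_insert_of_mem ((hTN N hN0 s).2 hs)⟩⟩
    rw [Metric.mem_ball, dist_comm]
    have : dist z (y + s) = dist (z - y) s := by
      rw [dist_eq_norm, dist_eq_norm]; congr 1; abel
    rw [this]; exact hd
  have huniv : G ω = univ := by
    rw [← (hG ω).closure_eq]; exact hdense.closure_eq
  exact hcon 0 (by rw [huniv]; trivial) (IsOfFinAddOrder.zero)

end Pool.Agent.W765.Hb
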