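import Mathlib
import Pool.Agent.W765.Hb3

set_option autoImplicit false

open MeasureTheory Filter Topology Set

namespace Pool.Agent.W765.Hb

open Pool.Agent.H705R2

variable {X : Type*} [NormedAddCommGroup X]

variable {Ω : Type*} [MeasurableSpace Ω]

/-- derived set -/
def Der (F : Ω → Set X) (ω : Ω) : Set X := {z | ∀ ε > 0, ∃ x ∈ F ω, x ≠ z ∧ dist x z < ε}

omit [MeasurableSpace Ω] in
lemma isClosed_Der (F : Ω → Set X) (ω : Ω) : IsClosed (Der F ω) := by
  rw [← closure_subset_iff_isClosed]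
  intro z hz ε hε
  obtain ⟨z', hz', hd⟩ := Metric.mem_closure_iff.1 hz (ε / 2) (by positivity)
  by_cases h : z' = z
  · subst h
    exact hz' ε hε
  · have h0 : 0 < dist z z' := dist_pos.2 (Ne.symm h)
    obtain ⟨x, hx, hxz, hd'⟩ := hz' (min (ε / 2) (dist z z')) (lt_min (by positivity) h0)
    refine ⟨x, hx, ?_, ?_⟩
    · rintro rfl
      exact absurd (lt_of_lt_of_le hd' (min_le_right _ _)) (lt_irrefl _)
    · calc dist x z ≤ dist x z' + dist z z' := dist_triangle_right _ _ _
        _ < ε / 2 + ε / 2 := add_lt_add (lt_of_lt_of_le hd' (min_le_left _ _)) hd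
        _ = ε := by ring

omit [MeasurableSpace Ω] in
lemma Der_subset {F : Ω → Set X} (hF : ∀ ω, IsClosed (F ω)) (ω : Ω) : Der F ω ⊆ F ω := by
  intro z hz
  rw [← (hF ω).closure_eq]
  refine Metric.mem_closure_iff.2 fun ε hε => ?_
  obtain ⟨x, hx, -, hd⟩ := hz ε hε
  exact ⟨x, hx, by rwa [dist_comm]⟩

omit [MeasurableSpace Ω] in
lemma map_mem_Der {F : Ω → Set X} {g : X →+ X} (hg : Continuous g)
    (hker : ∃ r > 0, ∀ u : X, ‖u‖ < r → g u = 0 → u = 0) {ω ω' : Ω}
    (h : ∀ x ∈ F ω, g x ∈ F ω') {z : X} (hz : z ∈ Der F ω) : g z ∈ Der F ω' := by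
  intro ε hε
  obtain ⟨r, hr, hker⟩ := hker
  have hc : ∀ᶠ u in 𝓝 z, dist (g u) (g z) < ε := (Metric.tendsto_nhds.1 (hg.tendsto z)) ε hε
  obtain ⟨δ, hδ, hδb⟩ := Metric.eventually_nhds_iff.1 hc
  obtain ⟨x, hx, hxz, hd⟩ := hz (min δ r) (lt_min hδ hr)
  refine ⟨g x, h x hx, ?_, hδb (hd.trans_le (min_le_left _ _))⟩
  intro heq
  apply hxz
  rw [← sub_eq_zero]
  refine hker _ ?_ (by rw [map_sub, heq, sub_self])
  rw [← dist_eq_norm]; exact hd.trans_le (min_le_right _ _)

lemma ker_smul (T : Tor X) {n : ℕ} (hn : 0 < n) :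
    ∃ r > 0, ∀ u : X, ‖u‖ < r → n • u = 0 → u = 0 := by
  have hfin : ({x : X | n • x = 0} \ {0}).Finite := (T.fin n hn).subset sdiff_subset
  have ho := hfin.isClosed.isOpen_compl
  have h0 : (0 : X) ∈ ({x : X | n • x = 0} \ {0})ᶜ := fun h => h.2 rfl
  obtain ⟨r, hr, hball⟩ := Metric.isOpen_iff.1 ho 0 h0
  refine ⟨r, hr, fun u hu hun => ?_⟩
  by_contra hne
  exact hball (by simpa using hu) ⟨hun, hne⟩

lemma measurable_infinite [CompactSpace X] {F : Ω → Set X} (hF : ∀ ω, IsClosed (F ω)) (hm : Hit F)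
    {K : Set X} (hK : IsClosed K) : MeasurableSet {ω | (F ω ∩ K).Infinite} := by
  have heq : {ω | (F ω ∩ K).Infinite} = ⋂ k : ℕ, ⋃ m : ℕ,
      {ω | ∃ z ∈ {z : Fin k → X | (∀ i, z i ∈ K) ∧ ∀ i j, i ≠ j → 1 / ((m : ℝ) + 1) ≤ dist (z i) (z j)},
        ∀ i, z i ∈ F ω} := by
    ext ω
    simp only [mem_ofPred_eq, mem_iInter, mem_iUnion]
    constructor
    · intro hinf k
      obtain ⟨t, hts, htc⟩ := hinf.exists_subset_card_eq k
      let e := t.equivFinOfCardEq htc
      let z : Fin k → X := fun i => (e.symm i : X)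
      have hzinj : ∀ i j, i ≠ j → z i ≠ z j := by
        intro i j hij h
        exact hij (e.symm.injective (Subtype.ext h))
      have hpair : ∀ i j : Fin k, ∃ m : ℕ, i ≠ j → 1 / ((m : ℝ) + 1) ≤ dist (z i) (z j) := by
        intro i j
        by_cases hij : i = j
        · exact ⟨0, fun h => absurd hij h⟩
        · obtain ⟨m, hm⟩ := exists_nat_one_div_lt (dist_pos.2 (hzinj i j hij))
          exact ⟨m, fun _ => hm.le⟩
      choose mm hmm using hpair
      refine ⟨Finset.univ.sup fun i => Finset.univ.sup fun j => mm i j, z, ⟨fun i => ?_, ?_⟩, fun i => ?_⟩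
      · exact (hts (e.symm i).2).2
      · intro i j hij
        refine le_trans ?_ (hmm i j hij)
        apply one_div_le_one_div_of_le (by positivity)
        have h1 : mm i j ≤ Finset.univ.sup fun i => Finset.univ.sup fun j => mm i j :=
          (Finset.le_sup (f := fun j => mm i j) (Finset.mem_univ j)).trans
            (Finset.le_sup (f := fun i => Finset.univ.sup fun j => mm i j) (Finset.mem_univ i))
        have h2 : (mm i j : ℝ) ≤ ((Finset.univ.sup fun i => Finset.univ.sup fun j => mm i j : ℕ) : ℝ) := by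
          exact_mod_cast h1
        linarith
      · exact (hts (e.symm i).2).1
    · intro H hfin
      obtain ⟨m, z, ⟨hzK, hzd⟩, hzF⟩ := H (hfin.toFinset.card + 1)
      classical
      have hinj : Function.Injective z := by
        intro i j hij
        by_contra hne
        have h1 := hzd i j hne
        rw [hij, dist_self] at h1
        have : (0 : ℝ) < 1 / ((m : ℝ) + 1) := by positivity
        linarith
      have h2 : Finset.univ.image z ⊆ hfin.toFinset := by
        intro x hx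
        rw [Finset.mem_image] at hx
        obtain ⟨i, -, rfl⟩ := hx
        rw [Set.Finite.mem_toFinset]
        exact ⟨hzF i, hzK i⟩
      have h3 := Finset.card_le_card h2
      rw [Finset.card_image_of_injective _ hinj, Finset.card_univ, Fintype.card_fin] at h3
      omega
  rw [heq]
  refine MeasurableSet.iInter fun k => MeasurableSet.iUnion fun m => ?_
  refine measurable_exists hF hm ?_ (fun (i : Fin k) (z : Fin k → X) => z i) (fun i => continuous_apply i)
  have : {z : Fin k → X | (∀ i, z i ∈ K) ∧ ∀ i j, i ≠ j → 1 / ((m : ℝ) + 1) ≤ dist (z i) (z j)} =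
      (⋂ i, {z : Fin k → X | z i ∈ K}) ∩
        ⋂ i, ⋂ j, ⋂ (_ : i ≠ j), {z : Fin k → X | 1 / ((m : ℝ) + 1) ≤ dist (z i) (z j)} := by
    ext z; simp
  rw [this]
  refine (isClosed_iInter fun i => hK.preimage (continuous_apply i)).inter ?_
  refine isClosed_iInter fun i => isClosed_iInter fun j => isClosed_iInter fun _ => ?_
  exact isClosed_le continuous_const ((continuous_apply i).dist (continuous_apply j))

omit [MeasurableSpace Ω] in
lemma mem_Der_of_accPt {F : Ω → Set X} {ω : Ω} {S : Set X} (hS : S ⊆ F ω) {z : X}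
    (h : AccPt z (𝓟 S)) : z ∈ Der F ω := by
  intro ε hε
  rw [accPt_iff_nhds] at h
  obtain ⟨y, ⟨hy1, hy2⟩, hne⟩ := h (Metric.ball z ε) (Metric.ball_mem_nhds z hε)
  exact ⟨y, hS hy2, hne, by simpa using hy1⟩

lemma hit_Der [CompactSpace X] {F : Ω → Set X} (hF : ∀ ω, IsClosed (F ω)) (hm : Hit F) :
    Hit (Der F) := by
  refine hit_of_closed fun C hC => ?_
  have heq : {ω | (Der F ω ∩ C).Nonempty} =
      ⋂ n : ℕ, {ω | (F ω ∩ Metric.cthickening (1 / ((n : ℝ) + 1)) C).Infinite} := by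
    ext ω
    simp only [mem_ofPred_eq, mem_iInter]
    constructor
    · rintro ⟨z, hz, hzC⟩ n hfin
      have hfin' : ((F ω ∩ Metric.cthickening (1 / ((n : ℝ) + 1)) C) \ {z}).Finite := hfin.subset sdiff_subset
      have ho := hfin'.isClosed.isOpen_compl
      have hzmem : z ∈ ((F ω ∩ Metric.cthickening (1 / ((n : ℝ) + 1)) C) \ {z})ᶜ := by
        intro h; exact h.2 rfl
      obtain ⟨ε, hε, hball⟩ := Metric.isOpen_iff.1 ho z hzmem
      have hpos : (0 : ℝ) < 1 / ((n : ℝ) + 1) := by positivity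
      obtain ⟨x, hx, hxz, hd⟩ := hz (min ε (1 / ((n : ℝ) + 1))) (lt_min hε hpos)
      have h1 : x ∈ Metric.ball z ε := by
        rw [Metric.mem_ball]; exact lt_of_lt_of_le hd (min_le_left _ _)
      refine hball h1 ⟨⟨hx, ?_⟩, hxz⟩
      refine Metric.mem_cthickening_of_dist_le x z _ C hzC ?_
      exact (lt_of_lt_of_le hd (min_le_right _ _)).le
    · intro H
      have hex : ∀ n : ℕ, ∃ z ∈ Metric.cthickening (1 / ((n : ℝ) + 1)) C, z ∈ Der F ω := by
        intro n
        obtain ⟨z, hz, hacc⟩ := (H n).exists_accPt_of_subset_isCompact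
          (K := Metric.cthickening (1 / ((n : ℝ) + 1)) C) Metric.isClosed_cthickening.isCompact
          inter_subset_right
        exact ⟨z, hz, mem_Der_of_accPt inter_subset_left hacc⟩
      choose z hz1 hz2 using hex
      obtain ⟨w, hw, φ, hφ, hlim⟩ := (isClosed_Der F ω).isCompact.tendsto_subseq hz2
      refine ⟨w, hw, ?_⟩
      have hCne : C.Nonempty := by
        by_contra hne
        rw [not_nonempty_iff_eq_empty] at hne
        have := hz1 0
        rw [hne, Metric.cthickening_empty] at this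
        exact this
      rw [hC.mem_iff_infDist_zero hCne]
      have h1 : Tendsto (fun n => Metric.infDist (z (φ n)) C) atTop (𝓝 (Metric.infDist w C)) :=
        ((Metric.continuous_infDist_pt C).tendsto w).comp hlim
      have h2 : Tendsto (fun n => 1 / (((φ n : ℕ) : ℝ) + 1)) atTop (𝓝 0) :=
        tendsto_one_div_add_atTop_nhds_zero_nat.comp hφ.tendsto_atTop
      have h3 : ∀ n, Metric.infDist (z (φ n)) C ≤ 1 / (((φ n : ℕ) : ℝ) + 1) := by
        intro n
        have := hz1 (φ n)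
        rw [Metric.mem_cthickening_iff] at this
        have h4 : (0 : ℝ) ≤ 1 / (((φ n : ℕ) : ℝ) + 1) := by positivity
        unfold Metric.infDist
        exact ENNReal.toReal_le_of_le_ofReal h4 this
      refine le_antisymm (le_of_tendsto_of_tendsto' h1 h2 h3) Metric.infDist_nonneg
  rw [heq]
  exact MeasurableSet.iInter fun n => measurable_infinite hF hm Metric.isClosed_cthickening

lemma torsion_countable (T : Tor X) : {w : X | IsOfFinAddOrder w}.Countable := by
  have : {w : X | IsOfFinAddOrder w} ⊆ ⋃ n : ℕ, {w : X | (n + 1) • w = 0} := by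
    intro w hw
    obtain ⟨n, hn, hnw⟩ := isOfFinAddOrder_iff_nsmul_eq_zero.1 hw
    rw [mem_iUnion]
    refine ⟨n - 1, ?_⟩
    rw [mem_ofPred_eq, Nat.sub_add_cancel hn]; exact hnw
  exact (countable_iUnion fun n => (T.fin (n + 1) (Nat.succ_pos n)).countable).mono this

/-- Lemma 1: a stationary random closed set which accumulates at a fixed torsion point of order
prime to `b` is everything. -/
theorem acc_torsion [CompactSpace X] (T : Tor X) {A : X ≃+ X} {lam : ℝ}
    {l₁ l₂ : ℝ →+ X} (H : Hyperb A lam l₁ l₂) {b : ℕ} (hb : 2 ≤ b)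
    (h : addOrderOf ((Real.logb lam b : ℝ) : Circ) = 0) {P : Measure Ω}
    [IsProbabilityMeasure P] {σ : Ω → Ω} (hσ : MeasurePreserving σ P P) {F : Ω → Set X}
    (hF : ∀ ω, IsClosed (F ω)) (hm : Hit F) (hA : ∀ ω, ∀ x ∈ F ω, A x ∈ F ω)
    (hB : ∀ ω, ∀ x ∈ F ω, A.symm x ∈ F ω)
    (hq' : ∀ ω, ∀ x ∈ F ω, b • x ∈ F (σ ω)) {d : ℕ} (hd0 : 0 < d) (hd : Nat.Coprime b d)
    {t : X} (ht : d • t = 0) : ∀ᵐ ω ∂P, t ∈ Der F ω → F ω = univ := by
  obtain ⟨m, hm0, hmT⟩ := exists_period T A hd0 hd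
  obtain ⟨htA, htB, htb⟩ := hmT t ht
  have h2b : 2 ≤ b ^ m := hb.trans (Nat.le_self_pow hm0.ne' b)
  have hcont : Continuous (fun u : X => u + t) := by fun_prop
  have hC : ∀ ω, IsClosed ((fun u : X => u + t) ⁻¹' F ω) := fun ω => (hF ω).preimage hcont
  have hmA : Hit (fun ω => (fun u : X => u + t) ⁻¹' F ω) := by
    intro V hV
    have : {ω | ((fun u : X => u + t) ⁻¹' F ω ∩ V).Nonempty} =
        {ω | (F ω ∩ (fun u : X => u - t) ⁻¹' V).Nonempty} := by
      ext ω
      constructor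
      · rintro ⟨u, hu, huV⟩
        exact ⟨u + t, hu, by simpa using huV⟩
      · rintro ⟨u, hu, huV⟩
        exact ⟨u - t, by simpa using hu, huV⟩
    rw [this]
    exact hm _ (hV.preimage (by fun_prop))
  have hc := core (H.pow hm0) h2b (by rw [logb_pow_pow H.one_lt b hm0]; exact h) (hσ.iterate m)
    hC hmA ?_ ?_ ?_
  · filter_upwards [hc] with ω hω htF
    have hacc : Acc0 ((fun u : X => u + t) ⁻¹' F ω) := by
      intro ε hε
      obtain ⟨x, hx, hxt, hd⟩ := htF ε hε
      refine ⟨x - t, by simpa using hx, sub_ne_zero.2 hxt, ?_⟩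
      rwa [← dist_eq_norm]
    have h1 := hω hacc
    refine eq_univ_of_forall fun y => ?_
    have : y - t ∈ (fun u : X => u + t) ⁻¹' F ω := by rw [h1]; trivial
    simpa using this
  · intro ω x hx
    have h1 : x + t ∈ F ω := hx
    change pw A m x + t ∈ F ω
    have : pw A m x + t = A^[m] (x + t) := by
      rw [← pw_apply, map_add, pw_apply A m t, htA]
    rw [this]; exact iter_mem (hA ω) m h1
  · intro ω x hx
    have h1 : x + t ∈ F ω := hx
    change (pw A m).symm x + t ∈ F ω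
    have : (pw A m).symm x + t = A.symm^[m] (x + t) := by
      rw [← pw_symm_apply, map_add, pw_symm_apply A m t, htB]
    rw [this]; exact iter_mem (hB ω) m h1
  · intro ω x hx
    have h1 : x + t ∈ F ω := hx
    have h2 := iterate_mem hq' m ω _ h1
    change b ^ m • x + t ∈ F (σ^[m] ω)
    rwa [smul_add, htb] at h2

lemma exists_coprime_part {b : ℕ} (_hb : 2 ≤ b) (n : ℕ) (hn : 0 < n) :
    ∃ a d : ℕ, 0 < d ∧ Nat.Coprime b d ∧ n ∣ d * b ^ a := by
  induction n using Nat.strong_induction_on with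
  | _ n ih =>
    by_cases hc : Nat.Coprime b n
    · exact ⟨0, n, hn, hc, by simp⟩
    · set g := Nat.gcd b n with hg
      have hg1 : 1 < g := by
        have h0 : 0 < g := Nat.gcd_pos_of_pos_right _ hn
        have h1 : g ≠ 1 := hc
        omega
      obtain ⟨n', hn'⟩ := Nat.gcd_dvd_right b n
      rw [← hg] at hn'
      have hn'0 : 0 < n' := by
        rcases Nat.eq_zero_or_pos n' with h | h
        · rw [h] at hn'; omega
        · exact h
      have hlt : n' < n := by rw [hn']; nlinarith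
      obtain ⟨a, d, hd, hbd, hdvd⟩ := ih n' hlt hn'0
      refine ⟨a + 1, d, hd, hbd, ?_⟩
      rw [hn', pow_succ, ← mul_assoc, mul_comm g n']
      exact mul_dvd_mul hdvd (Nat.gcd_dvd_left b n)

/-- Berend's theorem for stationary random closed sets. -/
theorem stationary [CompactSpace X] [Nontrivial X] (T : Tor X) {A : X ≃+ X} {lam : ℝ}
    {l₁ l₂ : ℝ →+ X} (H : Hyperb A lam l₁ l₂) {b : ℕ} (hb : 2 ≤ b)
    (h : addOrderOf ((Real.logb lam b : ℝ) : Circ) = 0) {P : Measure Ω}
    [IsProbabilityMeasure P] {σ : Ω → Ω} (hσ : MeasurePreserving σ P P) {F : Ω → Set X}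
    (hF : ∀ ω, IsClosed (F ω)) (hm : Hit F) (hA : ∀ ω, ∀ x ∈ F ω, A x ∈ F ω)
    (hB : ∀ ω, ∀ x ∈ F ω, A.symm x ∈ F ω)
    (hq' : ∀ ω, ∀ x ∈ F ω, b • x ∈ F (σ ω)) : ∀ᵐ ω ∂P, (F ω).Finite ∨ F ω = univ := by
  have hD1 : ∀ ω, ∀ x ∈ Der F ω, A x ∈ Der F ω := fun ω x hx =>
    map_mem_Der (g := A.toAddMonoidHom) H.contA ⟨1, one_pos, fun u _ hu => by
      have : A u = 0 := hu
      exact (map_eq_zero_iff A A.injective).1 this⟩ (hA ω) hx
  have hD1' : ∀ ω, ∀ x ∈ Der F ω, A.symm x ∈ Der F ω := fun ω x hx =>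
    map_mem_Der (g := A.symm.toAddMonoidHom) H.contB ⟨1, one_pos, fun u _ hu => by
      have : A.symm u = 0 := hu
      exact (map_eq_zero_iff A.symm A.symm.injective).1 this⟩ (hB ω) hx
  have hD2 : ∀ ω, ∀ x ∈ Der F ω, b • x ∈ Der F (σ ω) := fun ω x hx =>
    map_mem_Der (g := nsmulAddMonoidHom b) (continuous_nsmul b) (ker_smul T (by omega)) (hq' ω) hx
  have e1 := exists_torsion T H hb h hσ (isClosed_Der F) (hit_Der hF hm) hD1 hD1' hD2
  -- the full set
  set U : Set Ω := {ω | F ω = univ} with hU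
  have hUm : MeasurableSet U := by
    obtain ⟨bs, hbc, hbe, hbs⟩ := TopologicalSpace.exists_countable_basis X
    have : U = ⋂ V ∈ bs, {ω | (F ω ∩ V).Nonempty} := by
      ext ω
      simp only [hU, mem_ofPred_eq, mem_iInter]
      constructor
      · intro h1 V hV
        rw [h1, univ_inter]
        exact nonempty_iff_ne_empty.2 (fun h0 => hbe (h0 ▸ hV))
      · intro h1
        have hd : Dense (F ω) := by
          rw [hbs.dense_iff]
          intro V hV _
          rw [inter_comm]; exact h1 V hV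
        rw [← (hF ω).closure_eq]; exact hd.closure_eq
    rw [this]
    exact MeasurableSet.biInter hbc fun V hV => hm V (hbs.isOpen hV)
  have hUsub : U ⊆ σ ⁻¹' U := by
    intro ω hω
    have hω' : F ω = univ := hω
    change F (σ ω) = univ
    refine eq_univ_of_forall fun y => ?_
    obtain ⟨z, hz⟩ := T.div b (by omega) y
    rw [← hz]
    exact hq' ω z (by rw [hω']; trivial)
  have hUback : ∀ᵐ ω ∂P, σ ω ∈ U → ω ∈ U := by
    have h1 : P (σ ⁻¹' U \ U) = 0 := by
      rw [measure_sdiff hUsub hUm.nullMeasurableSet (measure_ne_top P U),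
        hσ.measure_preimage hUm.nullMeasurableSet, tsub_self]
    rw [ae_iff]
    refine measure_mono_null ?_ h1
    intro ω hω
    simp only [mem_ofPred_eq, Classical.not_imp] at hω
    exact hω
  have hUback' : ∀ᵐ ω ∂P, ∀ a : ℕ, σ^[a] ω ∈ U → ω ∈ U := by
    rw [ae_all_iff]
    intro a
    induction a with
    | zero => exact Eventually.of_forall fun ω hω => hω
    | succ a ih =>
      have h2 := (hσ.iterate a).quasiMeasurePreserving.ae hUback
      filter_upwards [ih, h2] with ω h3 h4 h5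
      rw [Function.iterate_succ_apply'] at h5
      exact h3 (h4 h5)
  -- torsion points
  have e2 : ∀ᵐ ω ∂P, ∀ a : ℕ, ∀ t ∈ {w : X | IsOfFinAddOrder w}, ∀ d : ℕ, 0 < d →
      Nat.Coprime b d → d • t = 0 → t ∈ Der F (σ^[a] ω) → F (σ^[a] ω) = univ := by
    rw [ae_all_iff]; intro a
    rw [ae_ball_iff (torsion_countable T)]; intro t _
    rw [ae_all_iff]; intro d
    by_cases h1 : 0 < d
    · by_cases h2 : Nat.Coprime b d
      · by_cases h3 : d • t = 0
        · have h4 := acc_torsion T H hb h hσ hF hm hA hB hq' h1 h2 h3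
          have h5 := (hσ.iterate a).quasiMeasurePreserving.ae h4
          filter_upwards [h5] with ω hω _ _ _ using hω
        · exact Eventually.of_forall fun ω _ _ h4 => absurd h4 h3
      · exact Eventually.of_forall fun ω _ h3 => absurd h3 h2
    · exact Eventually.of_forall fun ω h3 => absurd h3 h1
  filter_upwards [e1, e2, hUback'] with ω h1 h2 h3
  by_cases hfin : (F ω).Finite
  · left; exact hfin
  right
  -- a torsion point in the derived set
  obtain ⟨t, htD, ht⟩ : ∃ t ∈ Der F ω, IsOfFinAddOrder t := by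
    by_cases hDinf : (Der F ω).Infinite
    · exact h1 hDinf
    · rw [Set.not_infinite] at hDinf
      obtain ⟨z, -, hz⟩ := Set.Infinite.exists_accPt_of_subset_isCompact (s := F ω)
        (K := univ) hfin isCompact_univ (subset_univ _)
      have hzD : z ∈ Der F ω := mem_Der_of_accPt Subset.rfl hz
      refine ⟨z, hzD, ?_⟩
      by_contra hcon
      exact (infinite_of_inv H (hD1 ω) hzD hcon) hDinf
  obtain ⟨n, hn, hnt⟩ := isOfFinAddOrder_iff_nsmul_eq_zero.1 ht
  obtain ⟨a, d, hd1, hd2, hd3⟩ := exists_coprime_part hb n hn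
  have h4 : b ^ a • t ∈ Der F (σ^[a] ω) := iterate_mem hD2 a ω t htD
  have h6 : d • b ^ a • t = 0 := by
    rw [smul_smul]
    obtain ⟨e, he⟩ := hd3
    rw [he, mul_comm, mul_smul, hnt, smul_zero]
  have h7 : IsOfFinAddOrder (b ^ a • t) :=
    isOfFinAddOrder_iff_nsmul_eq_zero.2 ⟨d, hd1, h6⟩
  exact h3 a (h2 a _ h7 d hd1 hd2 h6 h4)

/-- The version with hypotheses that hold almost everywhere. -/
theorem stationary_ae [CompactSpace X] [Nontrivial X] (T : Tor X) {A : X ≃+ X} {lam : ℝ}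
    {l₁ l₂ : ℝ →+ X} (H : Hyperb A lam l₁ l₂) {b : ℕ} (hb : 2 ≤ b)
    (h : addOrderOf ((Real.logb lam b : ℝ) : Circ) = 0) {P : Measure Ω}
    [IsProbabilityMeasure P] {σ : Ω → Ω} (hσ : MeasurePreserving σ P P) {F : Ω → Set X}
    (hF : ∀ ω, IsClosed (F ω)) (hm : Hit F) (hA : ∀ᵐ ω ∂P, ∀ x ∈ F ω, A x ∈ F ω)
    (hB : ∀ᵐ ω ∂P, ∀ x ∈ F ω, A.symm x ∈ F ω)
    (hq' : ∀ᵐ ω ∂P, ∀ x ∈ F ω, b • x ∈ F (σ ω)) : ∀ᵐ ω ∂P, (F ω).Finite ∨ F ω = univ := by
  classical
  obtain ⟨Z, hZsub, hZm, hZ0⟩ := exists_measurable_superset_of_null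
    (ae_iff.1 ((hA.and hB).and hq'))
  set G : Set Ω := ⋂ n : ℕ, (σ^[n]) ⁻¹' Zᶜ with hG
  have hGm : MeasurableSet G := MeasurableSet.iInter fun n => (hσ.iterate n).measurable hZm.compl
  have hGae : ∀ᵐ ω ∂P, ω ∈ G := by
    have : ∀ᵐ ω ∂P, ∀ n : ℕ, σ^[n] ω ∈ Zᶜ := by
      rw [ae_all_iff]; intro n
      have h0 : ∀ᵐ ω ∂P, ω ∈ Zᶜ := by
        rw [ae_iff]; simpa using hZ0
      exact (hσ.iterate n).quasiMeasurePreserving.ae h0
    filter_upwards [this] with ω hω
    rw [hG, mem_iInter]; exact hω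
  have hGσ : ∀ ω ∈ G, σ ω ∈ G := by
    intro ω hω
    rw [hG, mem_iInter] at hω ⊢
    intro n
    have := hω (n + 1)
    rwa [mem_preimage, Function.iterate_succ_apply] at this
  have hGood : ∀ ω ∈ G, ((∀ x ∈ F ω, A x ∈ F ω) ∧ (∀ x ∈ F ω, A.symm x ∈ F ω)) ∧
      ∀ x ∈ F ω, b • x ∈ F (σ ω) := by
    intro ω hω
    rw [hG, mem_iInter] at hω
    have h0 : ω ∉ Z := by simpa using hω 0
    by_contra hcon
    exact h0 (hZsub hcon)
  have key := stationary T H hb h hσ (F := fun ω => if ω ∈ G then F ω else ∅) ?_ ?_ ?_ ?_ ?_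
  · filter_upwards [key, hGae] with ω h1 h2
    simpa [h2] using h1
  · intro ω
    by_cases hω : ω ∈ G
    · simp [hω, hF ω]
    · simp [hω]
  · intro V hV
    have : {ω | ((if ω ∈ G then F ω else ∅) ∩ V).Nonempty} = G ∩ {ω | (F ω ∩ V).Nonempty} := by
      ext ω
      by_cases hω : ω ∈ G
      · simp [hω]
      · simp [hω]
    rw [this]
    exact hGm.inter (hm V hV)
  · intro ω x hx
    by_cases hω : ω ∈ G
    · simp only [hω, if_true] at hx ⊢
      exact (hGood ω hω).1.1 x hx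
    · simp [hω] at hx
  · intro ω x hx
    by_cases hω : ω ∈ G
    · simp only [hω, if_true] at hx ⊢
      exact (hGood ω hω).1.2 x hx
    · simp [hω] at hx
  · intro ω x hx
    by_cases hω : ω ∈ G
    · simp only [hω, if_true, hGσ ω hω] at hx ⊢
      exact (hGood ω hω).2 x hx
    · simp [hω] at hx

end Pool.Agent.W765.Hb
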