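import Mathlib
import Pool.Agent.W765.KB

set_option autoImplicit false

open MeasureTheory Filter Topology Set BoundedContinuousFunction

namespace Pool.Agent.W765.KB

/-- Krylov-Bogoliubov along pieces of orbits of varying points. -/
theorem kb2 {X : Type*} [TopologicalSpace X] [CompactSpace X] [T2Space X] [HasOuterApproxClosed X]
    [MeasurableSpace X] [BorelSpace X] {f : X → X} (hf : Continuous f) (x : ℕ → X) (s n : ℕ → ℕ)
    (hn : Tendsto n atTop atTop) (hpos : ∀ L, 0 < n L) :
    ∃ P : Measure X, IsProbabilityMeasure P ∧ MeasurePreserving f P P ∧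
      ∀ G : Set X, IsOpen G → ∀ c : ENNReal, (∀ᶠ L in atTop, emp f (x L) (s L) (n L) G ≤ c) →
        P G ≤ c := by
  have hprob : ∀ L, IsProbabilityMeasure (emp f (x L) (s L) (n L)) := fun L => emp_prob (hpos L)
  set Q : ℕ → ProbabilityMeasure X := fun L => ⟨emp f (x L) (s L) (n L), hprob L⟩ with hQ
  set U : Ultrafilter ℕ := hyperfilter ℕ with hU
  have hUle : (U : Filter ℕ) ≤ atTop := by
    rw [hU, ← Nat.cofinite_eq_atTop]; exact hyperfilter_le_cofinite
  obtain ⟨P, -, hP⟩ := isCompact_univ.ultrafilter_le_nhds (U.map Q) (by simp)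
  have hlim : Tendsto Q U (𝓝 P) := hP
  refine ⟨P, inferInstance, ⟨hf.measurable, ?_⟩, ?_⟩
  · have hmapP : IsProbabilityMeasure (Measure.map f (P : Measure X)) :=
      Measure.isProbabilityMeasure_map hf.measurable.aemeasurable
    refine ext_of_forall_integral_eq_of_IsFiniteMeasure fun g => ?_
    rw [integral_map hf.measurable.aemeasurable g.continuous.aestronglyMeasurable]
    have h1 := (ProbabilityMeasure.tendsto_iff_forall_integral_tendsto.1 hlim) g
    have h2 := (ProbabilityMeasure.tendsto_iff_forall_integral_tendsto.1 hlim)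
      (g.compContinuous ⟨f, hf⟩)
    have h3 := h2.sub h1
    have h4 : Tendsto (fun L => (∫ y, (g.compContinuous ⟨f, hf⟩) y ∂(Q L : Measure X)) -
        ∫ y, g y ∂(Q L : Measure X)) U (𝓝 0) := by
      have h5 : ∀ L, |(∫ y, (g.compContinuous ⟨f, hf⟩) y ∂(Q L : Measure X)) -
          ∫ y, g y ∂(Q L : Measure X)| ≤ 2 * ‖g‖ / n L := by
        intro L
        have e1 : ∫ y, (g.compContinuous ⟨f, hf⟩) y ∂(Q L : Measure X) =
            (n L : ℝ)⁻¹ * ∑ i ∈ Finset.range (n L), g (f^[s L + (i + 1)] (x L)) := by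
          have := emp_integral (f := f) (x := x L) (s := s L) (n := n L) (g.compContinuous ⟨f, hf⟩)
          refine this.trans ?_
          congr 1
          refine Finset.sum_congr rfl fun i _ => ?_
          simp only [BoundedContinuousFunction.compContinuous_apply, ContinuousMap.coe_mk]
          rw [← Function.iterate_succ_apply' f]
          rfl
        have e2 : ∫ y, g y ∂(Q L : Measure X) =
            (n L : ℝ)⁻¹ * ∑ i ∈ Finset.range (n L), g (f^[s L + i] (x L)) :=
          emp_integral (f := f) (x := x L) (s := s L) (n := n L) g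
        rw [e1, e2, ← mul_sub, ← Finset.sum_sub_distrib,
          Finset.sum_range_sub (fun i => g (f^[s L + i] (x L))) (n L), abs_mul, abs_inv,
          abs_of_nonneg (Nat.cast_nonneg (n L) : (0 : ℝ) ≤ n L), div_eq_inv_mul]
        have e3 : |g (f^[s L + n L] (x L)) - g (f^[s L + 0] (x L))| ≤ 2 * ‖g‖ := by
          have a1 := g.norm_coe_le_norm (f^[s L + n L] (x L))
          have a2 := g.norm_coe_le_norm (f^[s L + 0] (x L))
          have a3 := norm_sub_le (g (f^[s L + n L] (x L))) (g (f^[s L + 0] (x L)))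
          rw [← Real.norm_eq_abs]
          linarith
        gcongr
      have h6 : Tendsto (fun L => 2 * ‖g‖ / (n L : ℝ)) U (𝓝 0) := by
        have : Tendsto (fun L => 2 * ‖g‖ / (n L : ℝ)) atTop (𝓝 0) :=
          tendsto_const_nhds.div_atTop (tendsto_natCast_atTop_atTop.comp hn)
        exact this.mono_left hUle
      exact squeeze_zero_norm h5 h6
    have h7 := tendsto_nhds_unique h3 h4
    have h8 : ∫ y, (g.compContinuous ⟨f, hf⟩) y ∂(P : Measure X) = ∫ y, g (f y) ∂(P : Measure X) := rfl
    rw [h8] at h7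
    linarith
  · intro G hG c hc
    have h1 := ProbabilityMeasure.le_liminf_measure_open_of_tendsto hlim hG
    refine h1.trans ?_
    have hc' : ∀ᶠ L in (U : Filter ℕ), emp f (x L) (s L) (n L) G ≤ c := hUle hc
    refine (Filter.liminf_le_liminf (v := fun _ => c) (hc'.mono fun L hL => hL)).trans ?_
    simp
end Pool.Agent.W765.KB
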