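import Mathlib
import Pool.Agent.W765.Hb4
import Pool.Agent.W765.KB2

set_option autoImplicit false

open MeasureTheory Filter Topology Set TopologicalSpace

namespace Pool.Agent.W765.Hb

open Pool.Agent.H705R2 Pool.Agent.W765.KB

variable {X : Type*} [NormedAddCommGroup X]

noncomputable local instance : MeasurableSpace (NonemptyCompacts X) := borel _
local instance : BorelSpace (NonemptyCompacts X) := ⟨rfl⟩

/-- image under multiplication by `q` -/
def mulq (X : Type*) [NormedAddCommGroup X] (q : ℕ) : NonemptyCompacts X → NonemptyCompacts X :=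
  NonemptyCompacts.map (fun x : X => q • x) (continuous_nsmul q)

lemma continuous_mulq (q : ℕ) : Continuous (mulq X q) :=
  (continuous_nsmul q).nonemptyCompacts_map

lemma coe_mulq (q : ℕ) (E : NonemptyCompacts X) :
    ((mulq X q E : NonemptyCompacts X) : Set X) = (fun x : X => q • x) '' E := rfl

lemma coe_iterate (q : ℕ) (E : NonemptyCompacts X) (j : ℕ) :
    (((mulq X q)^[j] E : NonemptyCompacts X) : Set X) = (fun x : X => q ^ j • x) '' E := by
  induction j with
  | zero => simp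
  | succ j ih =>
    rw [Function.iterate_succ_apply', coe_mulq, ih, image_image]
    refine image_congr fun x _ => ?_
    simp only [pow_succ', mul_smul]

/-- forward invariance is a closed condition -/
lemma isClosed_inv {g : X → X} (hg : Continuous g) :
    IsClosed {E : NonemptyCompacts X | ∀ x ∈ (E : Set X), g x ∈ (E : Set X)} := by
  rw [← isOpen_compl_iff, isOpen_iff_forall_mem_open]
  intro E hE
  simp only [mem_compl_iff, mem_ofPred_eq, not_forall] at hE
  obtain ⟨x, hx, hpx⟩ := hE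
  obtain ⟨A, B, hA, hB, hA', hB', hAB⟩ := SeparatedNhds.of_isCompact_isCompact
    (isCompact_singleton (x := g x)) E.isCompact (by rw [disjoint_singleton_left]; exact hpx)
  refine ⟨{E' : NonemptyCompacts X | ((E' : Set X) ∩ g ⁻¹' A).Nonempty} ∩
    {E' : NonemptyCompacts X | (E' : Set X) ⊆ B}, ?_, ?_, ?_⟩
  · rintro E' ⟨⟨y, hy, hyA⟩, hEB⟩ hinv
    exact (disjoint_left.1 hAB hyA) (hEB (hinv y hy))
  · exact (NonemptyCompacts.isOpen_inter_nonempty_of_isOpen (hA.preimage hg)).inter
      (NonemptyCompacts.isOpen_subsets_of_isOpen hB)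
  · exact ⟨⟨x, hx, hA' rfl⟩, hB'⟩

lemma hit_coe : Hit (fun E : NonemptyCompacts X => (E : Set X)) := by
  intro V hV
  exact (NonemptyCompacts.isOpen_inter_nonempty_of_isOpen hV).measurableSet

open Classical in
/-- Uniform Banach density version of Berend's theorem. -/
theorem uniform [CompactSpace X] [Nontrivial X] (T : Tor X) {A : X ≃+ X} {lam : ℝ}
    {l₁ l₂ : ℝ →+ X} (H : Hyperb A lam l₁ l₂) {b : ℕ} (hb : 2 ≤ b)
    (h : addOrderOf ((Real.logb lam b : ℝ) : Circ) = 0) {U : Set X}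
    (hU : IsOpen U) (hUne : U.Nonempty) {δ : ℝ} (hδ : 0 < δ) :
    ∃ M : ℕ, ∀ K : Set X, IsClosed K → K.Nonempty → (∀ x ∈ K, A x ∈ K) → (∀ x ∈ K, A.symm x ∈ K) →
      (∀ j : ℕ, (M : ℕ∞) ≤ ((fun x : X => b ^ j • x) '' K).encard) →
      ∀ s n : ℕ, M ≤ n →
      (((Finset.range n).filter (fun i => ∀ x ∈ K, b ^ (s + i) • x ∉ U)).card : ℝ)
        ≤ δ * n := by
  by_contra hcon
  push Not at hcon
  choose K' hKcl hKne hKinv' hKinv2' hKcard' s n hn hcard using fun L : ℕ => hcon (L + 1)
  set K : ℕ → NonemptyCompacts X := fun L => ⟨⟨K' L, (hKcl L).isCompact⟩, hKne L⟩ with hK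
  have hKcoe : ∀ L, (K L : Set X) = K' L := fun L => rfl
  have hKinv : ∀ L, ∀ x ∈ (K L : Set X), A x ∈ (K L : Set X) := hKinv'
  have hKinv2 : ∀ L, ∀ x ∈ (K L : Set X), A.symm x ∈ (K L : Set X) := hKinv2'
  have hn0 : ∀ L, 0 < n L := fun L => by have := hn L; omega
  have hnt : Tendsto n atTop atTop :=
    tendsto_atTop_mono (fun L => by have := hn L; simp only [id]; omega) tendsto_id
  obtain ⟨P, hP, hPi, hPG⟩ := kb2 (continuous_mulq (X := X) b) K s n hnt hn0
  have hinvj : ∀ L j : ℕ, ∀ x ∈ (((mulq X b)^[j] (K L) : NonemptyCompacts X) : Set X),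
      A x ∈ (((mulq X b)^[j] (K L) : NonemptyCompacts X) : Set X) := by
    intro L j
    rw [coe_iterate]
    rintro _ ⟨x, hx, rfl⟩
    exact ⟨A x, hKinv L x hx, (map_nsmul A _ _).symm⟩
  have hinvj2 : ∀ L j : ℕ, ∀ x ∈ (((mulq X b)^[j] (K L) : NonemptyCompacts X) : Set X),
      A.symm x ∈ (((mulq X b)^[j] (K L) : NonemptyCompacts X) : Set X) := by
    intro L j
    rw [coe_iterate]
    rintro _ ⟨x, hx, rfl⟩
    exact ⟨A.symm x, hKinv2 L x hx, (map_nsmul A.symm _ _).symm⟩
  have hPinv : ∀ᵐ E : NonemptyCompacts X ∂P, ∀ x ∈ (E : Set X), A x ∈ (E : Set X) := by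
    rw [ae_iff]
    refine le_antisymm (hPG _ (isClosed_inv H.contA).isOpen_compl 0
      (Eventually.of_forall fun L => ?_)) zero_le
    rw [emp_eq_zero (isClosed_inv H.contA).isOpen_compl.measurableSet]
    intro i hi
    exact hi (hinvj L _)
  have hPinv2 : ∀ᵐ E : NonemptyCompacts X ∂P, ∀ x ∈ (E : Set X), A.symm x ∈ (E : Set X) := by
    rw [ae_iff]
    refine le_antisymm (hPG _ (isClosed_inv H.contB).isOpen_compl 0
      (Eventually.of_forall fun L => ?_)) zero_le
    rw [emp_eq_zero (isClosed_inv H.contB).isOpen_compl.measurableSet]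
    intro i hi
    exact hi (hinvj2 L _)
  have hPinf : P {E : NonemptyCompacts X | ((∀ x ∈ (E : Set X), A x ∈ (E : Set X)) ∧
      (∀ x ∈ (E : Set X), A.symm x ∈ (E : Set X))) ∧ (E : Set X).Finite} = 0 := by
    refine measure_null_of_locally_null _ ?_
    rintro E ⟨⟨hEinv, hEinv2⟩, hEfin⟩
    obtain ⟨c, hc, hexp⟩ := expansive H hEfin hEinv hEinv2
    have hopen := NonemptyCompacts.isOpen_subsets_of_isOpen
      (Metric.isOpen_thickening (δ := c) (E := (E : Set X)))
    refine ⟨_, mem_nhdsWithin_of_mem_nhds (hopen.mem_nhds (Metric.self_subset_thickening hc _)), ?_⟩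
    refine le_antisymm (hPG _ hopen 0 ?_) zero_le
    filter_upwards [eventually_ge_atTop (E : Set X).ncard] with L hL
    rw [emp_eq_zero hopen.measurableSet]
    intro i hi
    have h2 := hexp _ (hinvj L _) (hinvj2 L _) hi
    rw [coe_iterate] at h2
    have h3 := (hKcard' L (s L + i)).trans (encard_le_encard h2)
    rw [← hEfin.cast_ncard_eq] at h3
    have h4 : L + 1 ≤ (E : Set X).ncard := by exact_mod_cast h3
    omega
  have hst := stationary_ae T H hb h hPi (F := fun E : NonemptyCompacts X => (E : Set X))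
    (fun E => E.isCompact.isClosed) hit_coe hPinv hPinv2
    (Eventually.of_forall fun E x hx => ⟨x, hx, rfl⟩)
  have hPinf' : ∀ᵐ E : NonemptyCompacts X ∂P, ¬ (((∀ x ∈ (E : Set X), A x ∈ (E : Set X)) ∧
      (∀ x ∈ (E : Set X), A.symm x ∈ (E : Set X))) ∧ (E : Set X).Finite) := by
    rw [ae_iff]; simp only [not_not]; exact hPinf
  have hall : ∀ᵐ E ∂P, E ∈ {E : NonemptyCompacts X | ((E : Set X) ∩ U).Nonempty} := by
    filter_upwards [hst, hPinv, hPinv2, hPinf'] with E h1 h2 h2' h3
    rcases h1 with h1 | h1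
    · exact absurd ⟨⟨h2, h2'⟩, h1⟩ h3
    · change ((E : Set X) ∩ U).Nonempty
      rw [h1, univ_inter]; exact hUne
  have hG := NonemptyCompacts.isOpen_inter_nonempty_of_isOpen hU
  have h1 : P {E : NonemptyCompacts X | ((E : Set X) ∩ U).Nonempty} = 1 :=
    (mem_ae_iff_prob_eq_one hG.measurableSet).1 hall
  have h2 := hPG _ hG (ENNReal.ofReal (1 - δ)) (Eventually.of_forall fun L => ?_)
  · rw [h1] at h2
    have : ENNReal.ofReal (1 - δ) < 1 := by
      rw [ENNReal.ofReal_lt_one]; linarith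
    exact absurd h2 (not_le.2 this)
  · rw [emp_apply hG.measurableSet]
    have h3 := Finset.card_filter_add_card_filter_not (s := Finset.range (n L))
      (fun i => ∀ x ∈ K' L, b ^ (s L + i) • x ∉ U)
    rw [Finset.card_range] at h3
    have h4 : (Finset.range (n L)).filter (fun i => (mulq X b)^[s L + i] (K L) ∈
        {E : NonemptyCompacts X | ((E : Set X) ∩ U).Nonempty}) =
        (Finset.range (n L)).filter (fun i => ¬ ∀ x ∈ K' L, b ^ (s L + i) • x ∉ U) := by
      refine Finset.filter_congr fun i _ => ?_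
      change ((((mulq X b)^[s L + i] (K L) : NonemptyCompacts X) : Set X) ∩ U).Nonempty ↔ _
      rw [coe_iterate]
      push Not
      constructor
      · rintro ⟨_, ⟨x, hx, rfl⟩, hxU⟩; exact ⟨x, hx, hxU⟩
      · rintro ⟨x, hx, hxU⟩; exact ⟨_, ⟨x, hx, rfl⟩, hxU⟩
    rw [h4]
    have h5 := hcard L
    set a := ((Finset.range (n L)).filter (fun i => ∀ x ∈ K' L, b ^ (s L + i) • x ∉ U)).card with ha
    set c := ((Finset.range (n L)).filter (fun i => ¬ ∀ x ∈ K' L, b ^ (s L + i) • x ∉ U)).card with hc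
    have hnR : (0 : ℝ) < n L := by exact_mod_cast hn0 L
    have h6 : (c : ℝ) / n L ≤ 1 - δ := by
      have h7 : (a : ℝ) + c = n L := by exact_mod_cast h3
      rw [div_le_iff₀ hnR]; nlinarith
    calc ((n L : ENNReal))⁻¹ * c = ENNReal.ofReal ((c : ℝ) / n L) := by
          rw [ENNReal.ofReal_div_of_pos hnR, ENNReal.ofReal_natCast, ENNReal.ofReal_natCast,
            ENNReal.div_eq_inv_mul]
      _ ≤ ENNReal.ofReal (1 - δ) := ENNReal.ofReal_le_ofReal h6

open Classical in
/-- the infinite case -/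
theorem uniform_infinite [CompactSpace X] [Nontrivial X] (T : Tor X) {A : X ≃+ X} {lam : ℝ}
    {l₁ l₂ : ℝ →+ X} (H : Hyperb A lam l₁ l₂) {b : ℕ} (hb : 2 ≤ b)
    (h : addOrderOf ((Real.logb lam b : ℝ) : Circ) = 0) {U : Set X}
    (hU : IsOpen U) (hUne : U.Nonempty) {δ : ℝ} (hδ : 0 < δ) :
    ∃ M : ℕ, ∀ K : Set X, IsClosed K → (∀ x ∈ K, A x ∈ K) → (∀ x ∈ K, A.symm x ∈ K) →
      K.Infinite → ∀ s n : ℕ, M ≤ n →
      (((Finset.range n).filter (fun i => ∀ x ∈ K, b ^ (s + i) • x ∉ U)).card : ℝ)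
        ≤ δ * n := by
  obtain ⟨M, hM⟩ := uniform T H hb h hU hUne hδ
  refine ⟨M, fun K hK hA hB hinf s n hn => hM K hK hinf.nonempty hA hB (fun j => ?_) s n hn⟩
  have hbj : 0 < b ^ j := by positivity
  have : ((fun x : X => b ^ j • x) '' K).Infinite := by
    intro hfin
    apply hinf
    refine Set.Finite.of_finite_fibers (fun x : X => b ^ j • x) hfin fun y _ => ?_
    by_cases hne : ∃ z ∈ K, b ^ j • z = y
    · obtain ⟨z, hz, hzy⟩ := hne
      refine ((T.fin _ hbj).image (fun u => u + z)).subset ?_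
      rintro w ⟨hw, hwy⟩
      refine ⟨w - z, ?_, by simp⟩
      have hwy' : b ^ j • w = y := hwy
      change b ^ j • (w - z) = 0
      rw [smul_sub, hwy', hzy, sub_self]
    · push Not at hne
      have : K ∩ (fun x : X => b ^ j • x) ⁻¹' {y} = ∅ := by
        ext w
        simp only [mem_inter_iff, mem_preimage, mem_singleton_iff, mem_empty_iff_false, iff_false,
          not_and]
        exact hne w
      rw [this]; exact finite_empty
  rw [this.encard_eq]; exact le_top

end Pool.Agent.W765.Hb
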