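import Mathlib
import Pool.Agent.W765.Hb5

set_option autoImplicit false

open MeasureTheory Filter Topology Set TopologicalSpace

namespace Pool.Agent.W765.Hb

open Pool.Agent.H705R2 Pool.Agent.W765.KB

variable {X : Type*} [NormedAddCommGroup X]

/-- the limit set of a forward orbit -/
def lim (A : X ≃+ X) (x : X) : Set X := {y | MapClusterPt y atTop (fun m : ℕ => A^[m] x)}

lemma isClosed_lim (A : X ≃+ X) (x : X) : IsClosed (lim A x) := isClosed_setOfPred_clusterPt

lemma lim_inv {A : X ≃+ X} (hA : Continuous A) {x y : X} (hy : y ∈ lim A x) : A y ∈ lim A x := by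
  have h1 : MapClusterPt (A y) atTop (A ∘ fun m : ℕ => A^[m] x) :=
    MapClusterPt.continuousAt_comp hA.continuousAt hy
  have h2 : (A ∘ fun m : ℕ => A^[m] x) = (fun m : ℕ => A^[m] x) ∘ (fun m => m + 1) := by
    funext m
    simp only [Function.comp, Function.iterate_succ_apply']
  rw [h2] at h1
  exact h1.of_comp (tendsto_add_atTop_nat 1)

lemma lim_inv_symm {A : X ≃+ X} (hB : Continuous A.symm) {x y : X} (hy : y ∈ lim A x) :
    A.symm y ∈ lim A x := by
  have hy' : MapClusterPt y atTop ((fun m : ℕ => A^[m] x) ∘ (fun m => m + 1)) := by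
    change ClusterPt y (map _ atTop)
    rw [← Filter.map_map, map_add_atTop_eq_nat]
    exact hy
  have h1 := MapClusterPt.continuousAt_comp hB.continuousAt hy'
  have h2 : (A.symm ∘ ((fun m : ℕ => A^[m] x) ∘ (fun m => m + 1))) = fun m : ℕ => A^[m] x := by
    funext m
    simp only [Function.comp, Function.iterate_succ_apply', AddEquiv.symm_apply_apply]
  rw [h2] at h1
  exact h1

lemma frequently_of_lim {A : X ≃+ X} {x y : X} (hy : y ∈ lim A x) {U : Set X} (hU : IsOpen U)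
    {g : X → X} (hg : Continuous g) (hgy : g y ∈ U) : ∃ᶠ m : ℕ in atTop, g (A^[m] x) ∈ U := by
  have : ∀ᶠ z in 𝓝 y, g z ∈ U := hg.continuousAt (hU.mem_nhds hgy)
  exact MapClusterPt.frequently hy this

/-- if the limit set is finite, then a multiple of the orbit tends to zero -/
lemma tendsto_of_finite [CompactSpace X] [Nontrivial X] {A : X ≃+ X} {lam : ℝ} {l₁ l₂ : ℝ →+ X}
    (H : Hyperb A lam l₁ l₂) {x : X} (hfin : (lim A x).Finite) :
    ∃ d : ℕ, 0 < d ∧ Tendsto (fun m : ℕ => d • A^[m] x) atTop (𝓝 0) := by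
  have htor : ∀ y ∈ lim A x, IsOfFinAddOrder y := by
    intro y hy
    by_contra hcon
    exact infinite_of_inv H (fun z hz => lim_inv H.contA hz) hy hcon hfin
  obtain ⟨d, hd, hdy⟩ : ∃ d : ℕ, 0 < d ∧ ∀ y ∈ lim A x, d • y = 0 := by
    refine ⟨∏ y ∈ hfin.toFinset, addOrderOf y, ?_, ?_⟩
    · refine Finset.prod_pos fun y hy => ?_
      exact (htor y (hfin.mem_toFinset.1 hy)).addOrderOf_pos
    · intro y hy
      rw [← addOrderOf_dvd_iff_nsmul_eq_zero]
      exact Finset.dvd_prod_of_mem _ (hfin.mem_toFinset.2 hy)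
  refine ⟨d, hd, ?_⟩
  rw [tendsto_iff_ultrafilter]
  intro g hg
  obtain ⟨y, -, hy⟩ := isCompact_univ.ultrafilter_le_nhds (g.map fun m : ℕ => A^[m] x) (by simp)
  have hy' : Tendsto (fun m : ℕ => A^[m] x) g (𝓝 y) := hy
  have hyl : y ∈ lim A x := mapClusterPt_iff_ultrafilter.2 ⟨g, hg, hy'⟩
  have h1 := ((continuous_nsmul d).tendsto y).comp hy'
  rw [hdy y hyl] at h1
  exact h1

open Classical in
/-- The uniform theorem for orbits. -/
theorem uniform_orbit [CompactSpace X] [Nontrivial X] (T : Tor X) {A : X ≃+ X} {lam : ℝ}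
    {l₁ l₂ : ℝ →+ X} (H : Hyperb A lam l₁ l₂) {b : ℕ} (hb : 2 ≤ b)
    (h : addOrderOf ((Real.logb lam b : ℝ) : Circ) = 0) {U : Set X}
    (hU : IsOpen U) (hUne : U.Nonempty) {δ : ℝ} (hδ : 0 < δ) :
    ∃ M : ℕ, ∀ x : X, (∃ d : ℕ, 0 < d ∧ Tendsto (fun m : ℕ => d • A^[m] x) atTop (𝓝 0)) ∨
      ∀ s n : ℕ, M ≤ n →
      (((Finset.range n).filter
        (fun i => ¬ ∃ᶠ m : ℕ in atTop, b ^ (s + i) • A^[m] x ∈ U)).card : ℝ) ≤ δ * n := by
  obtain ⟨M, hM⟩ := uniform_infinite T H hb h hU hUne hδ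
  refine ⟨M, fun x => ?_⟩
  by_cases hfin : (lim A x).Finite
  · left; exact tendsto_of_finite H hfin
  right
  intro s n hn
  refine le_trans ?_ (hM (lim A x) (isClosed_lim A x) (fun z hz => lim_inv H.contA hz)
    (fun z hz => lim_inv_symm H.contB hz) hfin s n hn)
  have hsub : (Finset.range n).filter (fun i => ¬ ∃ᶠ m : ℕ in atTop, b ^ (s + i) • A^[m] x ∈ U) ⊆
      (Finset.range n).filter (fun i => ∀ y ∈ lim A x, b ^ (s + i) • y ∉ U) := by
    intro i hi
    rw [Finset.mem_filter] at hi ⊢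
    refine ⟨hi.1, fun y hy hyU => hi.2 ?_⟩
    exact frequently_of_lim hy hU (continuous_nsmul (b ^ (s + i))) hyU
  exact_mod_cast Finset.card_le_card hsub

end Pool.Agent.W765.Hb
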