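import Mathlib
import Pool.Agent.W765.Hb6

set_option autoImplicit false

open MeasureTheory Filter Topology Set TopologicalSpace

namespace Pool.Agent.W765.Hb

open Pool.Agent.H705R2

/-- the two dimensional torus -/
abbrev T2 : Type := Fin 2 → Circ

lemma half_ne : (((1 / 2 : ℝ) : ℝ) : Circ) ≠ 0 := by
  intro h
  rw [AddCircle.coe_eq_zero_iff] at h
  obtain ⟨n, hn⟩ := h
  simp only [zsmul_eq_mul, mul_one] at hn
  have h1 : (2 : ℝ) * n = 1 := by rw [hn]; norm_num
  have h2 : 2 * n = 1 := by exact_mod_cast h1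
  omega

instance : Nontrivial T2 := ⟨⟨0, fun _ => ((1 / 2 : ℝ) : Circ), fun h => half_ne (congrFun h 0).symm⟩⟩

/-- representatives of absolute value equal to the norm -/
lemma exists_rep (u : Circ) : ∃ r : ℝ, (r : Circ) = u ∧ |r| = ‖u‖ := by
  obtain ⟨x, rfl⟩ := QuotientAddGroup.mk_surjective u
  refine ⟨x - round x, ?_, ?_⟩
  · have : ((x - round x : ℝ) : Circ) = (x : Circ) - ((round x : ℝ) : Circ) := AddCircle.coe_sub _ _ _
    rw [this]
    have h2 : (((round x : ℤ) : ℝ) : Circ) = 0 := by
      rw [AddCircle.coe_eq_zero_iff]; exact ⟨round x, by simp⟩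
    rw [h2, sub_zero]
  · exact (UnitAddCircle.norm_eq (x := x)).symm

lemma norm_coe_le (r : ℝ) : ‖(r : Circ)‖ ≤ |r| := by
  rw [UnitAddCircle.norm_eq]
  have := round_le r 0
  simpa using this

lemma circ_div (n : ℕ) (hn : 0 < n) (x : Circ) : ∃ y : Circ, n • y = x := by
  obtain ⟨r, rfl⟩ := QuotientAddGroup.mk_surjective x
  refine ⟨((r / n : ℝ) : Circ), ?_⟩
  rw [← AddCircle.coe_nsmul, nsmul_eq_mul]
  have : (n : ℝ) ≠ 0 := by positivity
  congr 1
  field_simp

/-- the torsion points `k / N` are `1 / N`-dense -/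
lemma circ_near {N : ℕ} (hN : 0 < N) (z : Circ) : ∃ s : Circ, N • s = 0 ∧ dist z s ≤ 1 / N := by
  have hNR : (0 : ℝ) < N := by exact_mod_cast hN
  obtain ⟨r, rfl⟩ := QuotientAddGroup.mk_surjective z
  refine ⟨(((round (r * N) : ℤ) / N : ℝ) : Circ), ?_, ?_⟩
  · rw [← AddCircle.coe_nsmul, AddCircle.coe_eq_zero_iff]
    refine ⟨round (r * N), ?_⟩
    simp only [zsmul_eq_mul, nsmul_eq_mul, mul_one]
    field_simp
  · rw [dist_eq_norm]
    have h1 : ((r : ℝ) : Circ) - (((round (r * N) : ℤ) / N : ℝ) : Circ) =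
        ((r - (round (r * N) : ℤ) / N : ℝ) : Circ) := (AddCircle.coe_sub _ _ _).symm
    refine (le_of_eq (congrArg norm h1)).trans ((norm_coe_le _).trans ?_)
    have h2 : r - (round (r * N) : ℤ) / N = (r * N - round (r * N)) / N := by field_simp
    rw [h2, abs_div, abs_of_pos hNR]
    have h3 := abs_sub_round (r * N)
    gcongr
    linarith

lemma torT2 : Tor T2 where
  fin := fun n hn => by
    have h1 : {x : T2 | n • x = 0} ⊆ Set.univ.pi fun _ => {u : Circ | n • u = 0} := by
      intro x hx i _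
      have := congrFun hx i
      simpa using this
    exact (Set.Finite.pi fun _ => AddCircle.finite_torsion (1 : ℝ) hn).subset h1
  dense := fun b hb ε hε => by
    obtain ⟨k, hk⟩ := exists_nat_one_div_lt hε
    refine ⟨b * (k + 1) + 1, Nat.succ_pos _, by simp, fun z => ?_⟩
    choose s hs1 hs2 using fun i : Fin 2 => circ_near (Nat.succ_pos (b * (k + 1))) (z i)
    refine ⟨s, by ext i; simpa using hs1 i, ?_⟩
    refine lt_of_le_of_lt ?_ hk
    rw [dist_pi_le_iff (by positivity)]
    intro i
    refine (hs2 i).trans ?_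
    apply one_div_le_one_div_of_le (by positivity)
    have : (k : ℝ) + 1 ≤ b * (k + 1) := by
      have hb' : (1 : ℝ) ≤ b := by exact_mod_cast hb
      nlinarith
    push_cast
    linarith
  div := fun n hn x => by
    choose y hy using fun i : Fin 2 => circ_div n hn (x i)
    exact ⟨y, by ext i; simpa using hy i⟩

/-- the line with slope `κ` -/
noncomputable def line (κ : ℝ) : ℝ →+ T2 where
  toFun := fun y => ![((κ * y : ℝ) : Circ), (y : Circ)]
  map_zero' := by ext i; fin_cases i <;> simp
  map_add' := fun x y => by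
    ext i
    fin_cases i
    · simp [mul_add]
    · simp

lemma line_apply (κ y : ℝ) : line κ y = ![((κ * y : ℝ) : Circ), (y : Circ)] := rfl

lemma continuous_line (κ : ℝ) : Continuous (line κ) := by
  have : (line κ : ℝ → T2) = fun y => ![((κ * y : ℝ) : Circ), (y : Circ)] := rfl
  rw [this]
  refine continuous_pi fun i => ?_
  fin_cases i
  · exact (AddCircle.continuous_mk' (1 : ℝ)).comp (continuous_const.mul continuous_id)
  · exact AddCircle.continuous_mk' (1 : ℝ)

lemma dense_line {κ : ℝ} (hκ : Irrational κ) : DenseRange (line κ) := by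
  have hd : DenseRange fun n : ℤ => n • (κ : Circ) := by
    rw [AddCircle.denseRange_zsmul_coe_iff]; simpa using hκ
  intro x
  rw [Metric.mem_closure_iff]
  intro ε hε
  obtain ⟨r, hr, -⟩ := exists_rep (x 1)
  obtain ⟨n, hn⟩ := hd.exists_dist_lt (x 0 - ((κ * r : ℝ) : Circ)) hε
  refine ⟨_, ⟨r + n, rfl⟩, ?_⟩
  rw [dist_pi_lt_iff hε]
  intro i
  fin_cases i
  · change dist (x 0) (((κ * (r + n) : ℝ) : Circ)) < ε
    have h1 : (((κ * (r + n) : ℝ)) : Circ) = ((κ * r : ℝ) : Circ) + n • (κ : Circ) := by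
      rw [← AddCircle.coe_zsmul, ← AddCircle.coe_add]
      congr 1
      simp only [zsmul_eq_mul]; ring
    rw [h1, dist_eq_norm]
    rw [dist_eq_norm] at hn
    have h2 : x 0 - (((κ * r : ℝ) : Circ) + n • (κ : Circ)) = x 0 - ((κ * r : ℝ) : Circ) - n • (κ : Circ) := by
      abel
    rw [h2]; exact hn
  · change dist (x 1) (((r + n : ℝ)) : Circ) < ε
    have h1 : ((r + n : ℝ) : Circ) = x 1 := by
      rw [AddCircle.coe_add, hr]
      have h2 : (((n : ℤ) : ℝ) : Circ) = 0 := by
        rw [AddCircle.coe_eq_zero_iff]; exact ⟨n, by simp⟩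
      rw [h2, add_zero]
    rw [h1, dist_self]; exact hε

/-- the automorphism `(x, y) ↦ (t x - y, x)` -/
def aut (t : ℤ) : T2 ≃+ T2 where
  toFun := fun x => ![t • x 0 - x 1, x 0]
  invFun := fun y => ![y 1, t • y 1 - y 0]
  left_inv := fun x => by
    ext i
    fin_cases i
    · simp
    · simp
  right_inv := fun x => by
    ext i
    fin_cases i
    · simp
    · simp
  map_add' := fun x y => by
    ext i
    fin_cases i
    · simp only [Pi.add_apply, smul_add, Fin.zero_eta, Matrix.cons_val_zero]; abel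
    · simp

lemma aut_apply (t : ℤ) (x : T2) : aut t x = ![t • x 0 - x 1, x 0] := rfl
lemma aut_symm_apply (t : ℤ) (y : T2) : (aut t).symm y = ![y 1, t • y 1 - y 0] := rfl

lemma continuous_aut (t : ℤ) : Continuous (aut t) := by
  have : (aut t : T2 → T2) = fun x => ![t • x 0 - x 1, x 0] := rfl
  rw [this]
  refine continuous_pi fun i => ?_
  fin_cases i
  · exact ((continuous_zsmul t).comp (continuous_apply 0)).sub (continuous_apply 1)
  · exact continuous_apply 0

lemma continuous_aut_symm (t : ℤ) : Continuous (aut t).symm := by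
  have : ((aut t).symm : T2 → T2) = fun y => ![y 1, t • y 1 - y 0] := rfl
  rw [this]
  refine continuous_pi fun i => ?_
  fin_cases i
  · exact continuous_apply 1
  · exact ((continuous_zsmul t).comp (continuous_apply 1)).sub (continuous_apply 0)

/-- the hypotheses on the eigenvalue -/
structure Eig (t : ℤ) (lam : ℝ) : Prop where
  ht : 3 ≤ t
  one_lt : 1 < lam
  eq : lam ^ 2 - t * lam + 1 = 0

lemma Eig.inv {t : ℤ} {lam : ℝ} (E : Eig t lam) : lam⁻¹ = t - lam := by
  have h0 : lam ≠ 0 := by have := E.one_lt; positivity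
  field_simp
  have := E.eq
  linarith

lemma Eig.two_lt {t : ℤ} {lam : ℝ} (E : Eig t lam) : 2 < lam := by
  have h1 := E.inv
  have h2 : lam⁻¹ < 1 := inv_lt_one_of_one_lt₀ E.one_lt
  have h3 : (3 : ℝ) ≤ t := by exact_mod_cast E.ht
  linarith

lemma Eig.irrational {t : ℤ} {lam : ℝ} (E : Eig t lam) : Irrational lam := by
  rintro ⟨r, hr⟩
  have ht := E.ht
  have h1 : (((2 * r - t : ℚ)) : ℝ) ^ 2 = ((t ^ 2 - 4 : ℤ) : ℝ) := by
    push_cast
    rw [hr]
    have := E.eq
    nlinarith
  by_cases hv : ∃ y : ℤ, (((2 * r - t : ℚ)) : ℝ) = y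
  · obtain ⟨y, hy⟩ := hv
    rw [hy] at h1
    have h2 : y ^ 2 = t ^ 2 - 4 := by exact_mod_cast h1
    have h3 : |y| < t := by
      apply abs_lt_of_sq_lt_sq (by linarith) (by linarith)
    have h4 : |y| ≤ t - 1 := by omega
    have h5 : y ^ 2 ≤ (t - 1) ^ 2 := by
      rw [← sq_abs y]
      have := abs_nonneg y
      nlinarith
    nlinarith
  · have := irrational_nrt_of_notint_nrt 2 (t ^ 2 - 4) h1 hv (by norm_num)
    exact this ⟨_, rfl⟩

lemma Eig.irrational_inv {t : ℤ} {lam : ℝ} (E : Eig t lam) : Irrational lam⁻¹ :=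
  irrational_inv_iff.2 E.irrational

/-- The automorphism is hyperbolic. -/
lemma hyperb {t : ℤ} {lam : ℝ} (E : Eig t lam) :
    Hyperb (aut t) lam (line lam) (line lam⁻¹) where
  one_lt := E.one_lt
  contA := continuous_aut t
  contB := continuous_aut_symm t
  cont₁ := continuous_line _
  cont₂ := continuous_line _
  dense₁ := dense_line E.irrational
  dense₂ := dense_line E.irrational_inv
  eq₁ := fun y => by
    rw [aut_apply, line_apply, line_apply]
    ext i
    fin_cases i
    · simp only [Fin.zero_eta, Matrix.cons_val_zero, Matrix.cons_val_one]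
      rw [← AddCircle.coe_zsmul, ← AddCircle.coe_sub]
      congr 1
      simp only [zsmul_eq_mul]
      have := E.eq
      linear_combination (-y) * this
    · simp
  eq₂ := fun y => by
    have h0 : lam ≠ 0 := by have := E.one_lt; positivity
    rw [aut_apply, line_apply, line_apply]
    ext i
    fin_cases i
    · simp only [Fin.zero_eta, Matrix.cons_val_zero, Matrix.cons_val_one]
      rw [← AddCircle.coe_zsmul, ← AddCircle.coe_sub]
      congr 1
      simp only [zsmul_eq_mul]
      rw [← mul_assoc lam⁻¹, inv_mul_cancel₀ h0, one_mul, E.inv]; ring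
    · simp only [Fin.mk_one, Matrix.cons_val_zero, Matrix.cons_val_one]
      rw [← mul_assoc lam⁻¹, inv_mul_cancel₀ h0, one_mul]
  loc := fun η hη => by
    have hl := E.two_lt
    have h0 : lam ≠ 0 := by positivity
    have hinv : lam⁻¹ < 1 := inv_lt_one_of_one_lt₀ E.one_lt
    have hinv0 : 0 < lam⁻¹ := by positivity
    have hd : 1 < lam - lam⁻¹ := by linarith
    refine ⟨η / (lam + 1), by positivity, fun x hx => ?_⟩
    obtain ⟨r0, hr0, hn0⟩ := exists_rep (x 0)
    obtain ⟨r1, hr1, hn1⟩ := exists_rep (x 1)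
    have hx0 : |r0| < η / (lam + 1) := by
      rw [hn0]; exact (norm_le_pi_norm x 0).trans_lt hx
    have hx1 : |r1| < η / (lam + 1) := by
      rw [hn1]; exact (norm_le_pi_norm x 1).trans_lt hx
    rw [lt_div_iff₀ (by positivity)] at hx0 hx1
    have habs : ∀ c : ℝ, |c / (lam - lam⁻¹)| ≤ |c| := by
      intro c
      rw [abs_div, abs_of_pos (by linarith : 0 < lam - lam⁻¹)]
      exact div_le_self (abs_nonneg _) hd.le
    refine ⟨(r0 - lam⁻¹ * r1) / (lam - lam⁻¹), (lam * r1 - r0) / (lam - lam⁻¹), ?_, ?_, ?_⟩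
    · refine (habs _).trans_lt ?_
      have h1 : |r0 - lam⁻¹ * r1| ≤ |r0| + |lam⁻¹ * r1| := abs_sub _ _
      rw [abs_mul, abs_of_pos hinv0] at h1
      have := abs_nonneg r0
      have := abs_nonneg r1
      nlinarith
    · refine (habs _).trans_lt ?_
      have h1 : |lam * r1 - r0| ≤ |lam * r1| + |r0| := abs_sub _ _
      rw [abs_mul, abs_of_pos (by linarith : 0 < lam)] at h1
      have := abs_nonneg r0
      have := abs_nonneg r1
      nlinarith
    · have hne : lam - lam⁻¹ ≠ 0 := by linarith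
      rw [line_apply, line_apply]
      ext i
      fin_cases i
      · simp only [Fin.zero_eta, Pi.add_apply, Matrix.cons_val_zero]
        rw [← AddCircle.coe_add, ← hr0]
        congr 1
        rw [mul_div_assoc', mul_div_assoc', ← add_div, eq_div_iff hne]
        have : lam * lam⁻¹ = 1 := mul_inv_cancel₀ h0
        linear_combination 0 * this
      · simp only [Fin.mk_one, Pi.add_apply, Matrix.cons_val_one, Matrix.cons_val_zero]
        rw [← AddCircle.coe_add, ← hr1]
        congr 1
        rw [← add_div, eq_div_iff hne]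
        ring

end Pool.Agent.W765.Hb
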