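import Mathlib
import Pool.Agent.W765.Hb6

set_option autoImplicit false

open MeasureTheory Filter Topology Set TopologicalSpace

namespace Pool.Agent.W765.Hb

open Pool.Agent.H705R2 Pool.Agent.W765.KB

variable {X : Type*} [NormedAddCommGroup X]

/-- a multiple of the forward orbit tends to zero -/
def Res (A : X ≃+ X) (x : X) : Prop :=
  ∃ d : ℕ, 0 < d ∧ Tendsto (fun m : ℕ => d • A^[m] x) atTop (𝓝 0)

open Classical in
/-- The uniform theorem for orbits and finitely many open sets. -/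
theorem uniform_orbit_fin [CompactSpace X] [Nontrivial X] (T : Tor X) {A : X ≃+ X} {lam : ℝ}
    {l₁ l₂ : ℝ →+ X} (H : Hyperb A lam l₁ l₂) {b : ℕ} (hb : 2 ≤ b)
    (h : addOrderOf ((Real.logb lam b : ℝ) : Circ) = 0) {ι : Type*} (S : Finset ι) (U : ι → Set X)
    (hU : ∀ k, IsOpen (U k)) (hUne : ∀ k, (U k).Nonempty) {δ : ℝ} (hδ : 0 < δ) :
    ∃ M : ℕ, ∀ x : X, Res A x ∨ ∀ s n : ℕ, M ≤ n →
      (((Finset.range n).filter
        (fun i => ¬ ∀ k ∈ S, ∃ᶠ m : ℕ in atTop, b ^ (s + i) • A^[m] x ∈ U k)).card : ℝ) ≤ δ * n := by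
  have hδ' : 0 < δ / (S.card + 1) := by positivity
  choose M hM using fun k : ι => uniform_orbit T H hb h (hU k) (hUne k) hδ'
  refine ⟨S.sup M, fun x => ?_⟩
  by_cases hres : Res A x
  · left; exact hres
  right
  intro s n hn
  have hsub : (Finset.range n).filter
      (fun i => ¬ ∀ k ∈ S, ∃ᶠ m : ℕ in atTop, b ^ (s + i) • A^[m] x ∈ U k) ⊆
      S.biUnion fun k => (Finset.range n).filter
        (fun i => ¬ ∃ᶠ m : ℕ in atTop, b ^ (s + i) • A^[m] x ∈ U k) := by
    intro i hi
    rw [Finset.mem_filter] at hi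
    have h1 := hi.2
    rw [not_forall] at h1
    obtain ⟨k, hk⟩ := h1
    rw [Classical.not_imp] at hk
    rw [Finset.mem_biUnion]
    exact ⟨k, hk.1, Finset.mem_filter.2 ⟨hi.1, hk.2⟩⟩
  have h1 : (((Finset.range n).filter
      (fun i => ¬ ∀ k ∈ S, ∃ᶠ m : ℕ in atTop, b ^ (s + i) • A^[m] x ∈ U k)).card : ℝ) ≤
      ∑ k ∈ S, (((Finset.range n).filter
        (fun i => ¬ ∃ᶠ m : ℕ in atTop, b ^ (s + i) • A^[m] x ∈ U k)).card : ℝ) := by
    have := (Finset.card_le_card hsub).trans Finset.card_biUnion_le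
    exact_mod_cast this
  refine h1.trans ?_
  have h2 : ∑ k ∈ S, (((Finset.range n).filter
        (fun i => ¬ ∃ᶠ m : ℕ in atTop, b ^ (s + i) • A^[m] x ∈ U k)).card : ℝ) ≤
      ∑ _k ∈ S, δ / (S.card + 1) * n := by
    refine Finset.sum_le_sum fun k hk => ?_
    rcases hM k x with h3 | h3
    · exact absurd h3 hres
    · exact h3 s n ((Finset.le_sup (f := M) hk).trans hn)
  refine h2.trans ?_
  rw [Finset.sum_const, nsmul_eq_mul]
  have h3 : (S.card : ℝ) * (δ / (S.card + 1) * n) = (S.card / (S.card + 1)) * (δ * n) := by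
    field_simp
  rw [h3]
  have h4 : (S.card : ℝ) / (S.card + 1) ≤ 1 := by
    rw [div_le_one (by positivity)]; linarith
  have h5 : 0 ≤ δ * n := by positivity
  nlinarith

/-- the almost sure version -/
theorem ae_orbit [CompactSpace X] [Nontrivial X] [MeasurableSpace X] [BorelSpace X] (T : Tor X)
    {A : X ≃+ X} {lam : ℝ}
    {l₁ l₂ : ℝ →+ X} (H : Hyperb A lam l₁ l₂) {b : ℕ} (hb : 2 ≤ b)
    (h : addOrderOf ((Real.logb lam b : ℝ) : Circ) = 0) {U : Set X}
    (hU : IsOpen U) (hUne : U.Nonempty) {Y : Type*} [MeasurableSpace Y] {μ : Measure Y}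
    [IsProbabilityMeasure μ] {S : Y → Y} (hS : MeasurePreserving S μ μ) {φ : Y → X}
    (hφ : Measurable φ) (hφS : ∀ y, φ (S y) = b • φ y) :
    ∀ᵐ y ∂μ, Res A (φ y) ∨ ∃ᶠ m : ℕ in atTop, A^[m] (φ y) ∈ U := by
  classical
  have hiter : ∀ (j : ℕ) (y : Y), φ (S^[j] y) = b ^ j • φ y := by
    intro j y
    induction j with
    | zero => simp
    | succ j ih => rw [Function.iterate_succ_apply', hφS, ih, pow_succ', mul_smul]
  have hAm : ∀ m : ℕ, Measurable fun y => A^[m] (φ y) := fun m =>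
    ((H.contA.iterate m).measurable).comp hφ
  have hm1 : MeasurableSet {y | Res A (φ y)} := by
    have : {y | Res A (φ y)} = ⋃ d : ℕ, {y | 0 < d ∧ Tendsto (fun m : ℕ => d • A^[m] (φ y)) atTop (𝓝 0)} := by
      ext y; simp [Res]
    rw [this]
    refine MeasurableSet.iUnion fun d => ?_
    by_cases hd : 0 < d
    · simp only [hd, true_and]
      refine measurableSet_tendsto _ fun m => ?_
      exact (continuous_nsmul d).measurable.comp (hAm m)
    · simp [hd]
  have hm2 : MeasurableSet {y | ∃ᶠ m : ℕ in atTop, A^[m] (φ y) ∈ U} := by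
    have : {y | ∃ᶠ m : ℕ in atTop, A^[m] (φ y) ∈ U} = ⋂ n : ℕ, ⋃ m : ℕ, {y | n ≤ m ∧ A^[m] (φ y) ∈ U} := by
      ext y
      simp only [mem_ofPred_eq, mem_iInter, mem_iUnion, frequently_atTop]
    rw [this]
    refine MeasurableSet.iInter fun n => MeasurableSet.iUnion fun m => ?_
    by_cases hnm : n ≤ m
    · simp only [hnm, true_and]
      exact (hAm m) hU.measurableSet
    · simp [hnm]
  set B : Set Y := {y | Res A (φ y)}ᶜ ∩ {y | ∃ᶠ m : ℕ in atTop, A^[m] (φ y) ∈ U}ᶜ with hB
  have hBm : MeasurableSet B := hm1.compl.inter hm2.compl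
  have hnull : μ B = 0 := by
    refine recur hS hBm ?_
    rintro y -
    obtain ⟨Z, hZ⟩ : ∃ Z : Set ℕ, Z = {m : ℕ | S^[m] y ∈ B} := ⟨_, rfl⟩
    have hZB : ∀ m, m ∈ Z → S^[m] y ∈ B := fun m hm => by rw [hZ] at hm; exact hm
    rw [← hZ]
    unfold DensityZero
    rw [Metric.tendsto_atTop]
    intro ε hε
    obtain ⟨M, hM⟩ := uniform_orbit T H hb h hU hUne (δ := ε / 2) (by positivity)
    refine ⟨max M 1, fun n hn => ?_⟩
    have hnM : M ≤ n := (le_max_left _ _).trans hn
    have hn1 : 1 ≤ n := (le_max_right _ _).trans hn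
    rw [Real.dist_eq, sub_zero, abs_of_nonneg (by positivity), natCard_eq]
    have hnR : (0 : ℝ) < n := by exact_mod_cast hn1
    rw [div_lt_iff₀ hnR]
    rcases hM (φ y) with h1 | h1
    · have hempty : (Finset.range n).filter (· ∈ Z) = ∅ := by
        rw [Finset.filter_eq_empty_iff]
        intro j _ hj
        refine (hZB j hj).1 ?_
        obtain ⟨d, hd, hlim⟩ := h1
        refine ⟨d, hd, ?_⟩
        rw [hiter]
        have h2 := ((continuous_nsmul (b ^ j)).tendsto (0 : X)).comp hlim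
        rw [smul_zero] at h2
        refine h2.congr fun m => ?_
        simp only [Function.comp]
        rw [← pw_apply, ← pw_apply, map_nsmul, smul_comm]
      rw [hempty]
      simp only [Finset.card_empty, Nat.cast_zero]
      positivity
    · have h2 := h1 0 n hnM
      have hsub : (Finset.range n).filter (· ∈ Z) ⊆ (Finset.range n).filter
          (fun i => ¬ ∃ᶠ m : ℕ in atTop, b ^ (0 + i) • A^[m] (φ y) ∈ U) := by
        intro j hj
        rw [Finset.mem_filter] at hj ⊢
        refine ⟨hj.1, fun hcon => (hZB j hj.2).2 ?_⟩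
        refine hcon.mono fun m hm => ?_
        rw [hiter, ← pw_apply, map_nsmul, pw_apply]
        simpa using hm
      have h3 : (((Finset.range n).filter (· ∈ Z)).card : ℝ) ≤
          (((Finset.range n).filter
            (fun i => ¬ ∃ᶠ m : ℕ in atTop, b ^ (0 + i) • A^[m] (φ y) ∈ U)).card : ℝ) := by
        exact_mod_cast Finset.card_le_card hsub
      nlinarith
  have : ∀ᵐ y ∂μ, y ∉ B := measure_eq_zero_iff_ae_notMem.1 hnull
  filter_upwards [this] with y hy
  by_contra hcon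
  push Not at hcon
  refine hy ⟨hcon.1, ?_⟩
  rw [mem_compl_iff, mem_ofPred_eq, not_frequently]
  exact hcon.2

end Pool.Agent.W765.Hb
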