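import Mathlib
import Pool.Agent.W765.Hb7
import Pool.Agent.W765.Hb8
import Pool.Agent.H389R2.LC.Cx

set_option autoImplicit false

open MeasureTheory Filter Topology Set TopologicalSpace

namespace Pool.Agent.W765.Hb

open Pool.Agent.H705R2

/-- the coefficients of the units -/
def u (t : ℤ) : ℕ → ℤ
  | 0 => 0
  | 1 => 1
  | (n + 2) => t * u t (n + 1) - u t n

lemma u_mono {t : ℤ} (ht : 3 ≤ t) (n : ℕ) : 0 ≤ u t n ∧ u t n < u t (n + 1) := by
  induction n with
  | zero => simp [u]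
  | succ n ih =>
    obtain ⟨h1, h2⟩ := ih
    refine ⟨by omega, ?_⟩
    change u t (n + 1) < t * u t (n + 1) - u t n
    nlinarith

lemma le_u {t : ℤ} (ht : 3 ≤ t) (n : ℕ) : (n : ℤ) ≤ u t n := by
  induction n with
  | zero => simp [u]
  | succ n ih =>
    have := (u_mono ht n).2
    push_cast
    omega

lemma lam_pow {t : ℤ} {lam : ℝ} (E : Eig t lam) (n : ℕ) :
    lam ^ (n + 1) = u t (n + 1) * lam - u t n := by
  induction n with
  | zero => simp [u]
  | succ n ih =>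
    rw [pow_succ, ih]
    have h1 : u t (n + 1 + 1) = t * u t (n + 1) - u t n := rfl
    rw [h1]
    push_cast
    have := E.eq
    linear_combination (u t (n + 1) : ℝ) * this

lemma inv_pow' {t : ℤ} {lam : ℝ} (E : Eig t lam) (n : ℕ) :
    (lam⁻¹) ^ n = u t (n + 1) - u t n * lam := by
  induction n with
  | zero => simp [u]
  | succ n ih =>
    rw [pow_succ, ih, E.inv]
    have h1 : u t (n + 1 + 1) = t * u t (n + 1) - u t n := rfl
    rw [h1]
    push_cast
    have := E.eq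
    linear_combination (u t n : ℝ) * this

lemma u_le {t : ℤ} {lam : ℝ} (E : Eig t lam) (n : ℕ) : (u t (n + 1) : ℝ) ≤ lam ^ (n + 1) := by
  rw [lam_pow E]
  have h1 := u_mono E.ht n
  have h2 : (u t n : ℝ) < u t (n + 1) := by exact_mod_cast h1.2
  have h3 : (0 : ℝ) ≤ u t n := by exact_mod_cast h1.1
  have := E.two_lt
  nlinarith

lemma theta {t : ℤ} {lam : ℝ} (E : Eig t lam) {b : ℕ} (hb : 2 ≤ b) :
    addOrderOf ((Real.logb lam b : ℝ) : Circ) = 0 := by
  rw [addOrderOf_eq_zero_iff, isOfFinAddOrder_iff_nsmul_eq_zero]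
  rintro ⟨n, hn, hn0⟩
  rw [← AddCircle.coe_nsmul, AddCircle.coe_eq_zero_iff] at hn0
  obtain ⟨k, hk⟩ := hn0
  simp only [zsmul_eq_mul, mul_one, nsmul_eq_mul] at hk
  have hb1 : (1 : ℝ) < b := by exact_mod_cast (by omega : 1 < b)
  have hl1 := E.one_lt
  have hpos : 0 < Real.logb lam b := Real.logb_pos hl1 hb1
  have hkpos : (0 : ℝ) ≤ k := by rw [hk]; positivity
  have hk0 : 0 ≤ k := by exact_mod_cast hkpos
  obtain ⟨l, rfl⟩ := Int.eq_ofNat_of_zero_le hk0
  have h1 : lam ^ l = (b : ℝ) ^ n := by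
    have h2 : Real.logb lam (lam ^ l) = Real.logb lam ((b : ℝ) ^ n) := by
      rw [Real.logb_pow, Real.logb_pow, Real.logb_self_eq_one hl1, mul_one]
      exact_mod_cast hk
    exact Real.logb_injOn_pos hl1 (by simp; positivity) (by simp; positivity) h2
  rcases l with _ | l
  · rw [pow_zero] at h1
    have h3 : (1 : ℝ) < (b : ℝ) ^ n := one_lt_pow₀ hb1 hn.ne'
    linarith
  · rw [lam_pow E] at h1
    have h3 := u_mono E.ht l
    have h4 : (0 : ℝ) < u t (l + 1) := by exact_mod_cast (by omega : 0 < u t (l + 1))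
    apply E.irrational
    refine ⟨((b : ℚ) ^ n + u t l) / u t (l + 1), ?_⟩
    push_cast
    rw [div_eq_iff h4.ne']
    linarith

lemma aut_iter (t : ℤ) (x : T2) (m : ℕ) :
    (aut t)^[m + 1] x = ![u t (m + 2) • x 0 - u t (m + 1) • x 1, u t (m + 1) • x 0 - u t m • x 1] := by
  induction m with
  | zero =>
    rw [zero_add, Function.iterate_one, aut_apply]
    ext i
    fin_cases i
    · simp [u]
    · simp [u]
  | succ m ih =>
    rw [Function.iterate_succ_apply', ih, aut_apply]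
    have h1 : u t (m + 1 + 2) = t * u t (m + 2) - u t (m + 1) := rfl
    have h2 : u t (m + 2) = t * u t (m + 1) - u t m := rfl
    ext i
    fin_cases i
    · simp only [Fin.zero_eta, Matrix.cons_val_zero, Matrix.cons_val_one]
      rw [h1]
      have h3 : u t (m + 1 + 1) • x 1 = (t * u t (m + 1) - u t m) • x 1 := by rw [← h2]
      rw [h3, sub_smul, sub_smul, mul_smul, mul_smul, smul_sub]
      abel
    · simp

lemma aut_iter_pt (t : ℤ) (y : Circ) (m : ℕ) :
    ((aut t)^[m] (![y, 0] : T2)) 0 = u t (m + 1) • y := by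
  rcases m with _ | m
  · simp [u]
  · rw [aut_iter]; simp

/-- resonances -/
lemma res_imp {t : ℤ} {lam : ℝ} (E : Eig t lam) {y : ℝ} (h : Res (aut t) (![(y : Circ), 0] : T2)) :
    ∃ d : ℕ, 0 < d ∧ ∃ a c : ℤ, (d : ℝ) * y = a + c * lam := by
  obtain ⟨d, hd, hlim⟩ := h
  refine ⟨d, hd, ?_⟩
  have hlam0 : 0 < lam := by have := E.one_lt; linarith
  set z : ℕ → ℝ := fun k => d * u t (k + 1) * y with hz
  have hzrec : ∀ k, z (k + 2) = t * z (k + 1) - z k := by
    intro k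
    simp only [hz]
    have h1 : u t (k + 2 + 1) = t * u t (k + 1 + 1) - u t (k + 1) := rfl
    rw [h1]; push_cast; ring
  have hnorm : Tendsto (fun k => ‖(z k : Circ)‖) atTop (𝓝 0) := by
    have h1 := ((continuous_apply (0 : Fin 2)).tendsto (0 : T2)).comp hlim
    have h2 := h1.norm
    rw [Pi.zero_apply, norm_zero] at h2
    refine h2.congr fun k => ?_
    simp only [Function.comp, Pi.smul_apply, aut_iter_pt]
    congr 1
    rw [← AddCircle.coe_zsmul, ← AddCircle.coe_nsmul]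
    congr 1
    simp only [hz, zsmul_eq_mul, nsmul_eq_mul]
    ring
  set p : ℕ → ℤ := fun k => round (z k) with hp
  set θ : ℕ → ℝ := fun k => z k - p k with hθ
  have hθ0 : Tendsto θ atTop (𝓝 0) := by
    rw [tendsto_zero_iff_abs_tendsto_zero]
    refine hnorm.congr fun k => ?_
    rw [UnitAddCircle.norm_eq]; rfl
  have he : Tendsto (fun k => ((p (k + 2) - t * p (k + 1) + p k : ℤ) : ℝ)) atTop (𝓝 0) := by
    have h1 : Tendsto (fun k => -(θ (k + 2) - t * θ (k + 1) + θ k)) atTop (𝓝 (-(0 - t * 0 + 0))) :=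
      (((hθ0.comp (tendsto_add_atTop_nat 2)).sub
        ((hθ0.comp (tendsto_add_atTop_nat 1)).const_mul (t : ℝ))).add hθ0).neg
    have h2 : (-(0 - (t : ℝ) * 0 + 0)) = 0 := by ring
    rw [h2] at h1
    refine h1.congr fun k => ?_
    simp only [hθ]
    push_cast
    linear_combination (-1 : ℝ) * hzrec k
  obtain ⟨m₀, hm₀⟩ : ∃ m₀, ∀ k ≥ m₀, p (k + 2) - t * p (k + 1) + p k = 0 := by
    obtain ⟨m₀, hm₀⟩ := eventually_atTop.1 ((Metric.tendsto_nhds.1 he) 1 one_pos)
    refine ⟨m₀, fun k hk => ?_⟩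
    have := hm₀ k hk
    rw [Real.dist_eq, sub_zero] at this
    have h2 : |p (k + 2) - t * p (k + 1) + p k| < 1 := by exact_mod_cast this
    exact Int.abs_lt_one_iff.1 h2
  set w : ℕ → ℝ := fun k => θ (k + 1) - lam⁻¹ * θ k with hw
  have hw0 : Tendsto w atTop (𝓝 0) := by
    have h1 := (hθ0.comp (tendsto_add_atTop_nat 1)).sub (hθ0.const_mul lam⁻¹)
    simpa [Function.comp_def] using h1
  have hwrec : ∀ k ≥ m₀, w (k + 1) = lam * w k := by
    intro k hk
    have h1 := hzrec k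
    have h2 : ((p (k + 2) - t * p (k + 1) + p k : ℤ) : ℝ) = 0 := by exact_mod_cast hm₀ k hk
    push_cast at h2
    simp only [hw, hθ]
    have h3 := E.inv
    have h4 : lam * lam⁻¹ = 1 := mul_inv_cancel₀ hlam0.ne'
    have h5 : (z (k + 1 + 1) - p (k + 1 + 1)) = t * (z (k + 1) - p (k + 1)) - (z k - p k) := by
      change (z (k + 2) - p (k + 2)) = _
      linear_combination h1 - h2
    rw [h5]
    have h6 : (t : ℝ) = lam + lam⁻¹ := by linarith
    rw [h6]
    linear_combination (z k - p k) * h4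
  have hwpow : ∀ n, w (m₀ + n) = lam ^ n * w m₀ := by
    intro n
    induction n with
    | zero => simp
    | succ n ih =>
      rw [← add_assoc, hwrec _ (by omega), ih, pow_succ]; ring
  have hwz : w m₀ = 0 := by
    by_contra hne
    have hpos : 0 < |w m₀| := abs_pos.2 hne
    obtain ⟨N, hN⟩ := eventually_atTop.1 ((Metric.tendsto_nhds.1 hw0) |w m₀| hpos)
    have h1 := hN (m₀ + N) (by omega)
    rw [Real.dist_eq, sub_zero, hwpow, abs_mul, abs_of_pos (by positivity)] at h1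
    have h2 : (1 : ℝ) ≤ lam ^ N := one_le_pow₀ E.one_lt.le
    nlinarith
  have h7 : (d : ℝ) * y * lam ^ (m₀ + 1) = p (m₀ + 1) - lam⁻¹ * p m₀ := by
    have h8 : z (m₀ + 1) - lam⁻¹ * z m₀ = p (m₀ + 1) - lam⁻¹ * p m₀ := by
      simp only [hw, hθ] at hwz
      linear_combination hwz
    rw [← h8]
    simp only [hz]
    have h9 := lam_pow E (m₀ + 1)
    have h10 : lam ^ (m₀ + 1) = u t (m₀ + 1 + 1) - lam⁻¹ * u t (m₀ + 1) := by
      have : lam ^ (m₀ + 1) = lam⁻¹ * lam ^ (m₀ + 1 + 1) := by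
        rw [pow_succ lam (m₀ + 1)]; field_simp
      rw [this, h9]; field_simp
    rw [h10]; ring
  have h11 := inv_pow' E (m₀ + 1)
  have h12 : (d : ℝ) * y = (p (m₀ + 1) - lam⁻¹ * p m₀) * (lam⁻¹) ^ (m₀ + 1) := by
    rw [← h7, mul_assoc, ← mul_pow, mul_inv_cancel₀ hlam0.ne', one_pow, mul_one]
  refine ⟨(p (m₀ + 1) - t * p m₀) * u t (m₀ + 2) + p m₀ * u t (m₀ + 1),
    p m₀ * u t (m₀ + 2) - p (m₀ + 1) * u t (m₀ + 1), ?_⟩
  rw [h12, h11, E.inv]
  push_cast
  have h13 := E.eq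
  change ((p (m₀ + 1) : ℝ) - (t - lam) * p m₀) * (u t (m₀ + 2) - u t (m₀ + 1) * lam) = _
  linear_combination (-(p m₀ : ℝ) * u t (m₀ + 1)) * h13

lemma not_li {lam α β : ℝ} {D : ℕ} (hD : 0 < D) {P Q : ℤ} (hQ : Q ≠ 0)
    (hα : (D : ℝ) * α = P + Q * lam) {d : ℕ} (hd : 0 < d) {a c : ℤ}
    (h : (d : ℝ) * (D * β) = a + c * lam) : ¬ LinearIndependent ℚ ![1, α, β] := by
  intro hli
  rw [Fintype.linearIndependent_iff] at hli
  have h1 := hli ![(-(Q * a - c * P) : ℚ), (-(c * D) : ℚ), ((Q * d * D : ℚ))] (by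
    simp only [Fin.sum_univ_three, Matrix.cons_val_zero, Matrix.cons_val_one, Matrix.cons_val]
    simp only [Rat.smul_def]
    push_cast
    linear_combination (-(c : ℝ)) * hα + (Q : ℝ) * h) 2
  simp only [Matrix.cons_val] at h1
  have h2 : (Q : ℚ) * d * D ≠ 0 := by
    have : (Q : ℚ) ≠ 0 := by exact_mod_cast hQ
    positivity
  exact h2 h1

/-- arithmetic of the application -/
lemma freq_of {t : ℤ} {lam : ℝ} (E : Eig t lam) {α : ℝ} {D : ℕ} (hD : 0 < D) {P Q : ℤ}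
    (hα : (D : ℝ) * α = P + Q * lam) {z γ : ℝ} {d : ℕ} (hd : 0 < d) {η ε : ℝ}
    (hη : (d : ℝ) ^ 2 * D * |(Q : ℝ)| * η < ε)
    (h : ∃ᶠ m : ℕ in atTop, ‖d • u t (m + 1) • ((D * z : ℝ) : Circ) - (γ : Circ)‖ < η) :
    ∃ᶠ q : ℕ in atTop, (q : ℝ) * |q * α - round (q * α)|
      * |(q * z - γ) - round (q * z - γ)| < ε := by
  have hlam0 : 0 < lam := by have := E.one_lt; linarith
  set q : ℕ → ℕ := fun m => d * D * (u t (m + 1)).toNat with hq
  have hnat : ∀ m, (((u t (m + 1)).toNat : ℕ) : ℤ) = u t (m + 1) := fun m =>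
    Int.toNat_of_nonneg (u_mono E.ht (m + 1)).1
  have hqR : ∀ m, ((q m : ℕ) : ℝ) = d * D * u t (m + 1) := by
    intro m
    simp only [hq]
    push_cast
    congr 1
    have := hnat m
    exact_mod_cast this
  have hqlim : Tendsto q atTop atTop := by
    refine tendsto_atTop_mono (fun m => ?_) tendsto_id
    have h1 := le_u E.ht (m + 1)
    have h2 := hnat m
    have h3 : m ≤ (u t (m + 1)).toNat := by omega
    have h4 : 1 ≤ d * D := Nat.mul_pos hd hD
    simp only [hq, id]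
    nlinarith
  refine hqlim.frequently (h.mono fun m hm => ?_)
  have h1 : |(q m : ℝ) * α - round ((q m : ℝ) * α)| ≤ d * |(Q : ℝ)| * (lam⁻¹) ^ (m + 1) := by
    have h2 := round_le ((q m : ℝ) * α) (d * (P * u t (m + 1) + Q * u t (m + 2)))
    refine h2.trans (le_of_eq ?_)
    have h3 : (q m : ℝ) * α - ((d * (P * u t (m + 1) + Q * u t (m + 2)) : ℤ) : ℝ) =
        -(d * Q * (lam⁻¹) ^ (m + 1)) := by
      rw [hqR, inv_pow' E]
      push_cast
      linear_combination (d * u t (m + 1) : ℝ) * hα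
    rw [h3, abs_neg, abs_mul, abs_mul, abs_of_nonneg (Nat.cast_nonneg d : (0 : ℝ) ≤ d),
      abs_of_pos (by positivity : (0 : ℝ) < (lam⁻¹) ^ (m + 1))]
  have h4 : (q m : ℝ) * |(q m : ℝ) * α - round ((q m : ℝ) * α)| ≤ (d : ℝ) ^ 2 * D * |(Q : ℝ)| := by
    have h5 : (0 : ℝ) ≤ u t (m + 1) := by exact_mod_cast (u_mono E.ht (m + 1)).1
    calc (q m : ℝ) * |(q m : ℝ) * α - round ((q m : ℝ) * α)|
        ≤ (q m : ℝ) * (d * |(Q : ℝ)| * (lam⁻¹) ^ (m + 1)) := by gcongr
      _ = (d : ℝ) ^ 2 * D * |(Q : ℝ)| * (u t (m + 1) * (lam⁻¹) ^ (m + 1)) := by rw [hqR]; ring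
      _ ≤ (d : ℝ) ^ 2 * D * |(Q : ℝ)| * 1 := by
          gcongr
          calc (u t (m + 1) : ℝ) * (lam⁻¹) ^ (m + 1) ≤ lam ^ (m + 1) * (lam⁻¹) ^ (m + 1) := by
                gcongr
                exact u_le E m
            _ = 1 := by rw [← mul_pow, mul_inv_cancel₀ hlam0.ne', one_pow]
      _ = (d : ℝ) ^ 2 * D * |(Q : ℝ)| := mul_one _
  have h6 : |((q m : ℝ) * z - γ) - round ((q m : ℝ) * z - γ)| < η := by
    rw [← UnitAddCircle.norm_eq]
    refine lt_of_eq_of_lt ?_ hm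
    congr 1
    rw [← AddCircle.coe_zsmul, ← AddCircle.coe_nsmul, ← AddCircle.coe_sub]
    congr 1
    rw [hqR]
    simp only [zsmul_eq_mul, nsmul_eq_mul]
    ring
  have h7 : 0 ≤ |((q m : ℝ) * z - γ) - round ((q m : ℝ) * z - γ)| := abs_nonneg _
  have h8 : 0 ≤ (d : ℝ) ^ 2 * D * |(Q : ℝ)| := by positivity
  calc (q m : ℝ) * |(q m : ℝ) * α - round ((q m : ℝ) * α)|
        * |((q m : ℝ) * z - γ) - round ((q m : ℝ) * z - γ)|
      ≤ (d : ℝ) ^ 2 * D * |(Q : ℝ)| * η := by gcongr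
    _ < ε := hη

/-- the open sets -/
def Uset (K : ℕ) (s : Circ) : Set T2 := {z : T2 | ‖z 0 - s‖ < 1 / ((K : ℝ) + 1)}

lemma isOpen_Uset (K : ℕ) (s : Circ) : IsOpen (Uset K s) :=
  isOpen_lt (((continuous_apply (0 : Fin 2)).sub continuous_const).norm) continuous_const

lemma Uset_nonempty (K : ℕ) (s : Circ) : (Uset K s).Nonempty :=
  ⟨![s, 0], by simp only [Uset, mem_ofPred_eq, Matrix.cons_val_zero, sub_self, norm_zero]; positivity⟩

/-- conclusion from the dynamical information -/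
lemma concl {t : ℤ} {lam : ℝ} (E : Eig t lam) {α : ℝ} {D : ℕ} (hD : 0 < D) {P Q : ℤ} (hQ : Q ≠ 0)
    (hα : (D : ℝ) * α = P + Q * lam) {z ε : ℝ} (hε : 0 < ε) {K : ℕ}
    (hK : D * |(Q : ℝ)| * (2 / ((K : ℝ) + 1)) < ε)
    (h : Res (aut t) (![((D * z : ℝ) : Circ), 0] : T2) ∨ ∀ s : Circ, (K + 1) • s = 0 →
      ∃ᶠ m : ℕ in atTop, (aut t)^[m] (![((D * z : ℝ) : Circ), 0] : T2) ∈ Uset K s)
    {γ : ℝ} (hγ : γ = 0 ∨ LinearIndependent ℚ ![1, α, z]) :
    ∃ᶠ q : ℕ in atTop, (q : ℝ) * |q * α - round (q * α)|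
      * |(q * z - γ) - round (q * z - γ)| < ε := by
  rcases h with h | h
  · rcases hγ with rfl | hγ
    · obtain ⟨d, hd, hlim⟩ := h
      have hη : 0 < ε / ((d : ℝ) ^ 2 * D * |(Q : ℝ)| + 1) := by positivity
      refine freq_of E hD hα hd (η := ε / ((d : ℝ) ^ 2 * D * |(Q : ℝ)| + 1)) ?_ ?_
      · have h1 : 0 ≤ (d : ℝ) ^ 2 * D * |(Q : ℝ)| := by positivity
        rw [mul_div_assoc', div_lt_iff₀ (by positivity)]
        nlinarith
      · have h1 := ((continuous_apply (0 : Fin 2)).tendsto (0 : T2)).comp hlim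
        have h2 := h1.norm
        rw [Pi.zero_apply, norm_zero] at h2
        refine (h2.eventually_lt_const hη).frequently.mono fun m hm => ?_
        simp only [Function.comp, Pi.smul_apply, aut_iter_pt] at hm
        rw [AddCircle.coe_zero, sub_zero]
        exact hm
    · obtain ⟨d, hd, a, c, hac⟩ := res_imp E h
      exact absurd hγ (not_li hD hQ hα hd hac)
  · obtain ⟨s, hs, hds⟩ := circ_near (Nat.succ_pos K) (γ : Circ)
    refine freq_of E hD hα one_pos (η := 2 / ((K : ℝ) + 1)) (by simpa using hK) ?_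
    refine (h s hs).mono fun m hm => ?_
    simp only [Uset, mem_ofPred_eq, aut_iter_pt] at hm
    rw [one_smul]
    rw [dist_comm, dist_eq_norm] at hds
    push_cast at hds
    calc ‖u t (m + 1) • ((D * z : ℝ) : Circ) - (γ : Circ)‖
        = ‖(u t (m + 1) • ((D * z : ℝ) : Circ) - s) + (s - (γ : Circ))‖ := by congr 1; abel
      _ ≤ ‖u t (m + 1) • ((D * z : ℝ) : Circ) - s‖ + ‖s - (γ : Circ)‖ := norm_add_le _ _
      _ < 1 / ((K : ℝ) + 1) + 1 / ((K : ℝ) + 1) := add_lt_add_of_lt_of_le hm hds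
      _ = 2 / ((K : ℝ) + 1) := by ring

/-- data of a quadratic irrational -/
lemma quad_data {α : ℝ} (hirr : Irrational α)
    (hq : ∃ A B C : ℤ, A ≠ 0 ∧ (A : ℝ) * α ^ 2 + B * α + C = 0) :
    ∃ (t : ℤ) (lam : ℝ) (D : ℕ) (P Q : ℤ), Eig t lam ∧ 0 < D ∧ Q ≠ 0 ∧
      (D : ℝ) * α = P + Q * lam := by
  obtain ⟨A, B, C, hA, h⟩ := hq
  obtain ⟨t, ε, ht, h1, he, a, b, hab⟩ := Pool.H389R2.LC.quad_unit α hirr A B C hA h
  refine ⟨t, ε, a.den * b.den, a.num * b.den, b.num * a.den, ⟨ht, h1, he⟩,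
    Nat.mul_pos a.den_pos b.den_pos, ?_, ?_⟩
  · intro h0
    have hb0 : b.num = 0 := by
      rcases mul_eq_zero.1 h0 with h2 | h2
      · exact h2
      · exact absurd (by exact_mod_cast h2) a.den_ne_zero
    have hb : b = 0 := Rat.num_eq_zero.1 hb0
    rw [hb] at hab
    apply hirr
    exact ⟨a, by rw [hab]; simp⟩
  · have ha : (a.den : ℝ) * (a : ℝ) = a.num := by
      have := Rat.mul_den_eq_num a
      have h2 : ((a * a.den : ℚ) : ℝ) = ((a.num : ℚ) : ℝ) := by rw [this]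
      push_cast at h2
      linarith
    have hb' : (b.den : ℝ) * (b : ℝ) = b.num := by
      have := Rat.mul_den_eq_num b
      have h2 : ((b * b.den : ℚ) : ℝ) = ((b.num : ℚ) : ℝ) := by rw [this]
      push_cast at h2
      linarith
    rw [hab]
    push_cast
    rw [← ha, ← hb']; ring

lemma exists_K {C ε : ℝ} (_hC : 0 ≤ C) (hε : 0 < ε) : ∃ K : ℕ, C * (2 / ((K : ℝ) + 1)) < ε := by
  obtain ⟨K, hK⟩ := exists_nat_gt (C * 2 / ε)
  refine ⟨K, ?_⟩
  rw [div_lt_iff₀ hε] at hK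
  rw [mul_div_assoc', div_lt_iff₀ (by positivity)]
  nlinarith

open Classical in
/-- the uniform density statement -/
theorem lc_uniform {α : ℝ} (hirr : Irrational α)
    (hq : ∃ A B C : ℤ, A ≠ 0 ∧ (A : ℝ) * α ^ 2 + B * α + C = 0) {b : ℕ} (hb : 2 ≤ b) {ε δ : ℝ}
    (hε : 0 < ε) (hδ : 0 < δ) :
    ∃ N₀ : ℕ, ∀ β : ℝ, ∀ N ≥ N₀, ∀ T : ℕ,
      (((Finset.range N).filter (fun i : ℕ =>
        ¬ ∀ γ : ℝ, (γ = 0 ∨ LinearIndependent ℚ ![1, α, β]) →
          ∃ᶠ q : ℕ in atTop, (q : ℝ) * |q * α - round (q * α)|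
            * |(q * ((b : ℝ) ^ (T + i) * β) - γ) - round (q * ((b : ℝ) ^ (T + i) * β) - γ)| < ε)).card : ℝ)
        ≤ δ * N := by
  obtain ⟨t, lam, D, P, Q, E, hD, hQ, hα⟩ := quad_data hirr hq
  obtain ⟨K, hK⟩ := exists_K (C := D * |(Q : ℝ)|) (by positivity) hε
  have hfin : {s : Circ | (K + 1) • s = 0}.Finite := AddCircle.finite_torsion (1 : ℝ) (Nat.succ_pos K)
  obtain ⟨M, hM⟩ := uniform_orbit_fin torT2 (hyperb E) hb (theta E hb) hfin.toFinset (Uset K)
    (isOpen_Uset K) (Uset_nonempty K) hδ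
  refine ⟨M, fun β N hN T => ?_⟩
  set x : T2 := ![((D * β : ℝ) : Circ), 0] with hx
  have hbx : ∀ j : ℕ, (![((D * ((b : ℝ) ^ j * β) : ℝ) : Circ), 0] : T2) = b ^ j • x := by
    intro j
    ext i
    fin_cases i
    · simp only [hx, Fin.zero_eta, Matrix.cons_val_zero, Pi.smul_apply]
      rw [← AddCircle.coe_nsmul]
      congr 1
      simp only [nsmul_eq_mul]
      push_cast
      ring
    · simp [hx]
  have hcomm : ∀ (j m : ℕ), (aut t)^[m] (b ^ j • x) = b ^ j • (aut t)^[m] x := by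
    intro j m
    rw [← pw_apply, ← pw_apply, map_nsmul]
  have hli : ∀ j : ℕ, LinearIndependent ℚ ![1, α, β] →
      LinearIndependent ℚ ![1, α, (b : ℝ) ^ j * β] := by
    intro j h
    rw [Fintype.linearIndependent_iff] at h ⊢
    intro g hg
    have hbj : (b : ℚ) ^ j ≠ 0 := by positivity
    have h1 := h ![g 0, g 1, g 2 * (b : ℚ) ^ j] (by
      simp only [Fin.sum_univ_three, Matrix.cons_val_zero, Matrix.cons_val_one, Matrix.cons_val,
        Rat.smul_def] at hg ⊢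
      push_cast
      rw [← hg]; ring)
    intro i
    fin_cases i
    · simpa using h1 0
    · simpa using h1 1
    · have := h1 2
      simp only [Matrix.cons_val] at this
      rcases mul_eq_zero.1 this with h2 | h2
      · exact h2
      · exact absurd h2 hbj
  rcases hM x with hres | hcount
  · have hempty : ((Finset.range N).filter (fun i : ℕ =>
        ¬ ∀ γ : ℝ, (γ = 0 ∨ LinearIndependent ℚ ![1, α, β]) →
          ∃ᶠ q : ℕ in atTop, (q : ℝ) * |q * α - round (q * α)|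
            * |(q * ((b : ℝ) ^ (T + i) * β) - γ) - round (q * ((b : ℝ) ^ (T + i) * β) - γ)| < ε)) = ∅ := by
      rw [Finset.filter_eq_empty_iff]
      intro i _ hcon
      apply hcon
      intro γ hγ
      refine concl E hD hQ hα hε hK (Or.inl ?_) (hγ.imp id (hli _))
      rw [hbx]
      obtain ⟨d, hd, hlim⟩ := hres
      refine ⟨d, hd, ?_⟩
      have h2 := ((continuous_nsmul (b ^ (T + i))).tendsto (0 : T2)).comp hlim
      rw [smul_zero] at h2
      refine h2.congr fun m => ?_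
      simp only [Function.comp]
      rw [hcomm, smul_comm]
    rw [hempty]
    simp only [Finset.card_empty, Nat.cast_zero]
    positivity
  · refine le_trans ?_ (hcount T N hN)
    have hsub : ((Finset.range N).filter (fun i : ℕ =>
        ¬ ∀ γ : ℝ, (γ = 0 ∨ LinearIndependent ℚ ![1, α, β]) →
          ∃ᶠ q : ℕ in atTop, (q : ℝ) * |q * α - round (q * α)|
            * |(q * ((b : ℝ) ^ (T + i) * β) - γ) - round (q * ((b : ℝ) ^ (T + i) * β) - γ)| < ε)) ⊆
        ((Finset.range N).filter (fun i => ¬ ∀ k ∈ hfin.toFinset,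
          ∃ᶠ m : ℕ in atTop, b ^ (T + i) • (aut t)^[m] x ∈ Uset K k)) := by
      intro i hi
      rw [Finset.mem_filter] at hi ⊢
      refine ⟨hi.1, fun hall => hi.2 fun γ hγ => ?_⟩
      refine concl E hD hQ hα hε hK (Or.inr fun s hs => ?_) (hγ.imp id (hli _))
      rw [hbx]
      refine (hall s (hfin.mem_toFinset.2 hs)).mono fun m hm => ?_
      rw [hcomm]; exact hm
    exact_mod_cast Finset.card_le_card hsub

/-- the almost sure statement -/
theorem lc_ae {α : ℝ} (hirr : Irrational α)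
    (hq : ∃ A B C : ℤ, A ≠ 0 ∧ (A : ℝ) * α ^ 2 + B * α + C = 0) {b : ℕ} (hb : 2 ≤ b)
    {μ : Measure Circ} [IsProbabilityMeasure μ] (hμ : MeasurePreserving (fun x : Circ => b • x) μ μ) :
    ∀ᵐ x ∂μ, ∀ β : ℝ, (β : Circ) = x → ∀ γ : ℝ, (γ = 0 ∨ LinearIndependent ℚ ![1, α, β]) →
      ∀ ε : ℝ, 0 < ε → ∃ᶠ q : ℕ in atTop, (q : ℝ) * |q * α - round (q * α)|
            * |(q * β - γ) - round (q * β - γ)| < ε := by
  obtain ⟨t, lam, D, P, Q, E, hD, hQ, hα⟩ := quad_data hirr hq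
  set φ : Circ → T2 := fun y => ![D • y, 0] with hφ
  have hφc : Continuous φ := by
    refine continuous_pi fun i => ?_
    fin_cases i
    · exact continuous_nsmul D
    · exact continuous_const
  have hφS : ∀ y, φ (b • y) = b • φ y := by
    intro y
    ext i
    fin_cases i
    · simp only [hφ, Fin.zero_eta, Matrix.cons_val_zero, Pi.smul_apply]
      exact smul_comm _ _ _
    · simp [hφ]
  have hall : ∀ᵐ x ∂μ, ∀ K : ℕ, ∀ s ∈ {s : Circ | (K + 1) • s = 0}, Res (aut t) (φ x) ∨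
      ∃ᶠ m : ℕ in atTop, (aut t)^[m] (φ x) ∈ Uset K s := by
    rw [ae_all_iff]
    intro K
    rw [ae_ball_iff (AddCircle.finite_torsion (1 : ℝ) (Nat.succ_pos K)).countable]
    intro s _
    exact ae_orbit torT2 (hyperb E) hb (theta E hb) (isOpen_Uset K s) (Uset_nonempty K s) hμ
      hφc.measurable hφS
  filter_upwards [hall] with x hx β hβ γ hγ ε hε
  obtain ⟨K, hK⟩ := exists_K (C := D * |(Q : ℝ)|) (by positivity) hε
  have hpt : (![((D * β : ℝ) : Circ), 0] : T2) = φ x := by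
    ext i
    fin_cases i
    · simp only [hφ, Fin.zero_eta, Matrix.cons_val_zero]
      rw [← hβ, ← AddCircle.coe_nsmul, nsmul_eq_mul]
    · simp [hφ]
  refine concl E hD hQ hα hε hK ?_ hγ
  rw [hpt]
  by_cases hres : Res (aut t) (φ x)
  · left; exact hres
  · right
    intro s hs
    exact (hx K s hs).resolve_left hres

end Pool.Agent.W765.Hb
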