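import Mathlib

set_option autoImplicit false

open MeasureTheory Filter Topology Set

namespace Pool.Agent.W765.Sk

variable {B : Type*} [MetricSpace B] {X : Type*} [NormedAddCommGroup X]

/-- one expanding leaf of a skew product `T` over `σ` -/
structure Leaf (σ : B ≃ₜ B) (T : (B × X) ≃ₜ (B × X)) (lam : B → ℝ) (l : B → ℝ →+ X) : Prop where
  contl : Continuous fun z : B × ℝ => l z.1 z.2
  dense : ∀ w, DenseRange (l w)
  eq : ∀ w y, T (w, l w y) = (σ w, l (σ w) (lam w * y))
  contlam : Continuous lam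
  one_le : ∀ w, 1 ≤ |lam w|
  two_le : ∀ w, 2 ≤ |lam w * lam (σ w)|

/-- the product of the multipliers along an orbit -/
def Lam (σ : B ≃ₜ B) (lam : B → ℝ) : ℕ → B → ℝ
  | 0, _ => 1
  | (k + 1), w => Lam σ lam k (σ w) * lam w

variable {σ : B ≃ₜ B} {T : (B × X) ≃ₜ (B × X)} {lam : B → ℝ} {l : B → ℝ →+ X}

lemma Lam_succ (k : ℕ) (w : B) : Lam σ lam (k + 1) w = Lam σ lam k (σ w) * lam w := rfl

lemma Lam_succ' (k : ℕ) (w : B) : Lam σ lam (k + 1) w = lam (σ^[k] w) * Lam σ lam k w := by
  induction k generalizing w with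
  | zero => simp [Lam]
  | succ k ih =>
    rw [Lam_succ, ih, Lam_succ k w, Function.iterate_succ_apply, mul_assoc]

lemma Leaf.one_le_Lam (H : Leaf σ T lam l) (k : ℕ) (w : B) : 1 ≤ |Lam σ lam k w| := by
  induction k generalizing w with
  | zero => simp [Lam]
  | succ k ih =>
    rw [Lam_succ, abs_mul]
    exact one_le_mul_of_one_le_of_one_le (ih _) (H.one_le w)

lemma Leaf.pow_le_Lam (H : Leaf σ T lam l) (k : ℕ) (w : B) : (2 : ℝ) ^ k ≤ |Lam σ lam (2 * k) w| := by
  induction k generalizing w with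
  | zero => simp [Lam]
  | succ k ih =>
    have e : 2 * (k + 1) = (2 * k + 1) + 1 := by ring
    rw [e, Lam_succ, Lam_succ, mul_assoc, abs_mul, pow_succ]
    have h1 := ih (σ (σ w))
    have h2 := H.two_le w
    rw [mul_comm (lam w)] at h2
    exact mul_le_mul h1 h2 (by norm_num) (abs_nonneg _)

lemma Leaf.iter (H : Leaf σ T lam l) (k : ℕ) (w : B) (y : ℝ) :
    T^[k] (w, l w y) = (σ^[k] w, l (σ^[k] w) (Lam σ lam k w * y)) := by
  induction k generalizing w y with
  | zero => simp [Lam]
  | succ k ih =>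
    rw [Function.iterate_succ_apply, H.eq, ih, Function.iterate_succ_apply, Lam_succ, mul_assoc]

/-- A dense one-parameter subgroup meets a fibrewise nonempty open set in pieces of all translates
of a fixed interval. -/
lemma syndetic [CompactSpace B] [CompactSpace X] (H : Leaf σ T lam l) {J : Set (B × X)}
    (hJ : IsOpen J) (hJn : ∀ w, ∃ x, (w, x) ∈ J) :
    ∃ L > 0, ∃ η > 0, ∀ w x, ∃ s : ℝ, |s| < L ∧ ∀ t : ℝ, |t| < η → (w, x + l w (s + t)) ∈ J := by
  have key : ∀ z : B × X, ∃ s : ℝ, ∃ U ∈ 𝓝 z, ∃ η > 0, ∀ z' ∈ U, ∀ t : ℝ, |t| < η →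
      (z'.1, z'.2 + l z'.1 (s + t)) ∈ J := by
    rintro ⟨w, x⟩
    have hJw : IsOpen {y : X | (w, y) ∈ J} := hJ.preimage (by fun_prop)
    have ho : IsOpen {y : X | (w, x + y) ∈ J} := hJ.preimage (by fun_prop)
    obtain ⟨x0, hx0⟩ := hJn w
    obtain ⟨s, hs⟩ := (H.dense w).exists_mem_open ho ⟨x0 - x, by simpa using hx0⟩
    have hc : Continuous fun q : (B × X) × ℝ => (q.1.1, q.1.2 + l q.1.1 (s + q.2)) := by
      refine continuous_fst.fst.prodMk (continuous_fst.snd.add ?_)
      exact H.contl.comp (continuous_fst.fst.prodMk (continuous_const.add continuous_snd))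
    have hmem : ((w, x), (0 : ℝ)) ∈ (fun q : (B × X) × ℝ => (q.1.1, q.1.2 + l q.1.1 (s + q.2))) ⁻¹' J := by
      simpa using hs
    have hn := (hJ.preimage hc).mem_nhds hmem
    rw [nhds_prod_eq, mem_prod_iff] at hn
    obtain ⟨U, hU, V, hV, hUV⟩ := hn
    obtain ⟨η, hη, hball⟩ := Metric.mem_nhds_iff.1 hV
    refine ⟨s, U, hU, η, hη, fun z' hz' t ht => ?_⟩
    exact hUV (mk_mem_prod hz' (hball (by simpa using ht)))
  choose s U hU η hη hs using key
  obtain ⟨S, hS⟩ := (isCompact_univ (X := B × X)).elim_nhds_subcover U (fun z _ => hU z)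
  obtain ⟨L, hL⟩ : ∃ L : ℝ, ∀ z ∈ S, |s z| < L := by
    refine ⟨∑ z ∈ S, |s z| + 1, fun z hz => ?_⟩
    have := Finset.single_le_sum (f := fun z => |s z|) (fun i _ => abs_nonneg _) hz
    exact lt_of_le_of_lt this (lt_add_one _)
  obtain ⟨η', hη', hηS⟩ : ∃ η' > 0, ∀ z ∈ S, η' ≤ η z := by
    rcases S.eq_empty_or_nonempty with rfl | hne
    · exact ⟨1, one_pos, by simp⟩
    · obtain ⟨z0, hz0, hmin⟩ := S.exists_min_image η hne
      exact ⟨η z0, hη z0, hmin⟩
  refine ⟨max L 1, by positivity, η', hη', fun w x => ?_⟩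
  obtain ⟨z, hzS, hz⟩ := mem_iUnion₂.1 (hS.2 (mem_univ (w, x)))
  exact ⟨s z, (hL z hzS).trans_le (le_max_left _ _), fun t ht => hs z _ hz t (ht.trans_le (hηS z hzS))⟩

/-- the exceptional set in the leaf -/
def Exc (T : (B × X) ≃ₜ (B × X)) (l : B → ℝ →+ X) (J : Set (B × X)) : Set (B × ℝ) :=
  {z | ∀ j : ℤ, (T ^ j) (z.1, l z.1 z.2) ∉ J}

lemma isClosed_Exc (H : Leaf σ T lam l) {J : Set (B × X)} (hJ : IsOpen J) :
    IsClosed (Exc T l J) := by
  unfold Exc
  simp only [ofPred_forall]
  refine isClosed_iInter fun j => hJ.isClosed_compl.preimage ?_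
  exact (T ^ j).continuous.comp (continuous_fst.prodMk H.contl)

lemma mem_Exc_iff (H : Leaf σ T lam l) {J : Set (B × X)} (w : B) (s : ℝ) :
    (σ w, lam w * s) ∈ Exc T l J ↔ (w, s) ∈ Exc T l J := by
  have key : ∀ j : ℤ, (T ^ j) (σ w, l (σ w) (lam w * s)) = (T ^ (j + 1)) (w, l w s) := by
    intro j
    rw [zpow_add, zpow_one, Homeomorph.mul_apply, H.eq]
  constructor
  · intro h j
    have := h (j - 1)
    simp only at this
    rw [key, sub_add_cancel] at this
    exact this
  · intro h j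
    have := h (j + 1)
    simp only
    rw [key]
    exact this

lemma zpow_natCast_apply (T : (B × X) ≃ₜ (B × X)) (k : ℕ) (z : B × X) :
    (T ^ (k : ℤ)) z = T^[k] z := by
  rw [zpow_natCast]
  induction k generalizing z with
  | zero => rfl
  | succ k ih => rw [pow_succ, Homeomorph.mul_apply, ih, Function.iterate_succ_apply]

/-- Almost all real numbers have an expanded image in a given open set. -/
lemma volume_Exc [CompactSpace B] [CompactSpace X] (H : Leaf σ T lam l) {J : Set (B × X)}
    (hJ : IsOpen J) (hJn : ∀ w, ∃ x, (w, x) ∈ J) (w : B) :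
    volume {y : ℝ | (w, y) ∈ Exc T l J} = 0 := by
  obtain ⟨L, hL, η, hη, HH⟩ := syndetic H hJ hJn
  set E : Set ℝ := {y : ℝ | (w, y) ∈ Exc T l J} with hE
  have hfalse : ∀ᵐ x ∂(volume.restrict E), False := by
    filter_upwards [Besicovitch.ae_tendsto_measure_inter_div (volume : Measure ℝ) E] with x hx
    set ρ : ℕ → ℝ := fun k => |Lam σ lam (2 * k) w|⁻¹ with hρdef
    have hΛ : ∀ k, (2 : ℝ) ^ k ≤ |Lam σ lam (2 * k) w| := fun k => H.pow_le_Lam k w
    have hΛ0 : ∀ k, 0 < |Lam σ lam (2 * k) w| := fun k => lt_of_lt_of_le (by positivity) (hΛ k)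
    have hρ0 : ∀ k, 0 < ρ k := fun k => inv_pos.2 (hΛ0 k)
    have hρt : Tendsto ρ atTop (𝓝 0) := by
      refine squeeze_zero (fun k => (hρ0 k).le) (fun k => ?_)
        (tendsto_pow_atTop_nhds_zero_of_lt_one (r := (2 : ℝ)⁻¹) (by norm_num) (by norm_num))
      rw [inv_pow]
      exact inv_anti₀ (by positivity) (hΛ k)
    have hrad : Tendsto (fun j : ℕ => (L + η) * ρ j) atTop (𝓝[>] 0) := by
      refine tendsto_nhdsWithin_iff.2 ⟨?_, Eventually.of_forall fun j => ?_⟩
      · have := hρt.const_mul (L + η)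
        simpa using this
      · change 0 < (L + η) * ρ j
        exact mul_pos (by positivity) (hρ0 j)
    have h1 := hx.comp hrad
    have h2 : ∀ j : ℕ, volume (E ∩ Metric.closedBall x ((L + η) * ρ j)) /
        volume (Metric.closedBall x ((L + η) * ρ j)) ≤ ENNReal.ofReal (L / (L + η)) := by
      intro j
      have hρ0 := hρ0 j
      set ρ' : ℝ := ρ j with hρ'
      set Λ : ℝ := Lam σ lam (2 * j) w with hΛ'
      have hΛne : Λ ≠ 0 := fun h => by have := hΛ0 j; rw [← hΛ', h, abs_zero] at this; exact lt_irrefl _ this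
      have hΛρ : |Λ| * ρ' = 1 := by
        rw [hρ', hρdef]; exact mul_inv_cancel₀ (hΛ0 j).ne'
      obtain ⟨s, hs, hst⟩ := HH (σ^[2 * j] w) (l (σ^[2 * j] w) (Λ * x))
      have hsub : Metric.ball (x + s / Λ) (ρ' * η) ⊆ Metric.closedBall x ((L + η) * ρ') \ E := by
        intro y hy
        rw [Metric.mem_ball, Real.dist_eq] at hy
        have hsΛ : |s / Λ| = |s| * ρ' := by
          rw [abs_div, div_eq_mul_inv]
        constructor
        · rw [Metric.mem_closedBall, Real.dist_eq]
          have e1 : |y - x| ≤ |y - (x + s / Λ)| + |s / Λ| := by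
            have := abs_add_le (y - (x + s / Λ)) (s / Λ)
            have e : y - (x + s / Λ) + s / Λ = y - x := by ring
            rwa [e] at this
          rw [hsΛ] at e1
          nlinarith
        · intro hyE
          have e2 : |Λ * (y - (x + s / Λ))| < η := by
            rw [abs_mul]
            have := mul_lt_mul_of_pos_left hy (hΛ0 j)
            calc |Λ| * |y - (x + s / Λ)| < |Λ| * (ρ' * η) := this
              _ = η := by rw [← mul_assoc, hΛρ, one_mul]
          have e3 := hst _ e2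
          have e4 := hyE ((2 * j : ℕ) : ℤ)
          apply e4
          rw [zpow_natCast_apply, H.iter]
          have e5 : Λ * y = Λ * x + (s + Λ * (y - (x + s / Λ))) := by
            field_simp
            ring
          rw [e5, map_add]
          exact e3
      have hvol1 : volume (Metric.closedBall x ((L + η) * ρ')) = ENNReal.ofReal (2 * ((L + η) * ρ')) :=
        Real.volume_closedBall _ _
      have hvol2 : volume (Metric.ball (x + s / Λ) (ρ' * η)) = ENNReal.ofReal (2 * (ρ' * η)) :=
        Real.volume_ball _ _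
      have hle : volume (E ∩ Metric.closedBall x ((L + η) * ρ')) ≤ ENNReal.ofReal (2 * (L * ρ')) := by
        have e6 : E ∩ Metric.closedBall x ((L + η) * ρ') ⊆
            Metric.closedBall x ((L + η) * ρ') \ Metric.ball (x + s / Λ) (ρ' * η) := by
          rintro y ⟨hy1, hy2⟩
          exact ⟨hy2, fun hy3 => (hsub hy3).2 hy1⟩
        refine (measure_mono e6).trans ?_
        rw [measure_sdiff (hsub.trans sdiff_subset) measurableSet_ball.nullMeasurableSet
          (by rw [hvol2]; exact ENNReal.ofReal_ne_top), hvol1, hvol2,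
          ← ENNReal.ofReal_sub _ (by positivity)]
        apply ENNReal.ofReal_le_ofReal
        nlinarith
      rw [hvol1]
      refine (ENNReal.div_le_div_right hle _).trans ?_
      rw [← ENNReal.ofReal_div_of_pos (by positivity)]
      apply ENNReal.ofReal_le_ofReal
      rw [div_le_div_iff₀ (by positivity) (by positivity)]
      nlinarith
    have h3 := le_of_tendsto' h1 h2
    have h4 : L / (L + η) < 1 := by rw [div_lt_one (by positivity)]; linarith
    have h5 : ENNReal.ofReal (L / (L + η)) < 1 := by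
      rw [ENNReal.ofReal_lt_one]; exact h4
    exact absurd h3 (not_le.2 h5)
  have h6 := ae_iff.1 hfalse
  simpa using h6

end Pool.Agent.W765.Sk
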