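import Mathlib
import Pool.Agent.W765.Sk1

set_option autoImplicit false

open MeasureTheory Filter Topology Set

namespace Pool.Agent.W765.Sk

variable {B : Type*} [MetricSpace B] {X : Type*} [NormedAddCommGroup X]

/-- a hyperbolic skew product with one dimensional expanding and contracting leaves -/
structure Hyp (σ : B ≃ₜ B) (T : (B × X) ≃ₜ (B × X)) (lam₁ lam₂ : B → ℝ) (l₁ l₂ : B → ℝ →+ X) :
    Prop where
  leaf₁ : Leaf σ T lam₁ l₁
  leaf₂ : Leaf σ.symm T.symm lam₂ l₂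
  fst : ∀ z, (T z).1 = σ z.1
  add : ∀ w x y, (T (w, x + y)).2 = (T (w, x)).2 + (T (w, y)).2
  loc : ∀ η > 0, ∃ ε > 0, ∀ (w : B) (x : X), ‖x‖ < ε →
    ∃ y r : ℝ, |y| < η ∧ |r| < η ∧ x = l₁ w y + l₂ w r
  inj : ∃ h > 0, ∀ (w : B) (y r : ℝ), |y| ≤ h → |r| ≤ h → l₁ w y + l₂ w r = 0 → y = 0 ∧ r = 0

variable {σ : B ≃ₜ B} {T : (B × X) ≃ₜ (B × X)} {lam lam₁ lam₂ : B → ℝ} {l l₁ l₂ : B → ℝ →+ X}

lemma Hyp.fst_symm (H : Hyp σ T lam₁ lam₂ l₁ l₂) (z : B × X) : (T.symm z).1 = σ.symm z.1 := by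
  have h := H.fst (T.symm z)
  rw [Homeomorph.apply_symm_apply] at h
  rw [h, Homeomorph.symm_apply_apply]

lemma Hyp.add_symm (H : Hyp σ T lam₁ lam₂ l₁ l₂) (w : B) (x y : X) :
    (T.symm (w, x + y)).2 = (T.symm (w, x)).2 + (T.symm (w, y)).2 := by
  have hx : T.symm (w, x) = (σ.symm w, (T.symm (w, x)).2) := Prod.ext (H.fst_symm _) rfl
  have hy : T.symm (w, y) = (σ.symm w, (T.symm (w, y)).2) := Prod.ext (H.fst_symm _) rfl
  have h1 : T (σ.symm w, (T.symm (w, x)).2 + (T.symm (w, y)).2) = (w, x + y) := by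
    refine Prod.ext ?_ ?_
    · rw [H.fst]; simp
    · rw [H.add, ← hx, ← hy]; simp
  rw [← h1, Homeomorph.symm_apply_apply]

lemma Hyp.symm (H : Hyp σ T lam₁ lam₂ l₁ l₂) : Hyp σ.symm T.symm lam₂ lam₁ l₂ l₁ where
  leaf₁ := H.leaf₂
  leaf₂ := H.leaf₁
  fst := H.fst_symm
  add := H.add_symm
  loc := fun η hη => by
    obtain ⟨ε, hε, h⟩ := H.loc η hη
    refine ⟨ε, hε, fun w x hx => ?_⟩
    obtain ⟨y, r, hy, hr, he⟩ := h w x hx
    exact ⟨r, y, hr, hy, by rw [he, add_comm]⟩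
  inj := by
    obtain ⟨h, hh, hi⟩ := H.inj
    exact ⟨h, hh, fun w y r hy hr he => (hi w r y hr hy (by rw [add_comm]; exact he)).symm⟩

section pullback
variable {B' : Type*} [MetricSpace B'] {π : B' → B} {σ' : B' ≃ₜ B'} {T' : (B' × X) ≃ₜ (B' × X)}

lemma Leaf.pullback (H : Leaf σ T lam l) (hπ : Continuous π) (h1 : ∀ w, π (σ' w) = σ (π w))
    (h2 : ∀ w x, T' (w, x) = (σ' w, (T (π w, x)).2)) :
    Leaf σ' T' (fun w => lam (π w)) (fun w => l (π w)) where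
  contl := H.contl.comp ((hπ.comp continuous_fst).prodMk continuous_snd)
  dense := fun w => H.dense (π w)
  eq := fun w y => by
    rw [h2, H.eq, h1]
  contlam := H.contlam.comp hπ
  one_le := fun w => H.one_le _
  two_le := fun w => by
    simp only [h1]
    exact H.two_le _

lemma Hyp.pullback (H : Hyp σ T lam₁ lam₂ l₁ l₂) (hπ : Continuous π)
    (h1 : ∀ w, π (σ' w) = σ (π w)) (h2 : ∀ w x, T' (w, x) = (σ' w, (T (π w, x)).2)) :
    Hyp σ' T' (fun w => lam₁ (π w)) (fun w => lam₂ (π w)) (fun w => l₁ (π w))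
      (fun w => l₂ (π w)) where
  leaf₁ := H.leaf₁.pullback hπ h1 h2
  leaf₂ := by
    have h1' : ∀ w, π (σ'.symm w) = σ.symm (π w) := by
      intro w
      have := h1 (σ'.symm w)
      rw [Homeomorph.apply_symm_apply] at this
      rw [this, Homeomorph.symm_apply_apply]
    refine H.leaf₂.pullback hπ h1' ?_
    intro w x
    have h3 : T' (σ'.symm w, (T.symm (π w, x)).2) = (w, x) := by
      rw [h2, h1', Homeomorph.apply_symm_apply]
      have h4 : (σ.symm (π w), (T.symm (π w, x)).2) = T.symm (π w, x) :=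
        Prod.ext (H.fst_symm (π w, x)).symm rfl
      rw [h4, Homeomorph.apply_symm_apply]
    have h5 := congrArg T'.symm h3
    rw [Homeomorph.symm_apply_apply] at h5
    exact h5.symm
  fst := fun z => by
    have := h2 z.1 z.2
    rw [Prod.mk.eta] at this
    rw [this]
  add := fun w x y => by
    rw [h2, h2, h2]; exact H.add _ _ _
  loc := fun η hη => by
    obtain ⟨ε, hε, h⟩ := H.loc η hη
    exact ⟨ε, hε, fun w x hx => h (π w) x hx⟩
  inj := by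
    obtain ⟨h, hh, hi⟩ := H.inj
    exact ⟨h, hh, fun w => hi (π w)⟩
end pullback

lemma Hyp.map_zero (H : Hyp σ T lam₁ lam₂ l₁ l₂) (w : B) : (T (w, 0)).2 = 0 := by
  have := H.add w 0 0
  simpa using this

lemma Hyp.map_eq (H : Hyp σ T lam₁ lam₂ l₁ l₂) (w : B) (x : X) : T (w, x) = (σ w, (T (w, x)).2) :=
  Prod.ext (H.fst _) rfl

lemma Hyp.map_sub (H : Hyp σ T lam₁ lam₂ l₁ l₂) (w : B) (x y : X) :
    (T (w, x - y)).2 = (T (w, x)).2 - (T (w, y)).2 := by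
  have := H.add w (x - y) y
  rw [sub_add_cancel] at this
  rw [this, add_sub_cancel_right]

lemma Hyp.map_nsmul (H : Hyp σ T lam₁ lam₂ l₁ l₂) (w : B) (n : ℕ) (x : X) :
    (T (w, n • x)).2 = n • (T (w, x)).2 := by
  induction n with
  | zero => simpa using H.map_zero w
  | succ n ih => rw [succ_nsmul, succ_nsmul, H.add, ih]

lemma Hyp.iter_fst (H : Hyp σ T lam₁ lam₂ l₁ l₂) (k : ℕ) (w : B) (x : X) :
    (T^[k] (w, x)).1 = σ^[k] w := by
  induction k with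
  | zero => rfl
  | succ k ih => rw [Function.iterate_succ_apply', Function.iterate_succ_apply', H.fst, ih]

lemma Hyp.iter_add (H : Hyp σ T lam₁ lam₂ l₁ l₂) (k : ℕ) (w : B) (x y : X) :
    (T^[k] (w, x + y)).2 = (T^[k] (w, x)).2 + (T^[k] (w, y)).2 := by
  induction k with
  | zero => rfl
  | succ k ih =>
    rw [Function.iterate_succ_apply', Function.iterate_succ_apply', Function.iterate_succ_apply',
      ← Prod.mk.eta (p := T^[k] (w, x + y)), ih, H.iter_fst, H.add]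
    congr 2
    · rw [← H.iter_fst k w x]
    · rw [← H.iter_fst k w y]

/-- zooming in the expanding direction -/
lemma Hyp.zoom (H : Hyp σ T lam₁ lam₂ l₁ l₂) {Λ : ℝ} (hΛ : ∀ w, |lam₁ w| ≤ Λ) {w : B} {y r h : ℝ}
    (hy : y ≠ 0) (hyh : |y| ≤ h) : ∃ k : ℕ, ∃ R s : ℝ, h / Λ ≤ |R| ∧ |R| ≤ h ∧ |s| ≤ |r| ∧
      T^[k] (w, l₁ w y + l₂ w r) = (σ^[k] w, l₁ (σ^[k] w) R + l₂ (σ^[k] w) s) := by
  classical
  have hy0 : 0 < |y| := abs_pos.2 hy
  have hh : 0 < h := lt_of_lt_of_le hy0 hyh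
  have hΛ0 : 0 < Λ := lt_of_lt_of_le one_pos ((H.leaf₁.one_le w).trans (hΛ w))
  have hex : ∃ j : ℕ, h < |Lam σ lam₁ j w * y| := by
    obtain ⟨n, hn⟩ := pow_unbounded_of_one_lt (h / |y|) (one_lt_two)
    refine ⟨2 * n, ?_⟩
    rw [abs_mul, ← div_lt_iff₀ hy0]
    exact hn.trans_le (H.leaf₁.pow_le_Lam n w)
  obtain ⟨k, hk⟩ : ∃ k, Nat.find hex = k + 1 := by
    refine Nat.exists_eq_succ_of_ne_zero ?_
    intro h0
    have := Nat.find_spec hex
    rw [h0] at this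
    simp only [Lam, one_mul] at this
    exact absurd this (not_lt.2 hyh)
  have h1 : h < |Lam σ lam₁ (k + 1) w * y| := by
    have := Nat.find_spec hex
    rwa [hk] at this
  have h2 : |Lam σ lam₁ k w * y| ≤ h := by
    have := Nat.find_min hex (m := k) (by omega)
    exact not_lt.1 this
  set m : ℝ := Lam σ.symm lam₂ k (σ^[k] w) with hm
  have hm1 : 1 ≤ |m| := H.leaf₂.one_le_Lam k _
  have hm0 : m ≠ 0 := by
    intro h0
    rw [h0, abs_zero] at hm1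
    linarith
  refine ⟨k, Lam σ lam₁ k w * y, r / m, ?_, h2, ?_, ?_⟩
  · rw [div_le_iff₀ hΛ0]
    rw [Lam_succ', mul_assoc, abs_mul] at h1
    have h3 := hΛ (σ^[k] w)
    have h4 : |lam₁ (σ^[k] w)| * |Lam σ lam₁ k w * y| ≤ Λ * |Lam σ lam₁ k w * y| := by gcongr
    linarith
  · rw [abs_div]
    exact div_le_self (abs_nonneg _) hm1
  · have h3 := H.leaf₁.iter k w y
    have hinv : σ.symm^[k] (σ^[k] w) = w :=
      (Function.LeftInverse.iterate (fun x => σ.symm_apply_apply x) k) w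
    have hinvT : ∀ z, T^[k] (T.symm^[k] z) = z :=
      (Function.LeftInverse.iterate (fun x => T.apply_symm_apply x) k)
    have h4 := H.leaf₂.iter k (σ^[k] w) (r / m)
    rw [hinv, ← hm, mul_div_cancel₀ _ hm0] at h4
    have h5 : T^[k] (w, l₂ w r) = (σ^[k] w, l₂ (σ^[k] w) (r / m)) := by
      rw [← h4, hinvT]
    refine Prod.ext ?_ ?_
    · exact H.iter_fst k w _
    · change (T^[k] (w, l₁ w y + l₂ w r)).2 = l₁ (σ^[k] w) (Lam σ lam₁ k w * y) + l₂ (σ^[k] w) (r / m)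
      rw [H.iter_add, h3, h5]

/-- accumulation at the zero section -/
def Acc0 (D : Set (B × X)) : Prop := ∀ ε > 0, ∃ z ∈ D, z.2 ≠ 0 ∧ ‖z.2‖ < ε

omit [MetricSpace B] [NormedAddCommGroup X] in
lemma iter_mem {D : Set (B × X)} {f : B × X → B × X} (h : ∀ z ∈ D, f z ∈ D) (k : ℕ) {z : B × X}
    (hz : z ∈ D) : f^[k] z ∈ D := by
  induction k with
  | zero => exact hz
  | succ k ih => rw [Function.iterate_succ_apply']; exact h _ ih

lemma Hyp.exists_leaf_one [CompactSpace B] (H : Hyp σ T lam₁ lam₂ l₁ l₂) {Λ : ℝ}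
    (hΛ : ∀ w, |lam₁ w| ≤ Λ) {D : Set (B × X)} (hD : IsClosed D) (hT : ∀ z ∈ D, T z ∈ D)
    (hacc : ∀ η > 0, ∃ (w : B) (y r : ℝ), y ≠ 0 ∧ |y| < η ∧ |r| < η ∧ (w, l₁ w y + l₂ w r) ∈ D)
    {h : ℝ} (hh : 0 < h) : ∃ (w : B) (R : ℝ), h / Λ ≤ |R| ∧ |R| ≤ h ∧ (w, l₁ w R) ∈ D := by
  have key : ∀ n : ℕ, ∃ (w : B) (R s : ℝ), h / Λ ≤ |R| ∧ |R| ≤ h ∧ |s| ≤ 1 / ((n : ℝ) + 1) ∧
      (w, l₁ w R + l₂ w s) ∈ D := by
    intro n
    have hpos : (0 : ℝ) < 1 / ((n : ℝ) + 1) := by positivity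
    obtain ⟨w, y, r, hy, hyn, hrn, hmem⟩ := hacc (min h (1 / ((n : ℝ) + 1))) (lt_min hh hpos)
    obtain ⟨k, R, s, h1, h2, h3, h4⟩ := H.zoom hΛ (w := w) (r := r) hy
      (hyn.le.trans (min_le_left _ _))
    refine ⟨σ^[k] w, R, s, h1, h2, h3.trans (hrn.le.trans (min_le_right _ _)), ?_⟩
    rw [← h4]
    exact iter_mem hT k hmem
  choose w R s h1 h2 h3 h4 using key
  have hc : IsCompact ((univ : Set B) ×ˢ Icc (-h) h) := isCompact_univ.prod isCompact_Icc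
  obtain ⟨⟨w', R'⟩, -, φ, hφ, hlim⟩ := hc.tendsto_subseq (x := fun n => (w n, R n))
    (fun n => ⟨mem_univ _, abs_le.1 (h2 n)⟩)
  have hw : Tendsto (fun n => w (φ n)) atTop (𝓝 w') := (continuous_fst.tendsto _).comp hlim
  have hR : Tendsto (fun n => R (φ n)) atTop (𝓝 R') := (continuous_snd.tendsto _).comp hlim
  have hs : Tendsto (fun n => s (φ n)) atTop (𝓝 0) := by
    have h5 : Tendsto (fun n => 1 / (((φ n : ℕ) : ℝ) + 1)) atTop (𝓝 0) :=
      tendsto_one_div_add_atTop_nhds_zero_nat.comp hφ.tendsto_atTop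
    exact squeeze_zero_norm (fun n => h3 (φ n)) h5
  refine ⟨w', R', ?_, ?_, ?_⟩
  · exact ge_of_tendsto' hR.abs fun n => h1 _
  · exact le_of_tendsto' hR.abs fun n => h2 _
  · have h6 : Tendsto (fun n => (w (φ n), l₁ (w (φ n)) (R (φ n)) + l₂ (w (φ n)) (s (φ n)))) atTop
        (𝓝 (w', l₁ w' R' + l₂ w' 0)) := by
      refine hw.prodMk_nhds (Tendsto.add ?_ ?_)
      · exact (H.leaf₁.contl.tendsto (w', R')).comp (hw.prodMk_nhds hR)
      · exact (H.leaf₂.contl.tendsto (w', 0)).comp (hw.prodMk_nhds hs)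
    rw [_root_.map_zero, add_zero] at h6
    exact hD.mem_of_tendsto h6 (Eventually.of_forall fun n => h4 _)

/-- Lemma B. -/
theorem Hyp.exists_leaf [CompactSpace B] (H : Hyp σ T lam₁ lam₂ l₁ l₂) {Λ : ℝ}
    (hΛ₁ : ∀ w, |lam₁ w| ≤ Λ) (hΛ₂ : ∀ w, |lam₂ w| ≤ Λ) {D : Set (B × X)} (hD : IsClosed D)
    (hT : ∀ z ∈ D, T z ∈ D) (hT' : ∀ z ∈ D, T.symm z ∈ D) (hacc : Acc0 D)
    {h : ℝ} (hh : 0 < h) :
    (∃ (w : B) (R : ℝ), h / Λ ≤ |R| ∧ |R| ≤ h ∧ (w, l₁ w R) ∈ D) ∨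
      ∃ (w : B) (R : ℝ), h / Λ ≤ |R| ∧ |R| ≤ h ∧ (w, l₂ w R) ∈ D := by
  by_cases h1 : ∀ η > 0, ∃ (w : B) (y r : ℝ), y ≠ 0 ∧ |y| < η ∧ |r| < η ∧ (w, l₁ w y + l₂ w r) ∈ D
  · left; exact H.exists_leaf_one hΛ₁ hD hT h1 hh
  right
  push Not at h1
  obtain ⟨η₀, hη₀, h1⟩ := h1
  refine H.symm.exists_leaf_one hΛ₂ hD hT' ?_ hh
  intro η hη
  obtain ⟨ε, hε, hloc⟩ := H.loc (min η η₀) (lt_min hη hη₀)
  obtain ⟨⟨w, x⟩, hx, hx0, hxe⟩ := hacc ε hε
  obtain ⟨y, r, hy, hr, rfl⟩ := hloc w x hxe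
  have hy0 : y = 0 := by
    by_contra hne
    exact h1 w y r hne (hy.trans_le (min_le_right _ _)) (hr.trans_le (min_le_right _ _)) hx
  refine ⟨w, r, y, ?_, hr.trans_le (min_le_left _ _), hy.trans_le (min_le_left _ _), ?_⟩
  · rintro rfl
    apply hx0
    simp [hy0]
  · rw [add_comm]; exact hx

end Pool.Agent.W765.Sk
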