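import Mathlib
import Pool.Agent.W765.Sk2

set_option autoImplicit false

open MeasureTheory Filter Topology Set

namespace Pool.Agent.W765.Sk

/-- Uniform thinness of a closed set with null fibres. -/
lemma thin {B : Type*} [MetricSpace B] [CompactSpace B] {E : Set (B × ℝ)} (hE : IsClosed E)
    (h0 : ∀ w, volume {u : ℝ | (w, u) ∈ E} = 0) (a b : ℝ) {δ : ℝ} (hδ : 0 < δ) :
    ∃ η > 0, ∀ w, volume (Metric.cthickening η ({u : ℝ | (w, u) ∈ E} ∩ Icc a b)) ≤ ENNReal.ofReal δ := by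
  have key : ∀ w₀ : B, ∃ U ∈ 𝓝 w₀, ∃ η > 0, ∀ w ∈ U,
      volume (Metric.cthickening η ({u : ℝ | (w, u) ∈ E} ∩ Icc a b)) ≤ ENNReal.ofReal δ := by
    intro w₀
    set F : Set ℝ := {u : ℝ | (w₀, u) ∈ E} ∩ Icc a b with hF
    have hFc : IsCompact F := isCompact_Icc.inter_left (hE.preimage (by fun_prop))
    have hF0 : volume F = 0 := measure_mono_null inter_subset_left (h0 w₀)
    have ht : Tendsto (fun r => volume (Metric.cthickening r F)) (𝓝 0) (𝓝 (volume F)) :=
      tendsto_measure_cthickening_of_isCompact hFc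
    rw [hF0] at ht
    have hev := ht.eventually_lt_const (ENNReal.ofReal_pos.2 hδ)
    obtain ⟨ε, hε, hball⟩ := Metric.eventually_nhds_iff.1 hev
    set η : ℝ := ε / 4 with hη
    have hη0 : 0 < η := by positivity
    have hη2 : volume (Metric.cthickening (η + η) F) < ENNReal.ofReal δ := by
      apply hball
      rw [Real.dist_eq, sub_zero, abs_of_pos (by positivity)]
      rw [hη]; linarith
    have hKc : IsCompact (Icc a b \ Metric.thickening η F) :=
      isCompact_Icc.diff Metric.isOpen_thickening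
    have hev2 := hKc.eventually_forall_of_forall_eventually (x₀ := w₀)
      (P := fun w u => (w, u) ∉ E) (by
        intro u hu
        refine hE.isOpen_compl.mem_nhds ?_
        intro hmem
        exact hu.2 (Metric.self_subset_thickening hη0 _ ⟨hmem, hu.1⟩))
    refine ⟨_, hev2, η, hη0, fun w hw => ?_⟩
    refine (measure_mono ?_).trans hη2.le
    have hsub : {u : ℝ | (w, u) ∈ E} ∩ Icc a b ⊆ Metric.thickening η F := by
      rintro u ⟨hu1, hu2⟩
      by_contra hcon
      exact hw u ⟨hu2, hcon⟩ hu1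
    exact (Metric.cthickening_subset_of_subset _ hsub).trans
      (Metric.cthickening_thickening_subset hη0.le η F)
  choose U hU η hη hb using key
  obtain ⟨S, hS⟩ := (isCompact_univ (X := B)).elim_nhds_subcover U (fun z _ => hU z)
  obtain ⟨η', hη', hηS⟩ : ∃ η' > 0, ∀ z ∈ S, η' ≤ η z := by
    rcases S.eq_empty_or_nonempty with rfl | hne
    · exact ⟨1, one_pos, by simp⟩
    · obtain ⟨z0, hz0, hmin⟩ := S.exists_min_image η hne
      exact ⟨η z0, hη z0, hmin⟩
  refine ⟨η', hη', fun w => ?_⟩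
  obtain ⟨z, hzS, hz⟩ := mem_iUnion₂.1 (hS.2 (mem_univ w))
  exact (measure_mono (Metric.cthickening_mono (hηS z hzS) _)).trans (hb z w hz)

open Classical in
/-- Counting points of a well distributed finite sequence in a thin set. -/
lemma count_thin {a b c η δ : ℝ} (hc : 0 < c) (hη : 0 < η) (hδ : 0 < δ) :
    ∃ M₀ : ℕ, ∀ M ≥ M₀, ∀ x : ℕ → ℝ, (∀ s ρ : ℝ, 0 < ρ →
      (((Finset.range M).filter (fun m => x m ∈ Icc s (s + ρ))).card : ℝ) ≤ c * ρ * M + 3) →
      (∀ m < M, x m ∈ Icc a b) → ∀ S : Set ℝ,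
      volume (Metric.cthickening η (S ∩ Icc a b)) ≤ ENNReal.ofReal δ →
      (((Finset.range M).filter (fun m => x m ∈ S)).card : ℝ) ≤ 2 * c * δ * M := by
  set ρ : ℝ := η with hρ
  obtain ⟨M₀, hM₀⟩ := exists_nat_ge (3 / (c * ρ))
  refine ⟨M₀, fun M hM x hx hxab S hS => ?_⟩
  have hMR : 3 ≤ c * ρ * M := by
    have h1 : (M₀ : ℝ) ≤ M := by exact_mod_cast hM
    have h2 := hM₀.trans h1
    rw [div_le_iff₀ (by positivity)] at h2
    linarith
  set cell : ℤ → Set ℝ := fun i => Ico (a + i * ρ) (a + (i + 1) * ρ) with hcell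
  have hcell_mem : ∀ u : ℝ, u ∈ cell ⌊(u - a) / ρ⌋ := by
    intro u
    have h1 := Int.floor_le ((u - a) / ρ)
    have h2 := Int.lt_floor_add_one ((u - a) / ρ)
    rw [le_div_iff₀ hη] at h1
    rw [div_lt_iff₀ hη] at h2
    constructor <;> linarith
  have hdisj : Pairwise (Function.onFun Disjoint cell) := by
    intro i j hij
    rw [Function.onFun, Set.disjoint_left]
    rintro u ⟨h1, h2⟩ ⟨h3, h4⟩
    apply hij
    have h5 : (i : ℝ) * ρ < (j + 1) * ρ := by linarith
    have h6 : (j : ℝ) * ρ < (i + 1) * ρ := by linarith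
    have h7 : (i : ℝ) < j + 1 := lt_of_mul_lt_mul_right h5 hη.le
    have h8 : (j : ℝ) < i + 1 := lt_of_mul_lt_mul_right h6 hη.le
    have h9 : i < j + 1 := by exact_mod_cast h7
    have h10 : j < i + 1 := by exact_mod_cast h8
    omega
  -- the bad cells
  set A : Finset ℕ := (Finset.range M).filter (fun m => x m ∈ S) with hA
  set bad : Finset ℤ := A.image (fun m => ⌊(x m - a) / ρ⌋) with hbad
  have hbadsub : ∀ i ∈ bad, cell i ⊆ Metric.cthickening η (S ∩ Icc a b) := by
    intro i hi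
    rw [hbad, Finset.mem_image] at hi
    obtain ⟨m, hm, rfl⟩ := hi
    rw [hA, Finset.mem_filter, Finset.mem_range] at hm
    intro u hu
    refine Metric.mem_cthickening_of_dist_le u (x m) _ _ ⟨hm.2, hxab m hm.1⟩ ?_
    have h1 := hcell_mem (x m)
    rw [Real.dist_eq, abs_le]
    obtain ⟨h2, h3⟩ := hu
    obtain ⟨h4, h5⟩ := h1
    constructor <;> nlinarith
  have hvol : (bad.card : ℝ) * ρ ≤ δ := by
    have h1 : volume (⋃ i ∈ bad, cell i) = ∑ i ∈ bad, volume (cell i) :=
      measure_biUnion_finset (fun i _ j _ hij => hdisj hij) (fun i _ => measurableSet_Ico)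
    have h2 : ∀ i ∈ bad, volume (cell i) = ENNReal.ofReal ρ := by
      intro i _
      rw [hcell, Real.volume_Ico]
      congr 1; ring
    rw [Finset.sum_congr rfl h2, Finset.sum_const, nsmul_eq_mul] at h1
    have h3 : volume (⋃ i ∈ bad, cell i) ≤ ENNReal.ofReal δ :=
      (measure_mono (iUnion₂_subset hbadsub)).trans hS
    rw [h1, ← ENNReal.ofReal_natCast, ← ENNReal.ofReal_mul (by positivity)] at h3
    exact (ENNReal.ofReal_le_ofReal_iff hδ.le).1 h3
  have hcard : (A.card : ℝ) ≤ bad.card * (c * ρ * M + 3) := by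
    have h1 : A.card = ∑ i ∈ bad, (A.filter (fun m => ⌊(x m - a) / ρ⌋ = i)).card :=
      Finset.card_eq_sum_card_image _ _
    rw [h1]
    push_cast
    rw [← nsmul_eq_mul]
    refine Finset.sum_le_card_nsmul _ _ _ fun i _ => ?_
    refine le_trans ?_ (hx (a + i * ρ) ρ hη)
    norm_cast
    refine Finset.card_le_card ?_
    intro m hm
    rw [Finset.mem_filter] at hm
    rw [Finset.mem_filter]
    refine ⟨(Finset.mem_filter.1 hm.1).1, ?_⟩
    have h2 := hcell_mem (x m)
    rw [hm.2] at h2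
    obtain ⟨h3, h4⟩ := h2
    constructor <;> linarith
  calc (A.card : ℝ) ≤ bad.card * (c * ρ * M + 3) := hcard
    _ ≤ bad.card * (c * ρ * M + c * ρ * M) := by gcongr
    _ = (bad.card * ρ) * (2 * c * M) := by ring
    _ ≤ δ * (2 * c * M) := by gcongr
    _ = 2 * c * δ * M := by ring

/-- there are good rational approximations with large denominators -/
lemma exists_good_den {θ : ℝ} (hθ : Irrational θ) (M₀ : ℕ) :
    ∃ (p : ℤ) (q : ℕ), M₀ ≤ q ∧ 0 < q ∧ IsCoprime p (q : ℤ) ∧ |q * θ - p| ≤ 1 / q := by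
  have hinf := Real.infinite_rat_abs_sub_lt_one_div_den_sq_of_irrational hθ
  have hfin : {r : ℚ | |θ - r| < 1 ∧ r.den ≤ M₀}.Finite := by
    obtain ⟨K, hK⟩ := exists_nat_ge ((|θ| + 1) * M₀)
    have hinj : InjOn (fun r : ℚ => (r.num, r.den)) {r : ℚ | |θ - r| < 1 ∧ r.den ≤ M₀} := by
      intro r _ s _ hrs
      simp only [Prod.mk.injEq] at hrs
      exact Rat.ext hrs.1 hrs.2
    refine Set.Finite.of_finite_image ?_ hinj
    refine ((Set.finite_Icc (-(K : ℤ)) K).prod (Set.finite_Iic M₀)).subset ?_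
    rintro _ ⟨r, ⟨hr1, hr2⟩, rfl⟩
    refine ⟨?_, hr2⟩
    have h1 : (r.num : ℝ) = r * r.den := by
      have := Rat.mul_den_eq_num r
      exact_mod_cast this.symm
    have h2 : |(r : ℝ)| ≤ |θ| + 1 := by
      have h3 : |(r : ℝ)| ≤ |θ| + |(r : ℝ) - θ| := by
        have := abs_add_le θ ((r : ℝ) - θ)
        rwa [add_sub_cancel] at this
      rw [abs_sub_comm] at h3
      linarith
    have h4 : |(r.num : ℝ)| ≤ K := by
      rw [h1, abs_mul, Nat.abs_cast]
      have h5 : (r.den : ℝ) ≤ M₀ := by exact_mod_cast hr2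
      calc |(r : ℝ)| * r.den ≤ (|θ| + 1) * M₀ := by gcongr
        _ ≤ K := hK
    have h6 : |r.num| ≤ K := by exact_mod_cast h4
    exact abs_le.1 h6
  obtain ⟨r, hr1, hr2⟩ := hinf.exists_notMem_finite hfin
  have hden : (0 : ℝ) < r.den := by exact_mod_cast r.pos
  have hden1 : (1 : ℝ) ≤ r.den := by exact_mod_cast r.pos
  have hr1' : |θ - r| < 1 / (r.den : ℝ) ^ 2 := hr1
  refine ⟨r.num, r.den, ?_, r.pos, ?_, ?_⟩
  · by_contra hlt
    push Not at hlt
    apply hr2
    refine ⟨hr1'.trans_le ?_, hlt.le⟩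
    rw [div_le_one (by positivity)]
    exact one_le_pow₀ hden1
  · rw [Int.isCoprime_iff_gcd_eq_one]
    have := r.reduced
    rw [Int.gcd]
    simpa using this
  · have h1 : (r.num : ℝ) = r * r.den := by
      have := Rat.mul_den_eq_num r
      exact_mod_cast this.symm
    rw [h1]
    have h2 : (r.den : ℝ) * θ - r * r.den = r.den * (θ - r) := by ring
    rw [h2, abs_mul, Nat.abs_cast]
    have h3 : (r.den : ℝ) * |θ - r| ≤ r.den * (1 / (r.den : ℝ) ^ 2) := by gcongr
    refine h3.trans (le_of_eq ?_)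
    field_simp

open Classical in
/-- The arithmetic sequence. -/
lemma arith {β γ : ℝ} (hβ : 0 < β) (hγ : 0 < γ) (hθ : Irrational (β / γ)) (M₀ : ℕ) :
    ∃ M : ℕ, M₀ ≤ M ∧ 0 < M ∧ ∃ n : ℕ → ℕ, ∃ t : ℝ, (∀ m < M, m * β + n m * γ - t ∈ Ico 0 γ) ∧
      ∀ r s ρ : ℝ, 0 < ρ →
      (((Finset.range M).filter (fun m => m * β + n m * γ - t + r ∈ Icc s (s + ρ))).card : ℝ)
        ≤ 1 / γ * ρ * M + 3 := by
  obtain ⟨p, q, hq, hq0, hcop, happ⟩ := exists_good_den hθ M₀
  have hqR : (0 : ℝ) < q := by exact_mod_cast hq0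
  refine ⟨q, hq, hq0, fun m => ⌈(q * β - m * β) / γ⌉₊, q * β, ?_, ?_⟩
  · intro m hm
    have hmq : (m : ℝ) ≤ q := by exact_mod_cast hm.le
    have h1 : 0 ≤ (q * β - m * β) / γ := by
      apply div_nonneg _ hγ.le
      nlinarith
    have h2 := Nat.le_ceil ((q * β - m * β) / γ)
    have h3 := Nat.ceil_lt_add_one h1
    rw [div_le_iff₀ hγ] at h2
    have h4 : (⌈(q * β - m * β) / γ⌉₊ : ℝ) * γ < (q * β - m * β) + γ := by
      have h5 := mul_lt_mul_of_pos_right h3 hγ
      have h6 : ((q * β - m * β) / γ + 1) * γ = (q * β - m * β) + γ := by field_simp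
      linarith
    constructor <;> linarith
  · intro r s ρ hρ
    set n : ℕ → ℕ := fun m => ⌈(q * β - m * β) / γ⌉₊ with hn
    set A : ℝ := q * ((s - r + q * β) / γ) - 1 with hA
    set L : ℝ := q * (ρ / γ) + 2 with hL
    have hinj : InjOn (fun m : ℕ => (m : ℤ) * p + n m * q)
        ((Finset.range q).filter (fun m : ℕ => (m : ℝ) * β + n m * γ - q * β + r ∈ Icc s (s + ρ)) : Set ℕ) := by
      intro m hm m' hm' he
      rw [Finset.mem_coe, Finset.mem_filter, Finset.mem_range] at hm hm'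
      simp only at he
      have h1 : ((m : ℤ) - m') * p = (n m' - n m) * q := by linarith
      have h2 : (q : ℤ) ∣ ((m : ℤ) - m') * p := ⟨(n m' : ℤ) - n m, by rw [h1]; ring⟩
      have h3 : (q : ℤ) ∣ ((m : ℤ) - m') := hcop.symm.dvd_of_dvd_mul_right h2
      have h4 : (m : ℤ) - m' = 0 := by
        apply Int.eq_zero_of_abs_lt_dvd h3
        rw [abs_lt]
        constructor <;> omega
      omega
    have hmaps : MapsTo (fun m : ℕ => (m : ℤ) * p + n m * q)
        ((Finset.range q).filter (fun m : ℕ => (m : ℝ) * β + n m * γ - q * β + r ∈ Icc s (s + ρ)) : Set ℕ)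
        (Finset.Icc ⌈A⌉ ⌊A + L⌋ : Set ℤ) := by
      intro m hm
      rw [Finset.mem_coe, Finset.mem_filter, Finset.mem_range] at hm
      obtain ⟨hmq, h1, h2⟩ := hm
      have hmR : (m : ℝ) ≤ q := by exact_mod_cast hmq.le
      have h3 : |(m : ℝ) * p - m * (q * (β / γ))| ≤ 1 := by
        rw [← mul_sub, abs_mul, Nat.abs_cast, abs_sub_comm]
        calc (m : ℝ) * |q * (β / γ) - p| ≤ q * (1 / q) := by gcongr
          _ = 1 := by field_simp
      have h4 : (m : ℝ) * (q * (β / γ)) + n m * q = q * ((m * β + n m * γ) / γ) := by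
        field_simp
      have h5 : q * ((s - r + q * β) / γ) ≤ q * ((m * β + n m * γ) / γ) := by
        exact mul_le_mul_of_nonneg_left (div_le_div_of_nonneg_right (by linarith) hγ.le) hqR.le
      have h6 : q * ((m * β + n m * γ) / γ) ≤ q * ((s - r + q * β) / γ) + q * (ρ / γ) := by
        rw [← mul_add, ← add_div]
        exact mul_le_mul_of_nonneg_left (div_le_div_of_nonneg_right (by linarith) hγ.le) hqR.le
      rw [abs_le] at h3
      rw [Finset.coe_Icc, mem_Icc, Int.ceil_le, Int.le_floor]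
      push_cast
      constructor
      · rw [hA]; linarith [h3.1]
      · rw [hA, hL]; linarith [h3.2]
    have hcard := Finset.card_le_card_of_injOn _ hmaps hinj
    have h7 : ((Finset.Icc ⌈A⌉ ⌊A + L⌋).card : ℝ) ≤ L + 1 := by
      rw [Int.card_Icc]
      have hL0 : 0 ≤ L := by positivity
      have h8 : ((⌊A + L⌋ + 1 - ⌈A⌉ : ℤ) : ℝ) ≤ L + 1 := by
        push_cast
        have := Int.floor_le (A + L)
        have := Int.le_ceil A
        linarith
      rcases le_total 0 (⌊A + L⌋ + 1 - ⌈A⌉) with h9 | h9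
      · have h10 : (((⌊A + L⌋ + 1 - ⌈A⌉).toNat : ℤ) : ℝ) = ((⌊A + L⌋ + 1 - ⌈A⌉ : ℤ) : ℝ) := by
          rw [Int.toNat_of_nonneg h9]
        have h11 : (((⌊A + L⌋ + 1 - ⌈A⌉).toNat : ℕ) : ℝ) = (((⌊A + L⌋ + 1 - ⌈A⌉).toNat : ℤ) : ℝ) := by
          push_cast; rfl
        rw [h11, h10]; exact h8
      · rw [Int.toNat_of_nonpos h9]
        push_cast
        linarith
    have h12 : (((Finset.range q).filter
        (fun m : ℕ => (m : ℝ) * β + n m * γ - q * β + r ∈ Icc s (s + ρ))).card : ℝ) ≤ L + 1 :=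
      (by exact_mod_cast hcard : _ ≤ ((Finset.Icc ⌈A⌉ ⌊A + L⌋).card : ℝ)).trans h7
    refine h12.trans (le_of_eq ?_)
    rw [hL]; ring

end Pool.Agent.W765.Sk
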