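import Mathlib
import Pool.Agent.W765.Sk3

set_option autoImplicit false

open MeasureTheory Filter Topology Set

namespace Pool.Agent.W765.Sk

variable {B : Type*} [MetricSpace B] {X : Type*} [NormedAddCommGroup X]
variable {σ : B ≃ₜ B} {T : (B × X) ≃ₜ (B × X)} {lam lam₁ lam₂ : B → ℝ} {l l₁ l₂ : B → ℝ →+ X}

/-- exceptional set in the logarithmic coordinate -/
def Ex (T : (B × X) ≃ₜ (B × X)) (l : B → ℝ →+ X) (J : Set (B × X)) : Set (B × ℝ) :=
  {z | (z.1, Real.exp z.2) ∈ Exc T l J ∨ (z.1, -Real.exp z.2) ∈ Exc T l J}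

lemma isClosed_Ex (H : Leaf σ T lam l) {J : Set (B × X)} (hJ : IsOpen J) : IsClosed (Ex T l J) := by
  have h := isClosed_Exc H hJ
  refine IsClosed.union (h.preimage ?_) (h.preimage ?_)
  · exact continuous_fst.prodMk (Real.continuous_exp.comp continuous_snd)
  · exact continuous_fst.prodMk (Real.continuous_exp.comp continuous_snd).neg

lemma volume_exp_preimage {S : Set ℝ} (hS : volume S = 0) : volume {u : ℝ | Real.exp u ∈ S} = 0 := by
  have hsub : {u : ℝ | Real.exp u ∈ S} ⊆ Real.log '' (S ∩ Ioi 0) := by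
    intro u hu
    exact ⟨Real.exp u, ⟨hu, Real.exp_pos u⟩, Real.log_exp u⟩
  refine measure_mono_null hsub ?_
  refine MeasureTheory.addHaar_image_eq_zero_of_differentiableOn_of_addHaar_eq_zero volume ?_
    (measure_mono_null inter_subset_left hS)
  intro y hy
  exact (Real.differentiableAt_log (ne_of_gt hy.2)).differentiableWithinAt

lemma volume_Ex [CompactSpace B] [CompactSpace X] (H : Leaf σ T lam l) {J : Set (B × X)}
    (hJ : IsOpen J) (hJn : ∀ w, ∃ x, (w, x) ∈ J) (w : B) :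
    volume {u : ℝ | (w, u) ∈ Ex T l J} = 0 := by
  have h := volume_Exc H hJ hJn w
  have h' : volume {y : ℝ | (w, -y) ∈ Exc T l J} = 0 := by
    have : {y : ℝ | (w, -y) ∈ Exc T l J} = Neg.neg ⁻¹' {y : ℝ | (w, y) ∈ Exc T l J} := rfl
    rw [this]
    rw [Measure.measure_preimage_neg]
    exact h
  have e : {u : ℝ | (w, u) ∈ Ex T l J} = {u : ℝ | Real.exp u ∈ {y : ℝ | (w, y) ∈ Exc T l J}} ∪
      {u : ℝ | Real.exp u ∈ {y : ℝ | (w, -y) ∈ Exc T l J}} := by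
    ext u; rfl
  rw [e]
  exact measure_union_null (volume_exp_preimage h) (volume_exp_preimage h')

lemma Hyp.comm_nsmul (H : Hyp σ T lam₁ lam₂ l₁ l₂) (n : ℕ) (z : B × X) :
    T (z.1, n • z.2) = ((T z).1, n • (T z).2) := by
  refine Prod.ext ?_ ?_
  · rw [H.fst, H.fst]
  · exact H.map_nsmul z.1 n z.2

lemma Hyp.zpow_nsmul (H : Hyp σ T lam₁ lam₂ l₁ l₂) (n : ℕ) (j : ℤ) (z : B × X) :
    (T ^ j) (z.1, n • z.2) = (((T ^ j) z).1, n • ((T ^ j) z).2) := by
  induction j generalizing z with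
  | zero => simp
  | succ j ih =>
    rw [zpow_add_one, Homeomorph.mul_apply, Homeomorph.mul_apply, H.comm_nsmul]
    exact ih (T z)
  | pred j ih =>
    rw [zpow_sub_one, Homeomorph.mul_apply, Homeomorph.mul_apply]
    have h1 : T⁻¹ (z.1, n • z.2) = ((T⁻¹ z).1, n • (T⁻¹ z).2) := H.symm.comm_nsmul n z
    rw [h1]
    exact ih (T⁻¹ z)

omit [NormedAddCommGroup X] in
lemma zpow_mem [TopologicalSpace X] {T : (B × X) ≃ₜ (B × X)} {D : Set (B × X)} (hT : ∀ z ∈ D, T z ∈ D)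
    (hT' : ∀ z ∈ D, T.symm z ∈ D) (j : ℤ) {z : B × X} (hz : z ∈ D) : (T ^ j) z ∈ D := by
  induction j generalizing z with
  | zero => simpa using hz
  | succ j ih =>
    rw [zpow_add_one, Homeomorph.mul_apply]
    exact ih (hT z hz)
  | pred j ih =>
    rw [zpow_sub_one, Homeomorph.mul_apply]
    exact ih (hT' z hz)

/-- a missed time is exceptional -/
lemma Hyp.mem_Ex (H : Hyp σ T lam₁ lam₂ l₁ l₂) {D : Set (B × X)} (hT : ∀ z ∈ D, T z ∈ D)
    (hT' : ∀ z ∈ D, T.symm z ∈ D) {J : Set (B × X)} {w : B} {R : ℝ} (hR : R ≠ 0)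
    (hmem : (w, l₁ w R) ∈ D) {N : ℕ} (hN : 0 < N) (hmiss : ∀ z ∈ D, (z.1, N • z.2) ∉ J) {u : ℝ}
    (hu : Real.exp u = N * |R|) : (w, u) ∈ Ex T l₁ J := by
  have key : (w, N * R) ∈ Exc T l₁ J := by
    intro j
    have h1 := hmiss _ (zpow_mem hT hT' j hmem)
    have h2 := H.zpow_nsmul N j (w, l₁ w R)
    rw [← h2] at h1
    simp only at h1 ⊢
    rw [← _root_.map_nsmul, nsmul_eq_mul] at h1
    exact h1
  rcases lt_or_gt_of_ne hR with h | h
  · right
    rw [hu, abs_of_neg h]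
    simp only
    rw [mul_neg, neg_neg]
    exact key
  · left
    rw [hu, abs_of_pos h]
    exact key

lemma exists_Λ [CompactSpace B] {lam₁ lam₂ : B → ℝ} (h₁ : Continuous lam₁) (h₂ : Continuous lam₂) :
    ∃ Λ : ℝ, 1 ≤ Λ ∧ (∀ w, |lam₁ w| ≤ Λ) ∧ ∀ w, |lam₂ w| ≤ Λ := by
  obtain ⟨C₁, hC₁⟩ := (isCompact_univ (X := B)).exists_bound_of_continuousOn h₁.continuousOn
  obtain ⟨C₂, hC₂⟩ := (isCompact_univ (X := B)).exists_bound_of_continuousOn h₂.continuousOn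
  refine ⟨max 1 (max C₁ C₂), le_max_left _ _, fun w => ?_, fun w => ?_⟩
  · exact (hC₁ w (mem_univ w)).trans ((le_max_left _ _).trans (le_max_right _ _))
  · exact (hC₂ w (mem_univ w)).trans ((le_max_right _ _).trans (le_max_right _ _))

open Classical in
lemma Hyp.pointwise_one (H : Hyp σ T lam₁ lam₂ l₁ l₂) {b c : ℕ} (hb : 2 ≤ b) (hc : 2 ≤ c)
    {J : Set (B × X)} {δ Λ : ℝ} (hΛ : 1 ≤ Λ) {D : Set (B × X)} (hT : ∀ z ∈ D, T z ∈ D)
    (hT' : ∀ z ∈ D, T.symm z ∈ D) {M : ℕ} {n : ℕ → ℕ} {t : ℝ}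
    (hx : ∀ m < M, m * Real.log b + n m * Real.log c - t ∈ Ico 0 (Real.log c))
    {w : B} {R : ℝ} (hR1 : Real.exp (-t) / Λ ≤ |R|) (hR2 : |R| ≤ Real.exp (-t))
    (hmem : (w, l₁ w R) ∈ D)
    (hcount : ∀ r : ℝ, (∀ m < M, m * Real.log b + n m * Real.log c - t + r ∈
      Icc (-Real.log Λ) (Real.log c)) →
      (((Finset.range M).filter (fun m : ℕ => m * Real.log b + n m * Real.log c - t + r ∈
        {u : ℝ | (w, u) ∈ Ex T l₁ J})).card : ℝ) ≤ δ * M) :
    (((Finset.range M).filter (fun m => ∀ z ∈ D, (z.1, (b ^ m * c ^ n m) • z.2) ∉ J)).card : ℝ)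
      ≤ δ * M := by
  have hΛ0 : 0 < Λ := by linarith
  have hR0 : 0 < |R| := lt_of_lt_of_le (by positivity) hR1
  have hRne : R ≠ 0 := abs_pos.1 hR0
  have hb0 : (0 : ℝ) < b := by positivity
  have hc0 : (0 : ℝ) < c := by positivity
  have hr1 : -Real.log Λ ≤ Real.log |R| + t := by
    have h1 := Real.log_le_log (by positivity) hR1
    rw [Real.log_div (Real.exp_pos _).ne' hΛ0.ne', Real.log_exp] at h1
    linarith
  have hr2 : Real.log |R| + t ≤ 0 := by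
    have h1 := Real.log_le_log hR0 hR2
    rw [Real.log_exp] at h1
    linarith
  refine le_trans ?_ (hcount (Real.log |R| + t) ?_)
  · norm_cast
    refine Finset.card_le_card ?_
    intro m hm
    rw [Finset.mem_filter] at hm ⊢
    refine ⟨hm.1, ?_⟩
    refine H.mem_Ex hT hT' hRne hmem (N := b ^ m * c ^ n m) (by positivity) hm.2 ?_
    have e : (m : ℝ) * Real.log b + n m * Real.log c - t + (Real.log |R| + t) =
        m * Real.log b + n m * Real.log c + Real.log |R| := by ring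
    rw [e, Real.exp_add, Real.exp_add, Real.exp_log hR0, mul_comm (m : ℝ), mul_comm (n m : ℝ),
      Real.exp_mul, Real.exp_mul, Real.exp_log hb0, Real.exp_log hc0, Real.rpow_natCast,
      Real.rpow_natCast]
    push_cast
    rfl
  · intro m hm
    obtain ⟨h1, h2⟩ := hx m hm
    constructor <;> linarith

open Classical in
/-- The pointwise lemma. -/
theorem Hyp.pointwise [CompactSpace B] [CompactSpace X] (H : Hyp σ T lam₁ lam₂ l₁ l₂) {b c : ℕ}
    (hb : 2 ≤ b) (hc : 2 ≤ c) (hirr : Irrational (Real.log b / Real.log c)) {J : Set (B × X)}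
    (hJ : IsOpen J) (hJn : ∀ w, ∃ x, (w, x) ∈ J) {δ : ℝ} (hδ : 0 < δ) :
    ∃ M : ℕ, 0 < M ∧ ∃ n : ℕ → ℕ, ∀ D : Set (B × X), IsClosed D → (∀ z ∈ D, T z ∈ D) →
      (∀ z ∈ D, T.symm z ∈ D) → Acc0 D →
      (((Finset.range M).filter (fun m => ∀ z ∈ D, (z.1, (b ^ m * c ^ n m) • z.2) ∉ J)).card : ℝ)
        ≤ δ * M := by
  have hβ : 0 < Real.log b := Real.log_pos (by exact_mod_cast hb)
  have hγ : 0 < Real.log c := Real.log_pos (by exact_mod_cast hc)
  obtain ⟨Λ, hΛ, hΛ₁, hΛ₂⟩ := exists_Λ H.leaf₁.contlam H.leaf₂.contlam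
  have hδ' : 0 < δ * Real.log c / 2 := by positivity
  obtain ⟨η₁, hη₁, ht₁⟩ := thin (isClosed_Ex H.leaf₁ hJ) (volume_Ex H.leaf₁ hJ hJn)
    (-Real.log Λ) (Real.log c) hδ'
  obtain ⟨η₂, hη₂, ht₂⟩ := thin (isClosed_Ex H.leaf₂ hJ) (volume_Ex H.leaf₂ hJ hJn)
    (-Real.log Λ) (Real.log c) hδ'
  set η := min η₁ η₂ with hη
  have hη0 : 0 < η := lt_min hη₁ hη₂
  obtain ⟨M₀, hM₀⟩ := count_thin (a := -Real.log Λ) (b := Real.log c) (c := 1 / Real.log c)
    (by positivity) hη0 hδ'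
  obtain ⟨M, hM, hMpos, n, t, hx, hcnt⟩ := arith hβ hγ hirr M₀
  have he : 2 * (1 / Real.log c) * (δ * Real.log c / 2) * M = δ * M := by
    field_simp
  refine ⟨M, hMpos, n, fun D hD hT hT' hacc => ?_⟩
  rcases H.exists_leaf hΛ₁ hΛ₂ hD hT hT' hacc (Real.exp_pos (-t)) with
    ⟨w, R, hR1, hR2, hmem⟩ | ⟨w, R, hR1, hR2, hmem⟩
  · refine H.pointwise_one hb hc hΛ hT hT' hx hR1 hR2 hmem fun r hr => ?_
    rw [← he]
    refine hM₀ M hM _ (fun s ρ hρ => hcnt r s ρ hρ) hr _ ?_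
    exact (measure_mono (Metric.cthickening_mono (min_le_left _ _) _)).trans (ht₁ w)
  · refine H.symm.pointwise_one hb hc hΛ hT' hT hx hR1 hR2 hmem fun r hr => ?_
    rw [← he]
    refine hM₀ M hM _ (fun s ρ hρ => hcnt r s ρ hρ) hr _ ?_
    exact (measure_mono (Metric.cthickening_mono (min_le_right _ _) _)).trans (ht₂ w)

end Pool.Agent.W765.Sk
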