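import Mathlib
import Pool.Agent.W765.Sk4
import Pool.Agent.W765.Hb4

set_option autoImplicit false

open MeasureTheory Filter Topology Set

namespace Pool.Agent.W765.Sk

open Pool.Agent.W765.Hb (Tor ker_smul)

variable {Ω : Type*} [MeasurableSpace Ω]

/-- measurability of a random set: the event that it meets an open set is measurable -/
def HitM {Z : Type*} [TopologicalSpace Z] (F : Ω → Set Z) : Prop :=
  ∀ V : Set Z, IsOpen V → MeasurableSet {ω | (F ω ∩ V).Nonempty}

/-- Measurability lemma for random closed sets. -/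
theorem measurable_existsM {Y : Type*} [MetricSpace Y] {F : Ω → Set Y}
    (hF : ∀ ω, IsClosed (F ω)) (hm : HitM F)
    {Z : Type*} [MetricSpace Z] [CompactSpace Z] {E : Set Z} (hE : IsClosed E) {ι : Type*}
    [Finite ι] (h : ι → Z → Y) (hh : ∀ i, Continuous (h i)) :
    MeasurableSet {ω | ∃ z ∈ E, ∀ i, h i z ∈ F ω} := by
  obtain ⟨D, hDE, hDc, hDd⟩ : ∃ D : Set Z, D ⊆ E ∧ D.Countable ∧ E ⊆ closure D :=
    (TopologicalSpace.IsSeparable.of_separableSpace E).exists_countable_dense_subset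
  have heq : {ω | ∃ z ∈ E, ∀ i, h i z ∈ F ω} =
      ⋂ n : ℕ, ⋃ z ∈ D, ⋂ i, {ω | (F ω ∩ Metric.ball (h i z) (1 / ((n : ℝ) + 1))).Nonempty} := by
    ext ω
    simp only [mem_ofPred_eq, mem_iInter, mem_iUnion]
    constructor
    · rintro ⟨z, hz, hzF⟩ n
      have hpos : (0 : ℝ) < 1 / ((n : ℝ) + 1) := by positivity
      have hopen : IsOpen (⋂ i, {w : Z | h i z ∈ Metric.ball (h i w) (1 / ((n : ℝ) + 1))}) := by
        refine isOpen_iInter_of_finite fun i => ?_
        simp only [Metric.mem_ball]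
        exact isOpen_lt (continuous_const.dist (hh i)) continuous_const
      obtain ⟨w, hw1, hw2⟩ := mem_closure_iff.1 (hDd hz) _ hopen (by
        rw [mem_iInter]; intro i; simpa using hpos)
      rw [mem_iInter] at hw1
      exact ⟨w, hw2, fun i => ⟨h i z, hzF i, hw1 i⟩⟩
    · intro H
      choose z hz ha using H
      obtain ⟨w, hw, φ, hφ, hlim⟩ := hE.isCompact.tendsto_subseq (fun n => hDE (hz n))
      refine ⟨w, hw, fun i => ?_⟩
      rw [← (hF ω).closure_eq]
      refine Metric.mem_closure_iff.2 fun ε hε => ?_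
      have hc : Tendsto (fun n => h i (z (φ n))) atTop (𝓝 (h i w)) := ((hh i).tendsto w).comp hlim
      have h1 : ∀ᶠ n in atTop, dist (h i (z (φ n))) (h i w) < ε / 2 :=
        (Metric.tendsto_nhds.1 hc) (ε / 2) (by positivity)
      have h2 : Tendsto (fun n : ℕ => 1 / ((n : ℝ) + 1)) atTop (𝓝 0) :=
        tendsto_one_div_add_atTop_nhds_zero_nat
      have h3 : ∀ᶠ n in atTop, 1 / (((φ n : ℕ) : ℝ) + 1) < ε / 2 :=
        (h2.comp hφ.tendsto_atTop).eventually_lt_const (by positivity)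
      obtain ⟨n, hn1, hn2⟩ := (h1.and h3).exists
      obtain ⟨y, hy, hyb⟩ := ha (φ n) i
      refine ⟨y, hy, ?_⟩
      rw [Metric.mem_ball] at hyb
      calc dist (h i w) y ≤ dist (h i w) (h i (z (φ n))) + dist (h i (z (φ n))) y := dist_triangle _ _ _
        _ < ε / 2 + ε / 2 := by
            rw [dist_comm (h i w), dist_comm _ y]
            have := hyb.trans hn2
            linarith
        _ = ε := by ring
  rw [heq]
  exact MeasurableSet.iInter fun n => MeasurableSet.biUnion hDc fun z _ =>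
    MeasurableSet.iInter fun i => hm _ Metric.isOpen_ball

/-- it is enough to hit closed sets -/
lemma hitM_of_closed {Y : Type*} [MetricSpace Y] {F : Ω → Set Y}
    (h : ∀ C : Set Y, IsClosed C → MeasurableSet {ω | (F ω ∩ C).Nonempty}) : HitM F := by
  intro V hV
  obtain ⟨C, hC, -, hCV, -⟩ := hV.exists_iUnion_isClosed
  have : {ω | (F ω ∩ V).Nonempty} = ⋃ n, {ω | (F ω ∩ C n).Nonempty} := by
    ext ω
    simp only [mem_ofPred_eq, mem_iUnion]
    rw [← hCV, inter_iUnion, nonempty_iUnion]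
  rw [this]
  exact MeasurableSet.iUnion fun n => h _ (hC n)

/-- hitting a closed set is measurable -/
lemma hit_closed {Y : Type*} [MetricSpace Y] [CompactSpace Y] {F : Ω → Set Y}
    (hF : ∀ ω, IsClosed (F ω)) (hm : HitM F) {C : Set Y} (hC : IsClosed C) :
    MeasurableSet {ω | (F ω ∩ C).Nonempty} := by
  have h := measurable_existsM hF hm hC (ι := Unit) (fun _ z => z) (fun _ => continuous_id)
  convert h using 1
  ext ω
  simp only [mem_ofPred_eq]
  constructor
  · rintro ⟨z, hz, hzC⟩; exact ⟨z, hzC, fun _ => hz⟩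
  · rintro ⟨z, hzC, hz⟩; exact ⟨z, hz (), hzC⟩

variable {B : Type*} [MetricSpace B] {X : Type*} [NormedAddCommGroup X]
variable {σ : B ≃ₜ B} {T : (B × X) ≃ₜ (B × X)} {lam lam₁ lam₂ : B → ℝ} {l l₁ l₂ : B → ℝ →+ X}

lemma measurable_acc0 {F : Ω → Set (B × X)} (hm : HitM F) : MeasurableSet {ω | Acc0 (F ω)} := by
  have h : {ω | Acc0 (F ω)} = ⋂ n : ℕ,
      {ω | (F ω ∩ (Prod.snd ⁻¹' ({0}ᶜ ∩ Metric.ball 0 (1 / ((n : ℝ) + 1))))).Nonempty} := by
    ext ω
    simp only [mem_ofPred_eq, mem_iInter, Acc0]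
    constructor
    · intro h n
      obtain ⟨x, hx, hx0, hxn⟩ := h (1 / ((n : ℝ) + 1)) (by positivity)
      exact ⟨x, hx, hx0, by simpa using hxn⟩
    · intro h ε hε
      obtain ⟨n, hn⟩ := exists_nat_one_div_lt hε
      obtain ⟨x, hx, hx0, hxn⟩ := h n
      refine ⟨x, hx, hx0, ?_⟩
      have : ‖x.2‖ < 1 / ((n : ℝ) + 1) := by simpa using hxn
      exact this.trans hn
  rw [h]
  refine MeasurableSet.iInter fun n => hm _ ?_
  exact (isOpen_compl_singleton.inter Metric.isOpen_ball).preimage continuous_snd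

omit [MetricSpace B] in
lemma Acc0.nsmul (TX : Tor X) {D D' : Set (B × X)} {N : ℕ} (hN : 0 < N)
    (h : ∀ z ∈ D, (z.1, N • z.2) ∈ D') (hD : Acc0 D) : Acc0 D' := by
  obtain ⟨r, hr, hker⟩ := ker_smul TX hN
  intro ε hε
  obtain ⟨z, hz, hz0, hzn⟩ := hD (min r (ε / N)) (lt_min hr (by positivity))
  refine ⟨_, h z hz, ?_, ?_⟩
  · intro h0
    exact hz0 (hker _ (hzn.trans_le (min_le_left _ _)) h0)
  · have h1 : ‖N • z.2‖ ≤ N * ‖z.2‖ := norm_nsmul_le
    have h2 : ‖z.2‖ < ε / N := hzn.trans_le (min_le_right _ _)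
    have hNR : (0 : ℝ) < N := by exact_mod_cast hN
    rw [lt_div_iff₀ hNR] at h2
    simp only
    linarith

omit [MeasurableSpace Ω] [MetricSpace B] in
lemma iter_nsmul {D : Ω → Set (B × X)} {τ : Ω → Ω} {b : ℕ}
    (hb' : ∀ ω, ∀ z ∈ D ω, (z.1, b • z.2) ∈ D (τ ω)) (m : ℕ) :
    ∀ ω, ∀ z ∈ D ω, (z.1, b ^ m • z.2) ∈ D (τ^[m] ω) := by
  induction m with
  | zero => intro ω z hz; simpa using hz
  | succ m ih =>
    intro ω z hz
    rw [Function.iterate_succ_apply, pow_succ, mul_smul]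
    exact ih _ _ (hb' ω z hz)

/-- Core lemma. -/
theorem Hyp.core [CompactSpace B] [CompactSpace X] (TX : Tor X) (H : Hyp σ T lam₁ lam₂ l₁ l₂)
    {b c : ℕ} (hb : 2 ≤ b) (hc : 2 ≤ c) (hirr : Irrational (Real.log b / Real.log c))
    {P : Measure Ω} [IsProbabilityMeasure P] {τ ρ : Ω → Ω} (hτ : MeasurePreserving τ P P)
    (hρ : MeasurePreserving ρ P P) {D : Ω → Set (B × X)} (hD : ∀ ω, IsClosed (D ω)) (hm : HitM D)
    (hT : ∀ ω, ∀ z ∈ D ω, T z ∈ D ω) (hT' : ∀ ω, ∀ z ∈ D ω, T.symm z ∈ D ω)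
    (hb' : ∀ ω, ∀ z ∈ D ω, (z.1, b • z.2) ∈ D (τ ω))
    (hc' : ∀ ω, ∀ z ∈ D ω, (z.1, c • z.2) ∈ D (ρ ω)) {J : Set (B × X)}
    (hJ : IsOpen J) (hJn : ∀ w, ∃ x, (w, x) ∈ J) :
    ∀ᵐ ω ∂P, Acc0 (D ω) → (D ω ∩ J).Nonempty := by
  classical
  set A0 : Set Ω := {ω | Acc0 (D ω)} with hA0
  set E : Set Ω := A0 ∩ {ω | (D ω ∩ J).Nonempty}ᶜ with hE
  have hA0m : MeasurableSet A0 := measurable_acc0 hm
  have hEm : MeasurableSet E := hA0m.inter (hm J hJ).compl
  have key : ∀ δ : ℝ, 0 < δ → P E ≤ ENNReal.ofReal δ := by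
    intro δ hδ
    obtain ⟨M, hM, n, hcount⟩ := H.pointwise hb hc hirr hJ hJn hδ
    set g : ℕ → Ω → Ω := fun m ω => τ^[m] (ρ^[n m] ω) with hg
    have hgmp : ∀ m, MeasurePreserving (g m) P P := fun m => (hτ.iterate m).comp (hρ.iterate (n m))
    have hgD : ∀ m ω, ∀ z ∈ D ω, (z.1, (b ^ m * c ^ n m) • z.2) ∈ D (g m ω) := by
      intro m ω z hz
      have h1 := iter_nsmul hc' (n m) ω z hz
      have h2 := iter_nsmul hb' m _ _ h1
      simp only at h2
      rw [mul_smul]
      exact h2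
    have hA0g : ∀ m, A0 ⊆ g m ⁻¹' A0 := by
      intro m ω hω
      exact Acc0.nsmul TX (N := b ^ m * c ^ n m) (by positivity) (hgD m ω) hω
    have hnull : ∀ m, P (g m ⁻¹' A0 \ A0) = 0 := by
      intro m
      rw [measure_sdiff (hA0g m) hA0m.nullMeasurableSet (measure_ne_top P A0),
        (hgmp m).measure_preimage hA0m.nullMeasurableSet, tsub_self]
    have hPE : ∀ m, P E ≤ P (g m ⁻¹' E ∩ A0) := by
      intro m
      rw [← (hgmp m).measure_preimage hEm.nullMeasurableSet]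
      have hsub : g m ⁻¹' E ⊆ (g m ⁻¹' E ∩ A0) ∪ (g m ⁻¹' A0 \ A0) := by
        intro ω hω
        by_cases h : ω ∈ A0
        · left; exact ⟨hω, h⟩
        · right; exact ⟨hω.1, h⟩
      calc P (g m ⁻¹' E) ≤ P (g m ⁻¹' E ∩ A0) + P (g m ⁻¹' A0 \ A0) :=
            (measure_mono hsub).trans (measure_union_le _ _)
        _ = P (g m ⁻¹' E ∩ A0) := by rw [hnull m, add_zero]
    have hmeas : ∀ m, MeasurableSet (g m ⁻¹' E ∩ A0) := fun m =>
      ((hgmp m).measurable hEm).inter hA0m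
    have hpt : ∀ ω, ∑ m ∈ Finset.range M, (g m ⁻¹' E ∩ A0).indicator (fun _ => (1 : ENNReal)) ω ≤
        ENNReal.ofReal (δ * M) := by
      intro ω
      by_cases hω : ω ∈ A0
      · have h1 := hcount (D ω) (hD ω) (hT ω) (hT' ω) hω
        have h2 : ∑ m ∈ Finset.range M, (g m ⁻¹' E ∩ A0).indicator (fun _ => (1 : ENNReal)) ω =
            (((Finset.range M).filter (fun m => ω ∈ g m ⁻¹' E ∩ A0)).card : ENNReal) := by
          rw [Finset.card_filter]
          push_cast
          refine Finset.sum_congr rfl fun m _ => ?_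
          by_cases h3 : ω ∈ g m ⁻¹' E ∩ A0
          · rw [indicator_of_mem h3, if_pos h3]
          · rw [indicator_of_notMem h3, if_neg h3]
        rw [h2, ← ENNReal.ofReal_natCast]
        apply ENNReal.ofReal_le_ofReal
        refine le_trans ?_ h1
        norm_cast
        refine Finset.card_le_card ?_
        intro m hm
        rw [Finset.mem_filter] at hm ⊢
        refine ⟨hm.1, fun z hz hzJ => ?_⟩
        exact hm.2.1.2 ⟨_, hgD m ω z hz, hzJ⟩
      · have h2 : ∑ m ∈ Finset.range M, (g m ⁻¹' E ∩ A0).indicator (fun _ => (1 : ENNReal)) ω = 0 := by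
          refine Finset.sum_eq_zero fun m _ => ?_
          exact indicator_of_notMem (fun h => hω h.2) _
        rw [h2]; exact zero_le
    have hint : ∑ m ∈ Finset.range M, P (g m ⁻¹' E ∩ A0) ≤ ENNReal.ofReal (δ * M) := by
      calc ∑ m ∈ Finset.range M, P (g m ⁻¹' E ∩ A0)
          = ∑ m ∈ Finset.range M, ∫⁻ ω, (g m ⁻¹' E ∩ A0).indicator (fun _ => (1 : ENNReal)) ω ∂P := by
            refine Finset.sum_congr rfl fun m _ => ?_
            rw [lintegral_indicator (hmeas m)]; simp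
        _ = ∫⁻ ω, ∑ m ∈ Finset.range M, (g m ⁻¹' E ∩ A0).indicator (fun _ => (1 : ENNReal)) ω ∂P := by
            rw [lintegral_finsetSum]
            intro m _
            exact measurable_const.indicator (hmeas m)
        _ ≤ ∫⁻ _, ENNReal.ofReal (δ * M) ∂P := lintegral_mono hpt
        _ = ENNReal.ofReal (δ * M) := by simp
    have hsum : (M : ENNReal) * P E ≤ ENNReal.ofReal (δ * M) := by
      refine le_trans ?_ hint
      have : (M : ENNReal) * P E = ∑ m ∈ Finset.range M, P E := by simp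
      rw [this]
      exact Finset.sum_le_sum fun m _ => hPE m
    have hM0 : (M : ENNReal) ≠ 0 := by exact_mod_cast hM.ne'
    have hMt : (M : ENNReal) ≠ ⊤ := ENNReal.natCast_ne_top M
    rw [mul_comm δ, ENNReal.ofReal_mul (by positivity), ENNReal.ofReal_natCast] at hsum
    exact (ENNReal.mul_le_mul_iff_right hM0 hMt).1 hsum
  have hPE0 : P E = 0 := by
    refine le_antisymm ?_ zero_le
    refine ENNReal.le_of_forall_pos_le_add fun ε hε _ => ?_
    have := key ε (by exact_mod_cast hε)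
    rw [zero_add]
    simpa using this
  rw [ae_iff]
  refine measure_mono_null ?_ hPE0
  intro ω hω
  simp only [mem_ofPred_eq, Classical.not_imp] at hω
  exact hω

end Pool.Agent.W765.Sk
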