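import Mathlib
import Pool.Agent.W765.Sk5

set_option autoImplicit false

open MeasureTheory Filter Topology Set

namespace Pool.Agent.W765.Sk

open Pool.Agent.W765.Hb (Tor ker_smul acc0_of_infinite)

variable {Ω : Type*} [MeasurableSpace Ω]
variable {B : Type*} [MetricSpace B] {X : Type*} [NormedAddCommGroup X]
variable {σ : B ≃ₜ B} {T : (B × X) ≃ₜ (B × X)} {lam lam₁ lam₂ : B → ℝ} {l l₁ l₂ : B → ℝ →+ X}

/-- fibrewise separated sets -/
def SepBy (ε : ℝ) (F : Set (B × X)) : Prop :=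
  ∀ w x x', (w, x) ∈ F → (w, x') ∈ F → x ≠ x' → ε ≤ dist x x'

/-- uniformly fibrewise separated sets -/
def Sep (F : Set (B × X)) : Prop := ∃ c > 0, SepBy c F

/-- the zoomed configuration -/
lemma Hyp.zoom_pair (H : Hyp σ T lam₁ lam₂ l₁ l₂) {Λ : ℝ} (hΛ₁ : ∀ w, |lam₁ w| ≤ Λ)
    (hΛ₂ : ∀ w, |lam₂ w| ≤ Λ) {S : Set (B × X)} (hT : ∀ z ∈ S, T z ∈ S)
    (hT' : ∀ z ∈ S, T.symm z ∈ S) {w : B} {x x' : X} (hx : (w, x) ∈ S) (hx' : (w, x') ∈ S)
    (hne : x ≠ x') {y r h : ℝ} (he : x - x' = l₁ w y + l₂ w r) (hy : |y| ≤ h) (hr : |r| ≤ h) :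
    ∃ (w' : B) (u u' : X) (R s : ℝ), (w', u) ∈ S ∧ (w', u') ∈ S ∧ u = u' + (l₁ w' R + l₂ w' s) ∧
      |R| ≤ h ∧ |s| ≤ h ∧ h / Λ ≤ max |R| |s| := by
  have hxe : x = x' + (l₁ w y + l₂ w r) := by rw [← he]; abel
  by_cases hy0 : y = 0
  · have hr0 : r ≠ 0 := by
      rintro rfl
      apply hne
      rw [hxe, hy0]; simp
    obtain ⟨k, R, s, h1, h2, h3, h4⟩ := H.symm.zoom hΛ₂ (w := w) (r := y) hr0 hr
    refine ⟨σ.symm^[k] w, (T.symm^[k] (w, x)).2, (T.symm^[k] (w, x')).2, s, R, ?_, ?_, ?_, ?_, h2,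
      h1.trans (le_max_right _ _)⟩
    · have := iter_mem hT' k hx
      rwa [← Prod.mk.eta (p := T.symm^[k] (w, x)), H.symm.iter_fst] at this
    · have := iter_mem hT' k hx'
      rwa [← Prod.mk.eta (p := T.symm^[k] (w, x')), H.symm.iter_fst] at this
    · rw [hxe, H.symm.iter_add, add_comm (l₁ w y), h4]
      simp only
      rw [add_comm (l₁ _ s)]
    · exact h3.trans hy
  · obtain ⟨k, R, s, h1, h2, h3, h4⟩ := H.zoom hΛ₁ (w := w) (r := r) hy0 hy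
    refine ⟨σ^[k] w, (T^[k] (w, x)).2, (T^[k] (w, x')).2, R, s, ?_, ?_, ?_, h2, h3.trans hr,
      h1.trans (le_max_left _ _)⟩
    · have := iter_mem hT k hx
      rwa [← Prod.mk.eta (p := T^[k] (w, x)), H.iter_fst] at this
    · have := iter_mem hT k hx'
      rwa [← Prod.mk.eta (p := T^[k] (w, x')), H.iter_fst] at this
    · rw [hxe, H.iter_add, h4]

/-- Invariant sets close to a separated invariant set are separated. -/
lemma Hyp.sep_nhd [CompactSpace B] [CompactSpace X] (H : Hyp σ T lam₁ lam₂ l₁ l₂)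
    {F : Set (B × X)} (hF : IsClosed F) (hsep : Sep F) :
    ∃ ε > 0, ∃ η > 0, ∀ S : Set (B × X), (∀ z ∈ S, T z ∈ S) → (∀ z ∈ S, T.symm z ∈ S) →
      S ⊆ Metric.cthickening η F → SepBy ε S := by
  obtain ⟨c, hc, hcF⟩ := hsep
  obtain ⟨h₀, hh₀, hinj⟩ := H.inj
  obtain ⟨Λ, hΛ, hΛ₁, hΛ₂⟩ := exists_Λ H.leaf₁.contlam H.leaf₂.contlam
  have hΛ0 : 0 < Λ := by linarith
  -- small scale
  have hcont : Continuous fun q : (ℝ × ℝ) × B => l₁ q.2 q.1.1 + l₂ q.2 q.1.2 := by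
    refine Continuous.add ?_ ?_
    · exact H.leaf₁.contl.comp (continuous_snd.prodMk continuous_fst.fst)
    · exact H.leaf₂.contl.comp (continuous_snd.prodMk continuous_fst.snd)
  have hev : ∀ᶠ p in 𝓝 ((0, 0) : ℝ × ℝ), ∀ w ∈ (univ : Set B), ‖l₁ w p.1 + l₂ w p.2‖ < c := by
    refine (isCompact_univ (X := B)).eventually_forall_of_forall_eventually
      (P := fun (p : ℝ × ℝ) (w : B) => ‖l₁ w p.1 + l₂ w p.2‖ < c) ?_
    intro w _
    have h1 : Tendsto (fun q : (ℝ × ℝ) × B => ‖l₁ q.2 q.1.1 + l₂ q.2 q.1.2‖) (𝓝 ((0, 0), w))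
        (𝓝 ‖l₁ w 0 + l₂ w 0‖) := (hcont.norm.tendsto ((0, 0), w))
    rw [_root_.map_zero, _root_.map_zero, add_zero, norm_zero] at h1
    exact h1.eventually_lt_const hc
  obtain ⟨h₁, hh₁, hball⟩ := Metric.eventually_nhds_iff.1 hev
  set h : ℝ := min h₀ (h₁ / 2) with hh
  have hh0 : 0 < h := by positivity
  have hsmall : ∀ (w : B) (y r : ℝ), |y| ≤ h → |r| ≤ h → ‖l₁ w y + l₂ w r‖ < c := by
    intro w y r hy hr
    have h2 : dist ((y, r) : ℝ × ℝ) (0, 0) < h₁ := by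
      rw [Prod.dist_eq, max_lt_iff]
      simp only [Real.dist_eq, sub_zero]
      have h3 : h ≤ h₁ / 2 := min_le_right _ _
      constructor <;> linarith
    exact hball h2 w (mem_univ w)
  obtain ⟨ε, hε, hloc⟩ := H.loc h hh0
  refine ⟨ε, hε, ?_⟩
  by_contra hcon
  push Not at hcon
  have key : ∀ n : ℕ, ∃ (w' : B) (u u' : X) (R s : ℝ),
      (w', u) ∈ Metric.cthickening (1 / ((n : ℝ) + 1)) F ∧
      (w', u') ∈ Metric.cthickening (1 / ((n : ℝ) + 1)) F ∧ u = u' + (l₁ w' R + l₂ w' s) ∧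
      |R| ≤ h ∧ |s| ≤ h ∧ h / Λ ≤ max |R| |s| := by
    intro n
    obtain ⟨S, hST, hST', hSF, hS⟩ := hcon (1 / ((n : ℝ) + 1)) (by positivity)
    unfold SepBy at hS
    push Not at hS
    obtain ⟨w, x, x', hx, hx', hne, hd⟩ := hS
    rw [dist_eq_norm] at hd
    obtain ⟨y, r, hy, hr, he⟩ := hloc w _ hd
    obtain ⟨w', u, u', R, s, h1, h2, h3, h4, h5, h6⟩ :=
      H.zoom_pair hΛ₁ hΛ₂ hST hST' hx hx' hne he hy.le hr.le
    exact ⟨w', u, u', R, s, hSF h1, hSF h2, h3, h4, h5, h6⟩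
  choose w u u' R s h1 h2 h3 h4 h5 h6 using key
  have hK : IsCompact ((univ : Set ((B × X) × X)) ×ˢ (Icc (-h) h ×ˢ Icc (-h) h)) :=
    isCompact_univ.prod (isCompact_Icc.prod isCompact_Icc)
  obtain ⟨⟨⟨⟨w', v⟩, v'⟩, ⟨R', s'⟩⟩, -, φ, hφ, hlim⟩ := hK.tendsto_subseq
    (x := fun n => (((w n, u n), u' n), (R n, s n)))
    (fun n => ⟨mem_univ _, abs_le.1 (h4 n), abs_le.1 (h5 n)⟩)
  have lw : Tendsto (fun n => w (φ n)) atTop (𝓝 w') :=
    (((continuous_fst.comp continuous_fst).comp continuous_fst).tendsto _).comp hlim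
  have lu : Tendsto (fun n => u (φ n)) atTop (𝓝 v) :=
    (((continuous_snd.comp continuous_fst).comp continuous_fst).tendsto _).comp hlim
  have lu' : Tendsto (fun n => u' (φ n)) atTop (𝓝 v') :=
    ((continuous_snd.comp continuous_fst).tendsto _).comp hlim
  have lR : Tendsto (fun n => R (φ n)) atTop (𝓝 R') :=
    ((continuous_fst.comp continuous_snd).tendsto _).comp hlim
  have ls : Tendsto (fun n => s (φ n)) atTop (𝓝 s') :=
    ((continuous_snd.comp continuous_snd).tendsto _).comp hlim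
  have hmemF : ∀ (f : ℕ → B × X) (z : B × X),
      (∀ n : ℕ, f n ∈ Metric.cthickening (1 / ((n : ℝ) + 1)) F) →
      Tendsto (fun n => f (φ n)) atTop (𝓝 z) → z ∈ F := by
    intro f z hf hlimf
    rw [← hF.closure_eq, Metric.closure_eq_iInter_cthickening]
    simp only [mem_iInter]
    intro δ hδ
    refine Metric.isClosed_cthickening.mem_of_tendsto hlimf ?_
    have h7 : Tendsto (fun n => 1 / (((φ n : ℕ) : ℝ) + 1)) atTop (𝓝 0) :=
      tendsto_one_div_add_atTop_nhds_zero_nat.comp hφ.tendsto_atTop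
    filter_upwards [h7.eventually_lt_const hδ] with n hn
    exact Metric.cthickening_mono hn.le _ (hf (φ n))
  have e1 : (w', v) ∈ F := hmemF (fun n => (w n, u n)) _ h1 (lw.prodMk_nhds lu)
  have e2 : (w', v') ∈ F := hmemF (fun n => (w n, u' n)) _ h2 (lw.prodMk_nhds lu')
  have e3 : v = v' + (l₁ w' R' + l₂ w' s') := by
    refine tendsto_nhds_unique lu ?_
    have h8 : Tendsto (fun n => u' (φ n) + (l₁ (w (φ n)) (R (φ n)) + l₂ (w (φ n)) (s (φ n)))) atTop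
        (𝓝 (v' + (l₁ w' R' + l₂ w' s'))) := by
      refine lu'.add (Tendsto.add ?_ ?_)
      · exact (H.leaf₁.contl.tendsto (w', R')).comp (lw.prodMk_nhds lR)
      · exact (H.leaf₂.contl.tendsto (w', s')).comp (lw.prodMk_nhds ls)
    exact h8.congr fun n => (h3 _).symm
  have e4 : |R'| ≤ h := le_of_tendsto' lR.abs fun n => h4 _
  have e5 : |s'| ≤ h := le_of_tendsto' ls.abs fun n => h5 _
  have e6 : h / Λ ≤ max |R'| |s'| := ge_of_tendsto' (lR.abs.max ls.abs) fun n => h6 _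
  have hne : v ≠ v' := by
    intro hvv
    rw [hvv] at e3
    have e7 : l₁ w' R' + l₂ w' s' = 0 := by
      have := e3.symm
      simpa using this
    obtain ⟨h9, h10⟩ := hinj w' R' s' (e4.trans (min_le_left _ _)) (e5.trans (min_le_left _ _)) e7
    rw [h9, h10, abs_zero, max_self] at e6
    have : 0 < h / Λ := by positivity
    linarith
  have e8 := hcF w' v v' e1 e2 hne
  have e9 := hsmall w' R' s' e4 e5
  rw [dist_eq_norm, e3, add_sub_cancel_left] at e8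
  linarith

/-- countably many open sets -/
lemma exists_countable_nhds (Z : Type*) [MetricSpace Z] [CompactSpace Z] :
    ∃ 𝒲 : Set (Set Z), 𝒲.Countable ∧ (∀ W ∈ 𝒲, IsOpen W) ∧
      ∀ K V : Set Z, IsClosed K → IsOpen V → K ⊆ V → ∃ W ∈ 𝒲, K ⊆ W ∧ W ⊆ V := by
  obtain ⟨bs, hbc, -, hbs⟩ := TopologicalSpace.exists_countable_basis Z
  refine ⟨(fun S : Set (Set Z) => ⋃₀ S) '' {S | S.Finite ∧ S ⊆ bs},
    (Set.countable_ofPred_finite_subset hbc).image _, ?_, ?_⟩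
  · rintro _ ⟨S, ⟨-, hS⟩, rfl⟩
    exact isOpen_sUnion fun V hV => hbs.isOpen (hS hV)
  · intro K V hK hV hKV
    have hex : ∀ x : Z, ∃ W : Set Z, x ∈ K → (W ∈ bs ∧ x ∈ W ∧ W ⊆ V) := by
      intro x
      by_cases hx : x ∈ K
      · obtain ⟨W, hW, hxW, hWV⟩ := hbs.exists_subset_of_mem_open (hKV hx) hV
        exact ⟨W, fun _ => ⟨hW, hxW, hWV⟩⟩
      · exact ⟨∅, fun h => absurd h hx⟩
    choose W hW using hex
    obtain ⟨t, htK, ht⟩ := hK.isCompact.elim_nhds_subcover W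
      (fun x hx => (hbs.isOpen (hW x hx).1).mem_nhds (hW x hx).2.1)
    refine ⟨_, ⟨W '' (t : Set Z), ⟨t.finite_toSet.image _, ?_⟩, rfl⟩, ?_, ?_⟩
    · rintro _ ⟨x, hx, rfl⟩
      exact (hW x (htK x hx)).1
    · intro z hz
      obtain ⟨x, hx, hzx⟩ := mem_iUnion₂.1 (ht hz)
      exact ⟨W x, ⟨x, hx, rfl⟩, hzx⟩
    · rintro z ⟨_, ⟨x, hx, rfl⟩, hzx⟩
      exact (hW x (htK x hx)).2.2 hzx

/-- A stationary random closed separated set contains torsion points. -/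
theorem Hyp.torsion_of_sep [CompactSpace B] [CompactSpace X] (H : Hyp σ T lam₁ lam₂ l₁ l₂)
    {b : ℕ} (hb : 2 ≤ b) {P : Measure Ω} [IsProbabilityMeasure P] {τ : Ω → Ω}
    (hτ : MeasurePreserving τ P P) {F : Ω → Set (B × X)} (hF : ∀ ω, IsClosed (F ω)) (hm : HitM F)
    (hT : ∀ ω, ∀ z ∈ F ω, T z ∈ F ω) (hT' : ∀ ω, ∀ z ∈ F ω, T.symm z ∈ F ω)
    (hb' : ∀ ω, ∀ z ∈ F ω, (z.1, b • z.2) ∈ F (τ ω)) :
    ∀ᵐ ω ∂P, Sep (F ω) → ∀ z ∈ F ω, IsOfFinAddOrder z.2 := by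
  obtain ⟨𝒲, hWc, hWo, hW⟩ := exists_countable_nhds (B × X)
  have hrec : ∀ᵐ ω ∂P, ∀ W ∈ 𝒲, F ω ⊆ W → ∃ᶠ m in atTop, F (τ^[m] ω) ⊆ W := by
    rw [ae_ball_iff hWc]
    intro W hWW
    have hmeas : MeasurableSet {ω | F ω ⊆ W} := by
      have h1 := (hit_closed hF hm (hWo W hWW).isClosed_compl).compl
      convert h1 using 1
      ext ω
      simp only [mem_ofPred_eq, mem_compl_iff, not_nonempty_iff_eq_empty]
      rw [← disjoint_iff_inter_eq_empty, disjoint_compl_right_iff_subset]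
    exact hτ.conservative.ae_mem_imp_frequently_image_mem hmeas.nullMeasurableSet
  filter_upwards [hrec] with ω hω hsep z hz
  obtain ⟨ε, hε, η, hη, hS⟩ := H.sep_nhd (hF ω) hsep
  obtain ⟨W, hWW, hFW, hWV⟩ := hW (F ω) (Metric.thickening η (F ω)) (hF ω) Metric.isOpen_thickening
    (Metric.self_subset_thickening hη _)
  have hfreq := hω W hWW hFW
  set S : Set (B × X) := ⋃ m ∈ {m : ℕ | F (τ^[m] ω) ⊆ W}, F (τ^[m] ω) with hSdef
  have hSsep : SepBy ε S := by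
    refine hS S ?_ ?_ ?_
    · intro y hy
      obtain ⟨m, hm1, hm2⟩ := mem_iUnion₂.1 hy
      exact mem_iUnion₂.2 ⟨m, hm1, hT _ _ hm2⟩
    · intro y hy
      obtain ⟨m, hm1, hm2⟩ := mem_iUnion₂.1 hy
      exact mem_iUnion₂.2 ⟨m, hm1, hT' _ _ hm2⟩
    · refine iUnion₂_subset fun m hm1 => ?_
      exact ((show F (τ^[m] ω) ⊆ W from hm1).trans hWV).trans (Metric.thickening_subset_cthickening _ _)
  have hfin : {x : X | (z.1, x) ∈ S}.Finite := by
    by_contra hinf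
    obtain ⟨v, ⟨y, hy, y', hy', rfl⟩, hv0, hvn⟩ := acc0_of_infinite hinf ε hε
    have := hSsep z.1 y' y hy' hy (sub_ne_zero.1 hv0)
    rw [dist_eq_norm] at this
    linarith
  have hinf : {m : ℕ | F (τ^[m] ω) ⊆ W}.Infinite := Nat.frequently_atTop_iff_infinite.1 hfreq
  have hmaps : MapsTo (fun m : ℕ => b ^ m • z.2) {m : ℕ | F (τ^[m] ω) ⊆ W} {x : X | (z.1, x) ∈ S} := by
    intro m hm1
    exact mem_iUnion₂.2 ⟨m, hm1, iter_nsmul hb' m ω z hz⟩
  obtain ⟨m, -, m', -, hne, heq⟩ := hinf.exists_ne_map_eq_of_mapsTo hmaps hfin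
  have hgen : ∀ m m' : ℕ, m < m' → b ^ m • z.2 = b ^ m' • z.2 → IsOfFinAddOrder z.2 := by
    intro m m' hlt h1
    have hpow : b ^ m < b ^ m' := Nat.pow_lt_pow_right (by omega) hlt
    refine isOfFinAddOrder_iff_nsmul_eq_zero.2 ⟨b ^ m' - b ^ m, by omega, ?_⟩
    rw [sub_nsmul _ hpow.le, ← h1, add_neg_cancel]
  rcases lt_or_gt_of_ne hne with h1 | h1
  · exact hgen m m' h1 heq
  · exact hgen m' m h1 heq.symm

end Pool.Agent.W765.Sk
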