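import Mathlib
import Pool.Agent.W765.Sk6

set_option autoImplicit false

open MeasureTheory Filter Topology Set

namespace Pool.Agent.W765.Sk

open Pool.Agent.W765.Hb (Tor ker_smul pow_smul_eq)

variable {Ω : Type*} [MeasurableSpace Ω]
variable {B : Type*} [MetricSpace B] {X : Type*} [NormedAddCommGroup X]
variable {σ : B ≃ₜ B} {T : (B × X) ≃ₜ (B × X)} {lam lam₁ lam₂ : B → ℝ} {l l₁ l₂ : B → ℝ →+ X}

lemma Hyp.mk_symm (H : Hyp σ T lam₁ lam₂ l₁ l₂) (w : B) (x : X) :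
    (σ.symm w, (T.symm (w, x)).2) = T.symm (w, x) := Prod.ext (H.fst_symm (w, x)).symm rfl

/-- the base of tuples -/
def Hyp.sig (H : Hyp σ T lam₁ lam₂ l₁ l₂) (k : ℕ) : (B × (Fin k → X)) ≃ₜ (B × (Fin k → X)) where
  toFun q := (σ q.1, fun i => (T (q.1, q.2 i)).2)
  invFun q := (σ.symm q.1, fun i => (T.symm (q.1, q.2 i)).2)
  left_inv q := by
    refine Prod.ext ?_ ?_
    · simp
    · funext i
      simp only
      rw [← H.map_eq, Homeomorph.symm_apply_apply]
  right_inv q := by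
    refine Prod.ext ?_ ?_
    · simp
    · funext i
      simp only
      rw [H.mk_symm, Homeomorph.apply_symm_apply]
  continuous_toFun := by
    refine (σ.continuous.comp continuous_fst).prodMk (continuous_pi fun i => ?_)
    exact continuous_snd.comp (T.continuous.comp
      (continuous_fst.prodMk ((continuous_apply i).comp continuous_snd)))
  continuous_invFun := by
    refine (σ.symm.continuous.comp continuous_fst).prodMk (continuous_pi fun i => ?_)
    exact continuous_snd.comp (T.symm.continuous.comp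
      (continuous_fst.prodMk ((continuous_apply i).comp continuous_snd)))

/-- the skew product over the base of tuples -/
def Hyp.TT (H : Hyp σ T lam₁ lam₂ l₁ l₂) (k : ℕ) :
    ((B × (Fin k → X)) × X) ≃ₜ ((B × (Fin k → X)) × X) where
  toFun z := (H.sig k z.1, (T (z.1.1, z.2)).2)
  invFun z := ((H.sig k).symm z.1, (T.symm (z.1.1, z.2)).2)
  left_inv z := by
    refine Prod.ext ?_ ?_
    · simp
    · change (T.symm (σ z.1.1, (T (z.1.1, z.2)).2)).2 = z.2
      rw [← H.map_eq, Homeomorph.symm_apply_apply]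
  right_inv z := by
    refine Prod.ext ?_ ?_
    · simp
    · change (T (σ.symm z.1.1, (T.symm (z.1.1, z.2)).2)).2 = z.2
      rw [H.mk_symm, Homeomorph.apply_symm_apply]
  continuous_toFun := by
    refine ((H.sig k).continuous.comp continuous_fst).prodMk ?_
    exact continuous_snd.comp (T.continuous.comp (continuous_fst.fst.prodMk continuous_snd))
  continuous_invFun := by
    refine ((H.sig k).symm.continuous.comp continuous_fst).prodMk ?_
    exact continuous_snd.comp (T.symm.continuous.comp (continuous_fst.fst.prodMk continuous_snd))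

lemma Hyp.hypTT (H : Hyp σ T lam₁ lam₂ l₁ l₂) (k : ℕ) :
    Hyp (H.sig k) (H.TT k) (fun q => lam₁ q.1) (fun q => lam₂ q.1) (fun q => l₁ q.1)
      (fun q => l₂ q.1) :=
  H.pullback (π := Prod.fst) continuous_fst (fun _ => rfl) (fun _ _ => rfl)

/-- distinct nonzero torsion points -/
def Good (X : Type*) [NormedAddCommGroup X] (N k : ℕ) : Set (Fin k → X) :=
  {s | (∀ i, N • s i = 0 ∧ s i ≠ 0) ∧ Function.Injective s}

lemma Good.finite (TX : Tor X) {N : ℕ} (hN : 0 < N) (k : ℕ) : (Good X N k).Finite := by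
  refine (Set.Finite.pi (fun _ : Fin k => TX.fin N hN)).subset ?_
  intro s hs i _
  exact (hs.1 i).1

/-- the extension by zero -/
def ext0 {k : ℕ} (s : Fin k → X) : Option (Fin k) → X
  | none => 0
  | some i => s i

/-- the tuples in a set -/
def LL (F : Ω → Set (B × X)) (N k : ℕ) (ω : Ω) : Set ((B × (Fin k → X)) × X) :=
  {z | z.1.2 ∈ Good X N k ∧ ∀ i : Option (Fin k), (z.1.1, z.2 + ext0 z.1.2 i) ∈ F ω}

/-- the differences -/
def DD (F : Ω → Set (B × X)) (N k : ℕ) (ω : Ω) : Set ((B × (Fin k → X)) × X) :=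
  {z | ∃ y, (z.1, y) ∈ LL F N k ω ∧ (z.1, y + z.2) ∈ LL F N k ω}

omit [MetricSpace B] in
lemma continuous_ext0 {Y : Type*} [TopologicalSpace Y] {k : ℕ} {f : Y → (Fin k → X)}
    (hf : Continuous f) (i : Option (Fin k)) : Continuous fun y => ext0 (f y) i := by
  cases i with
  | none => exact continuous_const
  | some i => exact (continuous_apply i).comp hf

omit [MeasurableSpace Ω] in
lemma isClosed_LL (TX : Tor X) {F : Ω → Set (B × X)} (hF : ∀ ω, IsClosed (F ω)) {N : ℕ}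
    (hN : 0 < N) (k : ℕ) (ω : Ω) : IsClosed (LL F N k ω) := by
  have h : LL F N k ω = (fun z : (B × (Fin k → X)) × X => z.1.2) ⁻¹' (Good X N k) ∩
      ⋂ i : Option (Fin k), (fun z : (B × (Fin k → X)) × X => (z.1.1, z.2 + ext0 z.1.2 i)) ⁻¹' (F ω) := by
    ext z; simp [LL]
  rw [h]
  refine IsClosed.inter ?_ (isClosed_iInter fun i => ?_)
  · exact (Good.finite TX hN k).isClosed.preimage continuous_fst.snd
  · refine (hF ω).preimage (continuous_fst.fst.prodMk (continuous_snd.add ?_))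
    exact continuous_ext0 continuous_fst.snd i

omit [MeasurableSpace Ω] in
lemma isClosed_DD [CompactSpace B] [CompactSpace X] (TX : Tor X) {F : Ω → Set (B × X)}
    (hF : ∀ ω, IsClosed (F ω)) {N : ℕ} (hN : 0 < N) (k : ℕ) (ω : Ω) : IsClosed (DD F N k ω) := by
  have hL := isClosed_LL TX hF hN k ω
  have hE : IsClosed {p : ((B × (Fin k → X)) × X) × X | p.1 ∈ LL F N k ω ∧ (p.1.1, p.2) ∈ LL F N k ω} :=
    (hL.preimage continuous_fst).inter (hL.preimage (continuous_fst.fst.prodMk continuous_snd))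
  have : DD F N k ω = (fun p : ((B × (Fin k → X)) × X) × X => (p.1.1, p.2 - p.1.2)) ''
      {p | p.1 ∈ LL F N k ω ∧ (p.1.1, p.2) ∈ LL F N k ω} := by
    ext z
    constructor
    · rintro ⟨y, h1, h2⟩
      exact ⟨((z.1, y), y + z.2), ⟨h1, h2⟩, Prod.ext rfl (by simp)⟩
    · rintro ⟨⟨⟨q, y⟩, y'⟩, ⟨h1, h2⟩, rfl⟩
      exact ⟨y, h1, by simpa using h2⟩
  rw [this]
  refine (hE.isCompact.image ?_).isClosed
  exact continuous_fst.fst.prodMk (continuous_snd.sub continuous_fst.snd)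

lemma hit_LL [CompactSpace B] [CompactSpace X] (TX : Tor X) {F : Ω → Set (B × X)}
    (hF : ∀ ω, IsClosed (F ω)) (hm : HitM F) {N : ℕ} (hN : 0 < N) (k : ℕ) : HitM (LL F N k) := by
  refine hitM_of_closed fun C hC => ?_
  have h := measurable_existsM hF hm (Z := (B × (Fin k → X)) × X)
    (E := (fun z => z.1.2) ⁻¹' (Good X N k) ∩ C)
    (((Good.finite TX hN k).isClosed.preimage continuous_fst.snd).inter hC)
    (ι := Option (Fin k)) (fun i z => (z.1.1, z.2 + ext0 z.1.2 i))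
    (fun i => continuous_fst.fst.prodMk (continuous_snd.add (continuous_ext0 continuous_fst.snd i)))
  convert h using 1
  ext ω
  constructor
  · rintro ⟨z, ⟨h1, h2⟩, h3⟩; exact ⟨z, ⟨h1, h3⟩, h2⟩
  · rintro ⟨z, ⟨h1, h3⟩, h2⟩; exact ⟨z, ⟨h1, h2⟩, h3⟩

lemma hit_DD [CompactSpace B] [CompactSpace X] (TX : Tor X) {F : Ω → Set (B × X)}
    (hF : ∀ ω, IsClosed (F ω)) (hm : HitM F) {N : ℕ} (hN : 0 < N) (k : ℕ) : HitM (DD F N k) := by
  refine hitM_of_closed fun C hC => ?_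
  have h := measurable_existsM hF hm (Z := ((B × (Fin k → X)) × X) × X)
    (E := (fun p => p.1.1.2) ⁻¹' (Good X N k) ∩ (fun p => (p.1.1, p.2 - p.1.2)) ⁻¹' C)
    (((Good.finite TX hN k).isClosed.preimage continuous_fst.fst.snd).inter
      (hC.preimage (continuous_fst.fst.prodMk (continuous_snd.sub continuous_fst.snd))))
    (ι := Option (Fin k) × Bool)
    (fun i p => (p.1.1.1, (if i.2 then p.1.2 else p.2) + ext0 p.1.1.2 i.1)) (by
      rintro ⟨i, b⟩
      refine continuous_fst.fst.fst.prodMk (Continuous.add ?_ (continuous_ext0 continuous_fst.fst.snd i))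
      cases b
      · simpa using continuous_snd
      · simpa using continuous_fst.snd)
  convert h using 1
  ext ω
  constructor
  · rintro ⟨z, ⟨y, h1, h2⟩, h3⟩
    refine ⟨((z.1, y), y + z.2), ⟨h1.1, by simpa using h3⟩, ?_⟩
    rintro ⟨i, b⟩
    cases b
    · simpa using h2.2 i
    · simpa using h1.2 i
  · rintro ⟨⟨⟨q, y⟩, y'⟩, ⟨h1, h3⟩, h2⟩
    refine ⟨(q, y' - y), ⟨y, ⟨h1, fun i => ?_⟩, ?_⟩, h3⟩
    · simpa using h2 (i, true)
    · refine ⟨h1, fun i => ?_⟩
      simpa using h2 (i, false)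

omit [MeasurableSpace Ω] in
lemma Hyp.good_map (H : Hyp σ T lam₁ lam₂ l₁ l₂) {N k : ℕ} (w : B) {s : Fin k → X}
    (hs : s ∈ Good X N k) : (fun i => (T (w, s i)).2) ∈ Good X N k := by
  have hinj : ∀ x x' : X, (T (w, x)).2 = (T (w, x')).2 → x = x' := by
    intro x x' h
    have h1 : T (w, x) = T (w, x') := by rw [H.map_eq w x, H.map_eq w x', h]
    exact (Prod.mk.inj (T.injective h1)).2
  refine ⟨fun i => ⟨?_, ?_⟩, ?_⟩
  · rw [← H.map_nsmul, (hs.1 i).1, H.map_zero]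
  · intro h
    apply (hs.1 i).2
    apply hinj
    exact h.trans (H.map_zero w).symm
  · intro i j hij
    exact hs.2 (hinj _ _ hij)

omit [MeasurableSpace Ω] in
lemma Hyp.LL_inv (H : Hyp σ T lam₁ lam₂ l₁ l₂) {F : Ω → Set (B × X)} {N k : ℕ} {ω : Ω}
    (hT : ∀ z ∈ F ω, T z ∈ F ω) : ∀ z ∈ LL F N k ω, H.TT k z ∈ LL F N k ω := by
  rintro ⟨⟨w, s⟩, y⟩ ⟨h1, h2⟩
  refine ⟨H.good_map w h1, fun i => ?_⟩
  change (σ w, (T (w, y)).2 + ext0 (fun i => (T (w, s i)).2) i) ∈ F ω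
  have h3 : ext0 (fun i => (T (w, s i)).2) i = (T (w, ext0 s i)).2 := by
    cases i with
    | none => exact (H.map_zero w).symm
    | some i => rfl
  rw [h3, ← H.add, ← H.map_eq]
  exact hT _ (h2 i)

omit [MeasurableSpace Ω] in
lemma Hyp.DD_inv (H : Hyp σ T lam₁ lam₂ l₁ l₂) {F : Ω → Set (B × X)} {N k : ℕ} {ω : Ω}
    (hT : ∀ z ∈ F ω, T z ∈ F ω) : ∀ z ∈ DD F N k ω, H.TT k z ∈ DD F N k ω := by
  rintro ⟨⟨w, s⟩, u⟩ ⟨y, h1, h2⟩
  refine ⟨(T (w, y)).2, H.LL_inv hT _ h1, ?_⟩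
  have h3 := H.LL_inv hT _ h2
  change (H.sig k (w, s), (T (w, y)).2 + (T (w, u)).2) ∈ LL F N k ω
  rw [← H.add]
  exact h3

omit [MeasurableSpace Ω] [MetricSpace B] in
lemma LL_nsmul {F : Ω → Set (B × X)} {N k b : ℕ} {ω ω' : Ω} (hb : ∀ x : X, N • x = 0 → b • x = x)
    (h : ∀ z ∈ F ω, (z.1, b • z.2) ∈ F ω') : ∀ z ∈ LL F N k ω, (z.1, b • z.2) ∈ LL F N k ω' := by
  rintro ⟨⟨w, s⟩, y⟩ ⟨h1, h2⟩
  refine ⟨h1, fun i => ?_⟩
  have h3 := h _ (h2 i)
  have h4 : b • ext0 s i = ext0 s i := by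
    cases i with
    | none => exact smul_zero b
    | some i => exact hb _ (h1.1 i).1
  simp only at h3 ⊢
  rwa [smul_add, h4] at h3

omit [MeasurableSpace Ω] [MetricSpace B] in
lemma DD_nsmul {F : Ω → Set (B × X)} {N k b : ℕ} {ω ω' : Ω} (hb : ∀ x : X, N • x = 0 → b • x = x)
    (h : ∀ z ∈ F ω, (z.1, b • z.2) ∈ F ω') : ∀ z ∈ DD F N k ω, (z.1, b • z.2) ∈ DD F N k ω' := by
  rintro ⟨q, u⟩ ⟨y, h1, h2⟩
  refine ⟨b • y, LL_nsmul hb h _ h1, ?_⟩
  have h3 := LL_nsmul hb h _ h2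
  simp only at h3 ⊢
  rwa [smul_add] at h3

end Pool.Agent.W765.Sk
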