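import Mathlib
import Pool.Agent.W765.Sk7

set_option autoImplicit false

open MeasureTheory Filter Topology Set

namespace Pool.Agent.W765.Sk

open Pool.Agent.W765.Hb (Tor ker_smul pow_smul_eq)

variable {Ω : Type*} [MeasurableSpace Ω]
variable {B : Type*} [MetricSpace B] {X : Type*} [NormedAddCommGroup X]
variable {σ : B ≃ₜ B} {T : (B × X) ≃ₜ (B × X)} {lam lam₁ lam₂ : B → ℝ} {l l₁ l₂ : B → ℝ →+ X}

/-- the neighbourhoods of the new torsion points -/
def JJ (B : Type*) (X : Type*) [NormedAddCommGroup X] (N k : ℕ) (ε : ℝ) :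
    Set ((B × (Fin k → X)) × X) :=
  {z | ∃ v : X, N • v = 0 ∧ v ≠ 0 ∧ (∀ i, v ≠ z.1.2 i) ∧ dist z.2 v < ε}

lemma isOpen_JJ (N k : ℕ) (ε : ℝ) : IsOpen (JJ B X N k ε) := by
  have : JJ B X N k ε = ⋃ v ∈ {v : X | N • v = 0 ∧ v ≠ 0},
      ((⋂ i, (fun z : (B × (Fin k → X)) × X => z.1.2 i) ⁻¹' {v}ᶜ) ∩
        (fun z : (B × (Fin k → X)) × X => z.2) ⁻¹' Metric.ball v ε) := by
    ext z
    simp only [JJ, mem_ofPred_eq, mem_iUnion, exists_prop, mem_inter_iff, mem_iInter, mem_preimage,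
      mem_compl_iff, mem_singleton_iff, Metric.mem_ball]
    constructor
    · rintro ⟨v, h1, h2, h3, h4⟩
      exact ⟨v, ⟨h1, h2⟩, fun i h => h3 i h.symm, h4⟩
    · rintro ⟨v, ⟨h1, h2⟩, h3, h4⟩
      exact ⟨v, h1, h2, fun i h => h3 i h.symm, h4⟩
  rw [this]
  refine isOpen_biUnion fun v _ => IsOpen.inter (isOpen_iInter_of_finite fun i => ?_) ?_
  · exact isOpen_compl_singleton.preimage ((continuous_apply i).comp continuous_fst.snd)
  · exact Metric.isOpen_ball.preimage continuous_snd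

omit [MetricSpace B] in
lemma JJ_nonempty {N k : ℕ} {ε : ℝ} (hε : 0 < ε) {TN : Finset X} (hTN : ∀ x, x ∈ TN ↔ N • x = 0)
    (hk : k + 1 < TN.card) (q : B × (Fin k → X)) : ∃ x, (q, x) ∈ JJ B X N k ε := by
  classical
  have h1 : ((Finset.univ.image q.2) ∪ {0}).card < TN.card := by
    refine lt_of_le_of_lt (Finset.card_union_le _ _) ?_
    have := Finset.card_image_le (s := (Finset.univ : Finset (Fin k))) (f := q.2)
    rw [Finset.card_univ, Fintype.card_fin] at this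
    rw [Finset.card_singleton]
    omega
  obtain ⟨v, hv1, hv2⟩ := Finset.exists_mem_notMem_of_card_lt_card h1
  rw [Finset.mem_union, not_or, Finset.mem_singleton, Finset.mem_image] at hv2
  refine ⟨v, v, (hTN v).1 hv1, hv2.2, fun i h => hv2.1 ⟨i, Finset.mem_univ _, h.symm⟩, ?_⟩
  simpa using hε

/-- the limit of the sets `JJ` -/
def CC (B : Type*) (X : Type*) [NormedAddCommGroup X] (N k : ℕ) : Set ((B × (Fin k → X)) × X) :=
  {z | z.1.2 ∈ Good X N k ∧ N • z.2 = 0 ∧ z.2 ≠ 0 ∧ ∀ i, z.2 ≠ z.1.2 i}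

lemma isClosed_CC (TX : Tor X) {N : ℕ} (hN : 0 < N) (k : ℕ) : IsClosed (CC B X N k) := by
  have hfin : {p : (Fin k → X) × X | p.1 ∈ Good X N k ∧ N • p.2 = 0 ∧ p.2 ≠ 0 ∧ ∀ i, p.2 ≠ p.1 i}.Finite :=
    ((Good.finite TX hN k).prod (TX.fin N hN)).subset (fun p hp => ⟨hp.1, hp.2.1⟩)
  exact hfin.isClosed.preimage (continuous_fst.snd.prodMk continuous_snd)

omit [MeasurableSpace Ω] in
lemma exists_CC [CompactSpace B] [CompactSpace X] (TX : Tor X) {F : Ω → Set (B × X)}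
    (hF : ∀ ω, IsClosed (F ω)) {N : ℕ} (hN : 0 < N) {k : ℕ} {ω : Ω}
    (h : ∀ j : ℕ, (DD F N k ω ∩ JJ B X N k (1 / ((j : ℝ) + 1))).Nonempty) :
    (DD F N k ω ∩ CC B X N k).Nonempty := by
  by_contra hcon
  rw [not_nonempty_iff_eq_empty, ← disjoint_iff_inter_eq_empty] at hcon
  obtain ⟨δ, hδ, hdis⟩ := hcon.exists_cthickenings (isClosed_DD TX hF hN k ω).isCompact
    (isClosed_CC TX hN k)
  obtain ⟨j, hj⟩ := exists_nat_one_div_lt hδ
  obtain ⟨z, hz1, v, hv1, hv2, hv3, hv4⟩ := h j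
  have hzg : z.1.2 ∈ Good X N k := by
    obtain ⟨y, hy, -⟩ := hz1
    exact hy.1
  refine disjoint_left.1 hdis (Metric.self_subset_cthickening _ hz1) ?_
  refine Metric.mem_cthickening_of_dist_le z (z.1, v) δ _ ⟨hzg, hv1, hv2, hv3⟩ ?_
  rw [Prod.dist_eq]
  simp only [dist_self]
  exact max_le hδ.le (hv4.le.trans hj.le)

lemma cast_irr {b c m : ℕ} (hm : 0 < m) (h : Irrational (Real.log b / Real.log c)) :
    Irrational (Real.log ((b ^ m : ℕ) : ℝ) / Real.log ((c ^ m : ℕ) : ℝ)) := by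
  push_cast
  rw [Real.log_pow, Real.log_pow, mul_div_mul_left _ _ (by exact_mod_cast hm.ne')]
  exact h

/-- A stationary random closed set without torsion points contains a full coset of the group of
`N`-torsion points. -/
theorem Hyp.coset [CompactSpace B] [CompactSpace X] (TX : Tor X) (H : Hyp σ T lam₁ lam₂ l₁ l₂)
    {b c : ℕ} (hb : 2 ≤ b) (hc : 2 ≤ c) (hirr : Irrational (Real.log b / Real.log c))
    {P : Measure Ω} [IsProbabilityMeasure P] {τ ρ : Ω → Ω} (hτ : MeasurePreserving τ P P)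
    (hρ : MeasurePreserving ρ P P) {F : Ω → Set (B × X)} (hF : ∀ ω, IsClosed (F ω)) (hm : HitM F)
    (hT : ∀ ω, ∀ z ∈ F ω, T z ∈ F ω) (hT' : ∀ ω, ∀ z ∈ F ω, T.symm z ∈ F ω)
    (hb' : ∀ ω, ∀ z ∈ F ω, (z.1, b • z.2) ∈ F (τ ω))
    (hc' : ∀ ω, ∀ z ∈ F ω, (z.1, c • z.2) ∈ F (ρ ω)) {N : ℕ} (hN : 0 < N)
    (hbN : Nat.Coprime b N) (hcN : Nat.Coprime c N) :
    ∀ᵐ ω ∂P, (F ω).Nonempty → (∀ z ∈ F ω, ¬ IsOfFinAddOrder z.2) →
      ∃ z ∈ F ω, ∀ s : X, N • s = 0 → (z.1, z.2 + s) ∈ F ω := by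
  classical
  set m := Nat.totient N with hmdef
  have hm0 : 0 < m := Nat.totient_pos.2 hN
  have h2b : 2 ≤ b ^ m := hb.trans (Nat.le_self_pow hm0.ne' b)
  have h2c : 2 ≤ c ^ m := hc.trans (Nat.le_self_pow hm0.ne' c)
  have hbm : ∀ x : X, N • x = 0 → b ^ m • x = x := fun x hx => pow_smul_eq hbN hx
  have hcm : ∀ x : X, N • x = 0 → c ^ m • x = x := fun x hx => pow_smul_eq hcN hx
  have hbF : ∀ ω, ∀ z ∈ F ω, (z.1, b ^ m • z.2) ∈ F (τ^[m] ω) := iter_nsmul hb' m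
  have hcF : ∀ ω, ∀ z ∈ F ω, (z.1, c ^ m • z.2) ∈ F (ρ^[m] ω) := iter_nsmul hc' m
  set TN : Finset X := (TX.fin N hN).toFinset with hTN
  have hTNmem : ∀ x, x ∈ TN ↔ N • x = 0 := fun x => by simp [hTN]
  have e1 : ∀ᵐ ω ∂P, ∀ k : ℕ, Sep (LL F N k ω) → ∀ z ∈ LL F N k ω, IsOfFinAddOrder z.2 := by
    rw [ae_all_iff]; intro k
    exact (H.hypTT k).torsion_of_sep h2b (hτ.iterate m) (isClosed_LL TX hF hN k)
      (hit_LL TX hF hm hN k) (fun ω => H.LL_inv (hT ω)) (fun ω => H.symm.LL_inv (hT' ω))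
      (fun ω => LL_nsmul hbm (hbF ω))
  have e2 : ∀ᵐ ω ∂P, ∀ k : ℕ, k + 1 < TN.card → ∀ j : ℕ, Acc0 (DD F N k ω) →
      (DD F N k ω ∩ JJ B X N k (1 / ((j : ℝ) + 1))).Nonempty := by
    rw [ae_all_iff]; intro k
    by_cases hk : k + 1 < TN.card
    · have h1 : ∀ᵐ ω ∂P, ∀ j : ℕ, Acc0 (DD F N k ω) →
          (DD F N k ω ∩ JJ B X N k (1 / ((j : ℝ) + 1))).Nonempty := by
        rw [ae_all_iff]; intro j
        exact (H.hypTT k).core TX h2b h2c (cast_irr hm0 hirr) (hτ.iterate m) (hρ.iterate m)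
          (isClosed_DD TX hF hN k) (hit_DD TX hF hm hN k) (fun ω => H.DD_inv (hT ω))
          (fun ω => H.symm.DD_inv (hT' ω)) (fun ω => DD_nsmul hbm (hbF ω))
          (fun ω => DD_nsmul hcm (hcF ω)) (isOpen_JJ N k _)
          (fun q => JJ_nonempty (by positivity) hTNmem hk q)
      filter_upwards [h1] with ω hω _ using hω
    · exact Eventually.of_forall fun ω h => absurd h hk
  filter_upwards [e1, e2] with ω h1 h2 hne htor
  have step : ∀ k : ℕ, k + 1 ≤ TN.card → (LL F N k ω).Nonempty := by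
    intro k
    induction k with
    | zero =>
      intro _
      obtain ⟨z, hz⟩ := hne
      refine ⟨((z.1, Fin.elim0), z.2), ⟨fun i => i.elim0, fun i => i.elim0⟩, ?_⟩
      intro i
      cases i with
      | none => simpa [ext0] using hz
      | some i => exact i.elim0
    | succ k ih =>
      intro hk
      obtain ⟨z0, hz0⟩ := ih (by omega)
      have hnsep : ¬ Sep (LL F N k ω) := by
        intro hsep
        have h3 := h1 k hsep z0 hz0
        have h4 := hz0.2 none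
        simp only [ext0, add_zero] at h4
        exact htor _ h4 h3
      have hacc : Acc0 (DD F N k ω) := by
        intro ε hε
        have h5 : ¬ SepBy ε (LL F N k ω) := fun h => hnsep ⟨ε, hε, h⟩
        unfold SepBy at h5
        push Not at h5
        obtain ⟨w, x, x', hx, hx', hne', hd⟩ := h5
        refine ⟨(w, x' - x), ⟨x, hx, by simpa using hx'⟩, sub_ne_zero.2 (Ne.symm hne'), ?_⟩
        simp only
        rw [← dist_eq_norm, dist_comm]; exact hd
      obtain ⟨⟨⟨w, s⟩, v⟩, ⟨y, hy1, hy2⟩, ⟨hg, hv1, hv2, hv3⟩⟩ :=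
        exists_CC TX hF hN (fun j => h2 k (by omega) j hacc)
      simp only at hv1 hv2 hv3 hg
      refine ⟨((w, Fin.cons v s), y), ⟨?_, ?_⟩, ?_⟩
      · intro i
        refine Fin.cases ?_ (fun i => ?_) i
        · exact ⟨hv1, hv2⟩
        · exact hg.1 i
      · rw [Fin.cons_injective_iff]
        refine ⟨?_, hg.2⟩
        rintro ⟨i, hi⟩
        exact hv3 i hi.symm
      · intro i
        cases i with
        | none => exact hy1.2 none
        | some i =>
          refine Fin.cases ?_ (fun i => ?_) i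
          · have := hy2.2 none
            simpa [ext0] using this
          · exact hy1.2 (some i)
  have hcard : 0 < TN.card := Finset.card_pos.2 ⟨0, (hTNmem 0).2 (smul_zero N)⟩
  obtain ⟨⟨⟨w, s⟩, y⟩, hg, hy⟩ := step (TN.card - 1) (by omega)
  refine ⟨(w, y), by simpa [ext0] using hy none, fun t ht => ?_⟩
  by_cases ht0 : t = 0
  · have := hy none
    simpa [ext0, ht0] using this
  · have h3 : Finset.univ.image s = TN.erase 0 := by
      refine Finset.eq_of_subset_of_card_le ?_ ?_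
      · intro x hx
        rw [Finset.mem_image] at hx
        obtain ⟨i, -, rfl⟩ := hx
        rw [Finset.mem_erase]
        exact ⟨(hg.1 i).2, (hTNmem _).2 (hg.1 i).1⟩
      · rw [Finset.card_image_of_injective _ hg.2, Finset.card_univ, Fintype.card_fin,
          Finset.card_erase_of_mem ((hTNmem 0).2 (smul_zero N))]
    have h4 : t ∈ Finset.univ.image s := by
      rw [h3, Finset.mem_erase]; exact ⟨ht0, (hTNmem t).2 ht⟩
    rw [Finset.mem_image] at h4
    obtain ⟨i, -, rfl⟩ := h4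
    exact hy (some i)

/-- A stationary random closed set meets every open set containing the torsion points. -/
theorem Hyp.meets [CompactSpace B] [CompactSpace X] (TX : Tor X) (H : Hyp σ T lam₁ lam₂ l₁ l₂)
    {b c : ℕ} (hb : 2 ≤ b) (hc : 2 ≤ c) (hirr : Irrational (Real.log b / Real.log c))
    {P : Measure Ω} [IsProbabilityMeasure P] {τ ρ : Ω → Ω} (hτ : MeasurePreserving τ P P)
    (hρ : MeasurePreserving ρ P P) {F : Ω → Set (B × X)} (hF : ∀ ω, IsClosed (F ω)) (hm : HitM F)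
    (hT : ∀ ω, ∀ z ∈ F ω, T z ∈ F ω) (hT' : ∀ ω, ∀ z ∈ F ω, T.symm z ∈ F ω)
    (hb' : ∀ ω, ∀ z ∈ F ω, (z.1, b • z.2) ∈ F (τ ω))
    (hc' : ∀ ω, ∀ z ∈ F ω, (z.1, c • z.2) ∈ F (ρ ω)) {O : Set X} (hO : IsOpen O)
    (htor : ∀ x : X, IsOfFinAddOrder x → x ∈ O) :
    ∀ᵐ ω ∂P, (F ω).Nonempty → ∃ z ∈ F ω, z.2 ∈ O := by
  obtain ⟨r, hr, hball⟩ := Metric.isOpen_iff.1 hO 0 (htor 0 IsOfFinAddOrder.zero)
  obtain ⟨N, hN, hcop, hdense⟩ := TX.dense (b * c) (by positivity) r hr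
  have hbN : Nat.Coprime b N := Nat.Coprime.coprime_mul_right hcop
  have hcN : Nat.Coprime c N := Nat.Coprime.coprime_mul_left hcop
  filter_upwards [H.coset TX hb hc hirr hτ hρ hF hm hT hT' hb' hc' hN hbN hcN] with ω h1 hne
  by_cases ht : ∀ z ∈ F ω, ¬ IsOfFinAddOrder z.2
  · obtain ⟨z, hz, hzs⟩ := h1 hne ht
    obtain ⟨s, hs, hd⟩ := hdense (-z.2)
    refine ⟨_, hzs s hs, hball ?_⟩
    rw [Metric.mem_ball, dist_zero_right]
    rw [dist_eq_norm] at hd
    have : z.2 + s = -(-z.2 - s) := by abel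
    simp only
    rw [this, norm_neg]; exact hd
  · push Not at ht
    obtain ⟨z, hz, hzt⟩ := ht
    exact ⟨z, hz, htor _ hzt⟩

end Pool.Agent.W765.Sk
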