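import Mathlib
import Pool.Agent.W765.Sk8

set_option autoImplicit false

open MeasureTheory Filter Topology Set TopologicalSpace BoundedContinuousFunction

namespace Pool.Agent.W765.Sk

open Pool.Agent.W765.Hb (Tor)

/-- Krylov-Bogoliubov for asymptotically invariant measures. -/
theorem kb_abs {Y : Type*} [TopologicalSpace Y] [CompactSpace Y] [T2Space Y] [HasOuterApproxClosed Y]
    [MeasurableSpace Y] [BorelSpace Y] (μ : ℕ → Measure Y) (hμ : ∀ L, IsProbabilityMeasure (μ L)) :
    ∃ P : Measure Y, IsProbabilityMeasure P ∧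
      (∀ (f : Y → Y) (_ : Continuous f), (∀ g : Y →ᵇ ℝ,
        Tendsto (fun L => (∫ y, g (f y) ∂(μ L)) - ∫ y, g y ∂(μ L)) atTop (𝓝 0)) →
          MeasurePreserving f P P) ∧
      ∀ G : Set Y, IsOpen G → ∀ c : ENNReal, (∀ᶠ L in atTop, μ L G ≤ c) → P G ≤ c := by
  set Q : ℕ → ProbabilityMeasure Y := fun L => ⟨μ L, hμ L⟩ with hQ
  set U : Ultrafilter ℕ := hyperfilter ℕ with hU
  have hUle : (U : Filter ℕ) ≤ atTop := by
    rw [hU, ← Nat.cofinite_eq_atTop]; exact hyperfilter_le_cofinite
  obtain ⟨P, -, hP⟩ := isCompact_univ.ultrafilter_le_nhds (U.map Q) (by simp)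
  have hlim : Tendsto Q U (𝓝 P) := hP
  refine ⟨P, inferInstance, ?_, ?_⟩
  · intro f hf hinv
    refine ⟨hf.measurable, ?_⟩
    have hmapP : IsProbabilityMeasure (Measure.map f (P : Measure Y)) :=
      Measure.isProbabilityMeasure_map hf.measurable.aemeasurable
    refine ext_of_forall_integral_eq_of_IsFiniteMeasure fun g => ?_
    rw [integral_map hf.measurable.aemeasurable g.continuous.aestronglyMeasurable]
    have h1 := (ProbabilityMeasure.tendsto_iff_forall_integral_tendsto.1 hlim) g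
    have h2 := (ProbabilityMeasure.tendsto_iff_forall_integral_tendsto.1 hlim)
      (g.compContinuous ⟨f, hf⟩)
    have h3 := h2.sub h1
    have h4 : Tendsto (fun L => (∫ y, (g.compContinuous ⟨f, hf⟩) y ∂(Q L : Measure Y)) -
        ∫ y, g y ∂(Q L : Measure Y)) U (𝓝 0) := (hinv g).mono_left hUle
    have h7 := tendsto_nhds_unique h3 h4
    have h8 : ∫ y, (g.compContinuous ⟨f, hf⟩) y ∂(P : Measure Y) = ∫ y, g (f y) ∂(P : Measure Y) := rfl
    rw [h8] at h7
    linarith
  · intro G hG c hc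
    have h1 := ProbabilityMeasure.le_liminf_measure_open_of_tendsto hlim hG
    refine h1.trans ?_
    have hc' : ∀ᶠ L in (U : Filter ℕ), μ L G ≤ c := hUle hc
    refine (Filter.liminf_le_liminf (v := fun _ => c) (hc'.mono fun L hL => hL)).trans ?_
    simp

/-- empirical measure of a square window -/
noncomputable def emp2 {Y : Type*} [MeasurableSpace Y] (f g : Y → Y) (x : Y) (n : ℕ) : Measure Y :=
  (((n * n : ℕ) : ENNReal)⁻¹) • ∑ p ∈ Finset.range n ×ˢ Finset.range n, Measure.dirac (f^[p.1] (g^[p.2] x))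

section
variable {Y : Type*} [MeasurableSpace Y] {f g : Y → Y} {x : Y} {n : ℕ}

lemma emp2_prob (hn : 0 < n) : IsProbabilityMeasure (emp2 f g x n) := by
  constructor
  unfold emp2
  simp only [Measure.smul_apply, Measure.coe_finsetSum, Finset.sum_apply, measure_univ,
    Finset.sum_const, Finset.card_product, Finset.card_range, nsmul_eq_mul, mul_one, smul_eq_mul]
  exact ENNReal.inv_mul_cancel (by exact_mod_cast (Nat.mul_pos hn hn).ne') (ENNReal.natCast_ne_top _)

open Classical in
lemma emp2_apply {G : Set Y} (hG : MeasurableSet G) :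
    emp2 f g x n G = ((n * n : ℕ) : ENNReal)⁻¹ *
      ((Finset.range n ×ˢ Finset.range n).filter (fun p => f^[p.1] (g^[p.2] x) ∈ G)).card := by
  unfold emp2
  simp only [Measure.smul_apply, Measure.coe_finsetSum, Finset.sum_apply, smul_eq_mul]
  congr 1
  rw [Finset.card_filter]
  push_cast
  refine Finset.sum_congr rfl fun i _ => ?_
  rw [Measure.dirac_apply' _ hG]
  rfl

lemma emp2_eq_zero {G : Set Y} (hG : MeasurableSet G) (h : ∀ i j, f^[i] (g^[j] x) ∉ G) :
    emp2 f g x n G = 0 := by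
  unfold emp2
  simp only [Measure.smul_apply, Measure.coe_finsetSum, Finset.sum_apply, smul_eq_mul]
  rw [Finset.sum_eq_zero, mul_zero]
  intro i _
  rw [Measure.dirac_apply' _ hG, indicator_of_notMem (h _ _)]

lemma emp2_integral [TopologicalSpace Y] [BorelSpace Y] (h : Y →ᵇ ℝ) :
    ∫ y, h y ∂(emp2 f g x n) = ((n : ℝ) * n)⁻¹ *
      ∑ j ∈ Finset.range n, ∑ i ∈ Finset.range n, h (f^[i] (g^[j] x)) := by
  unfold emp2
  rw [integral_smul_measure, integral_finsetSum_measure]
  · simp only [ENNReal.toReal_inv, ENNReal.toReal_natCast, smul_eq_mul]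
    congr 1
    · push_cast; rfl
    rw [Finset.sum_product_right]
    refine Finset.sum_congr rfl fun j _ => Finset.sum_congr rfl fun i _ => ?_
    exact integral_dirac' _ _ h.continuous.stronglyMeasurable
  · intro i _
    exact h.integrable _

lemma emp2_inv [TopologicalSpace Y] [BorelSpace Y] (hf : Continuous f) (hn : 0 < n) (h : Y →ᵇ ℝ) :
    |(∫ y, h (f y) ∂(emp2 f g x n)) - ∫ y, h y ∂(emp2 f g x n)| ≤ 2 * ‖h‖ / n := by
  have e1 : ∫ y, h (f y) ∂(emp2 f g x n) = ((n : ℝ) * n)⁻¹ *
      ∑ j ∈ Finset.range n, ∑ i ∈ Finset.range n, h (f^[i + 1] (g^[j] x)) := by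
    have := emp2_integral (f := f) (g := g) (x := x) (n := n) (h.compContinuous ⟨f, hf⟩)
    refine this.trans ?_
    congr 1
    refine Finset.sum_congr rfl fun j _ => Finset.sum_congr rfl fun i _ => ?_
    simp only [BoundedContinuousFunction.compContinuous_apply, ContinuousMap.coe_mk]
    rw [← Function.iterate_succ_apply' f]
  rw [e1, emp2_integral, ← mul_sub, ← Finset.sum_sub_distrib]
  have e2 : ∀ j ∈ Finset.range n, |(∑ i ∈ Finset.range n, h (f^[i + 1] (g^[j] x))) -
      ∑ i ∈ Finset.range n, h (f^[i] (g^[j] x))| ≤ 2 * ‖h‖ := by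
    intro j _
    rw [← Finset.sum_sub_distrib, Finset.sum_range_sub (fun i => h (f^[i] (g^[j] x))) n]
    have a1 := h.norm_coe_le_norm (f^[n] (g^[j] x))
    have a2 := h.norm_coe_le_norm (f^[0] (g^[j] x))
    have a3 := norm_sub_le (h (f^[n] (g^[j] x))) (h (f^[0] (g^[j] x)))
    rw [← Real.norm_eq_abs]
    linarith
  have hnR : (0 : ℝ) < n := by exact_mod_cast hn
  have e3 := (Finset.abs_sum_le_sum_abs (fun j => (∑ i ∈ Finset.range n, h (f^[i + 1] (g^[j] x))) -
      ∑ i ∈ Finset.range n, h (f^[i] (g^[j] x))) (Finset.range n)).trans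
      (Finset.sum_le_card_nsmul _ _ _ e2)
  rw [Finset.card_range, nsmul_eq_mul] at e3
  rw [abs_mul, abs_of_pos (by positivity : (0 : ℝ) < ((n : ℝ) * n)⁻¹)]
  calc ((n : ℝ) * n)⁻¹ * _ ≤ ((n : ℝ) * n)⁻¹ * (n * (2 * ‖h‖)) := by gcongr
    _ = 2 * ‖h‖ / n := by field_simp

lemma emp2_swap (hfg : ∀ y, f (g y) = g (f y)) : emp2 f g x n = emp2 g f x n := by
  have hc : Function.Commute f g := hfg
  unfold emp2
  congr 1
  rw [Finset.sum_product, Finset.sum_product_right]
  refine Finset.sum_congr rfl fun i _ => Finset.sum_congr rfl fun j _ => ?_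
  have := (hc.iterate_iterate i j) x
  rw [this]
end

variable {B : Type*} [MetricSpace B] {X : Type*} [NormedAddCommGroup X]
variable {σ : B ≃ₜ B} {T : (B × X) ≃ₜ (B × X)} {lam lam₁ lam₂ : B → ℝ} {l l₁ l₂ : B → ℝ →+ X}

noncomputable local instance : MeasurableSpace (NonemptyCompacts (B × X)) := borel _
local instance : BorelSpace (NonemptyCompacts (B × X)) := ⟨rfl⟩

omit [MetricSpace B] in
lemma continuous_fib [TopologicalSpace B] (q : ℕ) : Continuous (fun z : B × X => (z.1, q • z.2)) :=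
  continuous_fst.prodMk (continuous_snd.const_smul q)

/-- image under multiplication by `q` in the fibres -/
def mulF (B : Type*) [MetricSpace B] (X : Type*) [NormedAddCommGroup X] (q : ℕ) :
    NonemptyCompacts (B × X) → NonemptyCompacts (B × X) :=
  NonemptyCompacts.map (fun z : B × X => (z.1, q • z.2)) (continuous_fib q)

lemma continuous_mulF (q : ℕ) : Continuous (mulF B X q) :=
  (continuous_fib q).nonemptyCompacts_map

lemma coe_mulF (q : ℕ) (E : NonemptyCompacts (B × X)) :
    ((mulF B X q E : NonemptyCompacts (B × X)) : Set (B × X)) = (fun z : B × X => (z.1, q • z.2)) '' E := rfl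

lemma coe_mulF_iterate (q : ℕ) (E : NonemptyCompacts (B × X)) (j : ℕ) :
    (((mulF B X q)^[j] E : NonemptyCompacts (B × X)) : Set (B × X)) =
      (fun z : B × X => (z.1, q ^ j • z.2)) '' E := by
  induction j with
  | zero => simp
  | succ j ih =>
    rw [Function.iterate_succ_apply', coe_mulF, ih, image_image]
    refine image_congr fun x _ => ?_
    simp only [pow_succ', mul_smul]

lemma mulF_comm (b c : ℕ) (E : NonemptyCompacts (B × X)) :
    mulF B X b (mulF B X c E) = mulF B X c (mulF B X b E) := by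
  apply NonemptyCompacts.ext
  rw [coe_mulF, coe_mulF, coe_mulF, coe_mulF, image_image, image_image]
  refine image_congr fun x _ => ?_
  simp only [smul_smul, mul_comm]

/-- forward invariance is a closed condition -/
lemma isClosed_invM {Z : Type*} [MetricSpace Z] {g : Z → Z} (hg : Continuous g) :
    IsClosed {E : NonemptyCompacts Z | ∀ x ∈ (E : Set Z), g x ∈ (E : Set Z)} := by
  rw [← isOpen_compl_iff, isOpen_iff_forall_mem_open]
  intro E hE
  simp only [mem_compl_iff, mem_ofPred_eq, not_forall] at hE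
  obtain ⟨x, hx, hpx⟩ := hE
  obtain ⟨A, B, hA, hB, hA', hB', hAB⟩ := SeparatedNhds.of_isCompact_isCompact
    (isCompact_singleton (x := g x)) E.isCompact (by rw [disjoint_singleton_left]; exact hpx)
  refine ⟨{E' : NonemptyCompacts Z | ((E' : Set Z) ∩ g ⁻¹' A).Nonempty} ∩
    {E' : NonemptyCompacts Z | (E' : Set Z) ⊆ B}, ?_, ?_, ?_⟩
  · rintro E' ⟨⟨y, hy, hyA⟩, hEB⟩ hinv
    exact (disjoint_left.1 hAB hyA) (hEB (hinv y hy))
  · exact (NonemptyCompacts.isOpen_inter_nonempty_of_isOpen (hA.preimage hg)).inter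
      (NonemptyCompacts.isOpen_subsets_of_isOpen hB)
  · exact ⟨⟨x, hx, hA' rfl⟩, hB'⟩

/-- the invariant compact sets -/
def GG (T : (B × X) ≃ₜ (B × X)) : Set (NonemptyCompacts (B × X)) :=
  {E | ∀ z ∈ (E : Set (B × X)), T z ∈ (E : Set (B × X))} ∩
    {E | ∀ z ∈ (E : Set (B × X)), T.symm z ∈ (E : Set (B × X))}

lemma isClosed_GG (T : (B × X) ≃ₜ (B × X)) : IsClosed (GG T) :=
  (isClosed_invM T.continuous).inter (isClosed_invM T.symm.continuous)

lemma Hyp.GG_mulF (H : Hyp σ T lam₁ lam₂ l₁ l₂) (q : ℕ) {E : NonemptyCompacts (B × X)}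
    (hE : E ∈ GG T) : mulF B X q E ∈ GG T := by
  constructor
  · change ∀ z ∈ ((mulF B X q E : NonemptyCompacts (B × X)) : Set (B × X)), T z ∈
      ((mulF B X q E : NonemptyCompacts (B × X)) : Set (B × X))
    rw [coe_mulF]
    rintro _ ⟨z, hz, rfl⟩
    exact ⟨T z, hE.1 z hz, (H.comm_nsmul q z).symm⟩
  · change ∀ z ∈ ((mulF B X q E : NonemptyCompacts (B × X)) : Set (B × X)), T.symm z ∈
      ((mulF B X q E : NonemptyCompacts (B × X)) : Set (B × X))
    rw [coe_mulF]
    rintro _ ⟨z, hz, rfl⟩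
    exact ⟨T.symm z, hE.2 z hz, (H.symm.comm_nsmul q z).symm⟩

lemma Hyp.GG_iter (H : Hyp σ T lam₁ lam₂ l₁ l₂) (q j : ℕ) {E : NonemptyCompacts (B × X)}
    (hE : E ∈ GG T) : (mulF B X q)^[j] E ∈ GG T := by
  induction j with
  | zero => exact hE
  | succ j ih => rw [Function.iterate_succ_apply']; exact H.GG_mulF q ih

open Classical in
/-- The uniform theorem. -/
theorem Hyp.uniform [CompactSpace B] [CompactSpace X] (TX : Tor X) (H : Hyp σ T lam₁ lam₂ l₁ l₂)
    {b c : ℕ} (hb : 2 ≤ b) (hc : 2 ≤ c) (hirr : Irrational (Real.log b / Real.log c))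
    {O : Set X} (hO : IsOpen O) (htor : ∀ x : X, IsOfFinAddOrder x → x ∈ O) {δ : ℝ} (hδ : 0 < δ) :
    ∃ N₀ : ℕ, ∀ K : Set (B × X), IsClosed K → K.Nonempty → (∀ z ∈ K, T z ∈ K) →
      (∀ z ∈ K, T.symm z ∈ K) → ∀ N : ℕ, N₀ ≤ N →
      (((Finset.range N ×ˢ Finset.range N).filter
        (fun p => ∀ z ∈ K, (b ^ p.1 * c ^ p.2) • z.2 ∉ O)).card : ℝ) ≤ δ * N ^ 2 := by
  by_contra hcon
  push Not at hcon
  choose K' hKcl hKne hKinv hKinv' n hn hcard using fun L : ℕ => hcon (L + 1)
  set K : ℕ → NonemptyCompacts (B × X) := fun L => ⟨⟨K' L, (hKcl L).isCompact⟩, hKne L⟩ with hK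
  have hKG : ∀ L, K L ∈ GG T := fun L => ⟨hKinv L, hKinv' L⟩
  have hn0 : ∀ L, 0 < n L := fun L => by have := hn L; omega
  have hnt : Tendsto n atTop atTop :=
    tendsto_atTop_mono (fun L => by have := hn L; simp only [id]; omega) tendsto_id
  set f := mulF B X b with hf
  set g := mulF B X c with hg
  have hfg : ∀ E, f (g E) = g (f E) := fun E => mulF_comm b c E
  obtain ⟨P, hP, hPinv, hPG⟩ := kb_abs (fun L => emp2 f g (K L) (n L)) (fun L => emp2_prob (hn0 L))
  have hdiv : ∀ h : NonemptyCompacts (B × X) →ᵇ ℝ, Tendsto (fun L => 2 * ‖h‖ / (n L : ℝ)) atTop (𝓝 0) :=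
    fun h => tendsto_const_nhds.div_atTop (tendsto_natCast_atTop_atTop.comp hnt)
  have hPf : MeasurePreserving f P P := by
    refine hPinv f (continuous_mulF b) fun h => ?_
    exact squeeze_zero_norm (fun L => emp2_inv (continuous_mulF b) (hn0 L) h) (hdiv h)
  have hPg : MeasurePreserving g P P := by
    refine hPinv g (continuous_mulF c) fun h => ?_
    refine squeeze_zero_norm (fun L => ?_) (hdiv h)
    rw [emp2_swap hfg]
    exact emp2_inv (continuous_mulF c) (hn0 L) h
  have hGm : MeasurableSet (GG T) := (isClosed_GG T).measurableSet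
  have hPGG : ∀ᵐ E ∂P, E ∈ GG T := by
    rw [ae_iff]
    refine le_antisymm (hPG _ (isClosed_GG T).isOpen_compl 0 (Eventually.of_forall fun L => ?_)) zero_le
    rw [emp2_eq_zero (isClosed_GG T).isOpen_compl.measurableSet]
    intro i j hij
    exact hij (H.GG_iter b i (H.GG_iter c j (hKG L)))
  set F : NonemptyCompacts (B × X) → Set (B × X) := fun E => if E ∈ GG T then (E : Set (B × X)) else ∅
    with hF
  have hFpos : ∀ E ∈ GG T, F E = E := fun E hE => if_pos hE
  have hFneg : ∀ E, E ∉ GG T → F E = ∅ := fun E hE => if_neg hE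
  have hst := H.meets TX hb hc hirr hPf hPg (F := F) ?_ ?_ ?_ ?_ ?_ ?_ hO htor
  · have hopen : IsOpen ((univ : Set B) ×ˢ O) := isOpen_univ.prod hO
    have hG := NonemptyCompacts.isOpen_inter_nonempty_of_isOpen hopen
    have hall : ∀ᵐ E ∂P, E ∈ {E : NonemptyCompacts (B × X) | ((E : Set (B × X)) ∩ univ ×ˢ O).Nonempty} := by
      filter_upwards [hst, hPGG] with E h1 h2
      rw [hFpos E h2] at h1
      obtain ⟨z, hz, hzO⟩ := h1 E.nonempty
      exact ⟨z, hz, mem_univ _, hzO⟩
    have h1 : P {E : NonemptyCompacts (B × X) | ((E : Set (B × X)) ∩ univ ×ˢ O).Nonempty} = 1 :=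
      (mem_ae_iff_prob_eq_one hG.measurableSet).1 hall
    have h2 := hPG _ hG (ENNReal.ofReal (1 - δ)) (Eventually.of_forall fun L => ?_)
    · rw [h1] at h2
      have : ENNReal.ofReal (1 - δ) < 1 := by
        rw [ENNReal.ofReal_lt_one]; linarith
      exact absurd h2 (not_le.2 this)
    · rw [emp2_apply hG.measurableSet]
      have h3 := Finset.card_filter_add_card_filter_not (s := Finset.range (n L) ×ˢ Finset.range (n L))
        (fun p => ∀ z ∈ K' L, (b ^ p.1 * c ^ p.2) • z.2 ∉ O)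
      rw [Finset.card_product, Finset.card_range] at h3
      have h4 : (Finset.range (n L) ×ˢ Finset.range (n L)).filter (fun p => f^[p.1] (g^[p.2] (K L)) ∈
          {E : NonemptyCompacts (B × X) | ((E : Set (B × X)) ∩ univ ×ˢ O).Nonempty}) =
          (Finset.range (n L) ×ˢ Finset.range (n L)).filter
            (fun p => ¬ ∀ z ∈ K' L, (b ^ p.1 * c ^ p.2) • z.2 ∉ O) := by
        refine Finset.filter_congr fun p _ => ?_
        change ((((mulF B X b)^[p.1] ((mulF B X c)^[p.2] (K L)) : NonemptyCompacts (B × X)) :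
          Set (B × X)) ∩ univ ×ˢ O).Nonempty ↔ _
        rw [coe_mulF_iterate, coe_mulF_iterate, image_image]
        push Not
        constructor
        · rintro ⟨_, ⟨x, hx, rfl⟩, -, hxU⟩
          refine ⟨x, hx, ?_⟩
          rw [mul_smul]; exact hxU
        · rintro ⟨x, hx, hxU⟩
          refine ⟨_, ⟨x, hx, rfl⟩, mem_univ _, ?_⟩
          rw [mul_smul] at hxU; exact hxU
      rw [h4]
      have h5 := hcard L
      set a := ((Finset.range (n L) ×ˢ Finset.range (n L)).filter
        (fun p => ∀ z ∈ K' L, (b ^ p.1 * c ^ p.2) • z.2 ∉ O)).card with ha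
      set d := ((Finset.range (n L) ×ˢ Finset.range (n L)).filter
        (fun p => ¬ ∀ z ∈ K' L, (b ^ p.1 * c ^ p.2) • z.2 ∉ O)).card with hd
      have hnR : (0 : ℝ) < n L := by exact_mod_cast hn0 L
      have hnR2 : (0 : ℝ) < n L * n L := by positivity
      have h6 : (d : ℝ) / (n L * n L) ≤ 1 - δ := by
        have h7 : (a : ℝ) + d = n L * n L := by exact_mod_cast h3
        rw [div_le_iff₀ hnR2]
        nlinarith
      calc (((n L * n L : ℕ) : ENNReal))⁻¹ * d = ENNReal.ofReal ((d : ℝ) / (n L * n L)) := by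
            rw [ENNReal.ofReal_div_of_pos hnR2, ENNReal.ofReal_natCast, ENNReal.ofReal_mul hnR.le,
              ENNReal.ofReal_natCast, ENNReal.div_eq_inv_mul]
            push_cast
            rfl
        _ ≤ ENNReal.ofReal (1 - δ) := ENNReal.ofReal_le_ofReal h6
  · intro E
    by_cases h : E ∈ GG T
    · rw [hFpos E h]; exact E.isCompact.isClosed
    · rw [hFneg E h]; exact isClosed_empty
  · intro V hV
    have : {E | (F E ∩ V).Nonempty} = GG T ∩ {E | ((E : Set (B × X)) ∩ V).Nonempty} := by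
      ext E
      by_cases h : E ∈ GG T
      · simp only [mem_ofPred_eq, mem_inter_iff, hFpos E h, h, true_and]
      · simp only [mem_ofPred_eq, mem_inter_iff, hFneg E h, h, false_and, empty_inter,
          Set.not_nonempty_empty]
    rw [this]
    exact hGm.inter (NonemptyCompacts.isOpen_inter_nonempty_of_isOpen hV).measurableSet
  · intro E z hz
    by_cases h : E ∈ GG T
    · rw [hFpos E h] at hz ⊢; exact h.1 z hz
    · rw [hFneg E h] at hz; exact absurd hz (notMem_empty z)
  · intro E z hz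
    by_cases h : E ∈ GG T
    · rw [hFpos E h] at hz ⊢; exact h.2 z hz
    · rw [hFneg E h] at hz; exact absurd hz (notMem_empty z)
  · intro E z hz
    by_cases h : E ∈ GG T
    · rw [hFpos E h] at hz
      rw [hFpos _ (H.GG_mulF b h)]
      exact ⟨z, hz, rfl⟩
    · rw [hFneg E h] at hz; exact absurd hz (notMem_empty z)
  · intro E z hz
    by_cases h : E ∈ GG T
    · rw [hFpos E h] at hz
      rw [hFpos _ (H.GG_mulF c h)]
      exact ⟨z, hz, rfl⟩
    · rw [hFneg E h] at hz; exact absurd hz (notMem_empty z)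

end Pool.Agent.W765.Sk
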