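import Mathlib
import Pool.Agent.W765.Sk9
import Pool.Agent.W765.Hb7

set_option autoImplicit false

open MeasureTheory Filter Topology Set TopologicalSpace

namespace Pool.Agent.W765.Sk

open Pool.Agent.W765.Hb (Tor T2 line line_apply dense_line exists_rep torT2)
open Pool.Agent.H705R2 (Circ)

/-- the local data of a two sided continued fraction -/
abbrev Sy (M : ℕ) : Type := Fin M × Icc (1 : ℝ) (M + 1) × Icc (0 : ℝ) 1

/-- the partial quotient -/
def aa {M : ℕ} (s : Sy M) : ℕ := s.1.val + 1
/-- the past -/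
def xi {M : ℕ} (s : Sy M) : ℝ := s.2.1
/-- the future -/
def et {M : ℕ} (s : Sy M) : ℝ := s.2.2

lemma continuous_aa (M : ℕ) : Continuous (aa : Sy M → ℕ) :=
  (continuous_of_discreteTopology (f := fun i : Fin M => i.val + 1)).comp continuous_fst
lemma continuous_aaR (M : ℕ) : Continuous (fun s : Sy M => (aa s : ℝ)) :=
  continuous_of_discreteTopology.comp (continuous_aa M)
lemma continuous_xi (M : ℕ) : Continuous (xi : Sy M → ℝ) :=
  continuous_subtype_val.comp continuous_snd.fst
lemma continuous_et (M : ℕ) : Continuous (et : Sy M → ℝ) :=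
  continuous_subtype_val.comp continuous_snd.snd

lemma one_le_xi {M : ℕ} (s : Sy M) : 1 ≤ xi s := s.2.1.2.1
lemma xi_le {M : ℕ} (s : Sy M) : xi s ≤ M + 1 := s.2.1.2.2
lemma et_nonneg {M : ℕ} (s : Sy M) : 0 ≤ et s := s.2.2.2.1
lemma et_le {M : ℕ} (s : Sy M) : et s ≤ 1 := s.2.2.2.2
lemma one_le_aa {M : ℕ} (s : Sy M) : (1 : ℝ) ≤ aa s := by
  have : 1 ≤ aa s := Nat.succ_le_succ (Nat.zero_le _)
  exact_mod_cast this

/-- the relations of a two sided continued fraction -/
def Rel {M : ℕ} (z : ℤ → Sy M) (i : ℤ) : Prop :=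
  xi (z (i + 1)) * xi (z i) = aa (z i) * xi (z i) + 1 ∧ et (z i) * (aa (z i) + et (z (i + 1))) = 1

lemma isClosed_Rel {M : ℕ} (i : ℤ) : IsClosed {z : ℤ → Sy M | Rel z i} := by
  have h1 : ∀ j : ℤ, Continuous fun z : ℤ → Sy M => xi (z j) := fun j =>
    (continuous_xi M).comp (continuous_apply j)
  have h2 : ∀ j : ℤ, Continuous fun z : ℤ → Sy M => et (z j) := fun j =>
    (continuous_et M).comp (continuous_apply j)
  have h3 : ∀ j : ℤ, Continuous fun z : ℤ → Sy M => (aa (z j) : ℝ) := fun j =>
    (continuous_aaR M).comp (continuous_apply j)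
  refine IsClosed.inter (isClosed_eq ?_ ?_) (isClosed_eq ?_ continuous_const)
  · exact (h1 _).mul (h1 _)
  · exact ((h3 _).mul (h1 _)).add continuous_const
  · exact (h2 _).mul ((h3 _).add (h2 _))

/-- two sided continued fractions with partial quotients at most `M` -/
def BB (M : ℕ) : Type := {z : ℤ → Sy M // ∀ i, Rel z i}

instance (M : ℕ) : TopologicalSpace (BB M) :=
  inferInstanceAs (TopologicalSpace {z : ℤ → Sy M // ∀ i, Rel z i})

instance (M : ℕ) : CompactSpace (BB M) := by
  have h : IsClosed {z : ℤ → Sy M | ∀ i, Rel z i} := by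
    simp only [ofPred_forall]
    exact isClosed_iInter fun i => isClosed_Rel i
  exact isCompact_iff_compactSpace.1 h.isCompact

instance (M : ℕ) : MetrizableSpace (BB M) := by
  have : MetrizableSpace (ℤ → Sy M) := metrizableSpace_of_t3_secondCountable _
  exact (Topology.IsEmbedding.subtypeVal (p := fun z : ℤ → Sy M => ∀ i, Rel z i)).metrizableSpace

noncomputable instance (M : ℕ) : MetricSpace (BB M) := metrizableSpaceMetric (BB M)

lemma continuous_coord {M : ℕ} (i : ℤ) : Continuous fun z : BB M => z.1 i :=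
  (continuous_apply i).comp continuous_subtype_val

lemma continuous_toBB {M : ℕ} {Y : Type*} [TopologicalSpace Y] {f : Y → BB M}
    (h : ∀ i, Continuous fun y => (f y).1 i) : Continuous f :=
  Continuous.subtype_mk (continuous_pi h) _

/-- the shift -/
def sh (M : ℕ) : BB M ≃ₜ BB M where
  toFun z := ⟨fun i => z.1 (i + 1), fun i => z.2 (i + 1)⟩
  invFun z := ⟨fun i => z.1 (i - 1), fun i => by
    have h := z.2 (i - 1)
    have e : i - 1 + 1 = i + 1 - 1 := by ring
    unfold Rel at h ⊢
    rw [e] at h
    exact h⟩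
  left_inv z := by
    apply Subtype.ext
    funext i
    simp
  right_inv z := by
    apply Subtype.ext
    funext i
    simp
  continuous_toFun := continuous_toBB fun i => continuous_coord (i + 1)
  continuous_invFun := continuous_toBB fun i => continuous_coord (i - 1)

end Pool.Agent.W765.Sk
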