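import Mathlib
import Pool.Agent.W765.Sk10

set_option autoImplicit false

open MeasureTheory Filter Topology Set TopologicalSpace

namespace Pool.Agent.W765.Sk

open Pool.Agent.W765.Hb (Tor T2 line line_apply dense_line exists_rep torT2)
open Pool.Agent.H705R2 (Circ)

lemma continuous_nsmulJ {Y : Type*} [TopologicalSpace Y] {f : Y → ℕ} (hf : Continuous f)
    {g : Y → Circ} (hg : Continuous g) : Continuous fun x => f x • g x := by
  have := (AddMonoid.continuousSMul_nat (A := AddCircle (1 : ℝ))).continuous_smul.comp (hf.prodMk hg)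
  exact this

/-- the skew product -/
def TM (M : ℕ) : (BB M × T2) ≃ₜ (BB M × T2) where
  toFun z := (sh M z.1, ![aa (z.1.1 0) • z.2 0 + z.2 1, z.2 0])
  invFun z := ((sh M).symm z.1, ![z.2 1, z.2 0 - aa (z.1.1 (-1)) • z.2 1])
  left_inv z := by
    have e : aa ((sh M z.1).1 (-1)) = aa (z.1.1 0) := rfl
    refine Prod.ext ?_ ?_
    · simp
    · simp only [e]
      ext i
      fin_cases i
      · simp
      · simp
  right_inv z := by
    have e : aa (((sh M).symm z.1).1 0) = aa (z.1.1 (-1)) := rfl
    refine Prod.ext ?_ ?_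
    · simp
    · simp only [e]
      ext i
      fin_cases i
      · simp
      · simp
  continuous_toFun := by
    have ha : Continuous fun z : BB M × T2 => aa (z.1.1 0) :=
      (continuous_aa M).comp ((continuous_coord 0).comp continuous_fst)
    have h0 : Continuous fun z : BB M × T2 => z.2 0 := (continuous_apply 0).comp continuous_snd
    have h1 : Continuous fun z : BB M × T2 => z.2 1 := (continuous_apply 1).comp continuous_snd
    refine ((sh M).continuous.comp continuous_fst).prodMk (continuous_pi fun i => ?_)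
    fin_cases i
    · exact (continuous_nsmulJ ha h0).add h1
    · exact h0
  continuous_invFun := by
    have ha : Continuous fun z : BB M × T2 => aa (z.1.1 (-1)) :=
      (continuous_aa M).comp ((continuous_coord (-1)).comp continuous_fst)
    have h0 : Continuous fun z : BB M × T2 => z.2 0 := (continuous_apply 0).comp continuous_snd
    have h1 : Continuous fun z : BB M × T2 => z.2 1 := (continuous_apply 1).comp continuous_snd
    refine ((sh M).symm.continuous.comp continuous_fst).prodMk (continuous_pi fun i => ?_)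
    fin_cases i
    · exact h1
    · exact h0.sub (continuous_nsmulJ ha h1)

lemma TM_apply {M : ℕ} (w : BB M) (x : T2) :
    TM M (w, x) = (sh M w, ![aa (w.1 0) • x 0 + x 1, x 0]) := rfl

lemma xi_rel {M : ℕ} (w : BB M) (i : ℤ) :
    xi (w.1 (i + 1)) * xi (w.1 i) = aa (w.1 i) * xi (w.1 i) + 1 := (w.2 i).1
lemma et_rel {M : ℕ} (w : BB M) (i : ℤ) :
    et (w.1 i) * (aa (w.1 i) + et (w.1 (i + 1))) = 1 := (w.2 i).2

lemma et_pos {M : ℕ} (w : BB M) (i : ℤ) : 0 < et (w.1 i) := by
  have h := et_rel w i
  have h1 := et_nonneg (w.1 i)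
  rcases h1.eq_or_lt with h2 | h2
  · rw [← h2, zero_mul] at h; norm_num at h
  · exact h2

lemma irr_xi {M : ℕ} (w : BB M) (q : ℕ) : 0 < q → ∀ (i p : ℤ), xi (w.1 i) * q = p → False := by
  induction q using Nat.strong_induction_on with
  | _ q ih =>
    intro hq i p hp
    have hqR : (0 : ℝ) < q := by exact_mod_cast hq
    have h1 := xi_rel w (i - 1)
    have h2 := xi_rel w (i - 2)
    rw [show i - 1 + 1 = i by ring] at h1
    rw [show i - 2 + 1 = i - 1 by ring] at h2
    set x := xi (w.1 i)
    set y := xi (w.1 (i - 1)) with hy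
    set z := xi (w.1 (i - 2))
    have hy1 : 1 ≤ y := one_le_xi _
    have hz1 : 1 ≤ z := one_le_xi _
    have ha1 : (1 : ℝ) ≤ aa (w.1 (i - 1)) := one_le_aa _
    have ha2 : (1 : ℝ) ≤ aa (w.1 (i - 2)) := one_le_aa _
    set a := aa (w.1 (i - 1))
    have hy2 : 1 < y := by nlinarith
    -- the new denominator
    have h3 : ((p - a * q : ℤ) : ℝ) * y = q := by
      push_cast
      rw [← hp]
      linear_combination q * h1
    have hpos : 0 < p - a * q := by
      by_contra hneg
      push Not at hneg
      have h4 : ((p - a * q : ℤ) : ℝ) ≤ 0 := by exact_mod_cast hneg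
      nlinarith
    have hposR : (0 : ℝ) < ((p - a * q : ℤ) : ℝ) := by exact_mod_cast hpos
    obtain ⟨q', hq'⟩ := Int.eq_ofNat_of_zero_le hpos.le
    have hq'R : ((p - a * q : ℤ) : ℝ) = q' := by rw [hq']; push_cast; rfl
    rw [hq'R] at h3 hposR
    have hlt : q' < q := by
      have : (q' : ℝ) < q := by nlinarith
      exact_mod_cast this
    have hq'0 : 0 < q' := by exact_mod_cast hposR
    exact ih q' hlt hq'0 (i - 1) q (by rw [← hy, mul_comm]; exact_mod_cast h3)

lemma irr_et {M : ℕ} (w : BB M) (q : ℕ) : 0 < q → ∀ (i p : ℤ), et (w.1 i) * q = p → False := by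
  induction q using Nat.strong_induction_on with
  | _ q ih =>
    intro hq i p hp
    have hqR : (0 : ℝ) < q := by exact_mod_cast hq
    have h1 := et_rel w i
    have hx0 : 0 < et (w.1 i) := et_pos w i
    have hy0 : 0 < et (w.1 (i + 1)) := et_pos w (i + 1)
    have ha1 : (1 : ℝ) ≤ aa (w.1 i) := one_le_aa _
    set x := et (w.1 i)
    set y := et (w.1 (i + 1)) with hy
    set a := aa (w.1 i)
    have hposR : (0 : ℝ) < p := by rw [← hp]; positivity
    have hpos : 0 < p := by exact_mod_cast hposR
    obtain ⟨q', hq'⟩ := Int.eq_ofNat_of_zero_le hpos.le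
    have hq'R : (p : ℝ) = q' := by rw [hq']; push_cast; rfl
    rw [hq'R] at hp hposR
    have hx1 : x < 1 := by nlinarith
    have hlt : q' < q := by
      have : (q' : ℝ) < q := by nlinarith
      exact_mod_cast this
    have hq'0 : 0 < q' := by exact_mod_cast hposR
    refine ih q' hlt hq'0 (i + 1) (q - a * q') ?_
    rw [← hy]
    push_cast
    rw [← hp]
    linear_combination q * h1

lemma irrational_xi {M : ℕ} (w : BB M) (i : ℤ) : Irrational (xi (w.1 i)) := by
  rintro ⟨r, hr⟩
  refine irr_xi w r.den r.pos i r.num ?_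
  rw [← hr]
  exact_mod_cast Rat.mul_den_eq_num r

lemma irrational_et {M : ℕ} (w : BB M) (i : ℤ) : Irrational (et (w.1 i)) := by
  rintro ⟨r, hr⟩
  refine irr_et w r.den r.pos i r.num ?_
  rw [← hr]
  exact_mod_cast Rat.mul_den_eq_num r

lemma continuous_lineJ {Y : Type*} [TopologicalSpace Y] {f : Y → ℝ} (hf : Continuous f) :
    Continuous fun z : Y × ℝ => line (f z.1) z.2 := by
  have : (fun z : Y × ℝ => line (f z.1) z.2) =
      fun z => ![((f z.1 * z.2 : ℝ) : Circ), (z.2 : Circ)] := rfl
  rw [this]
  refine continuous_pi fun i => ?_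
  fin_cases i
  · exact (AddCircle.continuous_mk' (1 : ℝ)).comp ((hf.comp continuous_fst).mul continuous_snd)
  · exact (AddCircle.continuous_mk' (1 : ℝ)).comp continuous_snd

lemma continuous_xi0 {M : ℕ} (i : ℤ) : Continuous fun w : BB M => xi (w.1 i) :=
  (continuous_xi M).comp (continuous_coord i)
lemma continuous_et0 {M : ℕ} (i : ℤ) : Continuous fun w : BB M => et (w.1 i) :=
  (continuous_et M).comp (continuous_coord i)
lemma continuous_aa0 {M : ℕ} (i : ℤ) : Continuous fun w : BB M => (aa (w.1 i) : ℝ) :=
  (continuous_aaR M).comp (continuous_coord i)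

/-- the expanding leaves -/
lemma leafM₁ (M : ℕ) : Leaf (sh M) (TM M) (fun w => xi (w.1 0)) (fun w => line (xi (w.1 0))) where
  contl := continuous_lineJ (continuous_xi0 0)
  dense := fun w => dense_line (irrational_xi w 0)
  eq := fun w y => by
    rw [TM_apply]
    refine Prod.ext rfl ?_
    have e : xi ((sh M w).1 0) = xi (w.1 (0 + 1)) := rfl
    have h := xi_rel w 0
    simp only [e]
    rw [line_apply, line_apply]
    ext i
    fin_cases i
    · simp only [Fin.zero_eta, Matrix.cons_val_zero, Matrix.cons_val_one]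
      rw [← AddCircle.coe_nsmul, ← AddCircle.coe_add]
      congr 1
      simp only [nsmul_eq_mul]
      linear_combination (-y) * h
    · simp
  contlam := continuous_xi0 0
  one_le := fun w => by
    rw [abs_of_nonneg (by linarith [one_le_xi (w.1 0)])]
    exact one_le_xi _
  two_le := fun w => by
    have e : xi ((sh M w).1 0) = xi (w.1 (0 + 1)) := rfl
    have h := xi_rel w 0
    simp only [e]
    rw [mul_comm, h]
    have h1 := one_le_xi (w.1 0)
    have h2 := one_le_aa (w.1 0)
    rw [abs_of_nonneg (by positivity)]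
    nlinarith

/-- the contracting leaves -/
lemma leafM₂ (M : ℕ) : Leaf (sh M).symm (TM M).symm (fun w => -(aa (w.1 (-1)) + et (w.1 0)))
    (fun w => line (-et (w.1 0))) where
  contl := continuous_lineJ (continuous_et0 0).neg
  dense := fun w => dense_line (irrational_et w 0).neg
  eq := fun w y => by
    have h := et_rel w (-1)
    have e1 : (-1 : ℤ) + 1 = 0 := rfl
    rw [e1] at h
    have e2 : et (((sh M).symm w).1 0) = et (w.1 (-1)) := rfl
    have e3 : aa (((sh M).symm w).1 0) = aa (w.1 (-1)) := rfl
    rw [Homeomorph.symm_apply_eq, TM_apply, e2, e3]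
    refine Prod.ext (by simp) ?_
    rw [line_apply, line_apply]
    ext i
    fin_cases i
    · simp only [Fin.zero_eta, Matrix.cons_val_zero, Matrix.cons_val_one]
      rw [← AddCircle.coe_nsmul, ← AddCircle.coe_add]
      congr 1
      simp only [nsmul_eq_mul]
      linear_combination (-(aa (w.1 (-1)) : ℝ) * y) * h
    · simp only [Fin.mk_one, Matrix.cons_val_one, Matrix.cons_val_zero]
      congr 1
      linear_combination (-y) * h
  contlam := ((continuous_aa0 (-1)).add (continuous_et0 0)).neg
  one_le := fun w => by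
    have h1 := one_le_aa (w.1 (-1))
    have h2 := et_nonneg (w.1 0)
    rw [abs_neg, abs_of_nonneg (by positivity)]
    linarith
  two_le := fun w => by
    have h := et_rel w (-1)
    have e1 : (-1 : ℤ) + 1 = 0 := rfl
    rw [e1] at h
    have e2 : et (((sh M).symm w).1 0) = et (w.1 (-1)) := rfl
    have h1 := one_le_aa (w.1 (-1))
    have h2 := et_nonneg (w.1 0)
    have h3 := one_le_aa (((sh M).symm w).1 (-1))
    have h4 := et_nonneg (w.1 (-1))
    simp only [e2]
    rw [neg_mul_neg, abs_of_nonneg (by positivity)]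
    nlinarith

/-- the coordinates in the leaves -/
lemma hypM (M : ℕ) : Hyp (sh M) (TM M) (fun w => xi (w.1 0)) (fun w => -(aa (w.1 (-1)) + et (w.1 0)))
    (fun w => line (xi (w.1 0))) (fun w => line (-et (w.1 0))) where
  leaf₁ := leafM₁ M
  leaf₂ := leafM₂ M
  fst := fun _ => rfl
  add := fun w x y => by
    rw [TM_apply, TM_apply, TM_apply]
    ext i
    fin_cases i
    · simp only [Fin.zero_eta, Matrix.cons_val_zero, Pi.add_apply, smul_add]; abel
    · simp
  loc := fun η hη => by
    refine ⟨η / 2, by positivity, fun w x hx => ?_⟩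
    obtain ⟨r0, hr0, hn0⟩ := exists_rep (x 0)
    obtain ⟨r1, hr1, hn1⟩ := exists_rep (x 1)
    have hx0 : |r0| < η / 2 := by
      rw [hn0]; exact (norm_le_pi_norm x 0).trans_lt hx
    have hx1 : |r1| < η / 2 := by
      rw [hn1]; exact (norm_le_pi_norm x 1).trans_lt hx
    have h1 := one_le_xi (w.1 0)
    have h2 := et_nonneg (w.1 0)
    have h3 := et_le (w.1 0)
    set ξ := xi (w.1 0)
    set e := et (w.1 0)
    have hd : 1 ≤ ξ + e := by linarith
    have hd0 : ξ + e ≠ 0 := by positivity
    refine ⟨(r0 + e * r1) / (ξ + e), (ξ * r1 - r0) / (ξ + e), ?_, ?_, ?_⟩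
    · rw [abs_div, abs_of_pos (by positivity : 0 < ξ + e), div_lt_iff₀ (by positivity)]
      have h4 : |r0 + e * r1| ≤ |r0| + |e * r1| := abs_add_le _ _
      rw [abs_mul, abs_of_nonneg h2] at h4
      have := abs_nonneg r0
      have := abs_nonneg r1
      nlinarith
    · rw [abs_div, abs_of_pos (by positivity : 0 < ξ + e), div_lt_iff₀ (by positivity)]
      have h4 : |ξ * r1 - r0| ≤ |ξ * r1| + |r0| := abs_sub _ _
      rw [abs_mul, abs_of_nonneg (by linarith : 0 ≤ ξ)] at h4
      have := abs_nonneg r0
      have := abs_nonneg r1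
      nlinarith
    · rw [line_apply, line_apply]
      ext i
      fin_cases i
      · simp only [Fin.zero_eta, Pi.add_apply, Matrix.cons_val_zero]
        rw [← AddCircle.coe_add, ← hr0]
        congr 1
        field_simp
        ring
      · simp only [Fin.mk_one, Pi.add_apply, Matrix.cons_val_one, Matrix.cons_val_zero]
        rw [← AddCircle.coe_add, ← hr1]
        congr 1
        field_simp
        ring
  inj := by
    refine ⟨1 / (2 * (M + 3)), by positivity, fun w y r hy hr h => ?_⟩
    have h1 := one_le_xi (w.1 0)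
    have h1' := xi_le (w.1 0)
    have h2 := et_nonneg (w.1 0)
    have h3 := et_le (w.1 0)
    set ξ := xi (w.1 0)
    set e := et (w.1 0)
    rw [line_apply, line_apply] at h
    have e0 := congrFun h 0
    have e1 := congrFun h 1
    simp only [Pi.add_apply, Matrix.cons_val_zero, Matrix.cons_val_one, Pi.zero_apply] at e0 e1
    rw [← AddCircle.coe_add] at e0 e1
    have key : ∀ v : ℝ, |v| < 1 → (v : Circ) = 0 → v = 0 := by
      intro v hv hv0
      rw [AddCircle.coe_eq_zero_iff] at hv0
      obtain ⟨n, hn⟩ := hv0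
      simp only [zsmul_eq_mul, mul_one] at hn
      rw [← hn] at hv
      have h5 : |n| < 1 := by exact_mod_cast hv
      have h6 : n = 0 := Int.abs_lt_one_iff.1 h5
      rw [← hn, h6]; simp
    have hM : (0 : ℝ) ≤ M := Nat.cast_nonneg M
    have hb : (1 : ℝ) / (2 * (M + 3)) * (M + 3) = 1 / 2 := by field_simp
    have hb0 : (0 : ℝ) < 1 / (2 * (M + 3)) := by positivity
    have f1 : y + r = 0 := by
      refine key _ ?_ e1
      have := abs_add_le y r
      nlinarith
    have f0 : ξ * y + -e * r = 0 := by
      refine key _ ?_ e0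
      have h4 : |ξ * y + -e * r| ≤ |ξ * y| + |-e * r| := abs_add_le _ _
      rw [abs_mul, abs_mul, abs_neg, abs_of_nonneg (by linarith : 0 ≤ ξ), abs_of_nonneg h2] at h4
      have h5 : ξ * |y| ≤ (M + 1) * (1 / (2 * (M + 3))) := by gcongr
      have h6 : e * |r| ≤ 1 * (1 / (2 * (M + 3))) := by gcongr
      nlinarith
    have f2 : (ξ + e) * y = 0 := by linear_combination f0 + e * f1
    have f3 : y = 0 := by
      rcases mul_eq_zero.1 f2 with h4 | h4
      · exfalso; linarith
      · exact h4
    exact ⟨f3, by linarith⟩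

end Pool.Agent.W765.Sk
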