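import Mathlib
import Pool.Agent.W765.Sk11

set_option autoImplicit false

open MeasureTheory Filter Topology Set TopologicalSpace

namespace Pool.Agent.W765.Sk

open Pool.Agent.W765.Hb (T2)
open Pool.Agent.H705R2 (Circ)

/-! ### continued fractions -/

/-- Gauss iterates -/
noncomputable def gx (α : ℝ) : ℕ → ℝ
  | 0 => Int.fract α
  | (n + 1) => Int.fract (gx α n)⁻¹

/-- partial quotients -/
noncomputable def ga (α : ℝ) (n : ℕ) : ℕ := ⌊(gx α n)⁻¹⌋₊

/-- denominators: `gq α n = (q_n, q_{n-1})` -/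
noncomputable def gq (α : ℝ) : ℕ → ℕ × ℕ
  | 0 => (1, 0)
  | (n + 1) => (ga α n * (gq α n).1 + (gq α n).2, (gq α n).1)

/-- remainders: `gd α n = (δ_n, δ_{n-1})` -/
noncomputable def gd (α : ℝ) : ℕ → ℝ × ℝ
  | 0 => (gx α 0, 1)
  | (n + 1) => (gx α (n + 1) * (gd α n).1, (gd α n).1)

lemma gx_irr {α : ℝ} (hα : Irrational α) (n : ℕ) : Irrational (gx α n) := by
  have hfr : ∀ x : ℝ, Irrational x → Irrational (Int.fract x) := by
    intro x hx
    rw [Int.fract]
    exact hx.sub_intCast ⌊x⌋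
  induction n with
  | zero => exact hfr α hα
  | succ n ih => exact hfr _ ih.inv

lemma gx_pos {α : ℝ} (hα : Irrational α) (n : ℕ) : 0 < gx α n := by
  have h0 : 0 ≤ gx α n := by
    cases n with
    | zero => exact Int.fract_nonneg _
    | succ n => exact Int.fract_nonneg _
  exact lt_of_le_of_ne h0 (gx_irr hα n).ne_zero.symm

lemma gx_lt {α : ℝ} (n : ℕ) : gx α n < 1 := by
  cases n with
  | zero => exact Int.fract_lt_one _
  | succ n => exact Int.fract_lt_one _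

lemma gx_succ {α : ℝ} (hα : Irrational α) (n : ℕ) : gx α n * (ga α n + gx α (n + 1)) = 1 := by
  have hpos := gx_pos hα n
  have h1 : (ga α n : ℝ) = ⌊(gx α n)⁻¹⌋ := by
    have : 0 ≤ ⌊(gx α n)⁻¹⌋ := Int.floor_nonneg.2 (by positivity)
    rw [ga, ← Int.floor_toNat]
    have h2 : ((⌊(gx α n)⁻¹⌋.toNat : ℕ) : ℤ) = ⌊(gx α n)⁻¹⌋ := Int.toNat_of_nonneg this
    exact_mod_cast h2
  have h2 : (ga α n : ℝ) + gx α (n + 1) = (gx α n)⁻¹ := by
    rw [h1]
    exact Int.floor_add_fract _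
  rw [h2, mul_inv_cancel₀ hpos.ne']

lemma one_le_ga {α : ℝ} (hα : Irrational α) (n : ℕ) : 1 ≤ ga α n := by
  rw [ga, Nat.le_floor_iff (by have := gx_pos hα n; positivity)]
  push_cast
  exact (one_le_inv₀ (gx_pos hα n)).2 (gx_lt n).le

lemma gq_pos {α : ℝ} (hα : Irrational α) (n : ℕ) : 1 ≤ (gq α n).1 := by
  induction n with
  | zero => exact le_refl _
  | succ n ih =>
    have h1 := one_le_ga hα n
    simp only [gq]
    nlinarith

lemma gq_le {α : ℝ} (hα : Irrational α) (n : ℕ) : (gq α n).2 ≤ (gq α n).1 := by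
  cases n with
  | zero => exact Nat.zero_le _
  | succ n =>
    have h1 := one_le_ga hα n
    simp only [gq]
    nlinarith

lemma le_gq {α : ℝ} (hα : Irrational α) (n : ℕ) : n ≤ (gq α n).1 := by
  induction n with
  | zero => exact Nat.zero_le _
  | succ n ih =>
    have h1 := one_le_ga hα n
    cases n with
    | zero => exact gq_pos hα 1
    | succ n =>
      have h2 := gq_pos hα n
      have e : (gq α (n + 1 + 1)).1 = ga α (n + 1) * (gq α (n + 1)).1 + (gq α n).1 := rfl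
      rw [e]
      nlinarith

lemma gq_coprime (α : ℝ) (n : ℕ) : Nat.Coprime (gq α n).1 (gq α n).2 := by
  induction n with
  | zero => exact Nat.coprime_one_left 0
  | succ n ih =>
    simp only [gq]
    rw [Nat.coprime_mul_right_add_left]
    exact ih.symm

lemma gd_pos {α : ℝ} (hα : Irrational α) (n : ℕ) : 0 < (gd α n).1 ∧ 0 < (gd α n).2 := by
  induction n with
  | zero => exact ⟨gx_pos hα 0, one_pos⟩
  | succ n ih => exact ⟨mul_pos (gx_pos hα _) ih.1, ih.1⟩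

lemma gd_eq (α : ℝ) (n : ℕ) : (gd α n).1 = gx α n * (gd α n).2 := by
  cases n with
  | zero => simp [gd]
  | succ n => rfl

lemma gd_rec {α : ℝ} (hα : Irrational α) (n : ℕ) :
    (gd α (n + 1)).1 = (gd α n).2 - ga α n * (gd α n).1 := by
  have h1 := gx_succ hα n
  have h2 := gd_eq α n
  have h3 : (gd α (n + 1)).1 = gx α (n + 1) * (gd α n).1 := rfl
  rw [h3, h2]
  linear_combination (gd α n).2 * h1

lemma gq_gd {α : ℝ} (hα : Irrational α) (n : ℕ) :
    ((gq α n).1 : ℝ) * (gd α n).2 + (gq α n).2 * (gd α n).1 = 1 := by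
  induction n with
  | zero => simp [gq, gd]
  | succ n ih =>
    rw [gd_rec hα]
    simp only [gq, gd]
    push_cast
    linear_combination ih

lemma gd_le {α : ℝ} (hα : Irrational α) (n : ℕ) : (gd α n).1 ≤ (gd α n).2 := by
  rw [gd_eq]
  have h1 := gx_lt (α := α) n
  have h2 := (gd_pos hα n).2
  nlinarith

/-- `q_n α` modulo one -/
lemma coe_gq {α : ℝ} (hα : Irrational α) (n : ℕ) :
    (((gq α n).1 * α : ℝ) : Circ) = (((-1) ^ n * (gd α n).1 : ℝ) : Circ) ∧
      (((gq α n).2 * α : ℝ) : Circ) = ((-((-1) ^ n * (gd α n).2) : ℝ) : Circ) := by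
  have hint : ∀ m : ℤ, (((m : ℤ) : ℝ) : Circ) = 0 := by
    intro m
    rw [AddCircle.coe_eq_zero_iff]; exact ⟨m, by simp⟩
  induction n with
  | zero =>
    constructor
    · simp only [gq, gd, gx, pow_zero, one_mul, Nat.cast_one]
      have h1 : ((α : ℝ) : Circ) = ((Int.fract α + ⌊α⌋ : ℝ) : Circ) := by rw [Int.fract_add_floor]
      rw [h1, AddCircle.coe_add, hint, add_zero]
    · simp only [gq, gd, pow_zero, one_mul, Nat.cast_zero, zero_mul]
      have h1 := hint (-1)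
      push_cast at h1
      rw [h1]
      have h2 : ((0 : ℝ) : Circ) = 0 := by
        rw [AddCircle.coe_eq_zero_iff]; exact ⟨0, by simp⟩
      exact h2.symm
  | succ n ih =>
    obtain ⟨h1, h2⟩ := ih
    constructor
    · have e1 : (((gq α (n + 1)).1 : ℕ) : ℝ) * α = ga α n * ((gq α n).1 * α) + (gq α n).2 * α := by
        simp only [gq]; push_cast; ring
      have e2 : (-1 : ℝ) ^ (n + 1) * (gd α (n + 1)).1 =
          ga α n * ((-1) ^ n * (gd α n).1) + -((-1) ^ n * (gd α n).2) := by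
        rw [gd_rec hα, pow_succ]; ring
      have e3 : ∀ y : ℝ, ((ga α n * y : ℝ) : Circ) = ga α n • (y : Circ) := by
        intro y; rw [← AddCircle.coe_nsmul, nsmul_eq_mul]
      rw [e1, e2, AddCircle.coe_add, AddCircle.coe_add, e3, e3, h1, h2]
    · have e1 : (((gq α (n + 1)).2 : ℕ) : ℝ) * α = (gq α n).1 * α := rfl
      have e2 : -((-1 : ℝ) ^ (n + 1) * (gd α (n + 1)).2) = (-1) ^ n * (gd α n).1 := by
        have : (gd α (n + 1)).2 = (gd α n).1 := rfl
        rw [this, pow_succ]; ring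
      rw [e1, e2, h1]

/-- the combinations `k q_n + l q_{n-1}` -/
lemma comb_bound {α : ℝ} (hα : Irrational α) (n : ℕ) (k l : ℤ) :
    ((gq α n).1 : ℝ) * ‖(((k * (gq α n).1 + l * (gq α n).2) * α : ℝ) : Circ)‖ ≤ |(k : ℝ)| + |(l : ℝ)| := by
  obtain ⟨h1, h2⟩ := coe_gq hα n
  obtain ⟨p1, p2⟩ := gd_pos hα n
  have e : (((k * (gq α n).1 + l * (gq α n).2) * α : ℝ) : Circ) =
      ((k * ((-1) ^ n * (gd α n).1) + l * (-((-1) ^ n * (gd α n).2)) : ℝ) : Circ) := by
    have e1 : ((k * (gq α n).1 + l * (gq α n).2) * α : ℝ) =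
      k * ((gq α n).1 * α) + l * ((gq α n).2 * α) := by ring
    have e3 : ∀ (m : ℤ) (y : ℝ), ((m * y : ℝ) : Circ) = m • (y : Circ) := by
      intro m y; rw [← AddCircle.coe_zsmul, zsmul_eq_mul]
    rw [e1, AddCircle.coe_add, AddCircle.coe_add, e3, e3, e3, e3, h1, h2]
  rw [e]
  have hq : (0 : ℝ) ≤ (gq α n).1 := Nat.cast_nonneg _
  have hq2 : (0 : ℝ) ≤ (gq α n).2 := Nat.cast_nonneg _
  have h3 := Pool.Agent.W765.Hb.norm_coe_le
    (k * ((-1) ^ n * (gd α n).1) + l * (-((-1) ^ n * (gd α n).2)) : ℝ)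
  have h4 : |(k * ((-1) ^ n * (gd α n).1) + l * (-((-1) ^ n * (gd α n).2)) : ℝ)| ≤
      |(k : ℝ)| * (gd α n).1 + |(l : ℝ)| * (gd α n).2 := by
    refine (abs_add_le _ _).trans (le_of_eq ?_)
    simp only [abs_mul, abs_neg, abs_pow, abs_one, one_pow, one_mul, abs_of_pos p1, abs_of_pos p2]
  have h5 := gq_gd hα n
  have h6 := gd_le hα n
  have h7 : ((gq α n).1 : ℝ) * (gd α n).2 ≤ 1 := by
    have : 0 ≤ ((gq α n).2 : ℝ) * (gd α n).1 := by positivity
    linarith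
  have h8 : ((gq α n).1 : ℝ) * (gd α n).1 ≤ 1 := by
    have : ((gq α n).1 : ℝ) * (gd α n).1 ≤ (gq α n).1 * (gd α n).2 := by gcongr
    linarith
  have hk := abs_nonneg (k : ℝ)
  have hl := abs_nonneg (l : ℝ)
  calc ((gq α n).1 : ℝ) * ‖((k * ((-1) ^ n * (gd α n).1) + l * (-((-1) ^ n * (gd α n).2)) : ℝ) : Circ)‖
      ≤ (gq α n).1 * (|(k : ℝ)| * (gd α n).1 + |(l : ℝ)| * (gd α n).2) := by
        gcongr; exact h3.trans h4
    _ = |(k : ℝ)| * ((gq α n).1 * (gd α n).1) + |(l : ℝ)| * ((gq α n).1 * (gd α n).2) := by ring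
    _ ≤ |(k : ℝ)| * 1 + |(l : ℝ)| * 1 := by gcongr
    _ = |(k : ℝ)| + |(l : ℝ)| := by ring

/-- large partial quotients -/
lemma big_bound {α : ℝ} (hα : Irrational α) (n : ℕ) :
    ((gq α n).1 : ℝ) * ‖(((gq α n).1 * α : ℝ) : Circ)‖ * ga α n ≤ 1 := by
  obtain ⟨h1, -⟩ := coe_gq hα n
  obtain ⟨p1, p2⟩ := gd_pos hα n
  have hq : (0 : ℝ) ≤ (gq α n).1 := Nat.cast_nonneg _
  have hq2 : (0 : ℝ) ≤ (gq α n).2 := Nat.cast_nonneg _
  have ha : (0 : ℝ) ≤ ga α n := Nat.cast_nonneg _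
  have h3 : ‖(((gq α n).1 * α : ℝ) : Circ)‖ ≤ (gd α n).1 := by
    rw [h1]
    refine (Pool.Agent.W765.Hb.norm_coe_le _).trans (le_of_eq ?_)
    rw [abs_mul, abs_pow, abs_neg, abs_one, one_pow, one_mul, abs_of_pos p1]
  have h4 := gq_gd hα n
  have h5 : ga α n * (gd α n).1 ≤ (gd α n).2 := by
    have := gd_rec hα n
    have := (gd_pos hα (n + 1)).1
    linarith
  have h6 : ((gq α n).1 : ℝ) * (gd α n).2 ≤ 1 := by
    have : 0 ≤ ((gq α n).2 : ℝ) * (gd α n).1 := by positivity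
    linarith
  calc ((gq α n).1 : ℝ) * ‖(((gq α n).1 * α : ℝ) : Circ)‖ * ga α n
      ≤ (gq α n).1 * (gd α n).1 * ga α n := by gcongr
    _ = (gq α n).1 * (ga α n * (gd α n).1) := by ring
    _ ≤ (gq α n).1 * (gd α n).2 := by gcongr
    _ ≤ 1 := h6

end Pool.Agent.W765.Sk
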