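import Mathlib
import Pool.Agent.W765.Sk12

set_option autoImplicit false

open MeasureTheory Filter Topology Set TopologicalSpace

namespace Pool.Agent.W765.Sk

open Pool.Agent.W765.Hb (T2)
open Pool.Agent.H705R2 (Circ)

/-- the Littlewood property up to `ε` -/
def LC (α ε : ℝ) (y : Circ) : Prop :=
  ∃ᶠ q : ℕ in atTop, (q : ℝ) * ‖((q * α : ℝ) : Circ)‖ * ‖q • y‖ < ε

lemma coe_int_zero (m : ℤ) : (((m : ℤ) : ℝ) : Circ) = 0 := by
  rw [AddCircle.coe_eq_zero_iff]; exact ⟨m, by simp⟩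

lemma coe_zmul (m : ℤ) (y : ℝ) : ((m * y : ℝ) : Circ) = m • (y : Circ) := by
  rw [← AddCircle.coe_zsmul, zsmul_eq_mul]

lemma coe_nmul (m : ℕ) (y : ℝ) : ((m * y : ℝ) : Circ) = m • (y : Circ) := by
  rw [← AddCircle.coe_nsmul, nsmul_eq_mul]

lemma lc_rat {α ε : ℝ} (hε : 0 < ε) (hα : ¬ Irrational α) (y : Circ) : LC α ε y := by
  unfold Irrational at hα
  rw [not_not] at hα
  obtain ⟨r, rfl⟩ := hα
  have ht : Tendsto (fun m : ℕ => r.den * m) atTop atTop :=
    tendsto_atTop_mono (fun m => Nat.le_mul_of_pos_left m r.pos) tendsto_id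
  refine ht.frequently (Frequently.of_forall fun m => ?_)
  have h1 : (((r.den * m : ℕ) : ℝ) * (r : ℝ)) = ((r.num * m : ℤ) : ℝ) := by
    have h2 : (r : ℝ) * r.den = r.num := by exact_mod_cast Rat.mul_den_eq_num r
    push_cast
    linear_combination (m : ℝ) * h2
  rw [h1, coe_int_zero, norm_zero, mul_zero, zero_mul]
  exact hε

lemma norm_circ_le (y : Circ) : ‖y‖ ≤ 1 := by
  obtain ⟨r, rfl⟩ := QuotientAddGroup.mk_surjective y
  have h := abs_sub_round r
  have h2 : ‖((r : ℝ) : Circ)‖ = |r - round r| := UnitAddCircle.norm_eq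
  refine (le_of_eq h2).trans ?_
  linarith

lemma lc_big {α ε : ℝ} (hα : Irrational α) {M : ℕ} (hM : 1 < ε * (M + 1))
    (h : ∃ᶠ n in atTop, ¬ ga α n ≤ M) (y : Circ) : LC α ε y := by
  have ht : Tendsto (fun n : ℕ => (gq α n).1) atTop atTop :=
    tendsto_atTop_mono (fun n => le_gq hα n) tendsto_id
  refine ht.frequently (h.mono fun n hn => ?_)
  have h1 := big_bound hα n
  have h2 : (M : ℝ) + 1 ≤ ga α n := by
    push Not at hn
    exact_mod_cast hn
  have hM0 : (0 : ℝ) ≤ M := Nat.cast_nonneg M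
  set u : ℝ := ((gq α n).1 : ℝ) * ‖(((gq α n).1 * α : ℝ) : Circ)‖ with hu
  have hu0 : 0 ≤ u := by positivity
  have h3 : u * (M + 1) ≤ 1 := (mul_le_mul_of_nonneg_left h2 hu0).trans h1
  have h4 : u < ε := by
    by_contra hcon
    push Not at hcon
    have : ε * (M + 1) ≤ u * (M + 1) := by gcongr
    linarith
  calc u * ‖(gq α n).1 • y‖ ≤ u * 1 := by gcongr; exact norm_circ_le _
    _ = u := mul_one u
    _ < ε := h4

lemma norm_ne_zero_of_irr {α : ℝ} (hα : Irrational α) {q : ℕ} (hq : 0 < q) :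
    0 < ‖((q * α : ℝ) : Circ)‖ := by
  rw [norm_pos_iff]
  intro h
  rw [AddCircle.coe_eq_zero_iff] at h
  obtain ⟨m, hm⟩ := h
  simp only [zsmul_eq_mul, mul_one] at hm
  have hqR : (q : ℝ) ≠ 0 := by positivity
  apply hα
  refine ⟨(m : ℚ) / q, ?_⟩
  push_cast
  rw [hm]
  field_simp

/-- combinations of consecutive denominators -/
lemma lc_comb {α ε : ℝ} (hα : Irrational α) {y : Circ} {k l : ℤ} (hkl : ¬ (k = 0 ∧ l = 0))
    (h : ∃ᶠ n in atTop, ‖k • ((gq α n).1 • y) + l • ((gq α n).2 • y)‖ <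
      ε / (|(k : ℝ)| + |(l : ℝ)|) ^ 2) : LC α ε y := by
  set C : ℝ := |(k : ℝ)| + |(l : ℝ)| with hC
  have hC0 : 0 < C := by
    rcases not_and_or.1 hkl with h1 | h1
    · have : 0 < |(k : ℝ)| := abs_pos.2 (by exact_mod_cast h1)
      positivity
    · have : 0 < |(l : ℝ)| := abs_pos.2 (by exact_mod_cast h1)
      positivity
  set q : ℕ → ℤ := fun n => k * (gq α n).1 + l * (gq α n).2 with hq
  -- the size of the combination
  have hsize : ∀ n, ((q n).natAbs : ℝ) ≤ C * (gq α n).1 := by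
    intro n
    have h1 : ((q n).natAbs : ℝ) = |((q n : ℤ) : ℝ)| := by
      rw [Nat.cast_natAbs, Int.cast_abs]
    rw [h1]
    simp only [hq]
    push_cast
    have h2 : ((gq α n).2 : ℝ) ≤ (gq α n).1 := by exact_mod_cast gq_le hα n
    have h3 : (0 : ℝ) ≤ (gq α n).2 := Nat.cast_nonneg _
    have h4 : (0 : ℝ) ≤ (gq α n).1 := Nat.cast_nonneg _
    calc |(k : ℝ) * (gq α n).1 + l * (gq α n).2| ≤ |(k : ℝ) * (gq α n).1| + |(l : ℝ) * (gq α n).2| :=
          abs_add_le _ _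
      _ = |(k : ℝ)| * (gq α n).1 + |(l : ℝ)| * (gq α n).2 := by
          rw [abs_mul, abs_mul, abs_of_nonneg h3, abs_of_nonneg h4]
      _ ≤ |(k : ℝ)| * (gq α n).1 + |(l : ℝ)| * (gq α n).1 := by gcongr
      _ = C * (gq α n).1 := by rw [hC]; ring
  have hnormα : ∀ n, ((gq α n).1 : ℝ) * ‖((((q n).natAbs : ℕ) * α : ℝ) : Circ)‖ ≤ C := by
    intro n
    have h1 := comb_bound hα n k l
    have h2 : ‖((((q n).natAbs : ℕ) * α : ℝ) : Circ)‖ =
        ‖(((k * (gq α n).1 + l * (gq α n).2) * α : ℝ) : Circ)‖ := by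
      have h5 : ((q n : ℤ) : ℝ) = k * (gq α n).1 + l * (gq α n).2 := by
        simp only [hq]; push_cast; rfl
      rw [← h5]
      obtain ⟨m, h3 | h3⟩ := Int.eq_nat_or_neg (q n)
      · rw [h3, Int.natAbs_natCast, Int.cast_natCast]
      · rw [h3, Int.natAbs_neg, Int.natAbs_natCast, Int.cast_neg, Int.cast_natCast, neg_mul,
          AddCircle.coe_neg, norm_neg]
    rw [h2]; exact h1
  have hnormy : ∀ n, ‖(q n).natAbs • y‖ = ‖k • ((gq α n).1 • y) + l • ((gq α n).2 • y)‖ := by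
    intro n
    have h1 : k • ((gq α n).1 • y) + l • ((gq α n).2 • y) = (q n) • y := by
      simp only [hq, add_smul, mul_smul, natCast_zsmul]
    rw [h1]
    rcases Int.natAbs_eq (q n) with h3 | h3
    · conv_rhs => rw [h3]
      rw [natCast_zsmul]
    · conv_rhs => rw [h3]
      rw [neg_smul, norm_neg, natCast_zsmul]
  have hprod : ∀ n, ‖k • ((gq α n).1 • y) + l • ((gq α n).2 • y)‖ < ε / C ^ 2 →
      ((q n).natAbs : ℝ) * ‖((((q n).natAbs : ℕ) * α : ℝ) : Circ)‖ * ‖(q n).natAbs • y‖ < ε := by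
    intro n hn
    rw [← hnormy] at hn
    set A := ‖((((q n).natAbs : ℕ) * α : ℝ) : Circ)‖ with hA
    have hA0 : 0 ≤ A := norm_nonneg _
    have h1 : ((q n).natAbs : ℝ) * A ≤ C ^ 2 := by
      calc ((q n).natAbs : ℝ) * A ≤ (C * (gq α n).1) * A := by gcongr; exact hsize n
        _ = C * ((gq α n).1 * A) := by ring
        _ ≤ C * C := by gcongr; exact hnormα n
        _ = C ^ 2 := by ring
    calc ((q n).natAbs : ℝ) * A * ‖(q n).natAbs • y‖ ≤ C ^ 2 * ‖(q n).natAbs • y‖ := by gcongr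
      _ < C ^ 2 * (ε / C ^ 2) := by gcongr
      _ = ε := by field_simp
  -- the combinations are unbounded
  have hlarge : ∀ Q : ℕ, ∀ᶠ n in atTop, Q ≤ (q n).natAbs := by
    intro Q
    obtain ⟨ρ, hρ, hρQ⟩ : ∃ ρ > 0, ∀ m ∈ Finset.range Q, 0 < m → ρ ≤ ‖((m * α : ℝ) : Circ)‖ := by
      rcases (Finset.range Q).eq_empty_or_nonempty with h0 | h0
      · exact ⟨1, one_pos, by simp [h0]⟩
      · obtain ⟨m0, -, hm0⟩ := (Finset.range Q).exists_min_image
          (fun m : ℕ => if 0 < m then ‖((m * α : ℝ) : Circ)‖ else 1) h0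
        refine ⟨(fun m : ℕ => if 0 < m then ‖((m * α : ℝ) : Circ)‖ else 1) m0, ?_, fun m hm hm1 => ?_⟩
        · simp only
          split_ifs with h1
          · exact norm_ne_zero_of_irr hα h1
          · exact one_pos
        · have := hm0 m hm
          simp only [hm1, if_true] at this
          exact this
    obtain ⟨N, hN⟩ := exists_nat_gt (C / ρ)
    filter_upwards [eventually_gt_atTop (max N (max k.natAbs l.natAbs))] with n hn
    by_contra hlt
    push Not at hlt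
    have hn1 : N < n := lt_of_le_of_lt (le_max_left _ _) hn
    have hn2 : k.natAbs < n := lt_of_le_of_lt ((le_max_left _ _).trans (le_max_right _ _)) hn
    have hn3 : l.natAbs < n := lt_of_le_of_lt ((le_max_right _ _).trans (le_max_right _ _)) hn
    have hqn : n ≤ (gq α n).1 := le_gq hα n
    rcases Nat.eq_zero_or_pos (q n).natAbs with h0 | h0
    · have h1 : k * (gq α n).1 + l * (gq α n).2 = 0 := Int.natAbs_eq_zero.1 h0
      have h2 : ((gq α n).1 : ℤ) ∣ l * (gq α n).2 := ⟨-k, by linarith⟩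
      have h3 : IsCoprime ((gq α n).1 : ℤ) ((gq α n).2 : ℤ) :=
        Nat.isCoprime_iff_coprime.2 (gq_coprime α n)
      have h4 : ((gq α n).1 : ℤ) ∣ l := h3.dvd_of_dvd_mul_right h2
      have h5 : l = 0 := by
        apply Int.eq_zero_of_abs_lt_dvd h4
        rw [Int.abs_eq_natAbs]
        exact_mod_cast lt_of_lt_of_le hn3 hqn
      have h6 : k = 0 := by
        rw [h5] at h1
        simp only [zero_mul, add_zero] at h1
        rcases mul_eq_zero.1 h1 with h7 | h7
        · exact h7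
        · have := gq_pos hα n
          have h8 : (gq α n).1 = 0 := by exact_mod_cast h7
          omega
      exact hkl ⟨h6, h5⟩
    · have h1 := hρQ (q n).natAbs (Finset.mem_range.2 hlt) h0
      have h2 := hnormα n
      have h3 : (N : ℝ) < (gq α n).1 := by exact_mod_cast lt_of_lt_of_le hn1 hqn
      rw [div_lt_iff₀ hρ] at hN
      have h4 : (0 : ℝ) ≤ (gq α n).1 := Nat.cast_nonneg _
      have h5 : ((gq α n).1 : ℝ) * ρ ≤ (gq α n).1 * ‖((((q n).natAbs : ℕ) * α : ℝ) : Circ)‖ := by gcongr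
      nlinarith
  rw [LC, frequently_atTop]
  intro Q
  obtain ⟨n, hn1, hn2⟩ := (h.and_eventually (hlarge Q)).exists
  exact ⟨(q n).natAbs, hn2, hprod n hn1⟩

/-- the open set -/
def OO (ε : ℝ) : Set T2 :=
  {x | ∃ k l : ℤ, ¬ (k = 0 ∧ l = 0) ∧ ‖k • x 0 + l • x 1‖ < ε / (|(k : ℝ)| + |(l : ℝ)|) ^ 2}

lemma continuous_zcomb (k l : ℤ) : Continuous fun x : T2 => k • x 0 + l • x 1 :=
  ((continuous_zsmul k).comp (continuous_apply 0)).add ((continuous_zsmul l).comp (continuous_apply 1))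

lemma isOpen_OO (ε : ℝ) : IsOpen (OO ε) := by
  have : OO ε = ⋃ k : ℤ, ⋃ l : ℤ, ⋃ (_ : ¬ (k = 0 ∧ l = 0)),
      {x : T2 | ‖k • x 0 + l • x 1‖ < ε / (|(k : ℝ)| + |(l : ℝ)|) ^ 2} := by
    ext x; simp [OO]
  rw [this]
  refine isOpen_iUnion fun k => isOpen_iUnion fun l => isOpen_iUnion fun _ => ?_
  exact isOpen_lt (continuous_zcomb k l).norm continuous_const

lemma torsion_OO {ε : ℝ} (hε : 0 < ε) (x : T2) (hx : IsOfFinAddOrder x) : x ∈ OO ε := by
  obtain ⟨n, hn, hnx⟩ := isOfFinAddOrder_iff_nsmul_eq_zero.1 hx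
  refine ⟨n, 0, fun h => ?_, ?_⟩
  · have : n = 0 := by exact_mod_cast h.1
    omega
  · have h1 : n • x 0 = 0 := by
      have := congrFun hnx 0
      simpa using this
    rw [natCast_zsmul, h1, zero_smul, add_zero, norm_zero]
    have : (0 : ℝ) < n := by exact_mod_cast hn
    simp only [Int.cast_natCast, Int.cast_zero, abs_zero, add_zero]
    positivity

end Pool.Agent.W765.Sk
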