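import Mathlib
import Pool.Agent.W765.Sk13

set_option autoImplicit false

open MeasureTheory Filter Topology Set TopologicalSpace

namespace Pool.Agent.W765.Sk

open Pool.Agent.W765.Hb (T2 torT2)
open Pool.Agent.H705R2 (Circ)

lemma Mne (M : ℕ) : (1 : ℝ) ≤ M + 1 := by
  have : (0 : ℝ) ≤ M := Nat.cast_nonneg M
  linarith

/-- the continued fraction data of `α`, clamped -/
noncomputable def zz (α : ℝ) (M : ℕ) (hM : 0 < M) (i : ℤ) : Sy M :=
  (⟨min (ga α i.toNat - 1) (M - 1), by omega⟩,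
    projIcc (1 : ℝ) ((M : ℝ) + 1) (Mne M) (((gq α i.toNat).1 : ℝ) / (gq α i.toNat).2),
    projIcc (0 : ℝ) 1 zero_le_one (gx α i.toNat))

lemma aa_zz {α : ℝ} (hα : Irrational α) {M : ℕ} (hM : 0 < M) {n : ℕ} (hn : ga α n ≤ M) :
    aa (zz α M hM n) = ga α n := by
  have h1 := one_le_ga hα n
  simp only [aa, zz, Int.toNat_natCast]
  omega

lemma et_zz {α : ℝ} (hα : Irrational α) {M : ℕ} (hM : 0 < M) (n : ℕ) :
    et (zz α M hM n) = gx α n := by
  simp only [et, zz, Int.toNat_natCast]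
  rw [projIcc_of_mem _ ⟨(gx_pos hα n).le, (gx_lt n).le⟩]

lemma xi_zz {α : ℝ} (hα : Irrational α) {M : ℕ} (hM : 0 < M) {n : ℕ} (hn : ga α n ≤ M) :
    xi (zz α M hM (n + 1 : ℕ)) = ((gq α (n + 1)).1 : ℝ) / (gq α n).1 := by
  have h1 := one_le_ga hα n
  have hq : (0 : ℝ) < (gq α n).1 := by exact_mod_cast gq_pos hα n
  have hq2 : ((gq α n).2 : ℝ) ≤ (gq α n).1 := by exact_mod_cast gq_le hα n
  have hq3 : (0 : ℝ) ≤ (gq α n).2 := Nat.cast_nonneg _
  have ha1 : (1 : ℝ) ≤ ga α n := by exact_mod_cast h1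
  have ha2 : (ga α n : ℝ) ≤ M := by exact_mod_cast hn
  have e : (gq α (n + 1)).2 = (gq α n).1 := rfl
  have e1 : (((gq α (n + 1)).1 : ℕ) : ℝ) = ga α n * (gq α n).1 + (gq α n).2 := by
    simp only [gq]; push_cast; rfl
  simp only [xi, zz, Int.toNat_natCast]
  rw [e, projIcc_of_mem]
  rw [e1]
  constructor
  · rw [le_div_iff₀ hq]; nlinarith
  · rw [div_le_iff₀ hq]; nlinarith

lemma rel_zz {α : ℝ} (hα : Irrational α) {M : ℕ} (hM : 0 < M) {n : ℕ} (h0 : ga α n ≤ M)
    (h1 : ga α (n + 1) ≤ M) : Rel (zz α M hM) ((n + 1 : ℕ) : ℤ) := by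
  have e : ((n + 1 : ℕ) : ℤ) + 1 = ((n + 1 + 1 : ℕ) : ℤ) := by push_cast; ring
  unfold Rel
  rw [e, xi_zz hα hM h0, xi_zz hα hM h1, aa_zz hα hM h1, et_zz hα, et_zz hα]
  refine ⟨?_, gx_succ hα _⟩
  have hq : (0 : ℝ) < (gq α n).1 := by exact_mod_cast gq_pos hα n
  have hq1 : (0 : ℝ) < (gq α (n + 1)).1 := by exact_mod_cast gq_pos hα (n + 1)
  have e1 : (((gq α (n + 1 + 1)).1 : ℕ) : ℝ) = ga α (n + 1) * (gq α (n + 1)).1 + (gq α n).1 := by
    have : (gq α (n + 1 + 1)).1 = ga α (n + 1) * (gq α (n + 1)).1 + (gq α n).1 := rfl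
    rw [this]; push_cast; rfl
  rw [e1]
  field_simp

/-- the orbit -/
noncomputable def fo (α : ℝ) (M : ℕ) (hM : 0 < M) (y : Circ) (n : ℕ) : (ℤ → Sy M) × T2 :=
  (fun i => zz α M hM (i + n), ![(gq α n).1 • y, (gq α n).2 • y])

/-- the extended dynamics -/
def fT (M : ℕ) (z : (ℤ → Sy M) × T2) : (ℤ → Sy M) × T2 :=
  (fun i => z.1 (i + 1), ![aa (z.1 0) • z.2 0 + z.2 1, z.2 0])

/-- its inverse -/
def fS (M : ℕ) (z : (ℤ → Sy M) × T2) : (ℤ → Sy M) × T2 :=
  (fun i => z.1 (i - 1), ![z.2 1, z.2 0 - aa (z.1 (-1)) • z.2 1])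

lemma continuous_fT (M : ℕ) : Continuous (fT M) := by
  have ha : Continuous fun z : (ℤ → Sy M) × T2 => aa (z.1 0) :=
    (continuous_aa M).comp ((continuous_apply (0 : ℤ)).comp continuous_fst)
  have h0 : Continuous fun z : (ℤ → Sy M) × T2 => z.2 0 := (continuous_apply 0).comp continuous_snd
  have h1 : Continuous fun z : (ℤ → Sy M) × T2 => z.2 1 := (continuous_apply 1).comp continuous_snd
  refine (continuous_pi fun i => (continuous_apply (i + 1)).comp continuous_fst).prodMk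
    (continuous_pi fun i => ?_)
  fin_cases i
  · exact (continuous_nsmulJ ha h0).add h1
  · exact h0

lemma continuous_fS (M : ℕ) : Continuous (fS M) := by
  have ha : Continuous fun z : (ℤ → Sy M) × T2 => aa (z.1 (-1)) :=
    (continuous_aa M).comp ((continuous_apply (-1 : ℤ)).comp continuous_fst)
  have h0 : Continuous fun z : (ℤ → Sy M) × T2 => z.2 0 := (continuous_apply 0).comp continuous_snd
  have h1 : Continuous fun z : (ℤ → Sy M) × T2 => z.2 1 := (continuous_apply 1).comp continuous_snd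
  refine (continuous_pi fun i => (continuous_apply (i - 1)).comp continuous_fst).prodMk
    (continuous_pi fun i => ?_)
  fin_cases i
  · exact h1
  · exact h0.sub (continuous_nsmulJ ha h1)

lemma fT_fo {α : ℝ} (hα : Irrational α) {M : ℕ} (hM : 0 < M) (y : Circ) {n : ℕ}
    (hn : ga α n ≤ M) : fT M (fo α M hM y n) = fo α M hM y (n + 1) := by
  refine Prod.ext ?_ ?_
  · funext i
    simp only [fT, fo]
    congr 1; push_cast; ring
  · have e : aa ((fo α M hM y n).1 0) = ga α n := by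
      simp only [fo, zero_add]
      exact aa_zz hα hM hn
    simp only [fT, e]
    ext i
    fin_cases i
    · simp only [fo, gq, Fin.zero_eta, Matrix.cons_val_zero, Matrix.cons_val_one]
      rw [add_smul, mul_smul]
    · simp [fo, gq]

lemma fS_fo {α : ℝ} (hα : Irrational α) {M : ℕ} (hM : 0 < M) (y : Circ) {n : ℕ}
    (hn : ga α n ≤ M) : fS M (fo α M hM y (n + 1)) = fo α M hM y n := by
  refine Prod.ext ?_ ?_
  · funext i
    simp only [fS, fo]
    congr 1; push_cast; ring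
  · have e : aa ((fo α M hM y (n + 1)).1 (-1)) = ga α n := by
      simp only [fo]
      have e1 : (-1 : ℤ) + ((n + 1 : ℕ) : ℤ) = (n : ℤ) := by push_cast; ring
      rw [e1]
      exact aa_zz hα hM hn
    simp only [fS, e]
    ext i
    fin_cases i
    · simp [fo, gq]
    · simp only [fo, gq, Fin.mk_one, Matrix.cons_val_zero, Matrix.cons_val_one]
      rw [add_smul, mul_smul]
      abel

lemma rel_cluster {α : ℝ} (hα : Irrational α) {M : ℕ} (hM : 0 < M) {y : Circ}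
    (hev : ∀ᶠ n in atTop, ga α n ≤ M) {p : (ℤ → Sy M) × T2}
    (hp : MapClusterPt p atTop (fo α M hM y)) (i : ℤ) : Rel p.1 i := by
  have hcl : IsClosed {p : (ℤ → Sy M) × T2 | Rel p.1 i} := (isClosed_Rel i).preimage continuous_fst
  have h1 : ∀ᶠ n in atTop, fo α M hM y n ∈ {p : (ℤ → Sy M) × T2 | Rel p.1 i} := by
    obtain ⟨n₀, hn₀⟩ := eventually_atTop.1 hev
    filter_upwards [eventually_ge_atTop (n₀ + 1 + i.natAbs)] with n hn
    have h2 : 0 ≤ i + n - 1 := by omega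
    obtain ⟨m, hm⟩ := Int.eq_ofNat_of_zero_le h2
    have h3 : n₀ ≤ m := by omega
    have h4 : i + n = ((m + 1 : ℕ) : ℤ) := by push_cast; linarith
    have h5 := rel_zz hα hM (hn₀ m h3) (hn₀ (m + 1) (by omega))
    change Rel (fun j => zz α M hM (j + n)) i
    unfold Rel at h5 ⊢
    simp only
    have h6 : i + 1 + (n : ℤ) = ((m + 1 : ℕ) : ℤ) + 1 := by rw [← h4]; ring
    rw [h6, h4]
    exact h5
  have h7 : map (fo α M hM y) atTop ≤ 𝓟 {p : (ℤ → Sy M) × T2 | Rel p.1 i} := by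
    rw [le_principal_iff]; exact h1
  have h8 : ClusterPt p (𝓟 {p : (ℤ → Sy M) × T2 | Rel p.1 i}) := ClusterPt.mono hp h7
  rw [← mem_closure_iff_clusterPt, hcl.closure_eq] at h8
  exact h8

/-- the limit set -/
def KK (α : ℝ) (M : ℕ) (hM : 0 < M) (y : Circ) : Set (BB M × T2) :=
  {z | MapClusterPt (z.1.1, z.2) atTop (fo α M hM y)}

lemma continuous_incl (M : ℕ) : Continuous fun z : BB M × T2 => ((z.1.1, z.2) : (ℤ → Sy M) × T2) :=
  (continuous_pi fun i => (continuous_coord i).comp continuous_fst).prodMk continuous_snd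

lemma isClosed_KK (α : ℝ) (M : ℕ) (hM : 0 < M) (y : Circ) : IsClosed (KK α M hM y) :=
  isClosed_setOfPred_clusterPt.preimage (continuous_incl M)

lemma KK_nonempty {α : ℝ} (hα : Irrational α) {M : ℕ} (hM : 0 < M) (y : Circ)
    (hev : ∀ᶠ n in atTop, ga α n ≤ M) : (KK α M hM y).Nonempty := by
  obtain ⟨p, hp⟩ := exists_clusterPt_of_compactSpace (map (fo α M hM y) atTop)
  exact ⟨(⟨p.1, rel_cluster hα hM hev hp⟩, p.2), hp⟩

lemma mcp_congr {Y : Type*} [TopologicalSpace Y] {u v : ℕ → Y} {p : Y}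
    (h : MapClusterPt p atTop u) (huv : ∀ᶠ n in atTop, u n = v n) : MapClusterPt p atTop v := by
  unfold MapClusterPt at h ⊢
  rwa [← Filter.map_congr huv]

lemma KK_inv {α : ℝ} (hα : Irrational α) {M : ℕ} (hM : 0 < M) (y : Circ)
    (hev : ∀ᶠ n in atTop, ga α n ≤ M) : ∀ z ∈ KK α M hM y, TM M z ∈ KK α M hM y := by
  intro z hz
  have h1 : MapClusterPt (fT M (z.1.1, z.2)) atTop (fT M ∘ fo α M hM y) :=
    MapClusterPt.continuousAt_comp (continuous_fT M).continuousAt hz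
  have h2 : MapClusterPt (fT M (z.1.1, z.2)) atTop (fo α M hM y ∘ fun n => n + 1) := by
    refine mcp_congr h1 ?_
    filter_upwards [hev] with n hn
    exact fT_fo hα hM y hn
  exact h2.of_comp (tendsto_add_atTop_nat 1)

lemma KK_inv' {α : ℝ} (hα : Irrational α) {M : ℕ} (hM : 0 < M) (y : Circ)
    (hev : ∀ᶠ n in atTop, ga α n ≤ M) : ∀ z ∈ KK α M hM y, (TM M).symm z ∈ KK α M hM y := by
  intro z hz
  have hz' : MapClusterPt ((z.1.1, z.2) : (ℤ → Sy M) × T2) atTop ((fo α M hM y) ∘ (fun m => m + 1)) := by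
    change ClusterPt _ (map _ atTop)
    rw [← Filter.map_map, map_add_atTop_eq_nat]
    exact hz
  have h1 : MapClusterPt (fS M (z.1.1, z.2)) atTop (fS M ∘ ((fo α M hM y) ∘ (fun m => m + 1))) :=
    MapClusterPt.continuousAt_comp (continuous_fS M).continuousAt hz'
  refine mcp_congr h1 ?_
  filter_upwards [hev] with n hn
  exact fS_fo hα hM y hn

lemma lc_of_KK {α : ℝ} (hα : Irrational α) {M : ℕ} (hM : 0 < M) {y : Circ} {ε : ℝ} {N : ℕ}
    {z : BB M × T2} (hz : z ∈ KK α M hM y) (hzO : N • z.2 ∈ OO ε) : LC α ε (N • y) := by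
  obtain ⟨k, l, hkl, hlt⟩ := hzO
  refine lc_comb hα hkl ?_
  have hc : Continuous fun p : (ℤ → Sy M) × T2 => ‖k • (N • p.2) 0 + l • (N • p.2) 1‖ :=
    ((continuous_zcomb k l).comp ((continuous_nsmul N).comp continuous_snd)).norm
  have hopen : IsOpen {p : (ℤ → Sy M) × T2 | ‖k • (N • p.2) 0 + l • (N • p.2) 1‖ <
      ε / (|(k : ℝ)| + |(l : ℝ)|) ^ 2} := isOpen_lt hc continuous_const
  have h1 : ∃ᶠ n in atTop, fo α M hM y n ∈ {p : (ℤ → Sy M) × T2 |
      ‖k • (N • p.2) 0 + l • (N • p.2) 1‖ < ε / (|(k : ℝ)| + |(l : ℝ)|) ^ 2} :=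
    MapClusterPt.frequently hz (hopen.mem_nhds hlt)
  refine h1.mono fun n hn => ?_
  have h2 : ‖k • (N • ((gq α n).1 • y)) + l • (N • ((gq α n).2 • y))‖ <
      ε / (|(k : ℝ)| + |(l : ℝ)|) ^ 2 := hn
  rwa [smul_comm N, smul_comm N] at h2

open Classical in
/-- The uniform theorem. -/
theorem lc_two {b c : ℕ} (hb : 2 ≤ b) (hc : 2 ≤ c) (hirr : Irrational (Real.log b / Real.log c))
    {ε δ : ℝ} (hε : 0 < ε) (hδ : 0 < δ) :
    ∃ N₀ : ℕ, ∀ α : ℝ, ∀ y : Circ, ∀ N : ℕ, N₀ ≤ N →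
      (((Finset.range N ×ˢ Finset.range N).filter
        (fun p => ¬ LC α ε ((b ^ p.1 * c ^ p.2) • y))).card : ℝ) ≤ δ * N ^ 2 := by
  obtain ⟨M, hM⟩ := exists_nat_gt (1 / ε)
  have hM0 : 0 < M := by
    have : (0 : ℝ) < M := lt_trans (by positivity) hM
    exact_mod_cast this
  have hMε : 1 < ε * (M + 1) := by
    rw [div_lt_iff₀ hε] at hM
    linarith
  obtain ⟨N₀, hN₀⟩ := (hypM M).uniform torT2 hb hc hirr (isOpen_OO ε) (torsion_OO hε) hδ
  refine ⟨N₀, fun α y N hN => ?_⟩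
  by_cases hα : Irrational α
  · by_cases hev : ∀ᶠ n in atTop, ga α n ≤ M
    · refine le_trans ?_ (hN₀ (KK α M hM0 y) (isClosed_KK α M hM0 y) (KK_nonempty hα hM0 y hev)
        (KK_inv hα hM0 y hev) (KK_inv' hα hM0 y hev) N hN)
      norm_cast
      refine Finset.card_le_card ?_
      intro p hp
      rw [Finset.mem_filter] at hp ⊢
      refine ⟨hp.1, fun z hz hzO => hp.2 ?_⟩
      exact lc_of_KK hα hM0 hz hzO
    · have h0 : (Finset.range N ×ˢ Finset.range N).filter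
          (fun p => ¬ LC α ε ((b ^ p.1 * c ^ p.2) • y)) = ∅ := by
        rw [Finset.filter_eq_empty_iff]
        intro p _ h
        exact h (lc_big hα hMε (not_eventually.1 hev) _)
      rw [h0]
      simp only [Finset.card_empty, Nat.cast_zero]
      positivity
  · have h0 : (Finset.range N ×ˢ Finset.range N).filter
        (fun p => ¬ LC α ε ((b ^ p.1 * c ^ p.2) • y)) = ∅ := by
      rw [Finset.filter_eq_empty_iff]
      intro p _ h
      exact h (lc_rat hε hα _)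
    rw [h0]
    simp only [Finset.card_empty, Nat.cast_zero]
    positivity

end Pool.Agent.W765.Sk
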