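import Mathlib
import Pool.Agent.W765.Sk14

set_option autoImplicit false

open MeasureTheory Filter Topology Set TopologicalSpace

namespace Pool.Agent.W765.Sk

open Pool.Agent.H705R2 (Circ)

/-- multiplicative independence as irrationality of the quotient of the logarithms -/
lemma irr_of_indep {b c : ℕ} (hb : 2 ≤ b) (hc : 2 ≤ c) (h : ∀ m n : ℕ, b ^ m = c ^ n → m = 0) :
    Irrational (Real.log b / Real.log c) := by
  rintro ⟨r, hr⟩
  have hβ : 0 < Real.log b := Real.log_pos (by exact_mod_cast hb)
  have hγ : 0 < Real.log c := Real.log_pos (by exact_mod_cast hc)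
  have hpos : (0 : ℝ) < (r : ℝ) := by rw [hr]; positivity
  have hr0 : 0 < r := by exact_mod_cast hpos
  have hnum : 0 < r.num := Rat.num_pos.2 hr0
  obtain ⟨p, hp⟩ := Int.eq_ofNat_of_zero_le hnum.le
  have h1 : (r : ℝ) * r.den = r.num := by exact_mod_cast Rat.mul_den_eq_num r
  have h2 : Real.log b * r.den = Real.log c * p := by
    rw [eq_div_iff hγ.ne'] at hr
    have h3 : (r.num : ℝ) = p := by rw [hp]; push_cast; rfl
    rw [← hr, ← h3, ← h1]; ring
  have h4 : b ^ r.den = c ^ p := by
    have hb0 : (0 : ℝ) < b := by positivity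
    have hc0 : (0 : ℝ) < c := by positivity
    have h5 : Real.log ((b : ℝ) ^ r.den) = Real.log ((c : ℝ) ^ p) := by
      rw [Real.log_pow, Real.log_pow]; linarith
    have h6 : (b : ℝ) ^ r.den = (c : ℝ) ^ p :=
      Real.log_injOn_pos (Set.mem_Ioi.2 (by positivity)) (Set.mem_Ioi.2 (by positivity)) h5
    exact_mod_cast h6
  have := h _ _ h4
  exact r.pos.ne' this

lemma lc_iff (α ε β : ℝ) : LC α ε (β : Circ) ↔
    ∃ᶠ q : ℕ in atTop, (q : ℝ) * |q * α - round (q * α)| * |q * β - round (q * β)| < ε := by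
  have h : ∀ q : ℕ, (q : ℝ) * ‖((q * α : ℝ) : Circ)‖ * ‖q • (β : Circ)‖ =
      (q : ℝ) * |q * α - round (q * α)| * |q * β - round (q * β)| := by
    intro q
    rw [← coe_nmul]
    congr 1
    · congr 1
      exact UnitAddCircle.norm_eq
    · exact UnitAddCircle.norm_eq
  unfold LC
  simp only [h]

lemma measurable_LC (α ε : ℝ) : MeasurableSet {y : Circ | LC α ε y} := by
  have : {y : Circ | LC α ε y} = ⋂ Q : ℕ, ⋃ q : ℕ, ⋃ (_ : Q ≤ q),
      {y : Circ | (q : ℝ) * ‖((q * α : ℝ) : Circ)‖ * ‖q • y‖ < ε} := by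
    ext y
    simp only [LC, mem_ofPred_eq, frequently_atTop, mem_iInter, mem_iUnion, exists_prop]
  rw [this]
  refine MeasurableSet.iInter fun Q => MeasurableSet.iUnion fun q => MeasurableSet.iUnion fun _ => ?_
  refine (isOpen_lt ?_ continuous_const).measurableSet
  exact continuous_const.mul (continuous_nsmul q).norm

open Classical in
/-- almost every point for invariant measures -/
theorem lc_ae_two {b c : ℕ} (hb : 2 ≤ b) (hc : 2 ≤ c) (hirr : Irrational (Real.log b / Real.log c))
    {μ : Measure Circ} [IsProbabilityMeasure μ] (hμb : MeasurePreserving (fun x : Circ => b • x) μ μ)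
    (hμc : MeasurePreserving (fun x : Circ => c • x) μ μ) (α : ℝ) {ε : ℝ} (hε : 0 < ε) :
    ∀ᵐ y ∂μ, LC α ε y := by
  rw [ae_iff]
  set E : Set Circ := {y : Circ | ¬ LC α ε y} with hE
  have hEm : MeasurableSet E := (measurable_LC α ε).compl
  have hmp : ∀ i j : ℕ, MeasurePreserving (fun x : Circ => (b ^ i * c ^ j) • x) μ μ := by
    intro i j
    have h1 : ∀ (a : ℕ), MeasurePreserving (fun x : Circ => a • x) μ μ → ∀ i : ℕ,
        MeasurePreserving (fun x : Circ => a ^ i • x) μ μ := by
      intro a ha i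
      induction i with
      | zero =>
        have h0 := MeasurePreserving.id μ
        convert h0 using 1
        funext x
        simp
      | succ i ih =>
        have := ih.comp ha
        convert this using 1
        funext x
        simp only [Function.comp, pow_succ, mul_smul]
    have h2 := (h1 b hμb i).comp (h1 c hμc j)
    convert h2 using 1
    funext x
    simp only [Function.comp, mul_smul]
  have key : ∀ δ : ℝ, 0 < δ → μ E ≤ ENNReal.ofReal δ := by
    intro δ hδ
    obtain ⟨N₀, hN₀⟩ := lc_two hb hc hirr hε hδ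
    set N := N₀ + 1 with hN
    have hNpos : 0 < N := Nat.succ_pos _
    have hpt : ∀ y : Circ, ∑ p ∈ Finset.range N ×ˢ Finset.range N,
        ((fun x : Circ => (b ^ p.1 * c ^ p.2) • x) ⁻¹' E).indicator (fun _ => (1 : ENNReal)) y ≤
        ENNReal.ofReal (δ * N ^ 2) := by
      intro y
      have h1 := hN₀ α y N (Nat.le_succ _)
      have h2 : ∑ p ∈ Finset.range N ×ˢ Finset.range N,
          ((fun x : Circ => (b ^ p.1 * c ^ p.2) • x) ⁻¹' E).indicator (fun _ => (1 : ENNReal)) y =
          (((Finset.range N ×ˢ Finset.range N).filter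
            (fun p => ¬ LC α ε ((b ^ p.1 * c ^ p.2) • y))).card : ENNReal) := by
        rw [Finset.card_filter]
        push_cast
        refine Finset.sum_congr rfl fun p _ => ?_
        by_cases h3 : LC α ε ((b ^ p.1 * c ^ p.2) • y)
        · have h4 : y ∉ (fun x : Circ => (b ^ p.1 * c ^ p.2) • x) ⁻¹' E := fun h => h h3
          rw [indicator_of_notMem h4, if_neg (not_not.2 h3)]
        · have h4 : y ∈ (fun x : Circ => (b ^ p.1 * c ^ p.2) • x) ⁻¹' E := h3
          rw [indicator_of_mem h4, if_pos h3]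
      rw [h2, ← ENNReal.ofReal_natCast]
      exact ENNReal.ofReal_le_ofReal h1
    have hint : ∑ p ∈ Finset.range N ×ˢ Finset.range N, μ E ≤ ENNReal.ofReal (δ * N ^ 2) := by
      calc ∑ p ∈ Finset.range N ×ˢ Finset.range N, μ E
          = ∑ p ∈ Finset.range N ×ˢ Finset.range N, ∫⁻ y,
            ((fun x : Circ => (b ^ p.1 * c ^ p.2) • x) ⁻¹' E).indicator (fun _ => (1 : ENNReal)) y ∂μ := by
            refine Finset.sum_congr rfl fun p _ => ?_
            rw [lintegral_indicator ((hmp p.1 p.2).measurable hEm)]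
            simp only [lintegral_const, one_mul, Measure.restrict_apply_univ]
            exact ((hmp p.1 p.2).measure_preimage hEm.nullMeasurableSet).symm
        _ = ∫⁻ y, ∑ p ∈ Finset.range N ×ˢ Finset.range N,
            ((fun x : Circ => (b ^ p.1 * c ^ p.2) • x) ⁻¹' E).indicator (fun _ => (1 : ENNReal)) y ∂μ := by
            rw [lintegral_finsetSum]
            intro p _
            exact measurable_const.indicator ((hmp p.1 p.2).measurable hEm)
        _ ≤ ∫⁻ _, ENNReal.ofReal (δ * N ^ 2) ∂μ := lintegral_mono hpt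
        _ = ENNReal.ofReal (δ * N ^ 2) := by simp
    have hsum : ((N * N : ℕ) : ENNReal) * μ E ≤ ENNReal.ofReal (δ * N ^ 2) := by
      refine le_trans (le_of_eq ?_) hint
      rw [Finset.sum_const, Finset.card_product, Finset.card_range, nsmul_eq_mul]
    have hM0 : ((N * N : ℕ) : ENNReal) ≠ 0 := by
      exact_mod_cast (Nat.mul_pos hNpos hNpos).ne'
    have hMt : ((N * N : ℕ) : ENNReal) ≠ ⊤ := ENNReal.natCast_ne_top _
    have he : δ * (N : ℝ) ^ 2 = ((N * N : ℕ) : ℝ) * δ := by push_cast; ring
    rw [he, ENNReal.ofReal_mul (by positivity), ENNReal.ofReal_natCast] at hsum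
    exact (ENNReal.mul_le_mul_iff_right hM0 hMt).1 hsum
  refine le_antisymm ?_ zero_le
  refine ENNReal.le_of_forall_pos_le_add fun ε hε _ => ?_
  have := key ε (by exact_mod_cast hε)
  rw [zero_add]
  simpa using this

end Pool.Agent.W765.Sk
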