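import Mathlib
import Pool.Agent.W765.Sk9

set_option autoImplicit false

open MeasureTheory Filter Topology Set

namespace Pool.Agent.W765.Sk

open Pool.Agent.W765.Hb (Tor ker_smul pow_smul_eq exists_coprime_part)

variable {Ω : Type*} [MeasurableSpace Ω]
variable {B : Type*} [MetricSpace B] {X : Type*} [NormedAddCommGroup X]
variable {σ : B ≃ₜ B} {T : (B × X) ≃ₜ (B × X)} {lam lam₁ lam₂ : B → ℝ} {l l₁ l₂ : B → ℝ →+ X}

/-- A stationary random closed separated set consists of torsion points of bounded order. -/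
theorem Hyp.bounded_torsion [CompactSpace B] [CompactSpace X] (H : Hyp σ T lam₁ lam₂ l₁ l₂)
    {b : ℕ} (hb : 2 ≤ b) {P : Measure Ω} [IsProbabilityMeasure P] {τ : Ω → Ω}
    (hτ : MeasurePreserving τ P P) {F : Ω → Set (B × X)} (hF : ∀ ω, IsClosed (F ω)) (hm : HitM F)
    (hT : ∀ ω, ∀ z ∈ F ω, T z ∈ F ω) (hT' : ∀ ω, ∀ z ∈ F ω, T.symm z ∈ F ω)
    (hb' : ∀ ω, ∀ z ∈ F ω, (z.1, b • z.2) ∈ F (τ ω)) :
    ∀ᵐ ω ∂P, Sep (F ω) → ∃ N : ℕ, 0 < N ∧ ∀ z ∈ F ω, N • z.2 = 0 := by
  classical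
  obtain ⟨𝒲, hWc, hWo, hW⟩ := exists_countable_nhds (B × X)
  have hrec : ∀ᵐ ω ∂P, ∀ W ∈ 𝒲, F ω ⊆ W → ∃ᶠ m in atTop, F (τ^[m] ω) ⊆ W := by
    rw [ae_ball_iff hWc]
    intro W hWW
    have hmeas : MeasurableSet {ω | F ω ⊆ W} := by
      have h1 := (hit_closed hF hm (hWo W hWW).isClosed_compl).compl
      convert h1 using 1
      ext ω
      simp only [mem_ofPred_eq, mem_compl_iff, not_nonempty_iff_eq_empty]
      rw [← disjoint_iff_inter_eq_empty, disjoint_compl_right_iff_subset]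
    exact hτ.conservative.ae_mem_imp_frequently_image_mem hmeas.nullMeasurableSet
  filter_upwards [hrec] with ω hω hsep
  obtain ⟨ε, hε, η, hη, hS⟩ := H.sep_nhd (hF ω) hsep
  obtain ⟨W, hWW, hFW, hWV⟩ := hW (F ω) (Metric.thickening η (F ω)) (hF ω) Metric.isOpen_thickening
    (Metric.self_subset_thickening hη _)
  have hfreq := hω W hWW hFW
  set S : Set (B × X) := ⋃ m ∈ {m : ℕ | F (τ^[m] ω) ⊆ W}, F (τ^[m] ω) with hSdef
  have hSsep : SepBy ε S := by
    refine hS S ?_ ?_ ?_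
    · intro y hy
      obtain ⟨m, hm1, hm2⟩ := mem_iUnion₂.1 hy
      exact mem_iUnion₂.2 ⟨m, hm1, hT _ _ hm2⟩
    · intro y hy
      obtain ⟨m, hm1, hm2⟩ := mem_iUnion₂.1 hy
      exact mem_iUnion₂.2 ⟨m, hm1, hT' _ _ hm2⟩
    · refine iUnion₂_subset fun m hm1 => ?_
      exact ((show F (τ^[m] ω) ⊆ W from hm1).trans hWV).trans (Metric.thickening_subset_cthickening _ _)
  -- a finite net
  obtain ⟨t, ht, hcov⟩ := Metric.totallyBounded_iff.1 (isCompact_univ (X := X)).totallyBounded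
    (ε / 2) (by positivity)
  have hch : ∀ y : X, ∃ c ∈ t, dist y c < ε / 2 := by
    intro y
    have := hcov (mem_univ y)
    simp only [mem_iUnion, Metric.mem_ball, exists_prop] at this
    exact this
  choose c hct hc using hch
  have hinf : {m : ℕ | F (τ^[m] ω) ⊆ W}.Infinite := Nat.frequently_atTop_iff_infinite.1 hfreq
  obtain ⟨G, hG, hGc⟩ := hinf.exists_subset_card_eq (ht.toFinset.card + 1)
  refine ⟨∏ p ∈ (G ×ˢ G).filter (fun p => p.1 < p.2), (b ^ p.2 - b ^ p.1), ?_, fun z hz => ?_⟩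
  · refine Finset.prod_pos fun p hp => ?_
    rw [Finset.mem_filter] at hp
    have := Nat.pow_lt_pow_right (show 1 < b by omega) hp.2
    omega
  have hmaps : ∀ m ∈ G, (z.1, b ^ m • z.2) ∈ S := fun m hm =>
    mem_iUnion₂.2 ⟨m, hG hm, iter_nsmul hb' m ω z hz⟩
  obtain ⟨m, hm, m', hm', hne, heq⟩ := Finset.exists_ne_map_eq_of_card_lt_of_maps_to
    (s := G) (t := ht.toFinset) (by omega) (f := fun m => c (b ^ m • z.2))
    (fun m _ => by
      rw [Finset.mem_coe, Set.Finite.mem_toFinset]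
      exact hct _)
  have hdist : b ^ m • z.2 = b ^ m' • z.2 := by
    by_contra hcon
    have h1 := hSsep z.1 _ _ (hmaps m hm) (hmaps m' hm') hcon
    have h2 := hc (b ^ m • z.2)
    have h3 := hc (b ^ m' • z.2)
    have h4 : c (b ^ m • z.2) = c (b ^ m' • z.2) := heq
    rw [← h4] at h3
    have h5 := dist_triangle_right (b ^ m • z.2) (b ^ m' • z.2) (c (b ^ m • z.2))
    linarith
  have hgen : ∀ m m' : ℕ, m ∈ G → m' ∈ G → m < m' → b ^ m • z.2 = b ^ m' • z.2 →
      (∏ p ∈ (G ×ˢ G).filter (fun p => p.1 < p.2), (b ^ p.2 - b ^ p.1)) • z.2 = 0 := by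
    intro m m' hm hm' hlt h1
    have hpow : b ^ m < b ^ m' := Nat.pow_lt_pow_right (by omega) hlt
    have h2 : (b ^ m' - b ^ m) • z.2 = 0 := by
      rw [sub_nsmul _ hpow.le, ← h1, add_neg_cancel]
    have h3 : (b ^ m' - b ^ m) ∣ ∏ p ∈ (G ×ˢ G).filter (fun p => p.1 < p.2), (b ^ p.2 - b ^ p.1) := by
      refine Finset.dvd_prod_of_mem (fun p : ℕ × ℕ => b ^ p.2 - b ^ p.1) (a := (m, m')) ?_
      rw [Finset.mem_filter, Finset.mem_product]
      exact ⟨⟨hm, hm'⟩, hlt⟩
    obtain ⟨e, he⟩ := h3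
    rw [he, mul_comm, mul_smul, h2, smul_zero]
  rcases lt_or_gt_of_ne hne with h1 | h1
  · exact hgen m m' hm hm' h1 hdist
  · exact hgen m' m hm' hm h1 hdist.symm

/-! ### the derived set -/

/-- points where two different points of the same fibre accumulate -/
def Dr (F : Set (B × X)) : Set (B × X) :=
  {z | ∀ ε > 0, ∃ (w : B) (x x' : X), (w, x) ∈ F ∧ (w, x') ∈ F ∧ x ≠ x' ∧ dist (w, x) z < ε ∧
    dist (w, x') z < ε}

lemma isClosed_Dr (F : Set (B × X)) : IsClosed (Dr F) := by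
  rw [← closure_subset_iff_isClosed]
  intro z hz ε hε
  obtain ⟨z', hz', hd⟩ := Metric.mem_closure_iff.1 hz (ε / 2) (by positivity)
  obtain ⟨w, x, x', h1, h2, h3, h4, h5⟩ := hz' (ε / 2) (by positivity)
  rw [dist_comm] at hd
  refine ⟨w, x, x', h1, h2, h3, ?_, ?_⟩
  · linarith [dist_triangle (w, x) z' z]
  · linarith [dist_triangle (w, x') z' z]

lemma Dr_subset {F : Set (B × X)} (hF : IsClosed F) : Dr F ⊆ F := by
  intro z hz
  rw [← hF.closure_eq]
  refine Metric.mem_closure_iff.2 fun ε hε => ?_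
  obtain ⟨w, x, x', h1, -, -, h4, -⟩ := hz ε hε
  exact ⟨(w, x), h1, by rwa [dist_comm]⟩

lemma Dr_nonempty [CompactSpace B] [CompactSpace X] {F : Set (B × X)} (h : ¬ Sep F) :
    (Dr F).Nonempty := by
  have key : ∀ n : ℕ, ∃ (w : B) (x x' : X), (w, x) ∈ F ∧ (w, x') ∈ F ∧ x ≠ x' ∧
      dist x x' < 1 / ((n : ℝ) + 1) := by
    intro n
    have h5 : ¬ SepBy (1 / ((n : ℝ) + 1)) F := fun h' => h ⟨_, by positivity, h'⟩
    unfold SepBy at h5
    push Not at h5
    obtain ⟨w, x, x', hx, hx', hne', hd⟩ := h5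
    exact ⟨w, x, x', hx, hx', hne', hd⟩
  choose w x x' h1 h2 h3 h4 using key
  obtain ⟨z, -, φ, hφ, hlim⟩ := (isCompact_univ (X := B × X)).tendsto_subseq
    (x := fun n => (w n, x n)) (fun n => mem_univ _)
  refine ⟨z, fun ε hε => ?_⟩
  have e1 : ∀ᶠ n in atTop, dist (w (φ n), x (φ n)) z < ε / 2 :=
    (Metric.tendsto_nhds.1 hlim) (ε / 2) (by positivity)
  have e2 : Tendsto (fun n => 1 / (((φ n : ℕ) : ℝ) + 1)) atTop (𝓝 0) :=
    tendsto_one_div_add_atTop_nhds_zero_nat.comp hφ.tendsto_atTop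
  obtain ⟨n, hn1, hn2⟩ := (e1.and (e2.eventually_lt_const (show 0 < ε / 2 by positivity))).exists
  refine ⟨w (φ n), x (φ n), x' (φ n), h1 _, h2 _, h3 _, by linarith, ?_⟩
  have e3 : dist (w (φ n), x' (φ n)) (w (φ n), x (φ n)) < ε / 2 := by
    rw [Prod.dist_eq]
    simp only [dist_self]
    rw [max_lt_iff]
    refine ⟨by positivity, ?_⟩
    rw [dist_comm]
    exact (h4 _).trans hn2
  linarith [dist_triangle (w (φ n), x' (φ n)) (w (φ n), x (φ n)) z]

/-- maps respecting fibres and locally injective in the fibres respect the derived set -/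
lemma map_Dr {F F' : Set (B × X)} {g : B × X → B × X} (hg : Continuous g)
    (hfst : ∀ w x x', (g (w, x)).1 = (g (w, x')).1)
    (hinj : ∃ r > 0, ∀ w x x', dist x x' < r → g (w, x) = g (w, x') → x = x')
    (h : ∀ z ∈ F, g z ∈ F') {z : B × X} (hz : z ∈ Dr F) : g z ∈ Dr F' := by
  intro ε hε
  obtain ⟨r, hr, hinj⟩ := hinj
  have hc : ∀ᶠ u in 𝓝 z, dist (g u) (g z) < ε := (Metric.tendsto_nhds.1 (hg.tendsto z)) ε hε
  obtain ⟨δ, hδ, hδb⟩ := Metric.eventually_nhds_iff.1 hc
  obtain ⟨w, x, x', h1, h2, h3, h4, h5⟩ := hz (min δ (r / 2)) (lt_min hδ (by positivity))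
  have e : ∀ y, g (w, y) = ((g (w, x)).1, (g (w, y)).2) := fun y => Prod.ext (hfst w y x) rfl
  refine ⟨(g (w, x)).1, (g (w, x)).2, (g (w, x')).2, h _ h1, ?_, ?_, ?_, ?_⟩
  · rw [← e x']; exact h _ h2
  · intro heq
    apply h3
    refine hinj w x x' ?_ ?_
    · have e1 : dist (w, x) (w, x') < r := by
        have := dist_triangle_right (w, x) (w, x') z
        have := min_le_right δ (r / 2)
        linarith
      rw [Prod.dist_eq] at e1
      exact (le_max_right _ _).trans_lt e1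
    · rw [e x', ← heq]
  · exact hδb (h4.trans_le (min_le_left _ _))
  · rw [← e x']
    exact hδb (h5.trans_le (min_le_left _ _))

lemma Hyp.Dr_inv (H : Hyp σ T lam₁ lam₂ l₁ l₂) {F : Set (B × X)} (hT : ∀ z ∈ F, T z ∈ F) :
    ∀ z ∈ Dr F, T z ∈ Dr F := by
  intro z hz
  refine map_Dr T.continuous (fun w x x' => by rw [H.fst, H.fst]) ⟨1, one_pos, ?_⟩ hT hz
  intro w x x' _ h
  exact (Prod.mk.inj (T.injective h)).2

lemma Dr_nsmul (TX : Tor X) {F F' : Set (B × X)} {b : ℕ} (hb : 0 < b)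
    (h : ∀ z ∈ F, (z.1, b • z.2) ∈ F') : ∀ z ∈ Dr F, (z.1, b • z.2) ∈ Dr F' := by
  intro z hz
  obtain ⟨r, hr, hker⟩ := ker_smul TX hb
  refine map_Dr (g := fun z => (z.1, b • z.2)) (continuous_fib b) (fun w x x' => rfl)
    ⟨r, hr, ?_⟩ h hz
  intro w x x' hd he
  have h1 : b • x = b • x' := (Prod.mk.inj he).2
  have h2 : b • (x - x') = 0 := by rw [smul_sub, h1, sub_self]
  exact sub_eq_zero.1 (hker _ (by rwa [← dist_eq_norm]) h2)

lemma hit_Dr [CompactSpace B] [CompactSpace X] {F : Ω → Set (B × X)}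
    (hF : ∀ ω, IsClosed (F ω)) (hm : HitM F) : HitM (fun ω => Dr (F ω)) := by
  refine hitM_of_closed fun C hC => ?_
  set E : ℕ → ℕ → Set ((B × X) × X) := fun n m =>
    {p | p.1 ∈ Metric.cthickening (1 / ((n : ℝ) + 1)) C ∧ dist p.1.2 p.2 ≤ 1 / ((n : ℝ) + 1) ∧
      1 / ((m : ℝ) + 1) ≤ dist p.1.2 p.2} with hE
  have hEc : ∀ n m, IsClosed (E n m) := by
    intro n m
    have hd : Continuous fun p : (B × X) × X => dist p.1.2 p.2 := continuous_fst.snd.dist continuous_snd
    have A : IsClosed {p : (B × X) × X | p.1 ∈ Metric.cthickening (1 / ((n : ℝ) + 1)) C} :=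
      Metric.isClosed_cthickening.preimage continuous_fst
    have A2 : IsClosed {p : (B × X) × X | dist p.1.2 p.2 ≤ 1 / ((n : ℝ) + 1)} :=
      isClosed_le hd continuous_const
    have A3 : IsClosed {p : (B × X) × X | 1 / ((m : ℝ) + 1) ≤ dist p.1.2 p.2} :=
      isClosed_le continuous_const hd
    exact A.inter (A2.inter A3)
  have heq : {ω | (Dr (F ω) ∩ C).Nonempty} = ⋂ n : ℕ, ⋃ m : ℕ, {ω | ∃ p ∈ E n m, ∀ i : Bool,
      (if i then (p.1.1, p.1.2) else (p.1.1, p.2)) ∈ F ω} := by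
    ext ω
    simp only [mem_ofPred_eq, mem_iInter, mem_iUnion]
    constructor
    · rintro ⟨z, hz, hzC⟩ n
      obtain ⟨w, x, x', h1, h2, h3, h4, h5⟩ := hz (1 / (2 * ((n : ℝ) + 1))) (by positivity)
      obtain ⟨m, hm⟩ := exists_nat_one_div_lt (dist_pos.2 h3)
      have e0 : 1 / (2 * ((n : ℝ) + 1)) + 1 / (2 * ((n : ℝ) + 1)) = 1 / ((n : ℝ) + 1) := by field_simp; ring
      have e00 : (0 : ℝ) < 1 / (2 * ((n : ℝ) + 1)) := by positivity
      refine ⟨m, ((w, x), x'), ⟨?_, ?_, hm.le⟩, ?_⟩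
      · refine Metric.mem_cthickening_of_dist_le _ z _ C hzC ?_
        linarith
      · have e1 := dist_triangle_right (w, x) (w, x') z
        have e2 : dist x x' ≤ dist (w, x) (w, x') := by
          rw [Prod.dist_eq]; exact le_max_right _ _
        simp only
        linarith
      · intro i
        cases i
        · simpa using h2
        · simpa using h1
    · intro H
      choose m p hp hpF using H
      obtain ⟨q, -, φ, hφ, hlim⟩ := (isCompact_univ (X := (B × X) × X)).tendsto_subseq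
        (x := p) (fun n => mem_univ _)
      have l1 : Tendsto (fun n => (p (φ n)).1) atTop (𝓝 q.1) := (continuous_fst.tendsto _).comp hlim
      have l2 : Tendsto (fun n => 1 / (((φ n : ℕ) : ℝ) + 1)) atTop (𝓝 0) :=
        tendsto_one_div_add_atTop_nhds_zero_nat.comp hφ.tendsto_atTop
      refine ⟨q.1, ?_, ?_⟩
      · intro ε hε
        have e1 : ∀ᶠ n in atTop, dist (p (φ n)).1 q.1 < ε / 2 :=
          (Metric.tendsto_nhds.1 l1) (ε / 2) (by positivity)
        obtain ⟨n, hn1, hn2⟩ := (e1.and (l2.eventually_lt_const (show 0 < ε / 2 by positivity))).exists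
        obtain ⟨h1, h2, h3⟩ := hp (φ n)
        have h4 := hpF (φ n) true
        have h5 := hpF (φ n) false
        simp only [if_true] at h4
        simp only [Bool.false_eq_true, if_false] at h5
        have hpos : (0 : ℝ) < 1 / ((m (φ n) : ℝ) + 1) := by positivity
        refine ⟨(p (φ n)).1.1, (p (φ n)).1.2, (p (φ n)).2, h4, h5, ?_, ?_, ?_⟩
        · exact dist_pos.1 (lt_of_lt_of_le hpos h3)
        · change dist (p (φ n)).1 q.1 < ε
          linarith
        · have e3 : dist ((p (φ n)).1.1, (p (φ n)).2) (p (φ n)).1 < ε / 2 := by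
            rw [Prod.dist_eq]
            simp only [dist_self]
            rw [max_lt_iff]
            refine ⟨by positivity, ?_⟩
            rw [dist_comm]
            exact lt_of_le_of_lt h2 hn2
          linarith [dist_triangle ((p (φ n)).1.1, (p (φ n)).2) (p (φ n)).1 q.1]
      · rw [← hC.closure_eq, Metric.closure_eq_iInter_cthickening]
        simp only [mem_iInter]
        intro δ hδ
        refine Metric.isClosed_cthickening.mem_of_tendsto l1 ?_
        filter_upwards [l2.eventually_lt_const hδ] with n hn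
        exact Metric.cthickening_mono hn.le _ (hp (φ n)).1
  rw [heq]
  refine MeasurableSet.iInter fun n => MeasurableSet.iUnion fun m => ?_
  refine measurable_existsM hF hm (hEc n m) (fun (i : Bool) (p : (B × X) × X) =>
    (if i then (p.1.1, p.1.2) else (p.1.1, p.2))) ?_
  intro i
  cases i
  · simpa using (by fun_prop : Continuous fun p : (B × X) × X => (p.1.1, p.2))
  · simpa using (by fun_prop : Continuous fun p : (B × X) × X => (p.1.1, p.1.2))

end Pool.Agent.W765.Sk
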