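import Mathlib
import Pool.Agent.W765.Sk16

set_option autoImplicit false

open MeasureTheory Filter Topology Set

namespace Pool.Agent.W765.Sk

open Pool.Agent.W765.Hb (Tor ker_smul pow_smul_eq exists_coprime_part)

variable {Ω : Type*} [MeasurableSpace Ω]
variable {B : Type*} [MetricSpace B] {X : Type*} [NormedAddCommGroup X]
variable {σ : B ≃ₜ B} {T : (B × X) ≃ₜ (B × X)} {lam lam₁ lam₂ : B → ℝ} {l l₁ l₂ : B → ℝ →+ X}

/-- the translates by torsion points -/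
def Ft (F : Ω → Set (B × X)) (N : ℕ) (ω : Ω) : Set ((B × (Fin 1 → X)) × X) :=
  {z | N • z.1.2 0 = 0 ∧ (z.1.1, z.2 + z.1.2 0) ∈ F ω}

lemma continuous_s0 : Continuous fun z : (B × (Fin 1 → X)) × X => z.1.2 0 :=
  (continuous_apply (0 : Fin 1)).comp continuous_fst.snd

lemma continuous_trs : Continuous fun z : (B × (Fin 1 → X)) × X => (z.1.1, z.2 + z.1.2 0) :=
  continuous_fst.fst.prodMk (continuous_snd.add continuous_s0)

omit [MeasurableSpace Ω] in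
lemma isClosed_Ft (TX : Tor X) {F : Ω → Set (B × X)} (hF : ∀ ω, IsClosed (F ω)) {N : ℕ}
    (hN : 0 < N) (ω : Ω) : IsClosed (Ft F N ω) := by
  have h1 : IsClosed {z : (B × (Fin 1 → X)) × X | N • z.1.2 0 = 0} :=
    (TX.fin N hN).isClosed.preimage continuous_s0
  exact h1.inter ((hF ω).preimage continuous_trs)

lemma hit_Ft [CompactSpace B] [CompactSpace X] (TX : Tor X) {F : Ω → Set (B × X)}
    (hF : ∀ ω, IsClosed (F ω)) (hm : HitM F) {N : ℕ} (hN : 0 < N) : HitM (Ft F N) := by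
  refine hitM_of_closed fun C hC => ?_
  have h1 : IsClosed {z : (B × (Fin 1 → X)) × X | N • z.1.2 0 = 0} :=
    (TX.fin N hN).isClosed.preimage continuous_s0
  have h := measurable_existsM hF hm (Z := (B × (Fin 1 → X)) × X) (h1.inter hC)
    (ι := Unit) (fun _ z => (z.1.1, z.2 + z.1.2 0)) (fun _ => continuous_trs)
  convert h using 1
  ext ω
  constructor
  · rintro ⟨z, ⟨h1, h2⟩, h3⟩; exact ⟨z, ⟨h1, h3⟩, fun _ => h2⟩
  · rintro ⟨z, ⟨h1, h3⟩, h2⟩; exact ⟨z, ⟨h1, h2 ()⟩, h3⟩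

omit [MeasurableSpace Ω] in
lemma Hyp.Ft_inv (H : Hyp σ T lam₁ lam₂ l₁ l₂) {F : Ω → Set (B × X)} {N : ℕ} {ω : Ω}
    (hT : ∀ z ∈ F ω, T z ∈ F ω) : ∀ z ∈ Ft F N ω, H.TT 1 z ∈ Ft F N ω := by
  rintro ⟨⟨w, s⟩, y⟩ ⟨h1, h2⟩
  refine ⟨?_, ?_⟩
  · change N • (T (w, s 0)).2 = 0
    have h1' : N • s 0 = 0 := h1
    rw [← H.map_nsmul, h1', H.map_zero]
  · change (σ w, (T (w, y)).2 + (T (w, s 0)).2) ∈ F ω
    rw [← H.add, ← H.map_eq]
    exact hT _ h2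

omit [MeasurableSpace Ω] [MetricSpace B] in
lemma Ft_nsmul {F : Ω → Set (B × X)} {N b : ℕ} {ω ω' : Ω} (hb : ∀ x : X, N • x = 0 → b • x = x)
    (h : ∀ z ∈ F ω, (z.1, b • z.2) ∈ F ω') : ∀ z ∈ Ft F N ω, (z.1, b • z.2) ∈ Ft F N ω' := by
  rintro ⟨⟨w, s⟩, y⟩ ⟨h1, h2⟩
  refine ⟨h1, ?_⟩
  have h3 := h _ h2
  simp only at h3 ⊢
  rwa [smul_add, hb _ h1] at h3

/-- If the derived set contains torsion points of order prime to `bc` then the random set meets all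
open sets with nonempty fibres. -/
theorem Hyp.tors_acc [CompactSpace B] [CompactSpace X] (TX : Tor X) (H : Hyp σ T lam₁ lam₂ l₁ l₂)
    {b c : ℕ} (hb : 2 ≤ b) (hc : 2 ≤ c) (hirr : Irrational (Real.log b / Real.log c))
    {P : Measure Ω} [IsProbabilityMeasure P] {τ ρ : Ω → Ω} (hτ : MeasurePreserving τ P P)
    (hρ : MeasurePreserving ρ P P) {F : Ω → Set (B × X)} (hF : ∀ ω, IsClosed (F ω)) (hm : HitM F)
    (hT : ∀ ω, ∀ z ∈ F ω, T z ∈ F ω) (hT' : ∀ ω, ∀ z ∈ F ω, T.symm z ∈ F ω)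
    (hb' : ∀ ω, ∀ z ∈ F ω, (z.1, b • z.2) ∈ F (τ ω))
    (hc' : ∀ ω, ∀ z ∈ F ω, (z.1, c • z.2) ∈ F (ρ ω)) {N : ℕ} (hN : 0 < N)
    (hbN : Nat.Coprime b N) (hcN : Nat.Coprime c N) {J : Set (B × X)} (hJ : IsOpen J)
    (hJn : ∀ w, ∃ x, (w, x) ∈ J) :
    ∀ᵐ ω ∂P, (∃ z ∈ Dr (F ω), N • z.2 = 0) → (F ω ∩ J).Nonempty := by
  set m := Nat.totient N with hmdef
  have hm0 : 0 < m := Nat.totient_pos.2 hN
  have h2b : 2 ≤ b ^ m := hb.trans (Nat.le_self_pow hm0.ne' b)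
  have h2c : 2 ≤ c ^ m := hc.trans (Nat.le_self_pow hm0.ne' c)
  have hbm : ∀ x : X, N • x = 0 → b ^ m • x = x := fun x hx => pow_smul_eq hbN hx
  have hcm : ∀ x : X, N • x = 0 → c ^ m • x = x := fun x hx => pow_smul_eq hcN hx
  have hbF : ∀ ω, ∀ z ∈ F ω, (z.1, b ^ m • z.2) ∈ F (τ^[m] ω) := iter_nsmul hb' m
  have hcF : ∀ ω, ∀ z ∈ F ω, (z.1, c ^ m • z.2) ∈ F (ρ^[m] ω) := iter_nsmul hc' m
  have hJ' : IsOpen ((fun z : (B × (Fin 1 → X)) × X => (z.1.1, z.2 + z.1.2 0)) ⁻¹' J) :=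
    hJ.preimage continuous_trs
  filter_upwards [(H.hypTT 1).core TX h2b h2c (cast_irr hm0 hirr) (hτ.iterate m) (hρ.iterate m)
    (isClosed_Ft TX hF hN) (hit_Ft TX hF hm hN) (fun ω => H.Ft_inv (hT ω))
    (fun ω => H.symm.Ft_inv (hT' ω)) (fun ω => Ft_nsmul hbm (hbF ω))
    (fun ω => Ft_nsmul hcm (hcF ω)) hJ'
    (fun q => by
      obtain ⟨x, hx⟩ := hJn q.1
      exact ⟨x - q.2 0, by simpa using hx⟩)] with ω hω
  rintro ⟨z, hz, hzN⟩
  have hacc : Acc0 (Ft F N ω) := by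
    intro ε hε
    obtain ⟨w, x, x', h1, h2, h3, h4, h5⟩ := hz ε hε
    have key : ∀ u : X, (w, u) ∈ F ω → u ≠ z.2 → dist (w, u) z < ε →
        ∃ z' ∈ Ft F N ω, z'.2 ≠ 0 ∧ ‖z'.2‖ < ε := by
      intro u hu hne hd
      refine ⟨((w, fun _ => z.2), u - z.2), ⟨hzN, by simpa using hu⟩, sub_ne_zero.2 hne, ?_⟩
      change ‖u - z.2‖ < ε
      rw [← dist_eq_norm]
      refine lt_of_le_of_lt ?_ hd
      rw [Prod.dist_eq]
      exact le_max_right _ _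
    by_cases hx : x = z.2
    · refine key x' h2 ?_ h5
      rintro rfl
      exact h3 hx
    · exact key x h1 hx h4
  obtain ⟨z', ⟨-, h1⟩, h2⟩ := hω hacc
  exact ⟨_, h1, h2⟩

/-- inner radius -/
lemma exists_inner [CompactSpace B] {J : Set (B × X)} (hJ : IsOpen J)
    (hJn : ∀ w, ∃ x, (w, x) ∈ J) : ∃ r > 0, ∀ w, ∃ x, Metric.ball (w, x) r ⊆ J := by
  have key : ∀ w₀ : B, ∃ r > 0, ∃ x, ∀ w, dist w w₀ < r → Metric.ball (w, x) r ⊆ J := by
    intro w₀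
    obtain ⟨x, hx⟩ := hJn w₀
    obtain ⟨r, hr, hball⟩ := Metric.isOpen_iff.1 hJ _ hx
    refine ⟨r / 2, by positivity, x, fun w hw z hz => hball ?_⟩
    rw [Metric.mem_ball] at hz ⊢
    have h1 : dist (w, x) (w₀, x) < r / 2 := by
      rw [Prod.dist_eq]
      simp only [dist_self]
      exact max_lt hw (by positivity)
    linarith [dist_triangle z (w, x) (w₀, x)]
  choose r hr x hx using key
  obtain ⟨S, hS⟩ := (isCompact_univ (X := B)).elim_nhds_subcover (fun w => Metric.ball w (r w))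
    (fun w _ => Metric.ball_mem_nhds w (hr w))
  obtain ⟨r', hr', hrS⟩ : ∃ r' > 0, ∀ z ∈ S, r' ≤ r z := by
    rcases S.eq_empty_or_nonempty with rfl | hne
    · exact ⟨1, one_pos, by simp⟩
    · obtain ⟨z0, hz0, hmin⟩ := S.exists_min_image r hne
      exact ⟨r z0, hr z0, hmin⟩
  refine ⟨r', hr', fun w => ?_⟩
  obtain ⟨w₀, hw₀, hw⟩ := mem_iUnion₂.1 (hS.2 (mem_univ w))
  exact ⟨x w₀, (Metric.ball_subset_ball (hrS w₀ hw₀)).trans (hx w₀ w hw)⟩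

/-- countably many open sets with nonempty fibres -/
lemma exists_countable_full (B : Type*) [MetricSpace B] (X : Type*) [NormedAddCommGroup X]
    [CompactSpace B] [CompactSpace X] :
    ∃ 𝒲 : Set (Set (B × X)), 𝒲.Countable ∧ (∀ W ∈ 𝒲, IsOpen W ∧ ∀ w, ∃ x, (w, x) ∈ W) ∧
      ∀ J : Set (B × X), IsOpen J → (∀ w, ∃ x, (w, x) ∈ J) → ∃ W ∈ 𝒲, W ⊆ J := by
  obtain ⟨𝒲, hWc, hWo, hW⟩ := exists_countable_nhds (B × X)
  refine ⟨𝒲 ∩ {W | ∀ w, ∃ x, (w, x) ∈ W}, hWc.mono inter_subset_left,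
    fun W hW1 => ⟨hWo W hW1.1, hW1.2⟩, fun J hJ hJn => ?_⟩
  obtain ⟨r, hr, hin⟩ := exists_inner hJ hJn
  obtain ⟨W, hW1, hW2, hW3⟩ := hW (Metric.thickening r Jᶜ)ᶜ J
    Metric.isOpen_thickening.isClosed_compl hJ
    (compl_subset_comm.1 (Metric.self_subset_thickening hr _))
  refine ⟨W, ⟨hW1, fun w => ?_⟩, hW3⟩
  obtain ⟨x, hx⟩ := hin w
  refine ⟨x, hW2 fun hmem => ?_⟩
  obtain ⟨y, hy, hd⟩ := Metric.mem_thickening_iff.1 hmem
  rw [dist_comm] at hd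
  exact hy (hx hd)

/-- The dichotomy: a stationary random closed set which is not separated meets all open sets with
nonempty fibres. -/
theorem Hyp.meets_full [CompactSpace B] [CompactSpace X] (TX : Tor X) (H : Hyp σ T lam₁ lam₂ l₁ l₂)
    {b c : ℕ} (hb : 2 ≤ b) (hc : 2 ≤ c) (hirr : Irrational (Real.log b / Real.log c))
    {P : Measure Ω} [IsProbabilityMeasure P] {τ ρ : Ω → Ω} (hτ : MeasurePreserving τ P P)
    (hρ : MeasurePreserving ρ P P) {F : Ω → Set (B × X)} (hF : ∀ ω, IsClosed (F ω)) (hm : HitM F)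
    (hT : ∀ ω, ∀ z ∈ F ω, T z ∈ F ω) (hT' : ∀ ω, ∀ z ∈ F ω, T.symm z ∈ F ω)
    (hb' : ∀ ω, ∀ z ∈ F ω, (z.1, b • z.2) ∈ F (τ ω))
    (hc' : ∀ ω, ∀ z ∈ F ω, (z.1, c • z.2) ∈ F (ρ ω)) :
    ∀ᵐ ω ∂P, ¬ Sep (F ω) → ∀ J : Set (B × X), IsOpen J → (∀ w, ∃ x, (w, x) ∈ J) →
      (F ω ∩ J).Nonempty := by
  obtain ⟨𝒲, hWc, hWo, hW⟩ := exists_countable_full B X
  -- the full event
  set U : Set Ω := {ω | ∀ J : Set (B × X), IsOpen J → (∀ w, ∃ x, (w, x) ∈ J) →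
      (F ω ∩ J).Nonempty} with hU
  have hUW : ∀ ω, (∀ W ∈ 𝒲, (F ω ∩ W).Nonempty) → ω ∈ U := by
    intro ω h J hJ hJn
    obtain ⟨W, hW1, hW2⟩ := hW J hJ hJn
    exact (h W hW1).mono (inter_subset_inter_right _ hW2)
  have hUm : MeasurableSet U := by
    have : U = ⋂ W ∈ 𝒲, {ω | (F ω ∩ W).Nonempty} := by
      ext ω
      simp only [mem_iInter, mem_ofPred_eq]
      exact ⟨fun h W hW1 => h W (hWo W hW1).1 (hWo W hW1).2, fun h => hUW ω h⟩
    rw [this]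
    exact MeasurableSet.biInter hWc fun W hW1 => hm W (hWo W hW1).1
  set θ : ℕ → Ω → Ω := fun a ω => τ^[a] (ρ^[a] ω) with hθ
  have hθmp : ∀ a, MeasurePreserving (θ a) P P := fun a => (hτ.iterate a).comp (hρ.iterate a)
  have hθF : ∀ a ω, ∀ z ∈ F ω, (z.1, (b ^ a * c ^ a) • z.2) ∈ F (θ a ω) := by
    intro a ω z hz
    have h1 := iter_nsmul hc' a ω z hz
    have h2 := iter_nsmul hb' a _ _ h1
    simp only at h2
    rw [mul_smul]
    exact h2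
  have hUsub : ∀ a, U ⊆ θ a ⁻¹' U := by
    intro a ω hω J hJ hJn
    obtain ⟨z, hz, hzJ⟩ := hω ((fun z : B × X => (z.1, (b ^ a * c ^ a) • z.2)) ⁻¹' J)
      (hJ.preimage (continuous_fib _)) (fun w => by
        obtain ⟨x, hx⟩ := hJn w
        obtain ⟨y, hy⟩ := TX.div (b ^ a * c ^ a) (by positivity) x
        exact ⟨y, by simp only [mem_preimage]; rw [hy]; exact hx⟩)
    exact ⟨_, hθF a ω z hz, hzJ⟩
  have hUback : ∀ᵐ ω ∂P, ∀ a : ℕ, θ a ω ∈ U → ω ∈ U := by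
    rw [ae_all_iff]
    intro a
    have h1 : P (θ a ⁻¹' U \ U) = 0 := by
      rw [measure_sdiff (hUsub a) hUm.nullMeasurableSet (measure_ne_top P U),
        (hθmp a).measure_preimage hUm.nullMeasurableSet, tsub_self]
    rw [ae_iff]
    refine measure_mono_null ?_ h1
    intro ω hω
    simp only [mem_ofPred_eq, Classical.not_imp] at hω
    exact hω
  -- the torsion points
  have e2 : ∀ᵐ ω ∂P, ∀ a d : ℕ, 0 < d → Nat.Coprime b d → Nat.Coprime c d → ∀ W ∈ 𝒲,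
      (∃ z ∈ Dr (F (θ a ω)), d • z.2 = 0) → (F (θ a ω) ∩ W).Nonempty := by
    rw [ae_all_iff]; intro a
    rw [ae_all_iff]; intro d
    by_cases h1 : 0 < d
    · by_cases h2 : Nat.Coprime b d
      · by_cases h3 : Nat.Coprime c d
        · have h4 : ∀ᵐ ω ∂P, ∀ W ∈ 𝒲, (∃ z ∈ Dr (F (θ a ω)), d • z.2 = 0) →
              (F (θ a ω) ∩ W).Nonempty := by
            rw [ae_ball_iff hWc]
            intro W hW1
            exact (hθmp a).quasiMeasurePreserving.ae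
              (H.tors_acc TX hb hc hirr hτ hρ hF hm hT hT' hb' hc' h1 h2 h3 (hWo W hW1).1
                (hWo W hW1).2)
          filter_upwards [h4] with ω hω _ _ _ using hω
        · exact Eventually.of_forall fun ω _ _ h4 => absurd h4 h3
      · exact Eventually.of_forall fun ω _ h3 => absurd h3 h2
    · exact Eventually.of_forall fun ω h3 => absurd h3 h1
  -- the cosets
  choose Nk hNk hcop hdense using fun k : ℕ =>
    TX.dense (b * c) (by positivity) (1 / ((k : ℝ) + 1)) (by positivity)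
  have e1 : ∀ᵐ ω ∂P, ∀ k : ℕ, (Dr (F ω)).Nonempty → (∀ z ∈ Dr (F ω), ¬ IsOfFinAddOrder z.2) →
      ∃ z ∈ Dr (F ω), ∀ s : X, Nk k • s = 0 → (z.1, z.2 + s) ∈ Dr (F ω) := by
    rw [ae_all_iff]; intro k
    exact H.coset TX hb hc hirr hτ hρ (F := fun ω => Dr (F ω)) (fun ω => isClosed_Dr _)
      (hit_Dr hF hm) (fun ω => H.Dr_inv (hT ω)) (fun ω => H.symm.Dr_inv (hT' ω))
      (fun ω => Dr_nsmul TX (by omega) (hb' ω)) (fun ω => Dr_nsmul TX (by omega) (hc' ω))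
      (hNk k) (Nat.Coprime.coprime_mul_right (hcop k)) (Nat.Coprime.coprime_mul_left (hcop k))
  filter_upwards [hUback, e1, e2] with ω h0 h1 h2 hsep J hJ hJn
  have hne := Dr_nonempty hsep
  by_cases ht : ∀ z ∈ Dr (F ω), ¬ IsOfFinAddOrder z.2
  · obtain ⟨r, hr, hin⟩ := exists_inner hJ hJn
    obtain ⟨k, hk⟩ := exists_nat_one_div_lt hr
    obtain ⟨z, hz, hzs⟩ := h1 k hne ht
    obtain ⟨x, hx⟩ := hin z.1
    obtain ⟨s, hs, hd⟩ := hdense k (x - z.2)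
    refine ⟨_, Dr_subset (hF ω) (hzs s hs), hx ?_⟩
    rw [Metric.mem_ball, Prod.dist_eq]
    simp only [dist_self]
    refine max_lt hr (lt_of_le_of_lt (le_of_eq ?_) (hd.trans hk))
    rw [dist_eq_norm, dist_eq_norm, ← norm_neg]
    congr 1
    abel
  · push Not at ht
    obtain ⟨z, hz, hzt⟩ := ht
    obtain ⟨n, hn, hnt⟩ := isOfFinAddOrder_iff_nsmul_eq_zero.1 hzt
    have h2bc : 2 ≤ b * c := by nlinarith
    obtain ⟨a, d, hd1, hd2, hd3⟩ := exists_coprime_part h2bc n hn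
    have hbd : Nat.Coprime b d := Nat.Coprime.coprime_mul_right hd2
    have hcd : Nat.Coprime c d := Nat.Coprime.coprime_mul_left hd2
    have h4 : (z.1, (b ^ a * c ^ a) • z.2) ∈ Dr (F (θ a ω)) :=
      Dr_nsmul TX (by positivity) (hθF a ω) z hz
    have h6 : d • (b ^ a * c ^ a) • z.2 = 0 := by
      rw [smul_smul, ← mul_pow]
      obtain ⟨e, he⟩ := hd3
      rw [he, mul_comm, mul_smul, hnt, smul_zero]
    exact h0 a (hUW _ fun W hW1 => h2 a d hd1 hbd hcd W hW1 ⟨_, h4, h6⟩) J hJ hJn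

end Pool.Agent.W765.Sk
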