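import Mathlib
import Pool.Agent.W765.Sk17

set_option autoImplicit false

open MeasureTheory Filter Topology Set TopologicalSpace BoundedContinuousFunction

namespace Pool.Agent.W765.Sk

open Pool.Agent.W765.Hb (Tor)

variable {B : Type*} [MetricSpace B] {X : Type*} [NormedAddCommGroup X]
variable {σ : B ≃ₜ B} {T : (B × X) ≃ₜ (B × X)} {lam lam₁ lam₂ : B → ℝ} {l l₁ l₂ : B → ℝ →+ X}

noncomputable local instance : MeasurableSpace (NonemptyCompacts (B × X)) := borel _
local instance : BorelSpace (NonemptyCompacts (B × X)) := ⟨rfl⟩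

/-- an invariant set near the zero section is contained in the zero section -/
lemma Hyp.near_zero [CompactSpace B] [CompactSpace X] (H : Hyp σ T lam₁ lam₂ l₁ l₂) :
    ∃ r > 0, ∀ S : Set (B × X), (∀ z ∈ S, T z ∈ S) → (∀ z ∈ S, T.symm z ∈ S) →
      (∀ z ∈ S, ‖z.2‖ < r) → ∀ z ∈ S, z.2 = 0 := by
  obtain ⟨ε, hε, η, hη, hS⟩ := H.sep_nhd (F := univ ×ˢ {(0 : X)})
    (isClosed_univ.prod isClosed_singleton) ⟨1, one_pos, fun w x x' hx hx' hne => by
      have h1 : x = 0 := hx.2
      have h2 : x' = 0 := hx'.2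
      exact absurd (h1.trans h2.symm) hne⟩
  refine ⟨min ε η, lt_min hε hη, fun S hST hST' hSr z hz => ?_⟩
  by_contra hz0
  have hsep := hS (S ∪ univ ×ˢ {(0 : X)}) ?_ ?_ ?_
  · have h1 := hsep z.1 z.2 0 (Or.inl hz) (Or.inr ⟨mem_univ _, rfl⟩) hz0
    rw [dist_zero_right] at h1
    have h2 := (hSr z hz).trans_le (min_le_left _ _)
    linarith
  · rintro y (hy | ⟨-, hy⟩)
    · exact Or.inl (hST y hy)
    · right
      refine ⟨mem_univ _, ?_⟩
      have h3 : y = (y.1, 0) := Prod.ext rfl hy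
      rw [h3]
      exact H.map_zero y.1
  · rintro y (hy | ⟨-, hy⟩)
    · exact Or.inl (hST' y hy)
    · right
      refine ⟨mem_univ _, ?_⟩
      have h3 : y = (y.1, 0) := Prod.ext rfl hy
      rw [h3]
      exact H.symm.map_zero y.1
  · rintro y (hy | hy)
    · refine Metric.mem_cthickening_of_dist_le y (y.1, 0) η _ ⟨mem_univ _, rfl⟩ ?_
      have h4 : dist y (y.1, 0) = ‖y.2‖ := by
        rw [Prod.dist_eq]
        simp
      rw [h4]
      exact ((hSr y hy).trans_le (min_le_right _ _)).le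
    · exact Metric.self_subset_cthickening _ hy

open Classical in
/-- The second uniform theorem. -/
theorem Hyp.uniform2 [CompactSpace B] [CompactSpace X] (TX : Tor X) (H : Hyp σ T lam₁ lam₂ l₁ l₂)
    {b c : ℕ} (hb : 2 ≤ b) (hc : 2 ≤ c) (hirr : Irrational (Real.log b / Real.log c))
    {ι : Type*} [Finite ι] {J : ι → Set (B × X)} (hJ : ∀ i, IsOpen (J i))
    (hJn : ∀ i w, ∃ x, (w, x) ∈ J i) {δ : ℝ} (hδ : 0 < δ) :
    ∃ N₀ : ℕ, ∀ K : Set (B × X), IsClosed K → (∀ n : ℕ, 0 < n → ∃ z ∈ K, n • z.2 ≠ 0) →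
      (∀ z ∈ K, T z ∈ K) → (∀ z ∈ K, T.symm z ∈ K) → ∀ N : ℕ, N₀ ≤ N →
      (((Finset.range N ×ˢ Finset.range N).filter
        (fun p => ¬ ∀ i, ∃ z ∈ K, (z.1, (b ^ p.1 * c ^ p.2) • z.2) ∈ J i)).card : ℝ) ≤ δ * N ^ 2 := by
  by_contra hcon
  push Not at hcon
  choose K' hKcl hKnt hKinv hKinv' n hn hcard using fun L : ℕ => hcon (L + 1)
  have hKne : ∀ L, (K' L).Nonempty := fun L => by
    obtain ⟨z, hz, -⟩ := hKnt L 1 one_pos
    exact ⟨z, hz⟩
  set K : ℕ → NonemptyCompacts (B × X) := fun L => ⟨⟨K' L, (hKcl L).isCompact⟩, hKne L⟩ with hK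
  have hKG : ∀ L, K L ∈ GG T := fun L => ⟨hKinv L, hKinv' L⟩
  have hn0 : ∀ L, 0 < n L := fun L => by have := hn L; omega
  have hnt : Tendsto n atTop atTop :=
    tendsto_atTop_mono (fun L => by have := hn L; simp only [id]; omega) tendsto_id
  set f := mulF B X b with hf
  set g := mulF B X c with hg
  have hfg : ∀ E, f (g E) = g (f E) := fun E => mulF_comm b c E
  obtain ⟨P, hP, hPinv, hPG⟩ := kb_abs (fun L => emp2 f g (K L) (n L)) (fun L => emp2_prob (hn0 L))
  have hdiv : ∀ h : NonemptyCompacts (B × X) →ᵇ ℝ, Tendsto (fun L => 2 * ‖h‖ / (n L : ℝ)) atTop (𝓝 0) :=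
    fun h => tendsto_const_nhds.div_atTop (tendsto_natCast_atTop_atTop.comp hnt)
  have hPf : MeasurePreserving f P P := by
    refine hPinv f (continuous_mulF b) fun h => ?_
    exact squeeze_zero_norm (fun L => emp2_inv (continuous_mulF b) (hn0 L) h) (hdiv h)
  have hPg : MeasurePreserving g P P := by
    refine hPinv g (continuous_mulF c) fun h => ?_
    refine squeeze_zero_norm (fun L => ?_) (hdiv h)
    rw [emp2_swap hfg]
    exact emp2_inv (continuous_mulF c) (hn0 L) h
  have hGm : MeasurableSet (GG T) := (isClosed_GG T).measurableSet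
  have hPGG : ∀ᵐ E ∂P, E ∈ GG T := by
    rw [ae_iff]
    refine le_antisymm (hPG _ (isClosed_GG T).isOpen_compl 0 (Eventually.of_forall fun L => ?_)) zero_le
    rw [emp2_eq_zero (isClosed_GG T).isOpen_compl.measurableSet]
    intro i j hij
    exact hij (H.GG_iter b i (H.GG_iter c j (hKG L)))
  set F : NonemptyCompacts (B × X) → Set (B × X) := fun E => if E ∈ GG T then (E : Set (B × X)) else ∅
    with hF
  have hFpos : ∀ E ∈ GG T, F E = E := fun E hE => if_pos hE
  have hFneg : ∀ E, E ∉ GG T → F E = ∅ := fun E hE => if_neg hE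
  have a1 : ∀ E, IsClosed (F E) := by
    intro E
    by_cases h : E ∈ GG T
    · rw [hFpos E h]; exact E.isCompact.isClosed
    · rw [hFneg E h]; exact isClosed_empty
  have a2 : HitM F := by
    intro V hV
    have : {E | (F E ∩ V).Nonempty} = GG T ∩ {E | ((E : Set (B × X)) ∩ V).Nonempty} := by
      ext E
      by_cases h : E ∈ GG T
      · simp only [mem_ofPred_eq, mem_inter_iff, hFpos E h, h, true_and]
      · simp only [mem_ofPred_eq, mem_inter_iff, hFneg E h, h, false_and, empty_inter,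
          Set.not_nonempty_empty]
    rw [this]
    exact hGm.inter (NonemptyCompacts.isOpen_inter_nonempty_of_isOpen hV).measurableSet
  have a3 : ∀ E, ∀ z ∈ F E, T z ∈ F E := by
    intro E z hz
    by_cases h : E ∈ GG T
    · rw [hFpos E h] at hz ⊢; exact h.1 z hz
    · rw [hFneg E h] at hz; exact absurd hz (notMem_empty z)
  have a4 : ∀ E, ∀ z ∈ F E, T.symm z ∈ F E := by
    intro E z hz
    by_cases h : E ∈ GG T
    · rw [hFpos E h] at hz ⊢; exact h.2 z hz
    · rw [hFneg E h] at hz; exact absurd hz (notMem_empty z)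
  have a5 : ∀ q : ℕ, ∀ E, ∀ z ∈ F E, (z.1, q • z.2) ∈ F (mulF B X q E) := by
    intro q E z hz
    by_cases h : E ∈ GG T
    · rw [hFpos E h] at hz
      rw [hFpos _ (H.GG_mulF q h)]
      exact ⟨z, hz, rfl⟩
    · rw [hFneg E h] at hz; exact absurd hz (notMem_empty z)
  have hst := H.meets_full TX hb hc hirr hPf hPg a1 a2 a3 a4 (a5 b) (a5 c)
  have hbt := H.bounded_torsion hb hPf a1 a2 a3 a4 (a5 b)
  -- the limit measure does not see the sets of bounded torsion
  obtain ⟨r, hr, hnear⟩ := H.near_zero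
  have hnt0 : ∀ᵐ E ∂P, ∀ m : ℕ, 0 < m → E ∉ {E : NonemptyCompacts (B × X) |
      (E : Set (B × X)) ⊆ {z : B × X | ‖m • z.2‖ < r}} := by
    rw [ae_all_iff]; intro m
    by_cases hm : 0 < m
    · have hopen : IsOpen {z : B × X | ‖m • z.2‖ < r} :=
        isOpen_lt ((continuous_nsmul m).comp continuous_snd).norm continuous_const
      have hG := NonemptyCompacts.isOpen_subsets_of_isOpen hopen
      have h1 : ∀ᵐ E ∂P, E ∉ {E : NonemptyCompacts (B × X) |
          (E : Set (B × X)) ⊆ {z : B × X | ‖m • z.2‖ < r}} := by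
        rw [ae_iff]
        simp only [not_not]
        refine le_antisymm (hPG _ hG 0 (Eventually.of_forall fun L => ?_)) zero_le
        rw [emp2_eq_zero hG.measurableSet]
        intro i j hij
        -- the multiples of `K L` are not near the zero section
        have h2 : ((f^[i] (g^[j] (K L)) : NonemptyCompacts (B × X)) : Set (B × X)) =
            (fun z : B × X => (z.1, (b ^ i * c ^ j) • z.2)) '' (K' L) := by
          rw [hf, hg, coe_mulF_iterate, coe_mulF_iterate, image_image]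
          refine image_congr fun x _ => ?_
          simp only [mul_smul]
        have h3 := H.GG_mulF m (H.GG_iter b i (H.GG_iter c j (hKG L)))
        obtain ⟨z, hz, hz0⟩ := hKnt L (m * (b ^ i * c ^ j)) (by positivity)
        apply hz0
        have h4 := hnear ((mulF B X m (f^[i] (g^[j] (K L))) : NonemptyCompacts (B × X)) :
          Set (B × X)) h3.1 h3.2 (by
            rw [coe_mulF]
            rintro _ ⟨y, hy, rfl⟩
            exact hij hy) (z.1, m • ((b ^ i * c ^ j) • z.2)) (by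
            rw [coe_mulF, h2, image_image]
            exact ⟨z, hz, rfl⟩)
        rw [mul_smul]
        exact h4
      filter_upwards [h1] with E hE _ using hE
    · exact Eventually.of_forall fun E h => absurd h hm
  set G : Set (NonemptyCompacts (B × X)) := ⋂ i, {E | ((E : Set (B × X)) ∩ J i).Nonempty} with hGdef
  have hG : IsOpen G :=
    isOpen_iInter_of_finite fun i => NonemptyCompacts.isOpen_inter_nonempty_of_isOpen (hJ i)
  have hall : ∀ᵐ E ∂P, E ∈ G := by
    filter_upwards [hst, hbt, hnt0, hPGG] with E h1 h2 h3 h4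
    rw [hFpos E h4] at h1 h2
    rw [hGdef, mem_iInter]
    intro i
    refine h1 (fun hsep => ?_) (J i) (hJ i) (hJn i)
    obtain ⟨m, hm, hm0⟩ := h2 hsep
    refine h3 m hm fun z hz => ?_
    simp only [mem_ofPred_eq, hm0 z hz, norm_zero]
    exact hr
  have h1 : P G = 1 := (mem_ae_iff_prob_eq_one hG.measurableSet).1 hall
  have h2 := hPG _ hG (ENNReal.ofReal (1 - δ)) (Eventually.of_forall fun L => ?_)
  · rw [h1] at h2
    have : ENNReal.ofReal (1 - δ) < 1 := by
      rw [ENNReal.ofReal_lt_one]; linarith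
    exact absurd h2 (not_le.2 this)
  · rw [emp2_apply hG.measurableSet]
    have h3 := Finset.card_filter_add_card_filter_not (s := Finset.range (n L) ×ˢ Finset.range (n L))
      (fun p => ∀ i, ∃ z ∈ K' L, (z.1, (b ^ p.1 * c ^ p.2) • z.2) ∈ J i)
    rw [Finset.card_product, Finset.card_range] at h3
    have h4 : (Finset.range (n L) ×ˢ Finset.range (n L)).filter (fun p => f^[p.1] (g^[p.2] (K L)) ∈ G) =
        (Finset.range (n L) ×ˢ Finset.range (n L)).filter
          (fun p => ∀ i, ∃ z ∈ K' L, (z.1, (b ^ p.1 * c ^ p.2) • z.2) ∈ J i) := by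
      refine Finset.filter_congr fun p _ => ?_
      rw [hGdef, mem_iInter]
      refine forall_congr' fun i => ?_
      change ((((mulF B X b)^[p.1] ((mulF B X c)^[p.2] (K L)) : NonemptyCompacts (B × X)) :
        Set (B × X)) ∩ J i).Nonempty ↔ _
      rw [coe_mulF_iterate, coe_mulF_iterate, image_image]
      constructor
      · rintro ⟨_, ⟨x, hx, rfl⟩, hxU⟩
        refine ⟨x, hx, ?_⟩
        rw [mul_smul]; exact hxU
      · rintro ⟨x, hx, hxU⟩
        refine ⟨_, ⟨x, hx, rfl⟩, ?_⟩
        rw [mul_smul] at hxU; exact hxU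
    rw [h4]
    have h5 := hcard L
    set d := ((Finset.range (n L) ×ˢ Finset.range (n L)).filter
      (fun p => ∀ i, ∃ z ∈ K' L, (z.1, (b ^ p.1 * c ^ p.2) • z.2) ∈ J i)).card with hd
    have hnR : (0 : ℝ) < n L := by exact_mod_cast hn0 L
    have hnR2 : (0 : ℝ) < n L * n L := by positivity
    have h5' : δ * (n L : ℝ) ^ 2 < (((Finset.range (n L) ×ˢ Finset.range (n L)).filter
      (fun p => ¬ ∀ i, ∃ z ∈ K' L, (z.1, (b ^ p.1 * c ^ p.2) • z.2) ∈ J i)).card : ℝ) := by
      refine lt_of_lt_of_eq h5 ?_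
      congr 2
      refine Finset.filter_congr fun p _ => ?_
      push Not
      rfl
    set a := ((Finset.range (n L) ×ˢ Finset.range (n L)).filter
      (fun p => ¬ ∀ i, ∃ z ∈ K' L, (z.1, (b ^ p.1 * c ^ p.2) • z.2) ∈ J i)).card with ha
    have h6 : (d : ℝ) / (n L * n L) ≤ 1 - δ := by
      have h7 : (d : ℝ) + a = n L * n L := by exact_mod_cast h3
      rw [div_le_iff₀ hnR2]
      nlinarith
    calc (((n L * n L : ℕ) : ENNReal))⁻¹ * d = ENNReal.ofReal ((d : ℝ) / (n L * n L)) := by
          rw [ENNReal.ofReal_div_of_pos hnR2, ENNReal.ofReal_natCast, ENNReal.ofReal_mul hnR.le,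
            ENNReal.ofReal_natCast, ENNReal.div_eq_inv_mul]
          push_cast
          rfl
      _ ≤ ENNReal.ofReal (1 - δ) := ENNReal.ofReal_le_ofReal h6

end Pool.Agent.W765.Sk
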