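import Mathlib
import Pool.Agent.W765.Sk15
import Pool.Agent.W765.Sk18

set_option autoImplicit false

open MeasureTheory Filter Topology Set TopologicalSpace

namespace Pool.Agent.W765.Sk

open Pool.Agent.W765.Hb (T2 torT2 exists_rep norm_coe_le)
open Pool.Agent.H705R2 (Circ)

lemma coe_small {v : ℝ} (hv : |v| < 1) (hv0 : (v : Circ) = 0) : v = 0 := by
  rw [AddCircle.coe_eq_zero_iff] at hv0
  obtain ⟨n, hn⟩ := hv0
  simp only [zsmul_eq_mul, mul_one] at hn
  rw [← hn] at hv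
  have h5 : |n| < 1 := by exact_mod_cast hv
  have h6 : n = 0 := Int.abs_lt_one_iff.1 h5
  rw [← hn, h6]; simp

lemma exists_int {u v : ℝ} (h : (u : Circ) = (v : Circ)) : ∃ P : ℤ, u = v + P := by
  have h1 : ((u - v : ℝ) : Circ) = 0 := by rw [AddCircle.coe_sub, h, sub_self]
  rw [AddCircle.coe_eq_zero_iff] at h1
  obtain ⟨n, hn⟩ := h1
  simp only [zsmul_eq_mul, mul_one] at hn
  exact ⟨n, by linarith⟩

/-- If `q_n Y` tends to zero modulo one and the partial quotients of `α` are bounded then `Y` is a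
multiple of `α`. -/
lemma mult_of_tendsto {α : ℝ} (hα : Irrational α) {M : ℕ} (hev : ∀ᶠ n in atTop, ga α n ≤ M)
    {Y : Circ} (h : Tendsto (fun n => ‖(gq α n).1 • Y‖) atTop (𝓝 0)) :
    ∃ p : ℤ, Y = p • (α : Circ) := by
  choose rep hrep1 hrep2 using exists_rep
  obtain ⟨β, hβ, -⟩ := exists_rep Y
  set e : ℕ → ℝ := fun n => rep ((gq α n).1 • Y) with he
  set e' : ℕ → ℝ := fun n => rep ((gq α n).2 • Y) with he'
  set D : ℕ → ℝ := fun n => (-1) ^ n * (gd α n).1 with hD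
  set D' : ℕ → ℝ := fun n => -((-1) ^ n * (gd α n).2) with hD'
  have he'succ : ∀ n, e' (n + 1) = e n := fun n => rfl
  have hDsucc : ∀ n, D (n + 1) = ga α n * D n + D' n := by
    intro n
    simp only [hD, hD']
    rw [gd_rec hα, pow_succ]; ring
  have hD'succ : ∀ n, D' (n + 1) = D n := by
    intro n
    have : (gd α (n + 1)).2 = (gd α n).1 := rfl
    simp only [hD, hD', this, pow_succ]; ring
  have hD1 : ∀ n, |D n| ≤ 1 ∧ |D' n| ≤ 1 := by
    intro n
    obtain ⟨p1, p2⟩ := gd_pos hα n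
    have h1 := gq_gd hα n
    have h2 := gd_le hα n
    have h3 : (1 : ℝ) ≤ (gq α n).1 := by exact_mod_cast gq_pos hα n
    have h4 : (0 : ℝ) ≤ (gq α n).2 := Nat.cast_nonneg _
    have h5 : (gd α n).2 ≤ 1 := by
      have : 0 ≤ ((gq α n).2 : ℝ) * (gd α n).1 := by positivity
      nlinarith
    constructor
    · simp only [hD]
      rw [abs_mul, abs_pow, abs_neg, abs_one, one_pow, one_mul, abs_of_pos p1]; linarith
    · simp only [hD']
      rw [abs_neg, abs_mul, abs_pow, abs_neg, abs_one, one_pow, one_mul, abs_of_pos p2]; linarith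
  have hetend : Tendsto (fun n => |e n|) atTop (𝓝 0) := by
    simp only [he, hrep2]; exact h
  -- the recurrence
  have hrec : ∀ᶠ n in atTop, e (n + 1) = ga α n * e n + e' n := by
    have hsm : ∀ᶠ n in atTop, |e n| < 1 / (2 * ((M : ℝ) + 2)) :=
      hetend.eventually_lt_const (by positivity)
    obtain ⟨n₀, hn₀⟩ := eventually_atTop.1 hsm
    filter_upwards [eventually_ge_atTop (n₀ + 1), hev] with n hn hM
    have h1 : |e n| < 1 / (2 * ((M : ℝ) + 2)) := hn₀ n (by omega)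
    have h2 : |e (n + 1)| < 1 / (2 * ((M : ℝ) + 2)) := hn₀ (n + 1) (by omega)
    have h3 : |e' n| < 1 / (2 * ((M : ℝ) + 2)) := by
      obtain ⟨m, rfl⟩ : ∃ m, n = m + 1 := ⟨n - 1, by omega⟩
      rw [he'succ]
      exact hn₀ m (by omega)
    have h4 : ((ga α n * e n + e' n - e (n + 1) : ℝ) : Circ) = 0 := by
      rw [AddCircle.coe_sub, AddCircle.coe_add, coe_nmul, hrep1, hrep1, hrep1]
      simp only [gq]
      rw [add_smul, mul_smul, sub_self]
    have h5 : (ga α n : ℝ) ≤ M := by exact_mod_cast hM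
    have h6 : |(ga α n * e n + e' n - e (n + 1) : ℝ)| < 1 := by
      have h7 : |(ga α n * e n + e' n - e (n + 1) : ℝ)| ≤ |(ga α n * e n : ℝ)| + |e' n| + |e (n + 1)| :=
        (abs_sub _ _).trans (by gcongr; exact abs_add_le _ _)
      rw [abs_mul, Nat.abs_cast] at h7
      have h8 : (ga α n : ℝ) * |e n| ≤ M * (1 / (2 * ((M : ℝ) + 2))) := by gcongr
      have h9 : ((M : ℝ) + 2) * (1 / (2 * ((M : ℝ) + 2))) = 1 / 2 := by field_simp
      linarith
    have h7 := coe_small h6 h4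
    linarith
  set W : ℕ → ℝ := fun n => e n * D' n - e' n * D n with hW
  have hWrec : ∀ᶠ n in atTop, W (n + 1) = - W n := by
    filter_upwards [hrec] with n hn
    simp only [hW]
    rw [hn, he'succ, hDsucc, hD'succ]; ring
  have hWlim : Tendsto (fun n => |W n|) atTop (𝓝 0) := by
    have hlim' : Tendsto (fun n => |e' n|) atTop (𝓝 0) := by
      rw [← tendsto_add_atTop_iff_nat 1]
      exact hetend
    have hsum := hetend.add hlim'
    rw [add_zero] at hsum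
    refine squeeze_zero (fun n => abs_nonneg _) (fun n => ?_) hsum
    simp only [hW]
    obtain ⟨d1, d2⟩ := hD1 n
    calc |e n * D' n - e' n * D n| ≤ |e n * D' n| + |e' n * D n| := abs_sub _ _
      _ = |e n| * |D' n| + |e' n| * |D n| := by rw [abs_mul, abs_mul]
      _ ≤ |e n| * 1 + |e' n| * 1 := by gcongr
      _ = |e n| + |e' n| := by ring
  obtain ⟨n₁, hn₁⟩ := eventually_atTop.1 hWrec
  have hWconst : ∀ k, |W (n₁ + k)| = |W n₁| := by
    intro k
    induction k with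
    | zero => rfl
    | succ k ih => rw [← add_assoc, hn₁ _ (by omega), abs_neg, ih]
  have hW0 : W n₁ = 0 := by
    have h1 : Tendsto (fun k => |W (k + n₁)|) atTop (𝓝 0) := (tendsto_add_atTop_iff_nat n₁).2 hWlim
    have h2 : (fun k => |W (k + n₁)|) = fun _ => |W n₁| := by
      funext k; rw [add_comm, hWconst]
    rw [h2] at h1
    have := tendsto_nhds_unique h1 tendsto_const_nhds
    exact abs_eq_zero.1 this.symm
  -- the integers
  obtain ⟨P, hP⟩ : ∃ P : ℤ, ((gq α n₁).1 : ℝ) * β = e n₁ + P := by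
    refine exists_int ?_
    rw [coe_nmul, hβ, he]
    exact (hrep1 _).symm
  obtain ⟨P', hP'⟩ : ∃ P : ℤ, ((gq α n₁).2 : ℝ) * β = e' n₁ + P := by
    refine exists_int ?_
    rw [coe_nmul, hβ, he']
    exact (hrep1 _).symm
  obtain ⟨p, hp⟩ : ∃ P : ℤ, ((gq α n₁).1 : ℝ) * α = D n₁ + P := exists_int (coe_gq hα n₁).1
  obtain ⟨p', hp'⟩ : ∃ P : ℤ, ((gq α n₁).2 : ℝ) * α = D' n₁ + P := exists_int (coe_gq hα n₁).2
  have hgg := gq_gd hα n₁
  have hW0' : e n₁ * D' n₁ - e' n₁ * D n₁ = 0 := hW0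
  have hDd : D n₁ = (-1) ^ n₁ * (gd α n₁).1 := rfl
  have hDd' : D' n₁ = -((-1) ^ n₁ * (gd α n₁).2) := rfl
  set q1 : ℝ := ((gq α n₁).1 : ℝ) with hq1
  set q2 : ℝ := ((gq α n₁).2 : ℝ) with hq2
  have hs : ((-1 : ℝ) ^ n₁) * (-1) ^ n₁ = 1 := by
    rw [← mul_pow]; simp
  have hdet : q1 * D' n₁ - q2 * D n₁ = -(-1) ^ n₁ := by
    rw [hDd, hDd']; linear_combination (-(-1) ^ n₁) * hgg
  have hfin : β = -(-1) ^ n₁ * ((P * q2 - P' * q1) * α - (P * p' - P' * p)) := by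
    have h1 : β * (q1 * D' n₁ - q2 * D n₁) = P * D' n₁ - P' * D n₁ := by
      linear_combination D' n₁ * hP - D n₁ * hP' + hW0'
    rw [hdet] at h1
    have h2 : P * D' n₁ - P' * D n₁ = (P * q2 - P' * q1) * α - (P * p' - P' * p) := by
      linear_combination (P' : ℝ) * hp - (P : ℝ) * hp'
    rw [h2] at h1
    linear_combination (-(-1 : ℝ) ^ n₁) * h1 - β * hs
  refine ⟨-(-1) ^ n₁ * (P * (gq α n₁).2 - P' * (gq α n₁).1), ?_⟩
  rw [← hβ, ← coe_zmul]
  have h3 : β = ((-(-1) ^ n₁ * (P * (gq α n₁).2 - P' * (gq α n₁).1) : ℤ) : ℝ) * α -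
      ((-(-1) ^ n₁ * (P * p' - P' * p) : ℤ) : ℝ) := by
    rw [hfin, hq1, hq2]
    push_cast
    ring
  conv_lhs => rw [h3]
  rw [AddCircle.coe_sub, coe_int_zero, sub_zero]

/-- bounded torsion in the limit set -/
lemma KK_tendsto {α : ℝ} (hα : Irrational α) {M : ℕ} (hM : 0 < M) {y : Circ}
    (hev : ∀ᶠ n in atTop, ga α n ≤ M) {m : ℕ} (h : ∀ z ∈ KK α M hM y, m • z.2 = 0) :
    Tendsto (fun n => ‖(gq α n).1 • (m • y)‖) atTop (𝓝 0) := by
  rw [Metric.tendsto_nhds]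
  intro ε hε
  by_contra hcon
  rw [not_eventually] at hcon
  have hcl : IsClosed {p : (ℤ → Sy M) × T2 | ε ≤ ‖(m • p.2) 0‖} := by
    refine isClosed_le continuous_const ?_
    exact ((continuous_apply (0 : Fin 2)).comp ((continuous_nsmul m).comp continuous_snd)).norm
  have hfreq : ∃ᶠ n in atTop, fo α M hM y n ∈ {p : (ℤ → Sy M) × T2 | ε ≤ ‖(m • p.2) 0‖} := by
    refine hcon.mono fun n hn => ?_
    rw [dist_zero_right, norm_norm, not_lt] at hn
    change ε ≤ ‖m • ((gq α n).1 • y)‖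
    rwa [smul_comm]
  obtain ⟨p, hp, hcp⟩ := hcl.isCompact.exists_mapClusterPt_of_frequently hfreq
  have h1 := h (⟨p.1, rel_cluster hα hM hev hcp⟩, p.2) hcp
  have h2 : ε ≤ ‖(m • p.2) 0‖ := hp
  simp only at h1
  rw [h1] at h2
  simp only [Pi.zero_apply, norm_zero] at h2
  linarith

/-- no rational relation -/
def Ind (α : ℝ) (y : Circ) : Prop := ∀ n : ℕ, 0 < n → ∀ p : ℤ, n • y ≠ p • (α : Circ)

lemma KK_nontorsion {α : ℝ} (hα : Irrational α) {M : ℕ} (hM : 0 < M) {y : Circ}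
    (hev : ∀ᶠ n in atTop, ga α n ≤ M) (hy : Ind α y) :
    ∀ n : ℕ, 0 < n → ∃ z ∈ KK α M hM y, n • z.2 ≠ 0 := by
  intro n hn
  by_contra hcon
  push Not at hcon
  obtain ⟨p, hp⟩ := mult_of_tendsto hα hev (KK_tendsto hα hM hev hcon)
  exact hy n hn p hp

/-- the inhomogeneous property -/
def LCi (α ε : ℝ) (y γ : Circ) : Prop :=
  ∃ᶠ q : ℕ in atTop, (q : ℝ) * ‖((q * α : ℝ) : Circ)‖ ≤ 1 ∧
    (q : ℝ) * ‖((q * α : ℝ) : Circ)‖ * ‖q • y - γ‖ < ε

lemma lci_rat {α ε : ℝ} (hε : 0 < ε) (hα : ¬ Irrational α) (y γ : Circ) : LCi α ε y γ := by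
  unfold Irrational at hα
  rw [not_not] at hα
  obtain ⟨r, rfl⟩ := hα
  have ht : Tendsto (fun m : ℕ => r.den * m) atTop atTop :=
    tendsto_atTop_mono (fun m => Nat.le_mul_of_pos_left m r.pos) tendsto_id
  refine ht.frequently (Frequently.of_forall fun m => ?_)
  have h1 : (((r.den * m : ℕ) : ℝ) * (r : ℝ)) = ((r.num * m : ℤ) : ℝ) := by
    have h2 : (r : ℝ) * r.den = r.num := by exact_mod_cast Rat.mul_den_eq_num r
    push_cast
    linear_combination (m : ℝ) * h2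
  rw [h1, coe_int_zero, norm_zero, mul_zero, zero_mul]
  exact ⟨zero_le_one, hε⟩

lemma lci_big {α ε : ℝ} (hα : Irrational α) {M : ℕ} (hM : 1 < ε * (M + 1))
    (h : ∃ᶠ n in atTop, ¬ ga α n ≤ M) (y γ : Circ) : LCi α ε y γ := by
  have ht : Tendsto (fun n : ℕ => (gq α n).1) atTop atTop :=
    tendsto_atTop_mono (fun n => le_gq hα n) tendsto_id
  refine ht.frequently (h.mono fun n hn => ?_)
  have h1 := big_bound hα n
  have h2 : (M : ℝ) + 1 ≤ ga α n := by
    push Not at hn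
    exact_mod_cast hn
  have hM0 : (0 : ℝ) ≤ M := Nat.cast_nonneg M
  set u : ℝ := ((gq α n).1 : ℝ) * ‖(((gq α n).1 * α : ℝ) : Circ)‖ with hu
  have hu0 : 0 ≤ u := by positivity
  have h3 : u * (M + 1) ≤ 1 := (mul_le_mul_of_nonneg_left h2 hu0).trans h1
  have h4 : u < ε := by
    by_contra hcon
    push Not at hcon
    have : ε * (M + 1) ≤ u * (M + 1) := by gcongr
    linarith
  refine ⟨by nlinarith, ?_⟩
  calc u * ‖(gq α n).1 • y - γ‖ ≤ u * 1 := by gcongr; exact norm_circ_le _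
    _ = u := mul_one u
    _ < ε := h4

lemma lci_of_KK {α : ℝ} (hα : Irrational α) {M : ℕ} (hM : 0 < M) {y γ : Circ} {ε : ℝ} {N : ℕ}
    {z : BB M × T2} (hz : z ∈ KK α M hM y) (hzO : ‖(N • z.2) 0 - γ‖ < ε) :
    LCi α ε (N • y) γ := by
  have ht : Tendsto (fun n : ℕ => (gq α n).1) atTop atTop :=
    tendsto_atTop_mono (fun n => le_gq hα n) tendsto_id
  have hc : Continuous fun p : (ℤ → Sy M) × T2 => ‖(N • p.2) 0 - γ‖ :=
    (((continuous_apply (0 : Fin 2)).comp ((continuous_nsmul N).comp continuous_snd)).sub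
      continuous_const).norm
  have hopen : IsOpen {p : (ℤ → Sy M) × T2 | ‖(N • p.2) 0 - γ‖ < ε} := isOpen_lt hc continuous_const
  have h1 : ∃ᶠ n in atTop, fo α M hM y n ∈ {p : (ℤ → Sy M) × T2 | ‖(N • p.2) 0 - γ‖ < ε} :=
    MapClusterPt.frequently hz (hopen.mem_nhds hzO)
  refine ht.frequently (h1.mono fun n hn => ?_)
  have h2 : ‖N • ((gq α n).1 • y) - γ‖ < ε := hn
  rw [smul_comm] at h2
  have h3 := comb_bound hα n 1 0
  simp only [Int.cast_one, one_mul, Int.cast_zero, zero_mul, add_zero, abs_one, abs_zero] at h3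
  refine ⟨h3, ?_⟩
  calc ((gq α n).1 : ℝ) * ‖(((gq α n).1 * α : ℝ) : Circ)‖ * ‖(gq α n).1 • (N • y) - γ‖
      ≤ 1 * ‖(gq α n).1 • (N • y) - γ‖ := by gcongr
    _ < ε := by rw [one_mul]; exact h2

end Pool.Agent.W765.Sk
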