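import Mathlib
import Pool.Agent.W765.Sk19

set_option autoImplicit false

open MeasureTheory Filter Topology Set TopologicalSpace

namespace Pool.Agent.W765.Sk

open Pool.Agent.W765.Hb (T2 torT2 exists_rep norm_coe_le)
open Pool.Agent.H705R2 (Circ)

/-- the combined property -/
def Full (α ε : ℝ) (y : Circ) (I : Prop) : Prop := LC α ε y ∧ (I → ∀ γ, LCi α ε y γ)

open Classical in
/-- The uniform theorem, inhomogeneous version. -/
theorem full_two {b c : ℕ} (hb : 2 ≤ b) (hc : 2 ≤ c) (hirr : Irrational (Real.log b / Real.log c))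
    {ε δ : ℝ} (hε : 0 < ε) (hδ : 0 < δ) :
    ∃ N₀ : ℕ, ∀ α : ℝ, ∀ y : Circ, ∀ N : ℕ, N₀ ≤ N →
      (((Finset.range N ×ˢ Finset.range N).filter
        (fun p => ¬ Full α ε ((b ^ p.1 * c ^ p.2) • y) (Ind α y))).card : ℝ) ≤ δ * N ^ 2 := by
  obtain ⟨M, hM⟩ := exists_nat_gt (1 / ε)
  have hM0 : 0 < M := by
    have : (0 : ℝ) < M := lt_trans (by positivity) hM
    exact_mod_cast this
  have hMε : 1 < ε * (M + 1) := by
    rw [div_lt_iff₀ hε] at hM
    linarith
  obtain ⟨t, -, htf, hcov⟩ := finite_cover_balls_of_compact (isCompact_univ (X := Circ))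
    (show 0 < ε / 2 by positivity)
  have hfin : Finite t := htf.to_subtype
  have hJ : ∀ γ : t, IsOpen {z : BB M × T2 | ‖z.2 0 - γ‖ < ε / 2} := fun γ =>
    isOpen_lt (((continuous_apply (0 : Fin 2)).comp continuous_snd).sub continuous_const).norm
      continuous_const
  have hJn : ∀ (γ : t) (w : BB M), ∃ x, (w, x) ∈ {z : BB M × T2 | ‖z.2 0 - γ‖ < ε / 2} := by
    intro γ w
    refine ⟨fun _ => γ, ?_⟩
    simp only [mem_ofPred_eq, sub_self, norm_zero]
    positivity
  obtain ⟨N₁, hN₁⟩ := (hypM M).uniform2 torT2 hb hc hirr hJ hJn (show 0 < δ / 2 by positivity)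
  obtain ⟨N₂, hN₂⟩ := lc_two hb hc hirr hε (show 0 < δ / 2 by positivity)
  refine ⟨max N₁ N₂, fun α y N hN => ?_⟩
  have hNpos : (0 : ℝ) ≤ (N : ℝ) ^ 2 := by positivity
  -- the homogeneous part and the inhomogeneous part
  have hsplit : ((Finset.range N ×ˢ Finset.range N).filter
        (fun p => ¬ Full α ε ((b ^ p.1 * c ^ p.2) • y) (Ind α y))) ⊆
      ((Finset.range N ×ˢ Finset.range N).filter (fun p => ¬ LC α ε ((b ^ p.1 * c ^ p.2) • y))) ∪
      ((Finset.range N ×ˢ Finset.range N).filter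
        (fun p => ¬ (Ind α y → ∀ γ, LCi α ε ((b ^ p.1 * c ^ p.2) • y) γ))) := by
    intro p hp
    rw [Finset.mem_filter] at hp
    rw [Finset.mem_union, Finset.mem_filter, Finset.mem_filter]
    by_cases h : LC α ε ((b ^ p.1 * c ^ p.2) • y)
    · exact Or.inr ⟨hp.1, fun h' => hp.2 ⟨h, h'⟩⟩
    · exact Or.inl ⟨hp.1, h⟩
  have h2 := hN₂ α y N ((le_max_right _ _).trans hN)
  have h1 : (((Finset.range N ×ˢ Finset.range N).filter
      (fun p => ¬ (Ind α y → ∀ γ, LCi α ε ((b ^ p.1 * c ^ p.2) • y) γ))).card : ℝ) ≤ δ / 2 * N ^ 2 := by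
    by_cases hgood : ∀ p ∈ Finset.range N ×ˢ Finset.range N,
        (Ind α y → ∀ γ, LCi α ε ((b ^ p.1 * c ^ p.2) • y) γ)
    · have h0 : (Finset.range N ×ˢ Finset.range N).filter
          (fun p => ¬ (Ind α y → ∀ γ, LCi α ε ((b ^ p.1 * c ^ p.2) • y) γ)) = ∅ := by
        rw [Finset.filter_eq_empty_iff]
        intro p hp h
        exact h (hgood p hp)
      rw [h0]
      simp only [Finset.card_empty, Nat.cast_zero]
      positivity
    · push Not at hgood
      obtain ⟨p₀, -, hy, γ₀, hγ₀⟩ := hgood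
      have hα : Irrational α := by
        by_contra h
        exact hγ₀ (lci_rat hε h _ _)
      have hev : ∀ᶠ n in atTop, ga α n ≤ M := by
        by_contra h
        exact hγ₀ (lci_big hα hMε (not_eventually.1 h) _ _)
      refine le_trans ?_ (hN₁ (KK α M hM0 y) (isClosed_KK α M hM0 y) (KK_nontorsion hα hM0 hev hy)
        (KK_inv hα hM0 y hev) (KK_inv' hα hM0 y hev) N ((le_max_left _ _).trans hN))
      norm_cast
      refine Finset.card_le_card ?_
      intro p hp
      rw [Finset.mem_filter] at hp ⊢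
      refine ⟨hp.1, fun hall => hp.2 fun _ γ => ?_⟩
      obtain ⟨γ', hγ', hd⟩ := mem_iUnion₂.1 (hcov (mem_univ γ))
      rw [Metric.mem_ball, dist_eq_norm] at hd
      obtain ⟨z, hz, hzJ⟩ := hall ⟨γ', hγ'⟩
      refine lci_of_KK hα hM0 hz ?_
      have h3 : ‖((b ^ p.1 * c ^ p.2) • z.2) 0 - γ'‖ < ε / 2 := hzJ
      have h4 : ((b ^ p.1 * c ^ p.2) • z.2) 0 - γ =
          (((b ^ p.1 * c ^ p.2) • z.2) 0 - γ') - (γ - γ') := by abel
      rw [h4]
      refine (norm_sub_le _ _).trans_lt ?_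
      linarith
  have h3 := (Finset.card_le_card hsplit).trans (Finset.card_union_le _ _)
  have h4 : (((Finset.range N ×ˢ Finset.range N).filter
        (fun p => ¬ Full α ε ((b ^ p.1 * c ^ p.2) • y) (Ind α y))).card : ℝ) ≤
      (((Finset.range N ×ˢ Finset.range N).filter
        (fun p => ¬ LC α ε ((b ^ p.1 * c ^ p.2) • y))).card : ℝ) +
      (((Finset.range N ×ˢ Finset.range N).filter
      (fun p => ¬ (Ind α y → ∀ γ, LCi α ε ((b ^ p.1 * c ^ p.2) • y) γ))).card : ℝ) := by
    exact_mod_cast h3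
  linarith

open Classical in
/-- averaging -/
lemma avg_null {b c : ℕ} {μ : Measure Circ} [IsProbabilityMeasure μ]
    (hμb : MeasurePreserving (fun x : Circ => b • x) μ μ)
    (hμc : MeasurePreserving (fun x : Circ => c • x) μ μ) {E : Set Circ} (hEm : MeasurableSet E)
    (h : ∀ δ : ℝ, 0 < δ → ∃ N₀ : ℕ, ∀ y : Circ, ∀ N : ℕ, N₀ ≤ N →
      (((Finset.range N ×ˢ Finset.range N).filter
        (fun p => (b ^ p.1 * c ^ p.2) • y ∈ E)).card : ℝ) ≤ δ * N ^ 2) : μ E = 0 := by
  have hmp : ∀ i j : ℕ, MeasurePreserving (fun x : Circ => (b ^ i * c ^ j) • x) μ μ := by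
    intro i j
    have h1 : ∀ (a : ℕ), MeasurePreserving (fun x : Circ => a • x) μ μ → ∀ i : ℕ,
        MeasurePreserving (fun x : Circ => a ^ i • x) μ μ := by
      intro a ha i
      induction i with
      | zero =>
        have h0 := MeasurePreserving.id μ
        convert h0 using 1
        funext x
        simp
      | succ i ih =>
        have := ih.comp ha
        convert this using 1
        funext x
        simp only [Function.comp, pow_succ, mul_smul]
    have h2 := (h1 b hμb i).comp (h1 c hμc j)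
    convert h2 using 1
    funext x
    simp only [Function.comp, mul_smul]
  have key : ∀ δ : ℝ, 0 < δ → μ E ≤ ENNReal.ofReal δ := by
    intro δ hδ
    obtain ⟨N₀, hN₀⟩ := h δ hδ
    set N := N₀ + 1 with hN
    have hNpos : 0 < N := Nat.succ_pos _
    have hpt : ∀ y : Circ, ∑ p ∈ Finset.range N ×ˢ Finset.range N,
        ((fun x : Circ => (b ^ p.1 * c ^ p.2) • x) ⁻¹' E).indicator (fun _ => (1 : ENNReal)) y ≤
        ENNReal.ofReal (δ * N ^ 2) := by
      intro y
      have h1 := hN₀ y N (Nat.le_succ _)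
      have h2 : ∑ p ∈ Finset.range N ×ˢ Finset.range N,
          ((fun x : Circ => (b ^ p.1 * c ^ p.2) • x) ⁻¹' E).indicator (fun _ => (1 : ENNReal)) y =
          (((Finset.range N ×ˢ Finset.range N).filter
            (fun p => (b ^ p.1 * c ^ p.2) • y ∈ E)).card : ENNReal) := by
        rw [Finset.card_filter]
        push_cast
        refine Finset.sum_congr rfl fun p _ => ?_
        by_cases h3 : (b ^ p.1 * c ^ p.2) • y ∈ E
        · have h4 : y ∈ (fun x : Circ => (b ^ p.1 * c ^ p.2) • x) ⁻¹' E := h3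
          rw [indicator_of_mem h4, if_pos h3]
        · have h4 : y ∉ (fun x : Circ => (b ^ p.1 * c ^ p.2) • x) ⁻¹' E := h3
          rw [indicator_of_notMem h4, if_neg h3]
      rw [h2, ← ENNReal.ofReal_natCast]
      exact ENNReal.ofReal_le_ofReal h1
    have hint : ∑ p ∈ Finset.range N ×ˢ Finset.range N, μ E ≤ ENNReal.ofReal (δ * N ^ 2) := by
      calc ∑ p ∈ Finset.range N ×ˢ Finset.range N, μ E
          = ∑ p ∈ Finset.range N ×ˢ Finset.range N, ∫⁻ y,
            ((fun x : Circ => (b ^ p.1 * c ^ p.2) • x) ⁻¹' E).indicator (fun _ => (1 : ENNReal)) y ∂μ := by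
            refine Finset.sum_congr rfl fun p _ => ?_
            rw [lintegral_indicator ((hmp p.1 p.2).measurable hEm)]
            simp only [lintegral_const, one_mul, Measure.restrict_apply_univ]
            exact ((hmp p.1 p.2).measure_preimage hEm.nullMeasurableSet).symm
        _ = ∫⁻ y, ∑ p ∈ Finset.range N ×ˢ Finset.range N,
            ((fun x : Circ => (b ^ p.1 * c ^ p.2) • x) ⁻¹' E).indicator (fun _ => (1 : ENNReal)) y ∂μ := by
            rw [lintegral_finsetSum]
            intro p _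
            exact measurable_const.indicator ((hmp p.1 p.2).measurable hEm)
        _ ≤ ∫⁻ _, ENNReal.ofReal (δ * N ^ 2) ∂μ := lintegral_mono hpt
        _ = ENNReal.ofReal (δ * N ^ 2) := by simp
    have hsum : ((N * N : ℕ) : ENNReal) * μ E ≤ ENNReal.ofReal (δ * N ^ 2) := by
      refine le_trans (le_of_eq ?_) hint
      rw [Finset.sum_const, Finset.card_product, Finset.card_range, nsmul_eq_mul]
    have hM0 : ((N * N : ℕ) : ENNReal) ≠ 0 := by
      exact_mod_cast (Nat.mul_pos hNpos hNpos).ne'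
    have hMt : ((N * N : ℕ) : ENNReal) ≠ ⊤ := ENNReal.natCast_ne_top _
    have he : δ * (N : ℝ) ^ 2 = ((N * N : ℕ) : ℝ) * δ := by push_cast; ring
    rw [he, ENNReal.ofReal_mul (by positivity), ENNReal.ofReal_natCast] at hsum
    exact (ENNReal.mul_le_mul_iff_right hM0 hMt).1 hsum
  refine le_antisymm ?_ zero_le
  refine ENNReal.le_of_forall_pos_le_add fun ε hε _ => ?_
  have := key ε (by exact_mod_cast hε)
  rw [zero_add]
  simpa using this

lemma measurable_LCi (α ε : ℝ) (γ : Circ) : MeasurableSet {y : Circ | LCi α ε y γ} := by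
  have : {y : Circ | LCi α ε y γ} = ⋂ Q : ℕ, ⋃ q : ℕ, ⋃ (_ : Q ≤ q),
      ⋃ (_ : (q : ℝ) * ‖((q * α : ℝ) : Circ)‖ ≤ 1),
      {y : Circ | (q : ℝ) * ‖((q * α : ℝ) : Circ)‖ * ‖q • y - γ‖ < ε} := by
    ext y
    simp only [LCi, mem_ofPred_eq, frequently_atTop, mem_iInter, mem_iUnion, exists_prop]
  rw [this]
  refine MeasurableSet.iInter fun Q => MeasurableSet.iUnion fun q => MeasurableSet.iUnion fun _ =>
    MeasurableSet.iUnion fun _ => ?_
  refine (isOpen_lt ?_ continuous_const).measurableSet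
  exact continuous_const.mul ((continuous_nsmul q).sub continuous_const).norm

lemma measurable_Ind (α : ℝ) : MeasurableSet {y : Circ | Ind α y} := by
  have : {y : Circ | Ind α y} = ⋂ n : ℕ, ⋂ (_ : 0 < n), ⋂ p : ℤ, {y : Circ | n • y = p • (α : Circ)}ᶜ := by
    ext y
    simp only [Ind, mem_ofPred_eq, mem_iInter, mem_compl_iff, ne_eq]
  rw [this]
  refine MeasurableSet.iInter fun n => MeasurableSet.iInter fun _ => MeasurableSet.iInter fun p => ?_
  exact (isClosed_eq (continuous_nsmul n) continuous_const).measurableSet.compl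

lemma ind_of_mul {α : ℝ} {y : Circ} {m : ℕ} (h : Ind α (m • y)) : Ind α y := by
  intro n hn p hp
  refine h n hn (m * p) ?_
  rw [smul_comm, hp, mul_smul, natCast_zsmul]

open Classical in
/-- almost every point for invariant measures, inhomogeneous version -/
theorem lci_ae_two {b c : ℕ} (hb : 2 ≤ b) (hc : 2 ≤ c) (hirr : Irrational (Real.log b / Real.log c))
    {μ : Measure Circ} [IsProbabilityMeasure μ] (hμb : MeasurePreserving (fun x : Circ => b • x) μ μ)
    (hμc : MeasurePreserving (fun x : Circ => c • x) μ μ) (α : ℝ) :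
    ∀ᵐ y ∂μ, Ind α y → ∀ γ : Circ, ∀ ε : ℝ, 0 < ε → LCi α ε y γ := by
  obtain ⟨D, hDc, hDd⟩ := TopologicalSpace.exists_countable_dense Circ
  have h1 : ∀ᵐ y ∂μ, ∀ k : ℕ, ∀ γ ∈ D, Ind α y → LCi α (1 / ((k : ℝ) + 1)) y γ := by
    rw [ae_all_iff]; intro k
    rw [ae_ball_iff hDc]; intro γ _
    have hε : (0 : ℝ) < 1 / ((k : ℝ) + 1) := by positivity
    have h2 : μ ({y : Circ | Ind α y} ∩ {y : Circ | LCi α (1 / ((k : ℝ) + 1)) y γ}ᶜ) = 0 := by
      refine avg_null hμb hμc ((measurable_Ind α).inter (measurable_LCi _ _ _).compl) ?_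
      intro δ hδ
      obtain ⟨N₀, hN₀⟩ := full_two hb hc hirr hε hδ
      refine ⟨N₀, fun y N hN => le_trans ?_ (hN₀ α y N hN)⟩
      norm_cast
      refine Finset.card_le_card ?_
      intro p hp
      rw [Finset.mem_filter] at hp ⊢
      refine ⟨hp.1, fun hfull => hp.2.2 ?_⟩
      exact hfull.2 (ind_of_mul hp.2.1) γ
    rw [ae_iff]
    refine measure_mono_null ?_ h2
    intro y hy
    simp only [mem_ofPred_eq, Classical.not_imp] at hy
    exact hy
  filter_upwards [h1] with y hy hind γ ε hε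
  obtain ⟨k, hk⟩ := exists_nat_one_div_lt (show 0 < ε / 2 by positivity)
  obtain ⟨γ', hγ', hd⟩ := hDd.exists_dist_lt γ (show 0 < ε / 2 by positivity)
  rw [dist_eq_norm] at hd
  refine (hy k γ' hγ' hind).mono fun q hq => ⟨hq.1, ?_⟩
  set u : ℝ := (q : ℝ) * ‖((q * α : ℝ) : Circ)‖ with hu
  have hu0 : 0 ≤ u := by positivity
  have h4 : q • y - γ = (q • y - γ') - (γ - γ') := by abel
  have h5 : ‖q • y - γ‖ ≤ ‖q • y - γ'‖ + ‖γ - γ'‖ := by
    rw [h4]; exact norm_sub_le _ _
  calc u * ‖q • y - γ‖ ≤ u * (‖q • y - γ'‖ + ‖γ - γ'‖) := by gcongr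
    _ = u * ‖q • y - γ'‖ + u * ‖γ - γ'‖ := by ring
    _ ≤ u * ‖q • y - γ'‖ + 1 * ‖γ - γ'‖ := by gcongr; exact hq.1
    _ < ε / 2 + ε / 2 := by
        have h6 := hq.2.trans hk
        linarith
    _ = ε := by ring

lemma lci_real {α ε β γ : ℝ} (h : LCi α ε (β : Circ) (γ : Circ)) :
    ∃ᶠ q : ℕ in atTop, (q : ℝ) * |q * α - round (q * α)| *
      |q * β - γ - round (q * β - γ)| < ε := by
  refine h.mono fun q hq => ?_
  have h1 : ‖((q * α : ℝ) : Circ)‖ = |q * α - round (q * α)| := UnitAddCircle.norm_eq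
  have h2 : ‖q • (β : Circ) - (γ : Circ)‖ = |q * β - γ - round (q * β - γ)| := by
    rw [← coe_nmul, ← AddCircle.coe_sub]
    exact UnitAddCircle.norm_eq
  rw [← h1, ← h2]
  exact hq.2

lemma lc_real0 {α ε β : ℝ} (h : LC α ε (β : Circ)) :
    ∃ᶠ q : ℕ in atTop, (q : ℝ) * |q * α - round (q * α)| *
      |q * β - 0 - round (q * β - 0)| < ε := by
  rw [lc_iff] at h
  simpa only [sub_zero] using h

lemma ind_of_real {α β : ℝ} (h : ∀ r s : ℚ, β ≠ r + s * α) : Ind α (β : Circ) := by
  intro n hn p hp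
  have hnR : (n : ℝ) ≠ 0 := by positivity
  rw [← coe_nmul, ← coe_zmul] at hp
  obtain ⟨m, hm⟩ := exists_int hp
  apply h (m / n) (p / n)
  push_cast
  field_simp
  linarith

end Pool.Agent.W765.Sk
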