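import Mathlib
import Pool.Agent.H705R2.Orb
import Pool.Agent.H705R2.Quad2

set_option autoImplicit false

open MeasureTheory Filter Topology Set

namespace Pool.Agent.W765.Sta

open Pool.Agent.H705R2

variable {Ω : Type*} [MeasurableSpace Ω]

/-- measurability of a random set: the event that it meets an open set is measurable -/
def Hit (F : Ω → Set Circ) : Prop := ∀ V : Set Circ, IsOpen V → MeasurableSet {ω | (F ω ∩ V).Nonempty}

/-- `0` is an accumulation point -/
def Acc0 (A : Set Circ) : Prop := ∀ ε > 0, ∃ x ∈ A, x ≠ 0 ∧ ‖x‖ < ε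

lemma measurable_acc0 {A : Ω → Set Circ} (hm : Hit A) : MeasurableSet {ω | Acc0 (A ω)} := by
  have h : {ω | Acc0 (A ω)} = ⋂ n : ℕ, {ω | (A ω ∩ ({0}ᶜ ∩ Metric.ball 0 (1 / ((n : ℝ) + 1)))).Nonempty} := by
    ext ω
    simp only [mem_ofPred_eq, mem_iInter, Acc0]
    constructor
    · intro h n
      obtain ⟨x, hx, hx0, hxn⟩ := h (1 / ((n : ℝ) + 1)) (by positivity)
      exact ⟨x, hx, hx0, by simpa using hxn⟩
    · intro h ε hε
      obtain ⟨n, hn⟩ := exists_nat_one_div_lt hε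
      obtain ⟨x, hx, hx0, hxn⟩ := h n
      refine ⟨x, hx, hx0, ?_⟩
      have : ‖x‖ < 1 / ((n : ℝ) + 1) := by simpa using hxn
      exact this.trans hn
  rw [h]
  refine MeasurableSet.iInter fun n => hm _ ?_
  exact isOpen_compl_singleton.inter Metric.isOpen_ball

lemma iterate_mem {q : ℕ} {σ : Ω → Ω} {A : Ω → Set Circ}
    (hq' : ∀ ω, ∀ x ∈ A ω, q • x ∈ A (σ ω)) (m : ℕ) :
    ∀ ω, ∀ x ∈ A ω, q ^ m • x ∈ A (σ^[m] ω) := by
  induction m with
  | zero => intro ω x hx; simpa using hx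
  | succ m ih =>
    intro ω x hx
    rw [Function.iterate_succ_apply, pow_succ, mul_smul]
    exact ih _ _ (hq' ω x hx)

/-- Core lemma: a stationary random closed set with an accumulation point at `0` is everything. -/
theorem core {p q : ℕ} (hp : 2 ≤ p) (hq : 2 ≤ q) (h : MulIndep p q) {P : Measure Ω}
    [IsProbabilityMeasure P] {σ : Ω → Ω} (hσ : MeasurePreserving σ P P) {A : Ω → Set Circ}
    (hA : ∀ ω, IsClosed (A ω)) (hm : Hit A) (hp' : ∀ ω, ∀ x ∈ A ω, p • x ∈ A ω)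
    (hq' : ∀ ω, ∀ x ∈ A ω, q • x ∈ A (σ ω)) : ∀ᵐ ω ∂P, Acc0 (A ω) → A ω = univ := by
  obtain ⟨b, hbc, hbe, hb⟩ := TopologicalSpace.exists_countable_basis Circ
  have hnull : ∀ V ∈ b, P {ω | Acc0 (A ω) ∧ ¬ (A ω ∩ V).Nonempty} = 0 := by
    intro V hV
    have hVo : IsOpen V := hb.isOpen hV
    have hVn : V.Nonempty := nonempty_iff_ne_empty.2 (fun h0 => hbe (h0 ▸ hV))
    refine recur hσ ((measurable_acc0 hm).inter (hm V hVo).compl) ?_
    rintro ω ⟨h1, h2⟩
    refine (lemmaC hp hq h (hA ω) (hp' ω) h1 hVo hVn).mono ?_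
    intro m hmB x hx hxV
    exact hmB.2 ⟨_, iterate_mem hq' m ω x hx, hxV⟩
  have hall : ∀ᵐ ω ∂P, ∀ V ∈ b, ¬ (Acc0 (A ω) ∧ ¬ (A ω ∩ V).Nonempty) := by
    rw [ae_ball_iff hbc]
    intro V hV
    rw [ae_iff]
    simpa using hnull V hV
  filter_upwards [hall] with ω hω hacc
  have hd : Dense (A ω) := by
    rw [hb.dense_iff]
    intro V hV _
    by_contra hcon
    refine hω V hV ⟨hacc, ?_⟩
    rw [inter_comm]; exact hcon
  rw [← (hA ω).closure_eq]
  exact hd.closure_eq

/-- Measurability lemma for random closed sets. -/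
theorem measurable_exists {F : Ω → Set Circ} (hF : ∀ ω, IsClosed (F ω)) (hm : Hit F)
    {Z : Type*} [MetricSpace Z] [CompactSpace Z] {E : Set Z} (hE : IsClosed E) {ι : Type*}
    [Finite ι] (h : ι → Z → Circ) (hh : ∀ i, Continuous (h i)) :
    MeasurableSet {ω | ∃ z ∈ E, ∀ i, h i z ∈ F ω} := by
  obtain ⟨D, hDE, hDc, hDd⟩ : ∃ D : Set Z, D ⊆ E ∧ D.Countable ∧ E ⊆ closure D :=
    (TopologicalSpace.IsSeparable.of_separableSpace E).exists_countable_dense_subset
  have heq : {ω | ∃ z ∈ E, ∀ i, h i z ∈ F ω} =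
      ⋂ n : ℕ, ⋃ z ∈ D, ⋂ i, {ω | (F ω ∩ Metric.ball (h i z) (1 / ((n : ℝ) + 1))).Nonempty} := by
    ext ω
    simp only [mem_ofPred_eq, mem_iInter, mem_iUnion]
    constructor
    · rintro ⟨z, hz, hzF⟩ n
      have hpos : (0 : ℝ) < 1 / ((n : ℝ) + 1) := by positivity
      have hopen : IsOpen (⋂ i, {w : Z | h i z ∈ Metric.ball (h i w) (1 / ((n : ℝ) + 1))}) := by
        refine isOpen_iInter_of_finite fun i => ?_
        simp only [Metric.mem_ball]
        exact isOpen_lt (continuous_const.dist (hh i)) continuous_const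
      obtain ⟨w, hw1, hw2⟩ := mem_closure_iff.1 (hDd hz) _ hopen (by
        rw [mem_iInter]; intro i; simpa using hpos)
      rw [mem_iInter] at hw1
      exact ⟨w, hw2, fun i => ⟨h i z, hzF i, hw1 i⟩⟩
    · intro H
      choose z hz ha using H
      obtain ⟨w, hw, φ, hφ, hlim⟩ := hE.isCompact.tendsto_subseq (fun n => hDE (hz n))
      refine ⟨w, hw, fun i => ?_⟩
      rw [← (hF ω).closure_eq]
      refine Metric.mem_closure_iff.2 fun ε hε => ?_
      have hc : Tendsto (fun n => h i (z (φ n))) atTop (𝓝 (h i w)) := ((hh i).tendsto w).comp hlim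
      have h1 : ∀ᶠ n in atTop, dist (h i (z (φ n))) (h i w) < ε / 2 :=
        (Metric.tendsto_nhds.1 hc) (ε / 2) (by positivity)
      have h2 : Tendsto (fun n : ℕ => 1 / ((n : ℝ) + 1)) atTop (𝓝 0) :=
        tendsto_one_div_add_atTop_nhds_zero_nat
      have h3 : ∀ᶠ n in atTop, 1 / (((φ n : ℕ) : ℝ) + 1) < ε / 2 :=
        (h2.comp hφ.tendsto_atTop).eventually_lt_const (by positivity)
      obtain ⟨n, hn1, hn2⟩ := (h1.and h3).exists
      obtain ⟨y, hy, hyb⟩ := ha (φ n) i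
      refine ⟨y, hy, ?_⟩
      rw [Metric.mem_ball] at hyb
      calc dist (h i w) y ≤ dist (h i w) (h i (z (φ n))) + dist (h i (z (φ n))) y := dist_triangle _ _ _
        _ < ε / 2 + ε / 2 := by
            rw [dist_comm (h i w), dist_comm _ y]
            have := hyb.trans hn2
            linarith
        _ = ε := by ring
  rw [heq]
  exact MeasurableSet.iInter fun n => MeasurableSet.biUnion hDc fun z _ =>
    MeasurableSet.iInter fun i => hm _ Metric.isOpen_ball

/-- it is enough to hit closed sets -/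
lemma hit_of_closed {F : Ω → Set Circ}
    (h : ∀ C : Set Circ, IsClosed C → MeasurableSet {ω | (F ω ∩ C).Nonempty}) : Hit F := by
  intro V hV
  obtain ⟨C, hC, -, hCV, -⟩ := hV.exists_iUnion_isClosed
  have : {ω | (F ω ∩ V).Nonempty} = ⋃ n, {ω | (F ω ∩ C n).Nonempty} := by
    ext ω
    simp only [mem_ofPred_eq, mem_iUnion]
    rw [← hCV, inter_iUnion, nonempty_iUnion]
  rw [this]
  exact MeasurableSet.iUnion fun n => h _ (hC n)

end Pool.Agent.W765.Sta
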