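import Mathlib
import Pool.Agent.W765.Sta1
import Pool.Agent.H847R3.SuppA

set_option autoImplicit false

open MeasureTheory Filter Topology Set

namespace Pool.Agent.W765.Sta

open Pool.Agent.H705R2

variable {Ω : Type*} [MeasurableSpace Ω]

/-- the points `y` with `y, y + τ, …, y + r τ` in the set -/
def L (F : Ω → Set Circ) (τ : Circ) (r : ℕ) (ω : Ω) : Set Circ :=
  {y | ∀ l : Fin (r + 1), y + (l : ℕ) • τ ∈ F ω}

/-- the differences -/
def D (F : Ω → Set Circ) (τ : Circ) (r : ℕ) (ω : Ω) : Set Circ :=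
  {u | ∃ y ∈ L F τ r ω, ∃ y' ∈ L F τ r ω, u = y' - y}

omit [MeasurableSpace Ω] in
lemma isClosed_L {F : Ω → Set Circ} (hF : ∀ ω, IsClosed (F ω)) (τ : Circ) (r : ℕ) (ω : Ω) :
    IsClosed (L F τ r ω) := by
  have : L F τ r ω = ⋂ l : Fin (r + 1), (fun y => y + (l : ℕ) • τ) ⁻¹' (F ω) := by
    ext y; simp [L]
  rw [this]
  exact isClosed_iInter fun l => (hF ω).preimage (by fun_prop)

omit [MeasurableSpace Ω] in
lemma isClosed_D {F : Ω → Set Circ} (hF : ∀ ω, IsClosed (F ω)) (τ : Circ) (r : ℕ) (ω : Ω) :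
    IsClosed (D F τ r ω) := by
  have hL := (isClosed_L hF τ r ω).isCompact
  have : D F τ r ω = (fun z : Circ × Circ => z.2 - z.1) '' (L F τ r ω ×ˢ L F τ r ω) := by
    ext u
    simp only [D, mem_ofPred_eq, mem_image, mem_prod, Prod.exists]
    constructor
    · rintro ⟨y, hy, y', hy', rfl⟩; exact ⟨y, y', ⟨hy, hy'⟩, rfl⟩
    · rintro ⟨y, y', ⟨hy, hy'⟩, rfl⟩; exact ⟨y, hy, y', hy', rfl⟩
  rw [this]
  exact ((hL.prod hL).image (by fun_prop)).isClosed

lemma hit_D {F : Ω → Set Circ} (hF : ∀ ω, IsClosed (F ω)) (hm : Hit F) (τ : Circ) (r : ℕ) :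
    Hit (D F τ r) := by
  refine hit_of_closed fun C hC => ?_
  have h := measurable_exists hF hm (E := (fun z : Circ × Circ => z.2 - z.1) ⁻¹' C)
    (hC.preimage (by fun_prop)) (ι := Fin (r + 1) × Bool)
    (fun i z => (if i.2 then z.1 else z.2) + (i.1 : ℕ) • τ) (by
      rintro ⟨l, b⟩
      cases b
      · simpa using (by fun_prop : Continuous fun z : Circ × Circ => z.2 + (l : ℕ) • τ)
      · simpa using (by fun_prop : Continuous fun z : Circ × Circ => z.1 + (l : ℕ) • τ))
  convert h using 1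
  ext ω
  simp only [mem_ofPred_eq]
  constructor
  · rintro ⟨u, ⟨y, hy, y', hy', rfl⟩, hu⟩
    refine ⟨(y, y'), hu, ?_⟩
    rintro ⟨l, b⟩
    cases b
    · simpa using hy' l
    · simpa using hy l
  · rintro ⟨⟨y, y'⟩, hu, h⟩
    refine ⟨y' - y, ⟨y, fun l => ?_, y', fun l => ?_, rfl⟩, hu⟩
    · simpa using h (l, true)
    · simpa using h (l, false)

omit [MeasurableSpace Ω] in
lemma smul_mem_L {F : Ω → Set Circ} {τ : Circ} {r b : ℕ} {ω ω' : Ω}
    (hp' : ∀ x ∈ F ω, b • x ∈ F ω') (hτ : b • τ = τ) {y : Circ} (hy : y ∈ L F τ r ω) :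
    b • y ∈ L F τ r ω' := by
  intro l
  have := hp' _ (hy l)
  rwa [smul_add, smul_comm, hτ] at this

omit [MeasurableSpace Ω] in
lemma smul_mem_D {F : Ω → Set Circ} {τ : Circ} {r b : ℕ} {ω ω' : Ω}
    (hp' : ∀ x ∈ F ω, b • x ∈ F ω') (hτ : b • τ = τ) {y : Circ} (hy : y ∈ D F τ r ω) :
    b • y ∈ D F τ r ω' := by
  obtain ⟨y1, h1, y2, h2, rfl⟩ := hy
  exact ⟨_, smul_mem_L hp' hτ h1, _, smul_mem_L hp' hτ h2, by rw [smul_sub]⟩

/-- an infinite set has small nonzero differences -/
lemma acc0_of_infinite {S : Set Circ} (hS : S.Infinite) :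
    Acc0 {u | ∃ y ∈ S, ∃ y' ∈ S, u = y' - y} := by
  intro ε hε
  by_contra hcon
  push Not at hcon
  apply hS
  -- the points are ε separated
  have hsep : ∀ y ∈ S, ∀ y' ∈ S, y ≠ y' → ε ≤ dist y y' := by
    intro y hy y' hy' hne
    have := hcon (y - y') ⟨y', hy', y, hy, rfl⟩ (sub_ne_zero.2 hne)
    rwa [← dist_eq_norm] at this
  obtain ⟨t, ht, hcov⟩ := Metric.totallyBounded_iff.1 (isCompact_univ (X := Circ)).totallyBounded
    (ε / 2) (by positivity)
  have hch : ∀ y : Circ, ∃ c ∈ t, dist y c < ε / 2 := by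
    intro y
    have := hcov (mem_univ y)
    simp only [mem_iUnion, Metric.mem_ball, exists_prop] at this
    exact this
  choose c hct hc using hch
  refine Set.Finite.of_injOn (f := c) (t := t) (fun y _ => hct y) ?_ ht
  intro y hy y' hy' hyy
  by_contra hne
  have h1 := hsep y hy y' hy' hne
  have h2 : dist y y' < ε := by
    calc dist y y' ≤ dist y (c y) + dist (c y) y' := dist_triangle _ _ _
      _ < ε / 2 + ε / 2 := by
        have h3 := hc y
        have h4 := hc y'
        rw [← hyy, dist_comm] at h4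
        linarith
      _ = ε := by ring
  linarith

/-- a set invariant under `b ≥ 2` which contains a point of infinite order is infinite -/
lemma infinite_of_inv {S : Set Circ} {b : ℕ} (hb : 2 ≤ b) (hinv : ∀ x ∈ S, b • x ∈ S) {y : Circ}
    (hy : y ∈ S) (ho : ¬ IsOfFinAddOrder y) : S.Infinite := by
  have hmem : ∀ n : ℕ, b ^ n • y ∈ S := by
    intro n
    induction n with
    | zero => simpa using hy
    | succ n ih => rw [pow_succ', mul_smul]; exact hinv _ ih
  have hinj : Function.Injective (fun n : ℕ => b ^ n • y) :=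
    Pool.Agent.H847R3.XpXq.orbit_inj hb ho
  exact (infinite_range_of_injective hinj).mono (by rintro _ ⟨n, rfl⟩; exact hmem n)

lemma mulIndep_pow {p q : ℕ} (h : MulIndep p q) {m : ℕ} (hm : 0 < m) :
    MulIndep (p ^ m) (q ^ m) := by
  intro a b hab
  rw [← pow_mul, ← pow_mul] at hab
  have := h _ _ hab
  constructor
  · rcases Nat.mul_eq_zero.1 this.1 with h1 | h1
    · omega
    · exact h1
  · rcases Nat.mul_eq_zero.1 this.2 with h1 | h1
    · omega
    · exact h1

/-- the point `1/N` -/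
noncomputable def tau (N : ℕ) : Circ := ((1 / (N : ℝ) : ℝ) : Circ)

lemma smul_tau {N : ℕ} (hN : 0 < N) : N • tau N = 0 := by
  unfold tau
  rw [← AddCircle.coe_nsmul, AddCircle.coe_eq_zero_iff]
  refine ⟨1, ?_⟩
  have : (N : ℝ) ≠ 0 := by positivity
  simp only [zsmul_eq_mul, nsmul_eq_mul]
  field_simp
  norm_num

lemma pow_smul_eq {d b : ℕ} (hb : Nat.Coprime b d) {t : Circ} (ht : d • t = 0) :
    b ^ (Nat.totient d) • t = t := by
  have h1 : b ^ (Nat.totient d) ≡ 1 [MOD d] := Nat.ModEq.pow_totient hb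
  rw [Nat.ModEq, ] at h1
  have h2 : addOrderOf t ∣ d := addOrderOf_dvd_of_nsmul_eq_zero ht
  have h3 : (b ^ (Nat.totient d)) ≡ 1 [MOD addOrderOf t] := Nat.ModEq.of_dvd h2 h1
  have h4 := (nsmul_eq_nsmul_iff_modEq (x := t)).2 h3
  rw [h4, one_smul]

/-- Lemma 2: a stationary random closed set which is infinite contains a torsion point. -/
theorem exists_torsion {p q : ℕ} (hp : 2 ≤ p) (hq : 2 ≤ q) (h : MulIndep p q) {P : Measure Ω}
    [IsProbabilityMeasure P] {σ : Ω → Ω} (hσ : MeasurePreserving σ P P) {G : Ω → Set Circ}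
    (hG : ∀ ω, IsClosed (G ω)) (hm : Hit G) (hp' : ∀ ω, ∀ x ∈ G ω, p • x ∈ G ω)
    (hq' : ∀ ω, ∀ x ∈ G ω, q • x ∈ G (σ ω)) :
    ∀ᵐ ω ∂P, (G ω).Infinite → ∃ t ∈ G ω, IsOfFinAddOrder t := by
  have hpm : ∀ m : ℕ, ∀ ω, ∀ x ∈ G ω, p ^ m • x ∈ G ω := by
    intro m
    induction m with
    | zero => intro ω x hx; simpa using hx
    | succ m ih => intro ω x hx; rw [pow_succ, mul_smul]; exact ih _ _ (hp' ω x hx)
  have hcore : ∀ N : ℕ, Nat.Coprime (p * q) N → 0 < N → ∀ r : ℕ, ∀ᵐ ω ∂P,
      Acc0 (D G (tau N) r ω) → D G (tau N) r ω = univ := by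
    intro N hN hN0 r
    set m := Nat.totient N with hmdef
    have hm0 : 0 < m := Nat.totient_pos.2 hN0
    have hpN : p ^ m • tau N = tau N := pow_smul_eq (Nat.Coprime.coprime_mul_right hN) (smul_tau hN0)
    have hqN : q ^ m • tau N = tau N := pow_smul_eq (Nat.Coprime.coprime_mul_left hN) (smul_tau hN0)
    have h2p : 2 ≤ p ^ m := hp.trans (Nat.le_self_pow hm0.ne' p)
    have h2q : 2 ≤ q ^ m := hq.trans (Nat.le_self_pow hm0.ne' q)
    refine core h2p h2q (mulIndep_pow h hm0) (hσ.iterate m) (isClosed_D hG _ _) (hit_D hG hm _ _) ?_ ?_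
    · intro ω x hx
      exact smul_mem_D (hpm m ω) hpN hx
    · intro ω x hx
      exact smul_mem_D (iterate_mem hq' m ω) hqN hx
  have hall : ∀ᵐ ω ∂P, ∀ N : ℕ, ∀ r : ℕ, Nat.Coprime (p * q) N → 0 < N →
      Acc0 (D G (tau N) r ω) → D G (tau N) r ω = univ := by
    rw [ae_all_iff]; intro N
    rw [ae_all_iff]; intro r
    by_cases h1 : Nat.Coprime (p * q) N
    · by_cases h2 : 0 < N
      · filter_upwards [hcore N h1 h2 r] with ω hω _ _ using hω
      · exact Eventually.of_forall fun ω _ h3 => absurd h3 h2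
    · exact Eventually.of_forall fun ω h3 => absurd h3 h1
  filter_upwards [hall] with ω hω hinf
  by_contra hcon
  push Not at hcon
  -- all the sets `L` are infinite
  have hL : ∀ N : ℕ, Nat.Coprime (p * q) N → 0 < N → ∀ r : ℕ, (L G (tau N) r ω).Infinite := by
    intro N hN hN0 r
    have hpN : p ^ (Nat.totient N) • tau N = tau N :=
      pow_smul_eq (Nat.Coprime.coprime_mul_right hN) (smul_tau hN0)
    have h2p : 2 ≤ p ^ (Nat.totient N) := hp.trans (Nat.le_self_pow (Nat.totient_pos.2 hN0).ne' p)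
    induction r with
    | zero =>
      have : L G (tau N) 0 ω = G ω := by
        ext y
        simp [L]
      rw [this]; exact hinf
    | succ r ih =>
      have h1 := hω N r hN hN0 (acc0_of_infinite ih)
      have h2 : tau N ∈ D G (tau N) r ω := by rw [h1]; trivial
      obtain ⟨y, hy, y', hy', he⟩ := h2
      have hy'' : y ∈ L G (tau N) (r + 1) ω := by
        intro l
        rcases Nat.lt_or_ge (l : ℕ) (r + 1) with hl | hl
        · exact hy ⟨l, hl⟩
        · have hl' : (l : ℕ) = r + 1 := by omega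
          have h3 := hy' ⟨r, by omega⟩
          have h4 : y + (l : ℕ) • tau N = y' + (r : ℕ) • tau N := by
            rw [hl', succ_nsmul]
            have : y' = y + tau N := by rw [he]; abel
            rw [this]; abel
          rw [h4]; exact h3
      refine infinite_of_inv h2p ?_ hy'' ?_
      · intro x hx
        exact smul_mem_L (hpm _ ω) hpN hx
      · have h0 := hy'' 0
        have : y ∈ G ω := by simpa using h0
        exact hcon y this
  -- hence the set is dense
  have hdense : Dense (G ω) := by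
    rw [Metric.dense_iff]
    intro z ε hε
    obtain ⟨n, hn⟩ := exists_nat_one_div_lt hε
    obtain ⟨N, hN1, hN2⟩ : ∃ N : ℕ, n + 1 ≤ N ∧ Nat.Coprime (p * q) N := by
      refine ⟨p * q * (n + 1) + 1, by nlinarith [Nat.mul_le_mul hp hq], ?_⟩
      rw [mul_comm (p * q) (n + 1)]
      simp
    have hN0 : 0 < N := by omega
    obtain ⟨y, hy⟩ := (hL N hN2 hN0 (N - 1)).nonempty
    obtain ⟨s, hs⟩ := QuotientAddGroup.mk_surjective (z - y)
    have hNR : (0 : ℝ) < N := by exact_mod_cast hN0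
    set f := Int.fract s with hf
    have hfs : ((f : ℝ) : Circ) = z - y := by
      rw [← hs, hf]
      change ((Int.fract s : ℝ) : Circ) = (s : Circ)
      rw [← Int.self_sub_floor, AddCircle.coe_sub]
      have h2 : (((⌊s⌋ : ℤ) : ℝ) : Circ) = 0 := by
        rw [AddCircle.coe_eq_zero_iff]; exact ⟨⌊s⌋, by simp⟩
      rw [h2, sub_zero]
    have hf0 : 0 ≤ f := Int.fract_nonneg s
    have hf1 : f < 1 := Int.fract_lt_one s
    set l := ⌊f * N⌋₊ with hl
    have hl1 : (l : ℝ) ≤ f * N := Nat.floor_le (by positivity)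
    have hl2 : f * N < l + 1 := Nat.lt_floor_add_one _
    have hlN : l < N := by
      have : (l : ℝ) < N := lt_of_le_of_lt hl1 (by nlinarith)
      exact_mod_cast this
    refine ⟨y + l • tau N, ?_, hy ⟨l, by omega⟩⟩
    rw [Metric.mem_ball, dist_comm, dist_eq_norm]
    have h5 : z - (y + l • tau N) = ((f - l / N : ℝ) : Circ) := by
      rw [AddCircle.coe_sub, hfs]
      unfold tau
      rw [← AddCircle.coe_nsmul, nsmul_eq_mul, mul_one_div]
      abel
    rw [h5]
    have h6 : ‖((f - l / N : ℝ) : Circ)‖ ≤ |f - l / N| := by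
      have := Pool.Agent.H847R3.XpXq.dist_coe_le (f - l / N) 0
      rw [AddCircle.coe_zero, dist_zero_right, sub_zero] at this
      exact this
    have h7 : |f - l / N| ≤ 1 / N := by
      rw [abs_of_nonneg (by rw [sub_nonneg, div_le_iff₀ hNR]; exact hl1)]
      rw [sub_le_iff_le_add, ← add_div, le_div_iff₀ hNR]
      linarith
    have h8 : 1 / (N : ℝ) ≤ 1 / ((n : ℝ) + 1) :=
      one_div_le_one_div_of_le (by positivity) (by exact_mod_cast hN1)
    linarith
  have huniv : G ω = univ := by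
    rw [← (hG ω).closure_eq]; exact hdense.closure_eq
  exact hcon 0 (by rw [huniv]; trivial) (IsOfFinAddOrder.zero)

end Pool.Agent.W765.Sta
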