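import Mathlib
import Pool.Agent.W765.Sta2

set_option autoImplicit false

open MeasureTheory Filter Topology Set

namespace Pool.Agent.W765.Sta

open Pool.Agent.H705R2

variable {Ω : Type*} [MeasurableSpace Ω]

/-- derived set -/
def Der (F : Ω → Set Circ) (ω : Ω) : Set Circ := {z | ∀ ε > 0, ∃ x ∈ F ω, x ≠ z ∧ dist x z < ε}

omit [MeasurableSpace Ω] in
lemma isClosed_Der (F : Ω → Set Circ) (ω : Ω) : IsClosed (Der F ω) := by
  rw [← closure_subset_iff_isClosed]
  intro z hz ε hε
  obtain ⟨z', hz', hd⟩ := Metric.mem_closure_iff.1 hz (ε / 2) (by positivity)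
  by_cases h : z' = z
  · subst h
    exact hz' ε hε
  · have h0 : 0 < dist z z' := dist_pos.2 (Ne.symm h)
    obtain ⟨x, hx, hxz, hd'⟩ := hz' (min (ε / 2) (dist z z')) (lt_min (by positivity) h0)
    refine ⟨x, hx, ?_, ?_⟩
    · rintro rfl
      exact absurd (lt_of_lt_of_le hd' (min_le_right _ _)) (lt_irrefl _)
    · calc dist x z ≤ dist x z' + dist z z' := dist_triangle_right _ _ _
        _ < ε / 2 + ε / 2 := add_lt_add (lt_of_lt_of_le hd' (min_le_left _ _)) hd
        _ = ε := by ring

omit [MeasurableSpace Ω] in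
lemma Der_subset {F : Ω → Set Circ} (hF : ∀ ω, IsClosed (F ω)) (ω : Ω) : Der F ω ⊆ F ω := by
  intro z hz
  rw [← (hF ω).closure_eq]
  refine Metric.mem_closure_iff.2 fun ε hε => ?_
  obtain ⟨x, hx, -, hd⟩ := hz ε hε
  exact ⟨x, hx, by rwa [dist_comm]⟩

omit [MeasurableSpace Ω] in
lemma smul_mem_Der {F : Ω → Set Circ} {s : ℕ} (hs : 1 ≤ s) {ω ω' : Ω}
    (h : ∀ x ∈ F ω, s • x ∈ F ω') {z : Circ} (hz : z ∈ Der F ω) : s • z ∈ Der F ω' := by
  intro ε hε
  have hs0 : (0 : ℝ) < s := by exact_mod_cast hs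
  obtain ⟨x, hx, hxz, hd⟩ := hz (min (ε / s) (1 / s)) (lt_min (by positivity) (by positivity))
  obtain ⟨r, hr, hrn⟩ := Pool.Agent.H847R3.XpXq.exists_rep_norm (x - z)
  rw [dist_eq_norm] at hd
  have hr1 : s * |r| < ε := by
    have := lt_of_lt_of_le hd (min_le_left _ _)
    rw [← hrn, lt_div_iff₀ hs0] at this
    linarith
  have hr2 : s * |r| < 1 := by
    have := lt_of_lt_of_le hd (min_le_right _ _)
    rw [← hrn, lt_div_iff₀ hs0] at this
    linarith
  have e : s • x - s • z = ((s * r : ℝ) : Circ) := by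
    rw [← nsmul_sub, ← hr, ← AddCircle.coe_nsmul, nsmul_eq_mul]
  refine ⟨s • x, h x hx, ?_, ?_⟩
  · intro heq
    rw [← sub_eq_zero, e, AddCircle.coe_eq_zero_iff] at heq
    obtain ⟨n, hn⟩ := heq
    simp only [zsmul_eq_mul, mul_one] at hn
    have h1 : |(n : ℝ)| < 1 := by rw [hn, abs_mul, abs_of_pos hs0]; exact hr2
    have h2 : n = 0 := by
      have : |n| < 1 := by exact_mod_cast h1
      exact Int.abs_lt_one_iff.1 this
    rw [h2] at hn
    have h3 : r = 0 := by
      have : (s : ℝ) * r = 0 := by rw [← hn]; simp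
      rcases mul_eq_zero.1 this with h | h
      · exact absurd h hs0.ne'
      · exact h
    rw [h3] at hrn
    apply hxz
    rw [← sub_eq_zero, ← norm_eq_zero, ← hrn]; simp
  · rw [dist_eq_norm, e]
    have := Pool.Agent.H847R3.XpXq.dist_coe_le (s * r) 0
    rw [AddCircle.coe_zero, dist_zero_right, sub_zero, abs_mul, abs_of_pos hs0] at this
    linarith

lemma measurable_infinite {F : Ω → Set Circ} (hF : ∀ ω, IsClosed (F ω)) (hm : Hit F)
    {K : Set Circ} (hK : IsClosed K) : MeasurableSet {ω | (F ω ∩ K).Infinite} := by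
  have heq : {ω | (F ω ∩ K).Infinite} = ⋂ k : ℕ, ⋃ m : ℕ,
      {ω | ∃ z ∈ {z : Fin k → Circ | (∀ i, z i ∈ K) ∧ ∀ i j, i ≠ j → 1 / ((m : ℝ) + 1) ≤ dist (z i) (z j)},
        ∀ i, z i ∈ F ω} := by
    ext ω
    simp only [mem_ofPred_eq, mem_iInter, mem_iUnion]
    constructor
    · intro hinf k
      obtain ⟨t, hts, htc⟩ := hinf.exists_subset_card_eq k
      let e := t.equivFinOfCardEq htc
      let z : Fin k → Circ := fun i => (e.symm i : Circ)
      have hzinj : ∀ i j, i ≠ j → z i ≠ z j := by
        intro i j hij h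
        exact hij (e.symm.injective (Subtype.ext h))
      have hpair : ∀ i j : Fin k, ∃ m : ℕ, i ≠ j → 1 / ((m : ℝ) + 1) ≤ dist (z i) (z j) := by
        intro i j
        by_cases hij : i = j
        · exact ⟨0, fun h => absurd hij h⟩
        · obtain ⟨m, hm⟩ := exists_nat_one_div_lt (dist_pos.2 (hzinj i j hij))
          exact ⟨m, fun _ => hm.le⟩
      choose mm hmm using hpair
      refine ⟨Finset.univ.sup fun i => Finset.univ.sup fun j => mm i j, z, ⟨fun i => ?_, ?_⟩, fun i => ?_⟩
      · exact (hts (e.symm i).2).2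
      · intro i j hij
        refine le_trans ?_ (hmm i j hij)
        apply one_div_le_one_div_of_le (by positivity)
        have h1 : mm i j ≤ Finset.univ.sup fun i => Finset.univ.sup fun j => mm i j :=
          (Finset.le_sup (f := fun j => mm i j) (Finset.mem_univ j)).trans
            (Finset.le_sup (f := fun i => Finset.univ.sup fun j => mm i j) (Finset.mem_univ i))
        have h2 : (mm i j : ℝ) ≤ ((Finset.univ.sup fun i => Finset.univ.sup fun j => mm i j : ℕ) : ℝ) := by
          exact_mod_cast h1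
        linarith
      · exact (hts (e.symm i).2).1
    · intro H hfin
      obtain ⟨m, z, ⟨hzK, hzd⟩, hzF⟩ := H (hfin.toFinset.card + 1)
      have hinj : Function.Injective z := by
        intro i j hij
        by_contra hne
        have h1 := hzd i j hne
        rw [hij, dist_self] at h1
        have : (0 : ℝ) < 1 / ((m : ℝ) + 1) := by positivity
        linarith
      have h2 : Finset.univ.image z ⊆ hfin.toFinset := by
        intro x hx
        rw [Finset.mem_image] at hx
        obtain ⟨i, -, rfl⟩ := hx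
        rw [Set.Finite.mem_toFinset]
        exact ⟨hzF i, hzK i⟩
      have h3 := Finset.card_le_card h2
      rw [Finset.card_image_of_injective _ hinj, Finset.card_univ, Fintype.card_fin] at h3
      omega
  rw [heq]
  refine MeasurableSet.iInter fun k => MeasurableSet.iUnion fun m => ?_
  refine measurable_exists hF hm ?_ (fun (i : Fin k) (z : Fin k → Circ) => z i) (fun i => continuous_apply i)
  have : {z : Fin k → Circ | (∀ i, z i ∈ K) ∧ ∀ i j, i ≠ j → 1 / ((m : ℝ) + 1) ≤ dist (z i) (z j)} =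
      (⋂ i, {z : Fin k → Circ | z i ∈ K}) ∩
        ⋂ i, ⋂ j, ⋂ (_ : i ≠ j), {z : Fin k → Circ | 1 / ((m : ℝ) + 1) ≤ dist (z i) (z j)} := by
    ext z; simp
  rw [this]
  refine (isClosed_iInter fun i => hK.preimage (continuous_apply i)).inter ?_
  refine isClosed_iInter fun i => isClosed_iInter fun j => isClosed_iInter fun _ => ?_
  exact isClosed_le continuous_const ((continuous_apply i).dist (continuous_apply j))

omit [MeasurableSpace Ω] in
lemma mem_Der_of_accPt {F : Ω → Set Circ} {ω : Ω} {S : Set Circ} (hS : S ⊆ F ω) {z : Circ}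
    (h : AccPt z (𝓟 S)) : z ∈ Der F ω := by
  intro ε hε
  rw [accPt_iff_nhds] at h
  obtain ⟨y, ⟨hy1, hy2⟩, hne⟩ := h (Metric.ball z ε) (Metric.ball_mem_nhds z hε)
  exact ⟨y, hS hy2, hne, by simpa using hy1⟩

lemma hit_Der {F : Ω → Set Circ} (hF : ∀ ω, IsClosed (F ω)) (hm : Hit F) : Hit (Der F) := by
  refine hit_of_closed fun C hC => ?_
  have heq : {ω | (Der F ω ∩ C).Nonempty} =
      ⋂ n : ℕ, {ω | (F ω ∩ Metric.cthickening (1 / ((n : ℝ) + 1)) C).Infinite} := by
    ext ω
    simp only [mem_ofPred_eq, mem_iInter]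
    constructor
    · rintro ⟨z, hz, hzC⟩ n hfin
      have hfin' : ((F ω ∩ Metric.cthickening (1 / ((n : ℝ) + 1)) C) \ {z}).Finite := hfin.subset sdiff_subset
      have ho := hfin'.isClosed.isOpen_compl
      have hzmem : z ∈ ((F ω ∩ Metric.cthickening (1 / ((n : ℝ) + 1)) C) \ {z})ᶜ := by
        intro h; exact h.2 rfl
      obtain ⟨ε, hε, hball⟩ := Metric.isOpen_iff.1 ho z hzmem
      have hpos : (0 : ℝ) < 1 / ((n : ℝ) + 1) := by positivity
      obtain ⟨x, hx, hxz, hd⟩ := hz (min ε (1 / ((n : ℝ) + 1))) (lt_min hε hpos)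
      have h1 : x ∈ Metric.ball z ε := by
        rw [Metric.mem_ball]; exact lt_of_lt_of_le hd (min_le_left _ _)
      refine hball h1 ⟨⟨hx, ?_⟩, hxz⟩
      refine Metric.mem_cthickening_of_dist_le x z _ C hzC ?_
      exact (lt_of_lt_of_le hd (min_le_right _ _)).le
    · intro H
      have hex : ∀ n : ℕ, ∃ z ∈ Metric.cthickening (1 / ((n : ℝ) + 1)) C, z ∈ Der F ω := by
        intro n
        obtain ⟨z, hz, hacc⟩ := (H n).exists_accPt_of_subset_isCompact
          (K := Metric.cthickening (1 / ((n : ℝ) + 1)) C) Metric.isClosed_cthickening.isCompact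
          inter_subset_right
        exact ⟨z, hz, mem_Der_of_accPt inter_subset_left hacc⟩
      choose z hz1 hz2 using hex
      obtain ⟨w, hw, φ, hφ, hlim⟩ := (isClosed_Der F ω).isCompact.tendsto_subseq hz2
      refine ⟨w, hw, ?_⟩
      have hCne : C.Nonempty := by
        by_contra hne
        rw [not_nonempty_iff_eq_empty] at hne
        have := hz1 0
        rw [hne, Metric.cthickening_empty] at this
        exact this
      rw [hC.mem_iff_infDist_zero hCne]
      have h1 : Tendsto (fun n => Metric.infDist (z (φ n)) C) atTop (𝓝 (Metric.infDist w C)) :=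
        ((Metric.continuous_infDist_pt C).tendsto w).comp hlim
      have h2 : Tendsto (fun n => 1 / (((φ n : ℕ) : ℝ) + 1)) atTop (𝓝 0) :=
        tendsto_one_div_add_atTop_nhds_zero_nat.comp hφ.tendsto_atTop
      have h3 : ∀ n, Metric.infDist (z (φ n)) C ≤ 1 / (((φ n : ℕ) : ℝ) + 1) := by
        intro n
        have := hz1 (φ n)
        rw [Metric.mem_cthickening_iff] at this
        have h4 : (0 : ℝ) ≤ 1 / (((φ n : ℕ) : ℝ) + 1) := by positivity
        unfold Metric.infDist
        exact ENNReal.toReal_le_of_le_ofReal h4 this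
      refine le_antisymm (le_of_tendsto_of_tendsto' h1 h2 h3) Metric.infDist_nonneg
  rw [heq]
  exact MeasurableSet.iInter fun n => measurable_infinite hF hm Metric.isClosed_cthickening

end Pool.Agent.W765.Sta
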