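import Mathlib
import Pool.Agent.W765.Sta3

set_option autoImplicit false

open MeasureTheory Filter Topology Set

namespace Pool.Agent.W765.Sta

open Pool.Agent.H705R2

variable {Ω : Type*} [MeasurableSpace Ω]

omit [MeasurableSpace Ω] in
lemma pow_mem {p : ℕ} {F : Ω → Set Circ} (hp' : ∀ ω, ∀ x ∈ F ω, p • x ∈ F ω) (m : ℕ) :
    ∀ ω, ∀ x ∈ F ω, p ^ m • x ∈ F ω := by
  induction m with
  | zero => intro ω x hx; simpa using hx
  | succ m ih => intro ω x hx; rw [pow_succ, mul_smul]; exact ih _ _ (hp' ω x hx)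

/-- Lemma 1: a stationary random closed set which accumulates at a fixed torsion point of order
prime to `p q` is everything. -/
theorem acc_torsion {p q : ℕ} (hp : 2 ≤ p) (hq : 2 ≤ q) (h : MulIndep p q) {P : Measure Ω}
    [IsProbabilityMeasure P] {σ : Ω → Ω} (hσ : MeasurePreserving σ P P) {F : Ω → Set Circ}
    (hF : ∀ ω, IsClosed (F ω)) (hm : Hit F) (hp' : ∀ ω, ∀ x ∈ F ω, p • x ∈ F ω)
    (hq' : ∀ ω, ∀ x ∈ F ω, q • x ∈ F (σ ω)) {d : ℕ} (hd0 : 0 < d) (hd : Nat.Coprime (p * q) d)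
    {t : Circ} (ht : d • t = 0) : ∀ᵐ ω ∂P, t ∈ Der F ω → F ω = univ := by
  set m := Nat.totient d with hmdef
  have hm0 : 0 < m := Nat.totient_pos.2 hd0
  have hpt : p ^ m • t = t := pow_smul_eq (Nat.Coprime.coprime_mul_right hd) ht
  have hqt : q ^ m • t = t := pow_smul_eq (Nat.Coprime.coprime_mul_left hd) ht
  have h2p : 2 ≤ p ^ m := hp.trans (Nat.le_self_pow hm0.ne' p)
  have h2q : 2 ≤ q ^ m := hq.trans (Nat.le_self_pow hm0.ne' q)
  have hcont : Continuous (fun u : Circ => u + t) := by fun_prop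
  have hA : ∀ ω, IsClosed ((fun u : Circ => u + t) ⁻¹' F ω) := fun ω => (hF ω).preimage hcont
  have hmA : Hit (fun ω => (fun u : Circ => u + t) ⁻¹' F ω) := by
    intro V hV
    have : {ω | ((fun u : Circ => u + t) ⁻¹' F ω ∩ V).Nonempty} =
        {ω | (F ω ∩ (fun u : Circ => u - t) ⁻¹' V).Nonempty} := by
      ext ω
      constructor
      · rintro ⟨u, hu, huV⟩
        exact ⟨u + t, hu, by simpa using huV⟩
      · rintro ⟨u, hu, huV⟩
        exact ⟨u - t, by simpa using hu, huV⟩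
    rw [this]
    exact hm _ (hV.preimage (by fun_prop))
  have hc := core h2p h2q (mulIndep_pow h hm0) (hσ.iterate m) hA hmA ?_ ?_
  · filter_upwards [hc] with ω hω htF
    have hacc : Acc0 ((fun u : Circ => u + t) ⁻¹' F ω) := by
      intro ε hε
      obtain ⟨x, hx, hxt, hd⟩ := htF ε hε
      refine ⟨x - t, by simpa using hx, sub_ne_zero.2 hxt, ?_⟩
      rwa [← dist_eq_norm]
    have h1 := hω hacc
    refine eq_univ_of_forall fun y => ?_
    have : y - t ∈ (fun u : Circ => u + t) ⁻¹' F ω := by rw [h1]; trivial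
    simpa using this
  · intro ω x hx
    have := pow_mem hp' m ω _ hx
    simp only [mem_preimage] at this ⊢
    rwa [smul_add, hpt] at this
  · intro ω x hx
    have := iterate_mem hq' m ω _ hx
    simp only [mem_preimage] at this ⊢
    rwa [smul_add, hqt] at this

/-- Furstenberg's theorem for stationary random closed sets. -/
theorem stationary {p q : ℕ} (hp : 2 ≤ p) (hq : 2 ≤ q) (h : MulIndep p q) {P : Measure Ω}
    [IsProbabilityMeasure P] {σ : Ω → Ω} (hσ : MeasurePreserving σ P P) {F : Ω → Set Circ}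
    (hF : ∀ ω, IsClosed (F ω)) (hm : Hit F) (hp' : ∀ ω, ∀ x ∈ F ω, p • x ∈ F ω)
    (hq' : ∀ ω, ∀ x ∈ F ω, q • x ∈ F (σ ω)) : ∀ᵐ ω ∂P, (F ω).Finite ∨ F ω = univ := by
  have hD1 : ∀ ω, ∀ x ∈ Der F ω, p • x ∈ Der F ω := fun ω x hx =>
    smul_mem_Der (by omega) (hp' ω) hx
  have hD2 : ∀ ω, ∀ x ∈ Der F ω, q • x ∈ Der F (σ ω) := fun ω x hx =>
    smul_mem_Der (by omega) (hq' ω) hx
  have e1 := exists_torsion hp hq h hσ (isClosed_Der F) (hit_Der hF hm) hD1 hD2
  -- the full set
  set T : Set Ω := {ω | F ω = univ} with hT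
  have hTm : MeasurableSet T := by
    obtain ⟨b, hbc, hbe, hb⟩ := TopologicalSpace.exists_countable_basis Circ
    have : T = ⋂ V ∈ b, {ω | (F ω ∩ V).Nonempty} := by
      ext ω
      simp only [hT, mem_ofPred_eq, mem_iInter]
      constructor
      · intro h1 V hV
        rw [h1, univ_inter]
        exact nonempty_iff_ne_empty.2 (fun h0 => hbe (h0 ▸ hV))
      · intro h1
        have hd : Dense (F ω) := by
          rw [hb.dense_iff]
          intro V hV _
          rw [inter_comm]; exact h1 V hV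
        rw [← (hF ω).closure_eq]; exact hd.closure_eq
    rw [this]
    exact MeasurableSet.biInter hbc fun V hV => hm V (hb.isOpen hV)
  have hTsub : T ⊆ σ ⁻¹' T := by
    intro ω hω
    have hω' : F ω = univ := hω
    change F (σ ω) = univ
    refine eq_univ_of_forall fun y => ?_
    obtain ⟨z, hz⟩ : ∃ z : Circ, q • z = y := by
      obtain ⟨r, rfl⟩ := QuotientAddGroup.mk_surjective y
      refine ⟨((r / q : ℝ) : Circ), ?_⟩
      rw [← AddCircle.coe_nsmul, nsmul_eq_mul]
      have : (q : ℝ) ≠ 0 := by positivity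
      congr 1
      field_simp
    rw [← hz]
    exact hq' ω z (by rw [hω']; trivial)
  have hTback : ∀ᵐ ω ∂P, σ ω ∈ T → ω ∈ T := by
    have h1 : P (σ ⁻¹' T \ T) = 0 := by
      rw [measure_sdiff hTsub hTm.nullMeasurableSet (measure_ne_top P T),
        hσ.measure_preimage hTm.nullMeasurableSet, tsub_self]
    rw [ae_iff]
    refine measure_mono_null ?_ h1
    intro ω hω
    simp only [mem_ofPred_eq, Classical.not_imp] at hω
    exact hω
  have hTback' : ∀ᵐ ω ∂P, ∀ a : ℕ, σ^[a] ω ∈ T → ω ∈ T := by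
    rw [ae_all_iff]
    intro a
    induction a with
    | zero => exact Eventually.of_forall fun ω hω => hω
    | succ a ih =>
      have h2 := (hσ.iterate a).quasiMeasurePreserving.ae hTback
      filter_upwards [ih, h2] with ω h3 h4 h5
      rw [Function.iterate_succ_apply'] at h5
      exact h3 (h4 h5)
  -- torsion points
  have e2 : ∀ᵐ ω ∂P, ∀ a : ℕ, ∀ t ∈ {w : Circ | IsOfFinAddOrder w}, ∀ d : ℕ, 0 < d →
      Nat.Coprime (p * q) d → d • t = 0 → t ∈ Der F (σ^[a] ω) → F (σ^[a] ω) = univ := by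
    rw [ae_all_iff]; intro a
    rw [ae_ball_iff torsion_countable]; intro t _
    rw [ae_all_iff]; intro d
    by_cases h1 : 0 < d
    · by_cases h2 : Nat.Coprime (p * q) d
      · by_cases h3 : d • t = 0
        · have h4 := acc_torsion hp hq h hσ hF hm hp' hq' h1 h2 h3
          have h5 := (hσ.iterate a).quasiMeasurePreserving.ae h4
          filter_upwards [h5] with ω hω _ _ _ using hω
        · exact Eventually.of_forall fun ω _ _ h4 => absurd h4 h3
      · exact Eventually.of_forall fun ω _ h3 => absurd h3 h2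
    · exact Eventually.of_forall fun ω h3 => absurd h3 h1
  filter_upwards [e1, e2, hTback'] with ω h1 h2 h3
  by_cases hfin : (F ω).Finite
  · left; exact hfin
  right
  -- a torsion point in the derived set
  obtain ⟨t, htD, ht⟩ : ∃ t ∈ Der F ω, IsOfFinAddOrder t := by
    by_cases hDinf : (Der F ω).Infinite
    · exact h1 hDinf
    · rw [Set.not_infinite] at hDinf
      obtain ⟨z, -, hz⟩ := Set.Infinite.exists_accPt_of_subset_isCompact (s := F ω)
        (K := univ) hfin isCompact_univ (subset_univ _)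
      have hzD : z ∈ Der F ω := mem_Der_of_accPt Subset.rfl hz
      refine ⟨z, hzD, ?_⟩
      by_contra hcon
      exact (infinite_of_inv hp (hD1 ω) hzD hcon) hDinf
  obtain ⟨a, d, hd1, hd2, hd3⟩ := Pool.Agent.H847R3.XpXq.exists_coprime (m := p * q)
    (by nlinarith) ht
  have h4 : ((p * q) ^ a) • t ∈ Der F (σ^[a] ω) := by
    have h5 : q ^ a • t ∈ Der F (σ^[a] ω) := iterate_mem hD2 a ω t htD
    have h6 : p ^ a • (q ^ a • t) ∈ Der F (σ^[a] ω) := pow_mem hD1 a _ _ h5
    rwa [mul_pow, mul_smul]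
  have h7 : IsOfFinAddOrder (((p * q) ^ a) • t) :=
    isOfFinAddOrder_iff_nsmul_eq_zero.2 ⟨d, by omega, hd2⟩
  exact h3 a (h2 a _ h7 d (by omega) hd3 hd2 h4)

/-- The version with hypotheses that hold almost everywhere. -/
theorem stationary_ae {p q : ℕ} (hp : 2 ≤ p) (hq : 2 ≤ q) (h : MulIndep p q) {P : Measure Ω}
    [IsProbabilityMeasure P] {σ : Ω → Ω} (hσ : MeasurePreserving σ P P) {F : Ω → Set Circ}
    (hF : ∀ ω, IsClosed (F ω)) (hm : Hit F) (hp' : ∀ᵐ ω ∂P, ∀ x ∈ F ω, p • x ∈ F ω)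
    (hq' : ∀ᵐ ω ∂P, ∀ x ∈ F ω, q • x ∈ F (σ ω)) : ∀ᵐ ω ∂P, (F ω).Finite ∨ F ω = univ := by
  classical
  obtain ⟨Z, hZsub, hZm, hZ0⟩ := exists_measurable_superset_of_null (ae_iff.1 (hp'.and hq'))
  set G : Set Ω := ⋂ n : ℕ, (σ^[n]) ⁻¹' Zᶜ with hG
  have hGm : MeasurableSet G := MeasurableSet.iInter fun n => (hσ.iterate n).measurable hZm.compl
  have hGae : ∀ᵐ ω ∂P, ω ∈ G := by
    have : ∀ᵐ ω ∂P, ∀ n : ℕ, σ^[n] ω ∈ Zᶜ := by
      rw [ae_all_iff]; intro n
      have h0 : ∀ᵐ ω ∂P, ω ∈ Zᶜ := by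
        rw [ae_iff]; simpa using hZ0
      exact (hσ.iterate n).quasiMeasurePreserving.ae h0
    filter_upwards [this] with ω hω
    rw [hG, mem_iInter]; exact hω
  have hGσ : ∀ ω ∈ G, σ ω ∈ G := by
    intro ω hω
    rw [hG, mem_iInter] at hω ⊢
    intro n
    have := hω (n + 1)
    rwa [mem_preimage, Function.iterate_succ_apply] at this
  have hGood : ∀ ω ∈ G, (∀ x ∈ F ω, p • x ∈ F ω) ∧ ∀ x ∈ F ω, q • x ∈ F (σ ω) := by
    intro ω hω
    rw [hG, mem_iInter] at hω
    have h0 : ω ∉ Z := by simpa using hω 0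
    by_contra hcon
    exact h0 (hZsub hcon)
  have key := stationary hp hq h hσ (F := fun ω => if ω ∈ G then F ω else ∅) ?_ ?_ ?_ ?_
  · filter_upwards [key, hGae] with ω h1 h2
    simpa [h2] using h1
  · intro ω
    by_cases hω : ω ∈ G
    · simp [hω, hF ω]
    · simp [hω]
  · intro V hV
    have : {ω | ((if ω ∈ G then F ω else ∅) ∩ V).Nonempty} = G ∩ {ω | (F ω ∩ V).Nonempty} := by
      ext ω
      by_cases hω : ω ∈ G
      · simp [hω]
      · simp [hω]
    rw [this]
    exact hGm.inter (hm V hV)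
  · intro ω x hx
    by_cases hω : ω ∈ G
    · simp only [hω, if_true] at hx ⊢
      exact (hGood ω hω).1 x hx
    · simp [hω] at hx
  · intro ω x hx
    by_cases hω : ω ∈ G
    · simp only [hω, if_true, hGσ ω hω] at hx ⊢
      exact (hGood ω hω).2 x hx
    · simp [hω] at hx

/-- almost every point has a dense orbit under `x ↦ p x` alone -/
theorem dense_orbit {p q : ℕ} (hp : 2 ≤ p) (hq : 2 ≤ q) (h : MulIndep p q) {μ : Measure Circ}
    [IsProbabilityMeasure μ] (hat : ∀ x : Circ, μ {x} = 0)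
    (hμq : MeasurePreserving (fun x : Circ => q • x) μ μ) :
    ∀ᵐ x ∂μ, Dense (range fun n : ℕ => p ^ n • x) := by
  have hst := stationary hp hq h hμq (F := K p) (isClosed_K p) ?_ (fun x y hy => smul_mem_K p hy)
    (fun x y hy => smul_mem_K_smul p q hy)
  · have htor : ∀ᵐ x ∂μ, ¬ IsOfFinAddOrder x := by
      have : NullSingletonClass μ := ⟨hat⟩
      exact torsion_countable.ae_notMem μ
    filter_upwards [hst, htor] with x h1 h2
    rcases h1 with h1 | h1
    · exact absurd h1 (infinite_of_inv hp (fun y hy => smul_mem_K p hy)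
        (by simpa using pow_smul_mem_K p x 0) h2)
    · rw [dense_iff_closure_eq]; exact h1
  · intro V hV
    have : {x : Circ | (K p x ∩ V).Nonempty} = ⋃ n : ℕ, (fun x : Circ => p ^ n • x) ⁻¹' V := by
      ext x
      simp only [mem_ofPred_eq, mem_iUnion, mem_preimage]
      constructor
      · rintro ⟨y, hy, hyV⟩
        obtain ⟨_, h1, n, rfl⟩ := mem_closure_iff.1 hy V hV hyV
        exact ⟨n, h1⟩
      · rintro ⟨n, hn⟩
        exact ⟨_, pow_smul_mem_K p x n, hn⟩
    rw [this]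
    exact MeasurableSet.iUnion fun n => (hV.preimage (continuous_nsmul _)).measurableSet

end Pool.Agent.W765.Sta
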