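import Mathlib
import Pool.Agent.W765.Sta4
import Pool.Agent.W765.KB

set_option autoImplicit false

open MeasureTheory Filter Topology Set TopologicalSpace

namespace Pool.Agent.W765.Det

open Pool.Agent.H705R2 Pool.Agent.W765.Sta Pool.Agent.W765.KB

/-- the hyperspace -/
abbrev Hyp := NonemptyCompacts Circ

noncomputable instance : MeasurableSpace Hyp := borel Hyp
instance : BorelSpace Hyp := ⟨rfl⟩

/-- image under multiplication by `q` -/
def mulq (q : ℕ) : Hyp → Hyp := NonemptyCompacts.map (fun x : Circ => q • x) (continuous_nsmul q)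

lemma continuous_mulq (q : ℕ) : Continuous (mulq q) :=
  (continuous_nsmul q).nonemptyCompacts_map

lemma coe_mulq (q : ℕ) (E : Hyp) : ((mulq q E : Hyp) : Set Circ) = (fun x : Circ => q • x) '' E := rfl

lemma coe_iterate (q : ℕ) (E : Hyp) (j : ℕ) :
    (((mulq q)^[j] E : Hyp) : Set Circ) = (fun x : Circ => q ^ j • x) '' E := by
  induction j with
  | zero => simp
  | succ j ih =>
    rw [Function.iterate_succ_apply', coe_mulq, ih, image_image]
    refine image_congr fun x _ => ?_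
    simp only [pow_succ', mul_smul]

/-- forward invariance is a closed condition -/
lemma isClosed_inv (p : ℕ) : IsClosed {E : Hyp | ∀ x ∈ (E : Set Circ), p • x ∈ (E : Set Circ)} := by
  rw [← isOpen_compl_iff, isOpen_iff_forall_mem_open]
  intro E hE
  simp only [mem_compl_iff, mem_ofPred_eq, not_forall] at hE
  obtain ⟨x, hx, hpx⟩ := hE
  obtain ⟨A, B, hA, hB, hA', hB', hAB⟩ := SeparatedNhds.of_isCompact_isCompact
    (isCompact_singleton (x := p • x)) E.isCompact (by rw [disjoint_singleton_left]; exact hpx)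
  refine ⟨{E' : Hyp | ((E' : Set Circ) ∩ (fun y : Circ => p • y) ⁻¹' A).Nonempty} ∩
    {E' : Hyp | (E' : Set Circ) ⊆ B}, ?_, ?_, ?_⟩
  · rintro E' ⟨⟨y, hy, hyA⟩, hEB⟩ hinv
    exact (disjoint_left.1 hAB hyA) (hEB (hinv y hy))
  · exact (NonemptyCompacts.isOpen_inter_nonempty_of_isOpen (hA.preimage (continuous_nsmul p))).inter
      (NonemptyCompacts.isOpen_subsets_of_isOpen hB)
  · exact ⟨⟨x, hx, hA' rfl⟩, hB'⟩

lemma norm_smul_eq {p : ℕ} (hp : 1 ≤ p) {u : Circ} (hu : ‖u‖ < 1 / (2 * p)) : ‖p • u‖ = p * ‖u‖ := by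
  obtain ⟨r, hr, hrn⟩ := Pool.Agent.H847R3.XpXq.exists_rep_norm u
  have hp0 : (0 : ℝ) < p := by exact_mod_cast hp
  rw [← hrn] at hu ⊢
  rw [lt_div_iff₀ (by positivity)] at hu
  have h1 : |(p : ℝ) * r| ≤ 1 / 2 := by
    rw [abs_mul, abs_of_pos hp0]; nlinarith
  rw [← hr, ← AddCircle.coe_nsmul, nsmul_eq_mul]
  have h2 := (AddCircle.norm_coe_eq_abs_iff (1 : ℝ) (x := (p : ℝ) * r) one_ne_zero).2 (by simpa using h1)
  rw [h2, abs_mul, abs_of_pos hp0]

/-- expansiveness near a finite invariant set -/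
lemma expansive {p : ℕ} (hp : 2 ≤ p) {E : Set Circ} (hfin : E.Finite) (hinv : ∀ x ∈ E, p • x ∈ E) :
    ∃ c > 0, ∀ A : Set Circ, (∀ x ∈ A, p • x ∈ A) → A ⊆ Metric.thickening c E → A ⊆ E := by
  obtain ⟨η, hη, hsep⟩ : ∃ η > 0, ∀ x ∈ E, ∀ y ∈ E, dist x y < η → x = y := by
    by_contra hcon
    push Not at hcon
    have hfin2 : (E ×ˢ E).Finite := hfin.prod hfin
    set D : Set ℝ := (fun z : Circ × Circ => dist z.1 z.2) '' ((E ×ˢ E) ∩ {z | z.1 ≠ z.2}) with hD
    have hDfin : D.Finite := (hfin2.inter_of_left _).image _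
    obtain ⟨x, hx, y, hy, hxy, hne⟩ := hcon 1 one_pos
    have hDne : D.Nonempty := ⟨_, (x, y), ⟨⟨hx, hy⟩, hne⟩, rfl⟩
    obtain ⟨m, hm, hmin⟩ := Set.exists_min_image D id hDfin hDne
    obtain ⟨z, ⟨⟨hz1, hz2⟩, hz3⟩, rfl⟩ := hm
    obtain ⟨x', hx', y', hy', hxy', hne'⟩ := hcon (dist z.1 z.2) (dist_pos.2 hz3)
    have h1 := hmin (dist x' y') ⟨(x', y'), ⟨⟨hx', hy'⟩, hne'⟩, rfl⟩
    simp only [id] at h1
    linarith
  have hp0 : (0 : ℝ) < p := by positivity
  refine ⟨min (η / (p + 1)) (1 / (2 * p)), by positivity, ?_⟩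
  intro A hAinv hAE y hy
  set c := min (η / ((p : ℝ) + 1)) (1 / (2 * p)) with hc
  have hcη : (p + 1) * c ≤ η := by
    have : c ≤ η / ((p : ℝ) + 1) := min_le_left _ _
    rw [le_div_iff₀ (by positivity)] at this
    linarith
  have hc2 : c ≤ 1 / (2 * p) := min_le_right _ _
  obtain ⟨e, he, hye⟩ := Metric.mem_thickening_iff.1 (hAE hy)
  have hpow : ∀ n : ℕ, p ^ n • y ∈ A := by
    intro n
    induction n with
    | zero => simpa using hy
    | succ n ih => rw [pow_succ', mul_smul]; exact hAinv _ ih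
  have key : ∀ n : ℕ, p ^ n • e ∈ E ∧ dist (p ^ n • y) (p ^ n • e) < c ∧
      dist (p ^ n • y) (p ^ n • e) = p ^ n * dist y e := by
    intro n
    induction n with
    | zero => simpa using ⟨he, hye⟩
    | succ n ih =>
      obtain ⟨h1, h2, h3⟩ := ih
      have h4 : p ^ (n + 1) • e ∈ E := by rw [pow_succ', mul_smul]; exact hinv _ h1
      have h5 : dist (p ^ (n + 1) • y) (p ^ (n + 1) • e) = p * dist (p ^ n • y) (p ^ n • e) := by
        rw [pow_succ', mul_smul, mul_smul, dist_eq_norm, dist_eq_norm, ← nsmul_sub]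
        refine norm_smul_eq (by omega) ?_
        rw [← dist_eq_norm]
        linarith
      obtain ⟨e', he', hye'⟩ := Metric.mem_thickening_iff.1 (hAE (hpow (n + 1)))
      have h6 : p ^ (n + 1) • e = e' := by
        refine hsep _ h4 _ he' ?_
        calc dist (p ^ (n + 1) • e) e' ≤ dist (p ^ (n + 1) • y) (p ^ (n + 1) • e)
              + dist (p ^ (n + 1) • y) e' := dist_triangle_left _ _ _
          _ < p * c + c := by
              rw [h5]
              have := mul_lt_mul_of_pos_left h2 hp0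
              linarith
          _ ≤ η := by linarith
      refine ⟨h4, by rw [h6]; exact hye', ?_⟩
      rw [h5, h3, pow_succ']; ring
  by_contra hcon
  have hd : 0 < dist y e := dist_pos.2 (fun h => hcon (h ▸ he))
  have hp1 : (1 : ℝ) < p := by exact_mod_cast (by omega : 1 < p)
  obtain ⟨n, hn⟩ := pow_unbounded_of_one_lt (c / dist y e) hp1
  rw [div_lt_iff₀ hd] at hn
  obtain ⟨-, h2, h3⟩ := key n
  linarith

lemma hit_coe : Hit (fun E : Hyp => (E : Set Circ)) := by
  intro V hV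
  exact (NonemptyCompacts.isOpen_inter_nonempty_of_isOpen hV).measurableSet

/-- the images of an infinite invariant set do not accumulate at finite sets -/
lemma infinite_of_mem_closure {p q : ℕ} (hp : 2 ≤ p) (hq : 2 ≤ q) {K0 : Hyp}
    (hinf : (K0 : Set Circ).Infinite) (hinv : ∀ x ∈ (K0 : Set Circ), p • x ∈ (K0 : Set Circ)) {E : Hyp}
    (hE : E ∈ closure (range fun j : ℕ => (mulq q)^[j] K0)) :
    (∀ x ∈ (E : Set Circ), p • x ∈ (E : Set Circ)) ∧ (E : Set Circ).Infinite := by
  have hinvj : ∀ j : ℕ, ∀ x ∈ (((mulq q)^[j] K0 : Hyp) : Set Circ),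
      p • x ∈ (((mulq q)^[j] K0 : Hyp) : Set Circ) := by
    intro j
    rw [coe_iterate]
    rintro _ ⟨x, hx, rfl⟩
    exact ⟨p • x, hinv x hx, smul_comm _ _ _⟩
  have hEinv : ∀ x ∈ (E : Set Circ), p • x ∈ (E : Set Circ) := by
    have h1 : closure (range fun j : ℕ => (mulq q)^[j] K0) ⊆
        {E : Hyp | ∀ x ∈ (E : Set Circ), p • x ∈ (E : Set Circ)} := by
      refine closure_minimal ?_ (isClosed_inv p)
      rintro _ ⟨j, rfl⟩
      exact hinvj j
    exact h1 hE
  refine ⟨hEinv, fun hfin => ?_⟩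
  obtain ⟨c, hc, hexp⟩ := expansive hp hfin hEinv
  obtain ⟨_, h1, j, rfl⟩ := mem_closure_iff.1 hE _
    (NonemptyCompacts.isOpen_subsets_of_isOpen (Metric.isOpen_thickening (δ := c) (E := (E : Set Circ))))
    (Metric.self_subset_thickening hc _)
  have h2 : (((mulq q)^[j] K0 : Hyp) : Set Circ) ⊆ E := hexp _ (hinvj j) h1
  rw [coe_iterate] at h2
  refine hinf (Set.Finite.subset (Set.Finite.preimage' (f := fun x : Circ => q ^ j • x) hfin ?_)
    (image_subset_iff.1 h2))
  intro b _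
  by_cases hb : ((fun x : Circ => q ^ j • x) ⁻¹' {b}).Nonempty
  · obtain ⟨a, ha⟩ := hb
    have hker : {u : Circ | q ^ j • u = 0}.Finite := by
      have := AddCircle.finite_torsion (1 : ℝ) (pow_pos (by omega : 0 < q) j)
      exact this
    refine (hker.image (fun u => u + a)).subset ?_
    intro y hy
    refine ⟨y - a, ?_, by simp⟩
    simp only [mem_preimage, mem_singleton_iff] at ha hy
    simp only [mem_ofPred_eq, smul_sub, ha, hy, sub_self]
  · rw [not_nonempty_iff_eq_empty.1 hb]; exact finite_empty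

open Classical in
/-- Banach density version of Furstenberg's theorem. -/
theorem banach {p q : ℕ} (hp : 2 ≤ p) (hq : 2 ≤ q) (h : MulIndep p q) {K : Set Circ}
    (hK : IsClosed K) (hinf : K.Infinite) (hinv : ∀ x ∈ K, p • x ∈ K) {U : Set Circ} (hU : IsOpen U)
    (hUne : U.Nonempty) {δ : ℝ} (hδ : 0 < δ) :
    ∃ L : ℕ, ∀ s n : ℕ, L ≤ n →
      (((Finset.range n).filter (fun i => ∀ x ∈ K, q ^ (s + i) • x ∉ U)).card : ℝ) ≤ δ * n := by
  by_contra hcon
  push Not at hcon
  choose s n hn hcard using fun L : ℕ => hcon (L + 1)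
  have hn0 : ∀ L, 0 < n L := fun L => by have := hn L; omega
  have hnt : Tendsto n atTop atTop :=
    tendsto_atTop_mono (fun L => by have := hn L; simp only [id]; omega) tendsto_id
  set K0 : Hyp := ⟨⟨K, hK.isCompact⟩, hinf.nonempty⟩ with hK0
  have hK0c : (K0 : Set Circ) = K := rfl
  obtain ⟨P, hP, hPi, hPG⟩ := kb (continuous_mulq q) K0 s n hnt hn0
  set C : Set Hyp := closure (range fun j : ℕ => (mulq q)^[j] K0) with hC
  have hPC : ∀ᵐ E ∂P, E ∈ C := by
    rw [ae_iff]
    refine le_antisymm (hPG _ isClosed_closure.isOpen_compl 0 fun L => ?_) zero_le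
    rw [emp_eq_zero isClosed_closure.isOpen_compl.measurableSet]
    intro i hi
    exact hi (subset_closure ⟨_, rfl⟩)
  have hst := stationary_ae hp hq h hPi (F := fun E : Hyp => (E : Set Circ))
    (fun E => E.isCompact.isClosed) hit_coe
    (hPC.mono fun E hE => (infinite_of_mem_closure hp hq hinf hinv hE).1)
    (Eventually.of_forall fun E x hx => ⟨x, hx, rfl⟩)
  have hall : ∀ᵐ E ∂P, E ∈ {E : Hyp | ((E : Set Circ) ∩ U).Nonempty} := by
    filter_upwards [hst, hPC] with E h1 h2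
    rcases h1 with h1 | h1
    · exact absurd h1 (infinite_of_mem_closure hp hq hinf hinv h2).2
    · change ((E : Set Circ) ∩ U).Nonempty
      rw [h1, univ_inter]; exact hUne
  have hG := NonemptyCompacts.isOpen_inter_nonempty_of_isOpen hU
  have h1 : P {E : Hyp | ((E : Set Circ) ∩ U).Nonempty} = 1 := (mem_ae_iff_prob_eq_one hG.measurableSet).1 hall
  have h2 := hPG _ hG (ENNReal.ofReal (1 - δ)) fun L => ?_
  · rw [h1] at h2
    have : ENNReal.ofReal (1 - δ) < 1 := by
      rw [ENNReal.ofReal_lt_one]; linarith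
    exact absurd h2 (not_le.2 this)
  · rw [emp_apply hG.measurableSet]
    have h3 := Finset.card_filter_add_card_filter_not (s := Finset.range (n L))
      (fun i => ∀ x ∈ K, q ^ (s L + i) • x ∉ U)
    rw [Finset.card_range] at h3
    have h4 : (Finset.range (n L)).filter (fun i => (mulq q)^[s L + i] K0 ∈
        {E : Hyp | ((E : Set Circ) ∩ U).Nonempty}) =
        (Finset.range (n L)).filter (fun i => ¬ ∀ x ∈ K, q ^ (s L + i) • x ∉ U) := by
      refine Finset.filter_congr fun i _ => ?_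
      change ((((mulq q)^[s L + i] K0 : Hyp) : Set Circ) ∩ U).Nonempty ↔ _
      rw [coe_iterate, hK0c]
      push Not
      constructor
      · rintro ⟨_, ⟨x, hx, rfl⟩, hxU⟩; exact ⟨x, hx, hxU⟩
      · rintro ⟨x, hx, hxU⟩; exact ⟨_, ⟨x, hx, rfl⟩, hxU⟩
    rw [h4]
    have h5 := hcard L
    set a := ((Finset.range (n L)).filter (fun i => ∀ x ∈ K, q ^ (s L + i) • x ∉ U)).card with ha
    set b := ((Finset.range (n L)).filter (fun i => ¬ ∀ x ∈ K, q ^ (s L + i) • x ∉ U)).card with hb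
    have hnR : (0 : ℝ) < n L := by exact_mod_cast hn0 L
    have h6 : (b : ℝ) / n L ≤ 1 - δ := by
      have h7 : (a : ℝ) + b = n L := by exact_mod_cast h3
      rw [div_le_iff₀ hnR]; nlinarith
    calc ((n L : ENNReal))⁻¹ * b = ENNReal.ofReal ((b : ℝ) / n L) := by
          rw [ENNReal.ofReal_div_of_pos hnR, ENNReal.ofReal_natCast, ENNReal.ofReal_natCast,
            ENNReal.div_eq_inv_mul]
      _ ≤ ENNReal.ofReal (1 - δ) := ENNReal.ofReal_le_ofReal h6

end Pool.Agent.W765.Det
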