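import Mathlib
import Pool.Agent.W765.Det

set_option autoImplicit false

open MeasureTheory Filter Topology Set TopologicalSpace

namespace Pool.Agent.W765.Det

open Pool.Agent.H705R2 Pool.Agent.W765.Sta Pool.Agent.W765.KB

lemma K_infinite {p : ℕ} (hp : 2 ≤ p) {x : Circ} (hx : ¬ IsOfFinAddOrder x) : (K p x).Infinite :=
  infinite_of_inv hp (fun _ hy => smul_mem_K p hy) (by simpa using pow_smul_mem_K p x 0) hx

open Classical in
/-- version for orbits -/
theorem banach_orbit {p q : ℕ} (hp : 2 ≤ p) (hq : 2 ≤ q) (h : MulIndep p q) {x : Circ}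
    (hx : ¬ IsOfFinAddOrder x) {U : Set Circ} (hU : IsOpen U) (hUne : U.Nonempty) {δ : ℝ}
    (hδ : 0 < δ) :
    ∃ L : ℕ, ∀ s n : ℕ, L ≤ n →
      (((Finset.range n).filter (fun i => ∀ m : ℕ, p ^ m • q ^ (s + i) • x ∉ U)).card : ℝ) ≤ δ * n := by
  obtain ⟨L, hL⟩ := banach hp hq h (isClosed_K p x) (K_infinite hp hx)
    (fun _ hy => smul_mem_K p hy) hU hUne hδ
  refine ⟨L, fun s n hn => le_trans ?_ (hL s n hn)⟩
  have hsub : (Finset.range n).filter (fun i => ∀ m : ℕ, p ^ m • q ^ (s + i) • x ∉ U) ⊆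
      (Finset.range n).filter (fun i => ∀ y ∈ K p x, q ^ (s + i) • y ∉ U) := by
    intro i hi
    rw [Finset.mem_filter] at hi ⊢
    refine ⟨hi.1, fun y hy hyU => ?_⟩
    obtain ⟨_, h1, m, rfl⟩ := mem_closure_iff.1 hy _ (hU.preimage (continuous_nsmul (q ^ (s + i)))) hyU
    refine hi.2 m ?_
    rw [smul_comm]; exact h1
  exact_mod_cast Finset.card_le_card hsub

/-- generic points of infinite minimal sets of `x ↦ q x` have dense orbit under `x ↦ p x` -/
theorem residual_dense {p q : ℕ} (hp : 2 ≤ p) (hq : 2 ≤ q) (h : MulIndep p q) {X : Set Circ}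
    (hX : IsClosed X) (hinf : X.Infinite) (hinv : ∀ x ∈ X, q • x ∈ X)
    (hmin : ∀ x ∈ X, X ⊆ closure (range fun n : ℕ => q ^ n • x)) :
    {x : X | Dense (range fun n : ℕ => p ^ n • (x : Circ))} ∈ residual X := by
  classical
  have hinvn : ∀ n : ℕ, ∀ x ∈ X, q ^ n • x ∈ X := by
    intro n
    induction n with
    | zero => intro x hx; simpa using hx
    | succ n ih => intro x hx; rw [pow_succ', mul_smul]; exact hinv _ (ih x hx)
  obtain ⟨b, hbc, hbe, hb⟩ := exists_countable_basis Circ
  have hne : X.Nonempty := hinf.nonempty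
  have key : ∀ U ∈ b, {x : X | ∃ n : ℕ, p ^ n • (x : Circ) ∈ U} ∈ residual X := by
    intro U hUb
    have hU : IsOpen U := hb.isOpen hUb
    have hUne : U.Nonempty := nonempty_iff_ne_empty.2 (fun h0 => hbe (h0 ▸ hUb))
    refine residual_of_dense_open ?_ ?_
    · have : {x : X | ∃ n : ℕ, p ^ n • (x : Circ) ∈ U} =
          ⋃ n : ℕ, (fun x : X => p ^ n • (x : Circ)) ⁻¹' U := by ext x; simp
      rw [this]
      exact isOpen_iUnion fun n => hU.preimage (by fun_prop)
    · rw [dense_iff_inter_open]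
      intro V' hV' hV'ne
      obtain ⟨V, hV, rfl⟩ := isOpen_induced_iff.1 hV'
      by_contra hcon
      rw [not_nonempty_iff_eq_empty] at hcon
      have hbad : ∀ x ∈ X, x ∈ V → ∀ n : ℕ, p ^ n • x ∉ U := by
        intro x hx hxV n hn
        have : (⟨x, hx⟩ : X) ∈ ((Subtype.val ⁻¹' V) ∩ {x : X | ∃ n : ℕ, p ^ n • (x : Circ) ∈ U}) :=
          ⟨hxV, n, hn⟩
        rw [hcon] at this
        exact this
      obtain ⟨⟨v, hvX⟩, hvV⟩ := hV'ne
      -- bounded return times
      obtain ⟨N, hN⟩ : ∃ N : ℕ, ∀ x ∈ X, ∃ n ≤ N, q ^ n • x ∈ V := by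
        have hcov : X ⊆ ⋃ n : ℕ, (fun x : Circ => q ^ n • x) ⁻¹' V := by
          intro x hx
          obtain ⟨_, h1, n, rfl⟩ := mem_closure_iff.1 (hmin x hx hvX) V hV hvV
          exact mem_iUnion.2 ⟨n, h1⟩
        obtain ⟨t, ht⟩ := hX.isCompact.elim_finite_subcover _
          (fun n => hV.preimage (continuous_nsmul _)) hcov
        refine ⟨t.sup id, fun x hx => ?_⟩
        obtain ⟨n, hn, hxn⟩ := mem_iUnion₂.1 (ht hx)
        exact ⟨n, Finset.le_sup (f := id) hn, hxn⟩
      obtain ⟨x0, hx0⟩ := hne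
      have hx0o : ¬ IsOfFinAddOrder x0 := by
        intro hfin
        have h1 : (range fun n : ℕ => q ^ n • x0).Finite := by
          have h2 : (range fun n : ℕ => n • x0).Finite := by
            have h4 : (↑(AddSubmonoid.multiples x0) : Set Circ).Finite :=
              finite_multiples.2 hfin
            refine h4.subset ?_
            rintro _ ⟨n, rfl⟩
            exact ⟨n, rfl⟩
          refine h2.subset ?_
          rintro _ ⟨n, rfl⟩
          exact ⟨q ^ n, rfl⟩
        have h3 := hmin x0 hx0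
        rw [h1.isClosed.closure_eq] at h3
        exact hinf (h1.subset h3)
      have hδ : (0 : ℝ) < 1 / (2 * (N + 1)) := by positivity
      obtain ⟨L, hL⟩ := banach_orbit hp hq h hx0o hU hUne hδ
      have hL1 := hL 0 ((N + 1) * (L + 1)) (by nlinarith)
      choose! f hfN hfV using hN
      have hcard : L + 1 ≤ ((Finset.range ((N + 1) * (L + 1))).filter
          (fun i => ∀ m : ℕ, p ^ m • q ^ (0 + i) • x0 ∉ U)).card := by
        have := Finset.card_le_card_of_injOn (s := Finset.range (L + 1))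
          (t := (Finset.range ((N + 1) * (L + 1))).filter
            (fun i => ∀ m : ℕ, p ^ m • q ^ (0 + i) • x0 ∉ U))
          (fun i => (N + 1) * i + f (q ^ ((N + 1) * i) • x0)) ?_ ?_
        · simpa using this
        · intro i hi
          have hi' : i < L + 1 := by simpa using hi
          have h1 := hfN _ (hinvn ((N + 1) * i) x0 hx0)
          have h2 := hfV _ (hinvn ((N + 1) * i) x0 hx0)
          simp only [Finset.coe_filter, Finset.mem_range, mem_ofPred_eq]
          refine ⟨by nlinarith, fun m => ?_⟩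
          rw [zero_add, add_comm, pow_add, mul_smul]
          exact hbad _ (hinvn _ _ (hinvn _ _ hx0)) h2 m
        · intro i hi j hj hij
          simp only at hij
          have h1 := hfN _ (hinvn ((N + 1) * i) x0 hx0)
          have h2 := hfN _ (hinvn ((N + 1) * j) x0 hx0)
          rcases lt_trichotomy i j with hlt | heq | hgt
          · nlinarith
          · exact heq
          · nlinarith
      have hcardR : ((L + 1 : ℕ) : ℝ) ≤ 1 / (2 * (N + 1)) * (((N + 1) * (L + 1) : ℕ) : ℝ) := by
        refine le_trans ?_ hL1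
        exact_mod_cast hcard
      push_cast at hcardR
      have hN0 : (0 : ℝ) < N + 1 := by positivity
      have : 1 / (2 * ((N : ℝ) + 1)) * (((N : ℝ) + 1) * (L + 1)) = (L + 1) / 2 := by
        field_simp
      rw [this] at hcardR
      have : (0 : ℝ) < L + 1 := by positivity
      linarith
  have hint : (⋂ U ∈ b, {x : X | ∃ n : ℕ, p ^ n • (x : Circ) ∈ U}) ∈ residual X :=
    (countable_bInter_mem hbc).2 key
  refine Filter.mem_of_superset hint ?_
  intro x hx
  simp only [mem_iInter, mem_ofPred_eq] at hx ⊢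
  rw [hb.dense_iff]
  intro U hU _
  obtain ⟨n, hn⟩ := hx U hU
  exact ⟨_, hn, n, rfl⟩

end Pool.Agent.W765.Det
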