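import Mathlib
import Pool.Agent.W765.Det2

set_option autoImplicit false

open MeasureTheory Filter Topology Set TopologicalSpace

namespace Pool.Agent.W765.Det

open Pool.Agent.H705R2 Pool.Agent.W765.Sta Pool.Agent.W765.KB

lemma fract_eq_of_coe_eq {r r' : ℝ} (h : (r : Circ) = (r' : Circ)) : Int.fract r = Int.fract r' := by
  have h1 : ((r - r' : ℝ) : Circ) = 0 := by rw [AddCircle.coe_sub, h, sub_self]
  rw [AddCircle.coe_eq_zero_iff] at h1
  obtain ⟨n, hn⟩ := h1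
  simp only [zsmul_eq_mul, mul_one] at hn
  have h2 : r = r' + n := by linarith
  rw [h2, Int.fract_add_intCast]

lemma fract_mem_iff {U : Set ℝ} (hU : U ⊆ Ioo 0 1) {r : ℝ} :
    (r : Circ) ∈ (fun t : ℝ => (t : Circ)) '' U ↔ Int.fract r ∈ U := by
  constructor
  · rintro ⟨t, ht, htr⟩
    rw [← fract_eq_of_coe_eq htr, Int.fract_eq_self.2 ⟨(hU ht).1.le, (hU ht).2⟩]
    exact ht
  · intro h
    refine ⟨Int.fract r, h, ?_⟩
    have : ((Int.fract r : ℝ) : Circ) = (r : Circ) := by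
      rw [← Int.self_sub_floor, AddCircle.coe_sub]
      have h2 : (((⌊r⌋ : ℤ) : ℝ) : Circ) = 0 := by
        rw [AddCircle.coe_eq_zero_iff]; exact ⟨⌊r⌋, by simp⟩
      rw [h2, sub_zero]
    exact this

lemma isOpen_image_coe {U : Set ℝ} (hU : IsOpen U) : IsOpen ((fun t : ℝ => (t : Circ)) '' U) :=
  QuotientAddGroup.isOpenMap_coe U hU

lemma coe_pow_mul (b n : ℕ) (r : ℝ) : (((b : ℝ) ^ n * r : ℝ) : Circ) = b ^ n • (r : Circ) := by
  rw [← AddCircle.coe_nsmul, nsmul_eq_mul]; push_cast; rfl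

lemma not_torsion_of_irrational {x : ℝ} (hx : Irrational x) : ¬ IsOfFinAddOrder (x : Circ) := by
  rw [isOfFinAddOrder_iff_nsmul_eq_zero]
  rintro ⟨n, hn, h⟩
  rw [← AddCircle.coe_nsmul, AddCircle.coe_eq_zero_iff] at h
  obtain ⟨m, hm⟩ := h
  simp only [zsmul_eq_mul, mul_one, nsmul_eq_mul] at hm
  have hn' : (n : ℝ) ≠ 0 := by exact_mod_cast hn.ne'
  apply hx
  refine ⟨(m : ℚ) / n, ?_⟩
  push_cast
  rw [div_eq_iff hn', hm]; ring

open Classical in
/-- version with fractional parts -/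
theorem banach_fract {a b : ℕ} (ha : 2 ≤ a) (hb : 2 ≤ b) (h : MulIndep b a) {x : ℝ}
    (hx : Irrational x) {U : Set ℝ} (hU : IsOpen U) (hUne : (U ∩ Icc 0 1).Nonempty) {δ : ℝ}
    (hδ : 0 < δ) :
    ∃ L : ℕ, ∀ s n : ℕ, L ≤ n →
      (((Finset.range n).filter
        (fun i => ∀ m : ℕ, Int.fract ((b : ℝ) ^ m * ((a : ℝ) ^ (s + i) * x)) ∉ U)).card : ℝ) ≤ δ * n := by
  have hne : (U ∩ Ioo 0 1).Nonempty := by
    obtain ⟨y, hyU, hy⟩ := hUne
    have hy' : y ∈ closure (Ioo (0 : ℝ) 1) := by rwa [closure_Ioo zero_ne_one]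
    obtain ⟨z, hz1, hz2⟩ := mem_closure_iff.1 hy' U hU hyU
    exact ⟨z, hz1, hz2⟩
  obtain ⟨L, hL⟩ := banach_orbit hb ha h (not_torsion_of_irrational hx)
    (isOpen_image_coe (hU.inter isOpen_Ioo)) (hne.image _) hδ
  refine ⟨L, fun s n hn => le_trans ?_ (hL s n hn)⟩
  have hsub : (Finset.range n).filter
        (fun i => ∀ m : ℕ, Int.fract ((b : ℝ) ^ m * ((a : ℝ) ^ (s + i) * x)) ∉ U) ⊆
      (Finset.range n).filter (fun i => ∀ m : ℕ,
        b ^ m • a ^ (s + i) • (x : Circ) ∉ (fun t : ℝ => (t : Circ)) '' (U ∩ Ioo 0 1)) := by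
    intro i hi
    rw [Finset.mem_filter] at hi ⊢
    refine ⟨hi.1, fun m hm => hi.2 m ?_⟩
    rw [← coe_pow_mul, ← coe_pow_mul, fract_mem_iff inter_subset_right] at hm
    exact hm.1
  exact_mod_cast Finset.card_le_card hsub

lemma closure_fract {b : ℕ} {r : ℝ} (h : Dense (range fun n : ℕ => b ^ n • (r : Circ))) :
    closure (range fun n : ℕ => Int.fract ((b : ℝ) ^ n * r)) = Icc 0 1 := by
  refine subset_antisymm ?_ ?_
  · refine closure_minimal ?_ isClosed_Icc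
    rintro _ ⟨n, rfl⟩
    exact ⟨Int.fract_nonneg _, (Int.fract_lt_one _).le⟩
  · rw [← closure_Ioo (zero_ne_one' ℝ)]
    refine closure_minimal ?_ isClosed_closure
    intro y hy
    refine mem_closure_iff.2 fun V hV hyV => ?_
    obtain ⟨_, ⟨n, rfl⟩, h1⟩ := h.exists_mem_open (isOpen_image_coe (hV.inter isOpen_Ioo))
      ⟨_, y, ⟨hyV, hy⟩, rfl⟩
    have h2 : b ^ n • (r : Circ) ∈ (fun t : ℝ => (t : Circ)) '' (V ∩ Ioo 0 1) := h1
    rw [← coe_pow_mul, fract_mem_iff inter_subset_right] at h2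
    exact ⟨_, h2.1, n, rfl⟩

end Pool.Agent.W765.Det
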