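import Mathlib
import Pool.Agent.W765.Det3
import Pool.Agent.W765.KB2

set_option autoImplicit false

open MeasureTheory Filter Topology Set TopologicalSpace

namespace Pool.Agent.W765.Det

open Pool.Agent.H705R2 Pool.Agent.W765.Sta Pool.Agent.W765.KB

open Classical in
/-- Uniform Banach density version of Furstenberg's theorem. -/
theorem uniform {p q : ℕ} (hp : 2 ≤ p) (hq : 2 ≤ q) (h : MulIndep p q) {U : Set Circ}
    (hU : IsOpen U) (hUne : U.Nonempty) {δ : ℝ} (hδ : 0 < δ) :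
    ∃ M : ℕ, ∀ K : Hyp, (∀ x ∈ (K : Set Circ), p • x ∈ (K : Set Circ)) →
      (∀ j : ℕ, (M : ℕ∞) ≤ ((fun x : Circ => q ^ j • x) '' (K : Set Circ)).encard) →
      ∀ s n : ℕ, M ≤ n →
      (((Finset.range n).filter (fun i => ∀ x ∈ (K : Set Circ), q ^ (s + i) • x ∉ U)).card : ℝ)
        ≤ δ * n := by
  by_contra hcon
  push Not at hcon
  choose K hKinv hKcard s n hn hcard using fun L : ℕ => hcon (L + 1)
  have hn0 : ∀ L, 0 < n L := fun L => by have := hn L; omega
  have hnt : Tendsto n atTop atTop :=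
    tendsto_atTop_mono (fun L => by have := hn L; simp only [id]; omega) tendsto_id
  obtain ⟨P, hP, hPi, hPG⟩ := kb2 (continuous_mulq q) K s n hnt hn0
  have hinvj : ∀ L j : ℕ, ∀ x ∈ (((mulq q)^[j] (K L) : Hyp) : Set Circ),
      p • x ∈ (((mulq q)^[j] (K L) : Hyp) : Set Circ) := by
    intro L j
    rw [coe_iterate]
    rintro _ ⟨x, hx, rfl⟩
    exact ⟨p • x, hKinv L x hx, smul_comm _ _ _⟩
  have hPinv : ∀ᵐ E : Hyp ∂P, ∀ x ∈ (E : Set Circ), p • x ∈ (E : Set Circ) := by
    rw [ae_iff]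
    refine le_antisymm (hPG _ (isClosed_inv p).isOpen_compl 0 (Eventually.of_forall fun L => ?_))
      zero_le
    rw [emp_eq_zero (isClosed_inv p).isOpen_compl.measurableSet]
    intro i hi
    exact hi (hinvj L _)
  have hPinf : P {E : Hyp | (∀ x ∈ (E : Set Circ), p • x ∈ (E : Set Circ)) ∧
      (E : Set Circ).Finite} = 0 := by
    refine measure_null_of_locally_null _ ?_
    rintro E ⟨hEinv, hEfin⟩
    obtain ⟨c, hc, hexp⟩ := expansive hp hEfin hEinv
    have hopen := NonemptyCompacts.isOpen_subsets_of_isOpen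
      (Metric.isOpen_thickening (δ := c) (E := (E : Set Circ)))
    refine ⟨_, mem_nhdsWithin_of_mem_nhds (hopen.mem_nhds (Metric.self_subset_thickening hc _)), ?_⟩
    refine le_antisymm (hPG _ hopen 0 ?_) zero_le
    filter_upwards [eventually_ge_atTop (E : Set Circ).ncard] with L hL
    rw [emp_eq_zero hopen.measurableSet]
    intro i hi
    have h2 := hexp _ (hinvj L _) hi
    rw [coe_iterate] at h2
    have h3 := (hKcard L (s L + i)).trans (encard_le_encard h2)
    rw [← hEfin.cast_ncard_eq] at h3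
    have h4 : L + 1 ≤ (E : Set Circ).ncard := by exact_mod_cast h3
    omega
  have hst := stationary_ae hp hq h hPi (F := fun E : Hyp => (E : Set Circ))
    (fun E => E.isCompact.isClosed) hit_coe hPinv (Eventually.of_forall fun E x hx => ⟨x, hx, rfl⟩)
  have hPinf' : ∀ᵐ E : Hyp ∂P, ¬ ((∀ x ∈ (E : Set Circ), p • x ∈ (E : Set Circ)) ∧
      (E : Set Circ).Finite) := by
    rw [ae_iff]; simpa using hPinf
  have hall : ∀ᵐ E ∂P, E ∈ {E : Hyp | ((E : Set Circ) ∩ U).Nonempty} := by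
    filter_upwards [hst, hPinv, hPinf'] with E h1 h2 h3
    rcases h1 with h1 | h1
    · exact absurd ⟨h2, h1⟩ h3
    · change ((E : Set Circ) ∩ U).Nonempty
      rw [h1, univ_inter]; exact hUne
  have hG := NonemptyCompacts.isOpen_inter_nonempty_of_isOpen hU
  have h1 : P {E : Hyp | ((E : Set Circ) ∩ U).Nonempty} = 1 :=
    (mem_ae_iff_prob_eq_one hG.measurableSet).1 hall
  have h2 := hPG _ hG (ENNReal.ofReal (1 - δ)) (Eventually.of_forall fun L => ?_)
  · rw [h1] at h2
    have : ENNReal.ofReal (1 - δ) < 1 := by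
      rw [ENNReal.ofReal_lt_one]; linarith
    exact absurd h2 (not_le.2 this)
  · rw [emp_apply hG.measurableSet]
    have h3 := Finset.card_filter_add_card_filter_not (s := Finset.range (n L))
      (fun i => ∀ x ∈ (K L : Set Circ), q ^ (s L + i) • x ∉ U)
    rw [Finset.card_range] at h3
    have h4 : (Finset.range (n L)).filter (fun i => (mulq q)^[s L + i] (K L) ∈
        {E : Hyp | ((E : Set Circ) ∩ U).Nonempty}) =
        (Finset.range (n L)).filter (fun i => ¬ ∀ x ∈ (K L : Set Circ), q ^ (s L + i) • x ∉ U) := by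
      refine Finset.filter_congr fun i _ => ?_
      change ((((mulq q)^[s L + i] (K L) : Hyp) : Set Circ) ∩ U).Nonempty ↔ _
      rw [coe_iterate]
      push Not
      constructor
      · rintro ⟨_, ⟨x, hx, rfl⟩, hxU⟩; exact ⟨x, hx, hxU⟩
      · rintro ⟨x, hx, hxU⟩; exact ⟨_, ⟨x, hx, rfl⟩, hxU⟩
    rw [h4]
    have h5 := hcard L
    set a := ((Finset.range (n L)).filter (fun i => ∀ x ∈ (K L : Set Circ), q ^ (s L + i) • x ∉ U)).card with ha
    set b := ((Finset.range (n L)).filter (fun i => ¬ ∀ x ∈ (K L : Set Circ), q ^ (s L + i) • x ∉ U)).card with hb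
    have hnR : (0 : ℝ) < n L := by exact_mod_cast hn0 L
    have h6 : (b : ℝ) / n L ≤ 1 - δ := by
      have h7 : (a : ℝ) + b = n L := by exact_mod_cast h3
      rw [div_le_iff₀ hnR]; nlinarith
    calc ((n L : ENNReal))⁻¹ * b = ENNReal.ofReal ((b : ℝ) / n L) := by
          rw [ENNReal.ofReal_div_of_pos hnR, ENNReal.ofReal_natCast, ENNReal.ofReal_natCast,
            ENNReal.div_eq_inv_mul]
      _ ≤ ENNReal.ofReal (1 - δ) := ENNReal.ofReal_le_ofReal h6

open Classical in
/-- version for orbits -/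
theorem uniform_orbit {p q : ℕ} (hp : 2 ≤ p) (hq : 2 ≤ q) (h : MulIndep p q) {U : Set Circ}
    (hU : IsOpen U) (hUne : U.Nonempty) {δ : ℝ} (hδ : 0 < δ) :
    ∃ M : ℕ, ∀ x : Circ, (∀ j : ℕ, (M : ℕ∞) ≤ (range fun m : ℕ => p ^ m • q ^ j • x).encard) →
      ∀ s n : ℕ, M ≤ n →
      (((Finset.range n).filter (fun i => ∀ m : ℕ, p ^ m • q ^ (s + i) • x ∉ U)).card : ℝ) ≤ δ * n := by
  obtain ⟨M, hM⟩ := uniform hp hq h hU hUne hδ
  refine ⟨M, fun x hx s n hn => le_trans ?_ (hM ⟨⟨K p x, (isClosed_K p x).isCompact⟩, K_nonempty p x⟩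
    (fun _ hy => smul_mem_K p hy) (fun j => (hx j).trans (encard_le_encard ?_)) s n hn)⟩
  · have hsub : (Finset.range n).filter (fun i => ∀ m : ℕ, p ^ m • q ^ (s + i) • x ∉ U) ⊆
        (Finset.range n).filter (fun i => ∀ y ∈ K p x, q ^ (s + i) • y ∉ U) := by
      intro i hi
      rw [Finset.mem_filter] at hi ⊢
      refine ⟨hi.1, fun y hy hyU => ?_⟩
      obtain ⟨_, h1, m, rfl⟩ := mem_closure_iff.1 hy _ (hU.preimage (continuous_nsmul (q ^ (s + i)))) hyU
      refine hi.2 m ?_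
      rw [smul_comm]; exact h1
    exact_mod_cast Finset.card_le_card hsub
  · rintro _ ⟨m, rfl⟩
    exact ⟨p ^ m • x, pow_smul_mem_K p x m, smul_comm _ _ _⟩

end Pool.Agent.W765.Det
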