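import Mathlib
import Pool.Agent.W765.Uni

set_option autoImplicit false

open MeasureTheory Filter Topology Set TopologicalSpace

namespace Pool.Agent.W765.Det

open Pool.Agent.H705R2 Pool.Agent.W765.Sta Pool.Agent.W765.KB

lemma encard_fract {b : ℕ} {r : ℝ} :
    (range fun m : ℕ => Int.fract ((b : ℝ) ^ m * r)).encard ≤
      (range fun m : ℕ => b ^ m • (r : Circ)).encard := by
  have h1 : (range fun m : ℕ => b ^ m • (r : Circ)) =
      (fun t : ℝ => (t : Circ)) '' (range fun m : ℕ => Int.fract ((b : ℝ) ^ m * r)) := by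
    rw [← range_comp]
    congr 1
    funext m
    simp only [Function.comp]
    rw [← coe_pow_mul]
    rw [← Int.self_sub_floor, AddCircle.coe_sub]
    have h2 : (((⌊(b : ℝ) ^ m * r⌋ : ℤ) : ℝ) : Circ) = 0 := by
      rw [AddCircle.coe_eq_zero_iff]; exact ⟨⌊(b : ℝ) ^ m * r⌋, by simp⟩
    rw [h2, sub_zero]
  rw [h1, InjOn.encard_image]
  rintro _ ⟨m, rfl⟩ _ ⟨m', rfl⟩ he
  have := fract_eq_of_coe_eq he
  rwa [Int.fract_fract, Int.fract_fract] at this

lemma orbit_infinite {b : ℕ} (hb : 2 ≤ b) {x : Circ} (hx : ¬ IsOfFinAddOrder x) :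
    (range fun m : ℕ => b ^ m • x).Infinite :=
  infinite_range_of_injective (Pool.Agent.H847R3.XpXq.orbit_inj hb hx)

lemma not_torsion_smul {x : Circ} (hx : ¬ IsOfFinAddOrder x) {n : ℕ} (hn : 0 < n) :
    ¬ IsOfFinAddOrder (n • x) := by
  intro h
  rw [isOfFinAddOrder_iff_nsmul_eq_zero] at h hx
  obtain ⟨k, hk, hk0⟩ := h
  exact hx ⟨k * n, Nat.mul_pos hk hn, by rw [mul_smul]; exact hk0⟩

lemma orbit_rational {a b M N k : ℕ} (hb : 2 ≤ b) (hN : b ^ M ≤ N) (hNab : N.Coprime (a * b))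
    (hk : k.Coprime N) (j : ℕ) :
    (M : ℕ∞) ≤ (range fun m : ℕ => b ^ m • a ^ j • (((k : ℝ) / N : ℝ) : Circ)).encard := by
  have hN0 : 0 < N := lt_of_lt_of_le (by positivity) hN
  have hNR : (N : ℝ) ≠ 0 := by exact_mod_cast hN0.ne'
  have hNa : N.Coprime a := Nat.Coprime.coprime_mul_right_right hNab
  have hNb : N.Coprime b := Nat.Coprime.coprime_mul_left_right hNab
  have hinj : InjOn (fun m : ℕ => b ^ m • a ^ j • (((k : ℝ) / N : ℝ) : Circ))
      ((Finset.range M : Finset ℕ) : Set ℕ) := by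
    have key : ∀ m m' : ℕ, m < m' → m' < M →
        b ^ m • a ^ j • (((k : ℝ) / N : ℝ) : Circ) ≠ b ^ m' • a ^ j • (((k : ℝ) / N : ℝ) : Circ) := by
      intro m m' hmm hm' he
      obtain ⟨t, rfl⟩ := Nat.exists_eq_add_of_lt hmm
      have h1 : ((b ^ m * (b ^ (t + 1) - 1) * a ^ j * k : ℕ) : ℝ) / N =
          (b : ℝ) ^ (m + t + 1) * ((a : ℝ) ^ j * (k / N)) - (b : ℝ) ^ m * ((a : ℝ) ^ j * (k / N)) := by
        rw [Nat.cast_mul, Nat.cast_mul, Nat.cast_mul, Nat.cast_sub (Nat.one_le_pow _ _ (by omega))]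
        push_cast
        field_simp
        ring
      have h2 : ((((b ^ m * (b ^ (t + 1) - 1) * a ^ j * k : ℕ) : ℝ) / N : ℝ) : Circ) = 0 := by
        rw [h1, AddCircle.coe_sub]
        simp only [coe_pow_mul]
        rw [he, sub_self]
      rw [AddCircle.coe_eq_zero_iff] at h2
      obtain ⟨z, hz⟩ := h2
      simp only [zsmul_eq_mul, mul_one] at hz
      rw [eq_div_iff hNR] at hz
      have h3 : (N : ℤ) ∣ ((b ^ m * (b ^ (t + 1) - 1) * a ^ j * k : ℕ) : ℤ) := by
        refine ⟨z, ?_⟩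
        have : (((b ^ m * (b ^ (t + 1) - 1) * a ^ j * k : ℕ) : ℤ) : ℝ) = ((N * z : ℤ) : ℝ) := by
          push_cast at hz ⊢
          rw [← hz]; ring
        exact_mod_cast this
      have h4 : N ∣ b ^ m * (b ^ (t + 1) - 1) * a ^ j * k := by exact_mod_cast h3
      have h5 : N ∣ b ^ m * (b ^ (t + 1) - 1) * a ^ j := hk.symm.dvd_of_dvd_mul_right h4
      have h6 : N ∣ b ^ m * (b ^ (t + 1) - 1) := (hNa.pow_right j).dvd_of_dvd_mul_right h5
      have h7 : N ∣ b ^ (t + 1) - 1 := (hNb.pow_right m).dvd_of_dvd_mul_left h6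
      have h8 : b ^ 1 ≤ b ^ (t + 1) := Nat.pow_le_pow_right (by omega) (by omega)
      have h9 := Nat.le_of_dvd (by rw [pow_one] at h8; omega) h7
      have h10 : b ^ (t + 1) ≤ b ^ M := Nat.pow_le_pow_right (by omega) (by omega)
      omega
    intro m hm m' hm' he
    simp only [Finset.coe_range, mem_Iio] at hm hm'
    rcases lt_trichotomy m m' with h | h | h
    · exact absurd he (key m m' h hm')
    · exact h
    · exact absurd he.symm (key m' m h hm)
  calc (M : ℕ∞) = ((Finset.range M : Finset ℕ) : Set ℕ).encard := by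
        rw [encard_coe_eq_coe_finsetCard, Finset.card_range]
    _ = ((fun m : ℕ => b ^ m • a ^ j • (((k : ℝ) / N : ℝ) : Circ)) ''
          ((Finset.range M : Finset ℕ) : Set ℕ)).encard := hinj.encard_image.symm
    _ ≤ _ := encard_le_encard (image_subset_range _ _)

open Classical in
/-- version with fractional parts -/
theorem uniform_fract {a b : ℕ} (ha : 2 ≤ a) (hb : 2 ≤ b) (h : MulIndep b a) {U : Set ℝ}
    (hU : IsOpen U) (hUne : (U ∩ Icc 0 1).Nonempty) {δ : ℝ} (hδ : 0 < δ) :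
    ∃ M : ℕ, ∀ x : ℝ,
      (Irrational x ∨ (∃ k N : ℕ, M ≤ N ∧ N.Coprime (a * b) ∧ k.Coprime N ∧ x = k / N) ∨
        ∀ j : ℕ, (M : ℕ∞) ≤
          (range fun m : ℕ => Int.fract ((b : ℝ) ^ m * ((a : ℝ) ^ j * x))).encard) →
      ∀ s n : ℕ, M ≤ n →
      (((Finset.range n).filter
        (fun i => ∀ m : ℕ, Int.fract ((b : ℝ) ^ m * ((a : ℝ) ^ (s + i) * x)) ∉ U)).card : ℝ) ≤ δ * n := by
  have hne : (U ∩ Ioo 0 1).Nonempty := by
    obtain ⟨y, hyU, hy⟩ := hUne
    have hy' : y ∈ closure (Ioo (0 : ℝ) 1) := by rwa [closure_Ioo zero_ne_one]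
    obtain ⟨z, hz1, hz2⟩ := mem_closure_iff.1 hy' U hU hyU
    exact ⟨z, hz1, hz2⟩
  obtain ⟨M, hM⟩ := uniform_orbit hb ha h (isOpen_image_coe (hU.inter isOpen_Ioo)) (hne.image _) hδ
  refine ⟨b ^ M, fun x hx s n hn => ?_⟩
  have hMb : M ≤ b ^ M := (Nat.lt_pow_self (by omega)).le
  have hcond : ∀ j : ℕ, (M : ℕ∞) ≤ (range fun m : ℕ => b ^ m • a ^ j • (x : Circ)).encard := by
    intro j
    rcases hx with hx | ⟨k, N, hMN, hN, hk, rfl⟩ | hx
    · have := (orbit_infinite hb (not_torsion_smul (not_torsion_of_irrational hx)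
        (by positivity : 0 < a ^ j))).encard_eq
      rw [this]; exact le_top
    · exact orbit_rational hb hMN hN hk j
    · have h1 : ((b ^ M : ℕ) : ℕ∞) ≤ _ := (hx j).trans encard_fract
      rw [coe_pow_mul] at h1
      exact le_trans (by exact_mod_cast hMb) h1
  refine le_trans ?_ (hM (x : Circ) hcond s n (hMb.trans hn))
  have hsub : (Finset.range n).filter
        (fun i => ∀ m : ℕ, Int.fract ((b : ℝ) ^ m * ((a : ℝ) ^ (s + i) * x)) ∉ U) ⊆
      (Finset.range n).filter (fun i => ∀ m : ℕ,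
        b ^ m • a ^ (s + i) • (x : Circ) ∉ (fun t : ℝ => (t : Circ)) '' (U ∩ Ioo 0 1)) := by
    intro i hi
    rw [Finset.mem_filter] at hi ⊢
    refine ⟨hi.1, fun m hm => hi.2 m ?_⟩
    rw [← coe_pow_mul, ← coe_pow_mul, fract_mem_iff inter_subset_right] at hm
    exact hm.1
  exact_mod_cast Finset.card_le_card hsub

end Pool.Agent.W765.Det
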